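import Pool.Agent.EAC.PA.ADefs

/-!
# EAC-A-ELL: the Lipschitz constant `ell M v` 

`ell_spec`: the set of the constants is closed, nonempty and bounded below. `ell_cont`: `|ell (v τ) - ell (v t)| ≤ e` from `tcont`.
-/

set_option autoImplicit false

noncomputable section

namespace Pool.Agent.EAC.PA

open MeasureTheory Set Filter Topology Metric
open scoped ENNReal ComplexConjugate

theorem ell_spec {M : Set ℂ} {v : ℂ → ℂ} (h : ∃ L, ∀ x ∈ M, ∀ y ∈ M, ‖v x - v y‖ ≤ L * ‖x - y‖) :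
    0 ≤ ell M v ∧ ∀ x ∈ M, ∀ y ∈ M, ‖v x - v y‖ ≤ ell M v * ‖x - y‖ := by
  obtain ⟨L, hL⟩ := h
  have hne : {L : ℝ | 0 ≤ L ∧ ∀ x ∈ M, ∀ y ∈ M, ‖v x - v y‖ ≤ L * ‖x - y‖}.Nonempty :=
    ⟨max L 0, le_max_right _ _, fun x hx y hy =>
      (hL x hx y hy).trans (mul_le_mul_of_nonneg_right (le_max_left _ _) (norm_nonneg _))⟩
  refine ⟨Real.sInf_nonneg fun L hL => hL.1, fun x hx y hy => ?_⟩
  rcases eq_or_lt_of_le (norm_nonneg (x - y)) with h0 | h0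
  · have := hL x hx y hy
    rw [← h0, mul_zero] at this
    rw [← h0, mul_zero]
    exact this
  · rw [← div_le_iff₀ h0]
    refine le_csInf hne fun L' hL' => ?_
    rw [div_le_iff₀ h0]
    exact hL'.2 x hx y hy

theorem ell_le {M : Set ℂ} {v : ℂ → ℂ} {L : ℝ} (hL : 0 ≤ L)
    (h : ∀ x ∈ M, ∀ y ∈ M, ‖v x - v y‖ ≤ L * ‖x - y‖) : ell M v ≤ L :=
  csInf_le ⟨0, fun _ h => h.1⟩ ⟨hL, h⟩

private lemma ell_cmp {M : Set ℂ} {u w : ℂ → ℂ} {e : ℝ} (he : 0 ≤ e)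
    (hw : ∃ L, ∀ x ∈ M, ∀ y ∈ M, ‖w x - w y‖ ≤ L * ‖x - y‖)
    (h : ∀ x ∈ M, ∀ y ∈ M, ‖(u x - w x) - (u y - w y)‖ ≤ e * ‖x - y‖) :
    ell M u ≤ ell M w + e := by
  obtain ⟨h0, h1⟩ := ell_spec hw
  refine ell_le (add_nonneg h0 he) fun x hx y hy => ?_
  have h2 : u x - u y = (w x - w y) + ((u x - w x) - (u y - w y)) := by ring
  rw [h2, add_mul]
  exact (norm_add_le _ _).trans (add_le_add (h1 x hx y hy) (h x hx y hy))

theorem ell_cont {M : Set ℂ} {v : ℝ → ℂ → ℂ} {L : ℝ} (hR : Reg M v L) :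
    ContinuousOn (fun t => ell M (v t)) (Icc 0 1) := by
  intro t ht
  rw [ContinuousWithinAt, Metric.tendsto_nhds]
  intro e he
  filter_upwards [hR.tcont t ht (e / 2) (half_pos he), self_mem_nhdsWithin] with τ h hτ
  have h1 : ell M (v τ) ≤ ell M (v t) + e / 2 :=
    ell_cmp (half_pos he).le ⟨L, hR.lip t ht⟩ h
  have h2 : ell M (v t) ≤ ell M (v τ) + e / 2 := by
    refine ell_cmp (half_pos he).le ⟨L, hR.lip τ hτ⟩ fun x hx y hy => ?_
    have h3 : (v t x - v τ x) - (v t y - v τ y) = -((v τ x - v t x) - (v τ y - v t y)) := by ring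
    rw [h3, norm_neg]
    exact h x hx y hy
  rw [Real.dist_eq, abs_lt]
  constructor <;> linarith

end Pool.Agent.EAC.PA
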