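import Pool.Agent.EAC.PA.AMol0

/-!
# EAC-A-TEST: Lipschitz test functions in `DivFree`

`q_δ z = ∫ eta δ (z - w) q w dw` (`= ∫ eta δ u q (z - u) du`) is smooth, `K`-Lipschitz, and at every point where `q` is
differentiable `fderiv q_δ z → fderiv q z` as `δ ↓ 0`: `fderiv q_δ z h = ∫ (fderiv (eta δ) u h) q (z - u) du`,
`q (z - u) = q z - Dq(z) u + o(|u|)`, `∫ fderiv (eta δ) u h du = 0`, `∫ (fderiv (eta δ) u h) (Dq(z) u) du = - Dq(z) h`,
`∫ |u| |fderiv (eta δ) u| du ≤ C` independent of `δ` (or avoid this: `q_δ` for the scaled bump `δ⁻² η(u/δ)`; alternatively: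
`fderiv q_δ z h = ∫ eta δ u (fderiv q (z - u) h) du` a.e. and use `ContDiffBump.ae_convolution_tendsto_right_of_locallyIntegrable`
for the bounded function `z ↦ fderiv q z h`, `h = 1, I`, which gives the convergence for a.e. `z`: simplest).
`q` is differentiable a.e. (`LipschitzWith.ae_differentiableAt`). Test function in `DivFree`: `χ q_δ`, `χ` a smooth compactly
supported function, `1` on a neighbourhood of `M`. Dominated convergence (`‖v‖` bounded on `M`, `‖fderiv q_δ‖ ≤ K`).
-/

set_option autoImplicit false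

noncomputable section

namespace Pool.Agent.EAC.PA

open MeasureTheory Set Filter Topology Metric
open scoped ENNReal ComplexConjugate

private def bmp (n : ℕ) : ContDiffBump (0 : ℂ) :=
  ⟨1 / (n + 1) / 2, 1 / (n + 1), by positivity, half_lt_self (by positivity)⟩

private def et (n : ℕ) : ℂ → ℝ := (bmp n).normed volume

private def qn (q : ℂ → ℝ) (n : ℕ) (z : ℂ) : ℝ := ∫ w, q w * et n (z - w)

private theorem et_smooth (n : ℕ) : ContDiff ℝ (⊤ : ℕ∞) (et n) := (bmp n).contDiff_normed

private theorem et_cs (n : ℕ) : HasCompactSupport (et n) := (bmp n).hasCompactSupport_normed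

private theorem et_nonneg (n : ℕ) (z : ℂ) : 0 ≤ et n z := (bmp n).nonneg_normed z

private theorem et_int (n : ℕ) : ∫ z, et n z = 1 := (bmp n).integral_normed

private theorem et_integrable (n : ℕ) : Integrable (et n) :=
  (et_smooth n).continuous.integrable_of_hasCompactSupport (et_cs n)

private theorem et_integrable' (n : ℕ) (z : ℂ) : Integrable (fun w => et n (z - w)) :=
  (et_integrable n).comp_sub_left z

private theorem qn_eq (q : ℂ → ℝ) (n : ℕ) (z : ℂ) :
    qn q n z = (convolution (et n) q (ContinuousLinearMap.lsmul ℝ ℝ) volume) z := by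
  rw [qn, convolution_lsmul_swap]
  refine integral_congr_ae (Eventually.of_forall fun w => ?_)
  simp only [smul_eq_mul]
  ring

private theorem qn_smooth {q : ℂ → ℝ} (hq : Continuous q) (n : ℕ) :
    ContDiff ℝ (⊤ : ℕ∞) (qn q n) := by
  have h : qn q n = convolution (et n) q (ContinuousLinearMap.lsmul ℝ ℝ) volume := by
    funext z; exact qn_eq q n z
  rw [h]
  exact (et_cs n).contDiff_convolution_left _ (et_smooth n) hq.locallyIntegrable

private theorem q_et_integrable {q : ℂ → ℝ} (hq : Continuous q) (n : ℕ) (z : ℂ) :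
    Integrable (fun w => q w * et n (z - w)) := by
  have h1 : Continuous (fun w => q w * et n (z - w)) :=
    hq.mul ((et_smooth n).continuous.comp (continuous_const.sub continuous_id))
  refine h1.integrable_of_hasCompactSupport ?_
  have h2 : HasCompactSupport (fun w => et n (z - w)) := by
    have := (et_cs n).comp_homeomorph (Homeomorph.subLeft z)
    exact this
  exact h2.mul_left

private theorem fderiv_qn {q : ℂ → ℝ} {K : NNReal} (hq : LipschitzWith K q) (n : ℕ) (z h : ℂ) :
    fderiv ℝ (qn q n) z h = ∫ w, lineDeriv ℝ q w h * et n (z - w) := by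
  have hd : DifferentiableAt ℝ (qn q n) z :=
    ((qn_smooth hq.continuous n).differentiable (by simp)) z
  have h1 : Tendsto (fun t : ℝ => t⁻¹ • (qn q n (z + t • h) - qn q n z)) (𝓝[>] 0)
      (𝓝 (fderiv ℝ (qn q n) z h)) := (hd.hasFDerivAt.hasLineDerivAt h).tendsto_slope_zero_right
  have h2 := hq.integral_inv_smul_sub_mul_tendsto_integral_lineDeriv_mul (et_integrable' n z) h
  have h3 : ∀ t : ℝ, ∫ x, (t⁻¹ • (q (x + t • h) - q x)) * et n (z - x) =
      t⁻¹ • (qn q n (z + t • h) - qn q n z) := by
    intro t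
    have e1 : ∫ x, q (x + t • h) * et n (z - x) = qn q n (z + t • h) := by
      rw [qn, ← integral_add_right_eq_self (fun w => q w * et n (z + t • h - w)) (t • h)]
      refine integral_congr_ae (Eventually.of_forall fun x => ?_)
      simp only
      rw [add_sub_add_right_eq_sub]
    have i1 : Integrable (fun x => q (x + t • h) * et n (z - x)) := by
      have := (q_et_integrable hq.continuous n (z + t • h)).comp_add_right (t • h)
      refine this.congr (Eventually.of_forall fun x => ?_)
      simp only
      rw [add_sub_add_right_eq_sub]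
    have i2 := q_et_integrable hq.continuous n z
    calc ∫ x, (t⁻¹ • (q (x + t • h) - q x)) * et n (z - x)
        = ∫ x, t⁻¹ * (q (x + t • h) * et n (z - x) - q x * et n (z - x)) := by
          refine integral_congr_ae (Eventually.of_forall fun x => ?_)
          simp only [smul_eq_mul]
          ring
      _ = t⁻¹ * ((∫ x, q (x + t • h) * et n (z - x)) - ∫ x, q x * et n (z - x)) := by
          rw [integral_const_mul, integral_sub i1 i2]
      _ = t⁻¹ • (qn q n (z + t • h) - qn q n z) := by rw [e1, smul_eq_mul]; rfl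
  simp only [h3] at h2
  exact tendsto_nhds_unique h1 h2

private theorem fderiv_qn_le {q : ℂ → ℝ} {K : NNReal} (hq : LipschitzWith K q) (n : ℕ) (z h : ℂ) :
    ‖fderiv ℝ (qn q n) z h‖ ≤ K * ‖h‖ := by
  rw [fderiv_qn hq]
  have e1 : ∫ w, et n (z - w) = 1 := by
    rw [integral_sub_left_eq_self (et n) volume z, et_int]
  calc ‖∫ w, lineDeriv ℝ q w h * et n (z - w)‖
      ≤ ∫ w, (K * ‖h‖) * et n (z - w) := by
        refine norm_integral_le_of_norm_le ((et_integrable' n z).const_mul _)
          (Eventually.of_forall fun w => ?_)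
        rw [norm_mul, Real.norm_of_nonneg (et_nonneg n _)]
        exact mul_le_mul_of_nonneg_right (norm_lineDeriv_le_of_lipschitz ℝ hq) (et_nonneg n _)
    _ = K * ‖h‖ := by rw [integral_const_mul, e1, mul_one]

private theorem fderiv_qn_tendsto {q : ℂ → ℝ} {K : NNReal} (hq : LipschitzWith K q) :
    ∀ᵐ z : ℂ, ∀ h : ℂ, Tendsto (fun n => fderiv ℝ (qn q n) z h) atTop (𝓝 (fderiv ℝ q z h)) := by
  have hr : Tendsto (fun n => (bmp n).rOut) atTop (𝓝 0) := tendsto_one_div_add_atTop_nhds_zero_nat
  have hr2 : ∀ᶠ n in (atTop : Filter ℕ), (bmp n).rOut ≤ 2 * (bmp n).rIn :=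
    Eventually.of_forall fun n => by
      change (1 / ((n : ℝ) + 1)) ≤ 2 * (1 / ((n : ℝ) + 1) / 2)
      linarith
  have key : ∀ h : ℂ, ∀ᵐ z : ℂ, Tendsto (fun n => fderiv ℝ (qn q n) z h) atTop
      (𝓝 (lineDeriv ℝ q z h)) := by
    intro h
    have := ContDiffBump.ae_convolution_tendsto_right_of_locallyIntegrable (μ := volume) hr hr2
      (hq.locallyIntegrable_lineDeriv (μ := volume) h)
    filter_upwards [this] with z hz
    refine hz.congr fun n => ?_
    rw [fderiv_qn hq, convolution_lsmul_swap]
    refine integral_congr_ae (Eventually.of_forall fun w => ?_)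
    simp only [smul_eq_mul, et]
    ring
  filter_upwards [key 1, key Complex.I, hq.ae_differentiableAt] with z h1 hI hd h
  rw [hd.lineDeriv_eq_fderiv] at h1 hI
  have hh : h = (h.re : ℝ) • (1 : ℂ) + (h.im : ℝ) • Complex.I := by
    rw [Complex.real_smul, Complex.real_smul, mul_one, Complex.re_add_im]
  rw [hh]
  simp only [map_add, map_smul]
  exact (h1.const_smul h.re).add (hI.const_smul h.im)

theorem divfree_lip {M : Set ℂ} (hM : IsCompact M) {v : ℂ → ℂ} (hv : ContinuousOn v M)
    (hd : DivFree M v) {q : ℂ → ℝ} {K : NNReal} (hq : LipschitzWith K q) :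
    ∫ z in interior M, fderiv ℝ q z (v z) = 0 := by
  obtain ⟨R, hR0, hR⟩ : ∃ R : ℝ, 0 < R ∧ M ⊆ ball 0 R := by
    obtain ⟨R, hR⟩ := hM.isBounded.subset_ball (0 : ℂ)
    exact ⟨max R 1, lt_max_of_lt_right one_pos, hR.trans (ball_subset_ball (le_max_left _ _))⟩
  let χ : ContDiffBump (0 : ℂ) := ⟨R, R + 1, hR0, by linarith⟩
  obtain ⟨C, hC⟩ : ∃ C : ℝ, ∀ z ∈ M, ‖v z‖ ≤ C := hM.exists_bound_of_continuousOn hv
  have hzero : ∀ n, ∫ z in interior M, fderiv ℝ (qn q n) z (v z) = 0 := by
    intro n
    have h1 := hd (fun z => χ z * qn q n z) (χ.contDiff.mul (qn_smooth hq.continuous n))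
      (χ.hasCompactSupport.mul_right)
    rw [← h1]
    refine setIntegral_congr_fun isOpen_interior.measurableSet fun z hz => ?_
    have hzR : z ∈ ball (0 : ℂ) R := hR (interior_subset hz)
    have he : (fun z => χ z * qn q n z) =ᶠ[𝓝 z] qn q n := by
      filter_upwards [isOpen_ball.mem_nhds hzR] with w hw
      rw [χ.one_of_mem_closedBall (ball_subset_closedBall hw), one_mul]
    rw [he.fderiv_eq]
  have hfin : volume (interior M) < ⊤ :=
    (measure_mono interior_subset).trans_lt hM.measure_lt_top
  have hlim : Tendsto (fun n => ∫ z in interior M, fderiv ℝ (qn q n) z (v z)) atTop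
      (𝓝 (∫ z in interior M, fderiv ℝ q z (v z))) := by
    refine tendsto_integral_of_dominated_convergence (fun _ => (K : ℝ) * C) ?_ ?_ ?_ ?_
    · intro n
      have hc : ContinuousOn (fun z => fderiv ℝ (qn q n) z (v z)) (interior M) :=
        (((qn_smooth hq.continuous n).continuous_fderiv (by simp)).continuousOn).clm_apply
          (hv.mono interior_subset)
      exact hc.aestronglyMeasurable isOpen_interior.measurableSet
    · exact (integrableOn_const hfin.ne)
    · intro n
      refine (ae_restrict_iff' isOpen_interior.measurableSet).2 (Eventually.of_forall fun z hz => ?_)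
      exact (fderiv_qn_le hq n z (v z)).trans
        (mul_le_mul_of_nonneg_left (hC z (interior_subset hz)) K.coe_nonneg)
    · exact ae_restrict_of_ae ((fderiv_qn_tendsto hq).mono fun z hz => hz (v z))
  simp only [hzero] at hlim
  exact (tendsto_nhds_unique hlim tendsto_const_nhds)

/-- for `q` Lipschitz on `M` and differentiable inside (McShane extension `LipschitzOnWith.extend_real`). -/
theorem divfree_lipOn {M : Set ℂ} (hM : IsCompact M) {v : ℂ → ℂ} (hv : ContinuousOn v M)
    (hd : DivFree M v) {q : ℂ → ℝ} {K : NNReal} (hq : LipschitzOnWith K q M) :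
    ∫ z in interior M, fderiv ℝ q z (v z) = 0 := by
  obtain ⟨g, hg, heq⟩ := hq.extend_real
  rw [← divfree_lip hM hv hd hg]
  refine setIntegral_congr_fun isOpen_interior.measurableSet fun z hz => ?_
  have he : q =ᶠ[𝓝 z] g := by
    filter_upwards [isOpen_interior.mem_nhds hz] with w hw
    exact heq (interior_subset hw)
  rw [he.fderiv_eq]

end Pool.Agent.EAC.PA
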