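import Pool.Agent.EAC.PA.ADint
import Pool.Agent.EAC.PA.ATest

/-!
# EAC-A-EN: conservation of energy

`f t z = ‖v t z‖²`, derivative `2 ⟨v, -Dv(v) - grad p⟩ = -2 fderiv q z (v z)`, `q = ‖v‖²/2 + p`, for `z ∈ interior M`, bounded by
`2 L (L * L + K)` (`‖fderiv p‖ ≤ K` at interior points because `p` is `K`-Lipschitz on the neighbourhood `interior M`);
`hasDerivWithinAt_integral`, `divfree_lipOn` (`q` is Lipschitz on `M`, `fderiv` only evaluated inside). The derivative is `0` on `[0,1]`:
constant (`constant_of_has_deriv_right_zero` or the mean value inequality).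
-/

set_option autoImplicit false

noncomputable section

namespace Pool.Agent.EAC.PA

open MeasureTheory Set Filter Topology Metric
open scoped ENNReal ComplexConjugate

theorem energy {M : Set ℂ} (hM : IsCompact M) {s : ℕ} {v : ℝ → ℂ → ℂ} {L : ℝ}
    (hE : IsEuler M s 1 v) (hR : Reg M v L) :
    ∀ t ∈ Icc (0 : ℝ) 1, ∫ z in interior M, ‖v t z‖ ^ 2 = ∫ z in interior M, ‖v 0 z‖ ^ 2 := by
  obtain ⟨pr, K, hpK⟩ := hE.momentum
  haveI : IsFiniteMeasure (volume.restrict (interior M)) :=
    ⟨by
      rw [Measure.restrict_apply_univ]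
      exact (measure_mono interior_subset).trans_lt hM.measure_lt_top⟩
  set f : ℝ → ℂ → ℝ := fun t z => ‖v t z‖ ^ 2 with hf
  set q : ℝ → ℂ → ℝ := fun t z => ‖v t z‖ ^ 2 / 2 + pr t z with hq
  set f' : ℝ → ℂ → ℝ := fun t z => -2 * fderiv ℝ (q t) z (v t z) with hf'
  have hcont : ∀ t ∈ Icc (0 : ℝ) 1, ContinuousOn (v t) M := by
    intro t ht
    have h : LipschitzOnWith ⟨L, hR.hL⟩ (v t) M := by
      apply LipschitzOnWith.of_dist_le_mul
      intro x hx y hy
      rw [dist_eq_norm, dist_eq_norm]
      exact hR.lip t ht x hx y hy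
    exact h.continuousOn
  have hpn : ∀ t ∈ Icc (0 : ℝ) 1, ∀ z ∈ interior M, ‖fderiv ℝ (pr t) z‖ ≤ K := by
    intro t ht z hz
    exact norm_fderiv_le_of_lipschitzOn ℝ (mem_interior_iff_mem_nhds.1 hz) (hpK t ht).1
  -- derivative of the kinetic energy density in space
  have hsp : ∀ t ∈ Icc (0 : ℝ) 1, ∀ z ∈ interior M, ∀ h : ℂ,
      fderiv ℝ (q t) z h = (conj (v t z) * fderiv ℝ (v t) z h).re + fderiv ℝ (pr t) z h := by
    intro t ht z hz h
    have h1 := (hR.diff t ht z hz).hasFDerivAt
    have h2 := ((hpK t ht).2 z hz).1.hasFDerivAt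
    have h3 := (h1.norm_sq.const_mul (1 / 2 : ℝ)).add h2
    have e : q t = fun z => (1 / 2 : ℝ) * ‖v t z‖ ^ 2 + pr t z := by
      funext z
      simp only [hq]
      ring
    rw [e]
    have h4 := h3.fderiv
    have e5 : ((fun y => 1 / 2 * ‖v t y‖ ^ 2) + pr t) =
        fun z => (1 / 2 : ℝ) * ‖v t z‖ ^ 2 + pr t z := rfl
    rw [e5] at h4
    rw [h4]
    simp only [ContinuousLinearMap.add_apply, ContinuousLinearMap.smul_apply,
      ContinuousLinearMap.comp_apply, innerSL_apply_apply, smul_eq_mul, Complex.inner]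
    ring
  have htime : ∀ t ∈ Icc (0 : ℝ) 1, ∀ z ∈ interior M,
      HasDerivWithinAt (fun τ => f τ z) (f' t z) (Icc 0 1) t := by
    intro t ht z hz
    have h1 := ((hpK t ht).2 z hz).2
    have h2 := h1.norm_sq
    have e : f' t z = 2 * inner ℝ (v t z) (-(fderiv ℝ (v t) z (v t z)) - grad (pr t) z) := by
      simp only [hf']
      rw [hsp t ht z hz, Complex.inner]
      have e2 : fderiv ℝ (pr t) z (v t z) = (conj (v t z) * grad (pr t) z).re := by
        have e3 : v t z = (v t z).re • (1 : ℂ) + (v t z).im • Complex.I := by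
          simp only [Complex.real_smul, mul_one]
          exact (Complex.re_add_im _).symm
        have e4 : fderiv ℝ (pr t) z (v t z) = (v t z).re * dx (pr t) z +
            (v t z).im * dy (pr t) z := by
          conv_lhs => rw [e3]
          rw [map_add, map_smul, map_smul]
          rfl
        rw [e4]
        unfold grad
        simp only [map_add, map_mul, Complex.conj_ofReal, Complex.conj_I, Complex.mul_re,
          Complex.add_re, Complex.add_im, Complex.mul_im, Complex.ofReal_re, Complex.ofReal_im,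
          Complex.neg_re, Complex.neg_im, Complex.I_re, Complex.I_im, Complex.conj_re,
          Complex.conj_im]
        ring
      rw [e2]
      simp only [Complex.mul_re, Complex.sub_re, Complex.neg_re, Complex.sub_im, Complex.neg_im]
      ring
    rw [e]
    exact h2
  have hbd : ∀ t ∈ Icc (0 : ℝ) 1, ∀ z ∈ interior M, |f' t z| ≤ 2 * (L * (L * L) + K * L) := by
    intro t ht z hz
    have hv := hR.bd t ht z (interior_subset hz)
    have h1 : |(conj (v t z) * fderiv ℝ (v t) z (v t z)).re| ≤ L * (L * L) := by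
      refine (Complex.abs_re_le_norm _).trans ?_
      rw [norm_mul, Complex.norm_conj]
      have h2 := (fderiv ℝ (v t) z).le_opNorm (v t z)
      have h3 : ‖fderiv ℝ (v t) z (v t z)‖ ≤ L * L :=
        h2.trans (mul_le_mul (hR.dbd t ht z hz) hv (norm_nonneg _) hR.hL)
      exact mul_le_mul hv h3 (norm_nonneg _) hR.hL
    have h4 : |fderiv ℝ (pr t) z (v t z)| ≤ K * L := by
      have h2 := (fderiv ℝ (pr t) z).le_opNorm (v t z)
      rw [Real.norm_eq_abs] at h2
      exact h2.trans (mul_le_mul (hpn t ht z hz) hv (norm_nonneg _) K.2)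
    simp only [hf']
    rw [hsp t ht z hz, abs_mul]
    have h5 := abs_add_le (conj (v t z) * fderiv ℝ (v t) z (v t z)).re
      (fderiv ℝ (pr t) z (v t z))
    have h6 : |(-2 : ℝ)| = 2 := by norm_num
    rw [h6]
    linarith
  have hmemae : ∀ᵐ z ∂(volume.restrict (interior M)), z ∈ interior M :=
    ae_restrict_mem isOpen_interior.measurableSet
  have hfi : ∀ t ∈ Icc (0 : ℝ) 1, Integrable (f t) (volume.restrict (interior M)) := by
    intro t ht
    have h1 : IntegrableOn (f t) M :=
      ((hcont t ht).norm.pow 2).integrableOn_compact hM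
    exact h1.mono_set interior_subset
  have hmain := hasDerivWithinAt_integral (μ := volume.restrict (interior M)) (f := f) (f' := f')
    (B := 2 * (L * (L * L) + K * L)) hfi (by
      filter_upwards [hmemae] with z hz t ht
      exact htime t ht z hz) (by
      filter_upwards [hmemae] with z hz t ht
      exact hbd t ht z hz)
  have hzero : ∀ t ∈ Icc (0 : ℝ) 1, ∫ z in interior M, f' t z = 0 := by
    intro t ht
    have hqL : ∃ K' : NNReal, LipschitzOnWith K' (q t) M := by
      refine ⟨⟨L * L + K, by have := hR.hL; positivity⟩, ?_⟩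
      apply LipschitzOnWith.of_dist_le_mul
      intro x hx y hy
      rw [dist_eq_norm, dist_eq_norm, Real.norm_eq_abs]
      have h1 := hR.lip t ht x hx y hy
      have h2 := (hpK t ht).1.dist_le_mul x hx y hy
      rw [dist_eq_norm, dist_eq_norm, Real.norm_eq_abs] at h2
      have h3 : |‖v t x‖ ^ 2 - ‖v t y‖ ^ 2| ≤ 2 * L * (L * ‖x - y‖) := by
        have e : ‖v t x‖ ^ 2 - ‖v t y‖ ^ 2 = (‖v t x‖ + ‖v t y‖) * (‖v t x‖ - ‖v t y‖) := by ring
        rw [e, abs_mul]
        have h4 := abs_norm_sub_norm_le (v t x) (v t y)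
        have h5 := hR.bd t ht x hx
        have h6 := hR.bd t ht y hy
        have h7 : |‖v t x‖ + ‖v t y‖| ≤ 2 * L := by
          rw [abs_of_nonneg (by positivity)]
          linarith
        exact mul_le_mul h7 (h4.trans h1) (abs_nonneg _) (by have := hR.hL; positivity)
      have e2 : q t x - q t y = (‖v t x‖ ^ 2 - ‖v t y‖ ^ 2) / 2 + (pr t x - pr t y) := by
        simp only [hq]
        ring
      rw [e2]
      have h8 := abs_add_le ((‖v t x‖ ^ 2 - ‖v t y‖ ^ 2) / 2) (pr t x - pr t y)
      rw [abs_div, abs_two] at h8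
      show _ ≤ (L * L + K) * ‖x - y‖
      nlinarith
    obtain ⟨K', hK'⟩ := hqL
    have h1 := divfree_lipOn hM (hcont t ht) (hE.divfree t ht) hK'
    simp only [hf']
    rw [integral_const_mul, h1, mul_zero]
  intro t ht
  have h1 := Convex.norm_image_sub_le_of_norm_hasDerivWithin_le
    (f := fun τ => ∫ z in interior M, f τ z) (s := Icc (0 : ℝ) 1) (C := 0) hmain
    (fun t ht => by rw [hzero t ht, norm_zero]) (convex_Icc 0 1)
    (left_mem_Icc.2 zero_le_one) ht
  rw [zero_mul] at h1
  have h2 := norm_le_zero_iff.1 h1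
  exact sub_eq_zero.1 h2

end Pool.Agent.EAC.PA
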