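import Pool.Agent.EAC.PA.ADefs

/-!
# EAC-A-GRON: Gronwall for the flow, and the closing argument

`flow_lower`: `D t = ‖X t x - X t y‖²`, `D' = 2 ⟨X t x - X t y, v t (X t x) - v t (X t y)⟩ ≥ -2 ℓ(t) D`, so
`D t * exp (2 ∫_0^t ℓ)` is monotone on `[0,1]` (`monotoneOn_of_deriv_nonneg`, derivatives at the points of `(0,1)`:
`intervalIntegral.integral_hasDerivAt_right`); take square roots.
`closing`: `y t = ∫_0^t ℓ`, `y' ≤ A e^y`, `(−e^{−y})' ≤ A`, `e^{−y 1} ≥ 1 − A ≥ 1/2`, `y 1 ≤ −log (1 − A) ≤ 2 A`.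
-/

set_option autoImplicit false

noncomputable section

namespace Pool.Agent.EAC.PA

open MeasureTheory Set Filter Topology Metric
open scoped ENNReal ComplexConjugate

/-- primitive of the continuous extension of `ℓ` -/
private theorem prim {ℓ : ℝ → ℝ} (hℓ : ContinuousOn ℓ (Icc 0 1)) :
    ∃ P : ℝ → ℝ, ∃ L : ℝ → ℝ, (∀ t ∈ Icc (0 : ℝ) 1, L t = ℓ t) ∧ (∀ s, HasDerivAt P (L s) s) ∧
      ∀ t ∈ Icc (0 : ℝ) 1, P t = ∫ τ in (0 : ℝ)..t, ℓ τ := by
  have hL : Continuous (IccExtend (zero_le_one' ℝ) ((Icc (0 : ℝ) 1).restrict ℓ)) :=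
    (continuousOn_iff_continuous_restrict.mp hℓ).Icc_extend'
  set L := IccExtend (zero_le_one' ℝ) ((Icc (0 : ℝ) 1).restrict ℓ) with hLd
  have hLe : ∀ t ∈ Icc (0 : ℝ) 1, L t = ℓ t := fun t ht => by
    rw [hLd, IccExtend_of_mem _ _ ht]; rfl
  refine ⟨fun s => ∫ τ in (0 : ℝ)..s, L τ, L, hLe, fun s => hL.integral_hasStrictDerivAt 0 s
    |>.hasDerivAt, fun t ht => ?_⟩
  refine intervalIntegral.integral_congr fun τ hτ => hLe τ ?_
  rw [uIcc_of_le ht.1] at hτ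
  exact ⟨hτ.1, hτ.2.trans ht.2⟩

private theorem rev_deriv_g {f f' : ℝ → ℂ} {T t : ℝ} (ht : t ∈ Icc 0 T)
    (hd : ∀ s ∈ Icc 0 T, HasDerivWithinAt f (f' s) (Icc 0 T) s) :
    ∀ σ ∈ Icc 0 t, HasDerivWithinAt (fun σ => f (t - σ)) (-f' (t - σ)) (Icc 0 t) σ := by
  intro σ hσ
  have hm : MapsTo (fun σ : ℝ => t - σ) (Icc 0 t) (Icc 0 T) := fun τ hτ =>
    ⟨by linarith [hτ.2], by linarith [hτ.1, ht.2]⟩
  have h1 : HasDerivWithinAt (fun σ : ℝ => t - σ) (-1) (Icc 0 t) σ := by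
    simpa using (hasDerivWithinAt_id σ (Icc 0 t)).const_sub t
  have h2 := (hd (t - σ) (hm hσ)).scomp σ h1 hm
  simpa [Function.comp_def] using h2

theorem flow_lower {M : Set ℂ} {v : ℝ → ℂ → ℂ} {X : ℝ → ℂ → ℂ} (hX : IsFlow M 1 v X) {ℓ : ℝ → ℝ}
    (hℓ : ContinuousOn ℓ (Icc 0 1))
    (hv : ∀ t ∈ Icc (0 : ℝ) 1, ∀ x ∈ M, ∀ y ∈ M, ‖v t x - v t y‖ ≤ ℓ t * ‖x - y‖)
    {x y : ℂ} (hx : x ∈ M) (hy : y ∈ M) :
    ∀ t ∈ Icc (0 : ℝ) 1, ‖x - y‖ ≤ Real.exp (∫ τ in (0 : ℝ)..t, ℓ τ) * ‖X t x - X t y‖ := by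
  intro t ht
  obtain ⟨P, L, hL, hP, hPe⟩ := prim hℓ
  have hP0 : P 0 = 0 := by rw [hPe 0 ⟨le_refl _, zero_le_one⟩]; simp
  have d1 := rev_deriv_g ht (fun s hs => hX.deriv s hs x hx)
  have d2 := rev_deriv_g ht (fun s hs => hX.deriv s hs y hy)
  have hd : ∀ σ ∈ Icc 0 t, HasDerivWithinAt (fun σ => X (t - σ) x - X (t - σ) y)
      (-v (t - σ) (X (t - σ) x) - -v (t - σ) (X (t - σ) y)) (Icc 0 t) σ :=
    fun σ hσ => (d1 σ hσ).sub (d2 σ hσ)
  set R := ‖X t x - X t y‖ with hR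
  have key : ∀ ε : ℝ, 0 < ε → ‖x - y‖ ≤ (R + ε) * Real.exp (P t - P (t - t) + ε * t) := by
    intro ε hε
    have hB : ∀ σ : ℝ, HasDerivAt (fun σ => (R + ε) * Real.exp (P t - P (t - σ) + ε * σ))
        ((R + ε) * (Real.exp (P t - P (t - σ) + ε * σ) * (L (t - σ) + ε))) σ := by
      intro σ
      have e1 : HasDerivAt (fun σ => P (t - σ)) (-L (t - σ)) σ := by
        have := (hP (t - σ)).comp σ ((hasDerivAt_id σ).const_sub t)
        simpa [Function.comp_def] using this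
      have e2 : HasDerivAt (fun σ => P t - P (t - σ) + ε * σ) (- -L (t - σ) + ε * 1) σ :=
        (e1.const_sub (P t)).add ((hasDerivAt_id σ).const_mul ε)
      have e3 := (e2.exp).const_mul (R + ε)
      simpa using e3
    have hcont : ContinuousOn (fun σ => X (t - σ) x - X (t - σ) y) (Icc 0 t) :=
      fun σ hσ => (hd σ hσ).continuousWithinAt
    have hr : ∀ σ ∈ Ico 0 t, HasDerivWithinAt (fun σ => X (t - σ) x - X (t - σ) y)
        (-v (t - σ) (X (t - σ) x) - -v (t - σ) (X (t - σ) y)) (Ici σ) σ := fun σ hσ =>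
      (hd σ (Ico_subset_Icc_self hσ)).mono_of_mem_nhdsWithin (Icc_mem_nhdsGE_of_mem hσ)
    have h0 : ‖X (t - 0) x - X (t - 0) y‖ ≤ (R + ε) * Real.exp (P t - P (t - 0) + ε * 0) := by
      simp only [sub_zero, sub_self, mul_zero, add_zero, Real.exp_zero, mul_one]
      rw [hR]; linarith
    have hbound : ∀ σ ∈ Ico 0 t, ‖X (t - σ) x - X (t - σ) y‖ =
        (R + ε) * Real.exp (P t - P (t - σ) + ε * σ) →
        ‖-v (t - σ) (X (t - σ) x) - -v (t - σ) (X (t - σ) y)‖ <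
        ((R + ε) * (Real.exp (P t - P (t - σ) + ε * σ) * (L (t - σ) + ε))) := by
      intro σ hσ heq
      have hs : t - σ ∈ Icc (0 : ℝ) 1 := ⟨by linarith [hσ.2], by linarith [hσ.1, ht.2]⟩
      have m1 := (hX.bij _ hs).mapsTo hx
      have m2 := (hX.bij _ hs).mapsTo hy
      have b1 := hv _ hs _ m1 _ m2
      have b3 : ‖-v (t - σ) (X (t - σ) x) - -v (t - σ) (X (t - σ) y)‖ =
          ‖v (t - σ) (X (t - σ) x) - v (t - σ) (X (t - σ) y)‖ := by
        rw [← norm_neg]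
        congr 1
        ring
      rw [b3, hL _ hs]
      refine lt_of_le_of_lt b1 ?_
      rw [heq]
      have hpos : 0 < (R + ε) * Real.exp (P t - P (t - σ) + ε * σ) := by
        have : 0 ≤ R := norm_nonneg _
        positivity
      nlinarith
    have h3 := image_norm_le_of_norm_deriv_right_lt_deriv_boundary hcont hr h0 hB hbound
      (x := t) ⟨ht.1, le_refl _⟩
    simp only [sub_self] at h3
    rw [hX.init x hx, hX.init y hy] at h3
    simpa using h3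
  have hc : ContinuousWithinAt
      (fun ε : ℝ => (R + ε) * Real.exp (P t - P (t - t) + ε * t)) (Ioi 0) 0 := by
    apply Continuous.continuousWithinAt
    fun_prop
  have h4 := ge_of_tendsto hc (by
    filter_upwards [self_mem_nhdsWithin] with ε hε using key ε hε)
  simp only [sub_self, hP0, sub_zero, add_zero, zero_mul] at h4
  rw [← hPe t ht]
  linarith [mul_comm R (Real.exp (P t))]

theorem closing {ℓ : ℝ → ℝ} (hℓ : ContinuousOn ℓ (Icc 0 1)) (h0 : ∀ t ∈ Icc (0 : ℝ) 1, 0 ≤ ℓ t)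
    {A : ℝ} (hA : 0 ≤ A) (hA2 : A ≤ 1 / 2)
    (h : ∀ t ∈ Icc (0 : ℝ) 1, ℓ t ≤ A * Real.exp (∫ τ in (0 : ℝ)..t, ℓ τ)) :
    ∫ τ in (0 : ℝ)..1, ℓ τ ≤ 2 * A := by
  obtain ⟨P, L, hL, hP, hPe⟩ := prim hℓ
  have hP0 : P 0 = 0 := by rw [hPe 0 ⟨le_refl _, zero_le_one⟩]; simp
  have hd : ∀ s, HasDerivAt (fun s => A * s + Real.exp (-P s)) (A * 1 + Real.exp (-P s) * (-L s)) s :=
    fun s => ((hasDerivAt_id s).const_mul A).add (hP s).neg.exp
  have hmono : MonotoneOn (fun s => A * s + Real.exp (-P s)) (Icc 0 1) := by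
    apply monotoneOn_of_deriv_nonneg (convex_Icc 0 1)
    · exact fun s _ => (hd s).continuousAt.continuousWithinAt
    · exact fun s _ => (hd s).differentiableAt.differentiableWithinAt
    · intro s hs
      rw [interior_Icc] at hs
      have hs' : s ∈ Icc (0 : ℝ) 1 := Ioo_subset_Icc_self hs
      rw [(hd s).deriv, hL s hs']
      have h1 := h s hs'
      rw [← hPe s hs'] at h1
      have h2 : Real.exp (-P s) * ℓ s ≤ Real.exp (-P s) * (A * Real.exp (P s)) :=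
        mul_le_mul_of_nonneg_left h1 (Real.exp_pos _).le
      have h3 : Real.exp (-P s) * (A * Real.exp (P s)) = A := by
        rw [mul_left_comm, ← Real.exp_add]; simp
      linarith
  have h5 := hmono (left_mem_Icc.mpr zero_le_one) (right_mem_Icc.mpr zero_le_one) zero_le_one
  simp only [mul_zero, hP0, neg_zero, Real.exp_zero, zero_add, mul_one] at h5
  rw [← hPe 1 ⟨zero_le_one, le_refl _⟩]
  -- `1 - A ≤ exp (-P 1)`
  have h6 : 1 - A ≤ Real.exp (-P 1) := by linarith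
  by_contra hcon
  push Not at hcon
  have h7 : Real.exp (-P 1) < Real.exp (-(2 * A)) := Real.exp_lt_exp.mpr (by linarith)
  have h8 : Real.exp (-(2 * A)) * Real.exp (2 * A) = 1 := by rw [← Real.exp_add]; simp
  have h9 : 1 + 2 * A ≤ Real.exp (2 * A) := by linarith [Real.add_one_le_exp (2 * A)]
  have h10 : 0 < Real.exp (-(2 * A)) := Real.exp_pos _
  nlinarith

end Pool.Agent.EAC.PA
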