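import Pool.Agent.EAC.PA.ADefs

/-!
# EAC-A-DIV: the divergence vanishes inside

For a test function `φ` with `tsupport φ ⊆ interior M`: `0 = ∫ fderiv φ z (v z) = ∫ (φ_x v₁ + φ_y v₂) = - ∫ φ dvg v`
(integration by parts: `∫ dx (φ v₁) = 0`, `∫ dy (φ v₂) = 0` for differentiable functions with compact support and integrable
derivative, Mathlib `integral_mul_fderiv_eq_neg_fderiv_mul_of_integrable` or `integral_fderiv...`; note
`fderiv φ z (v z) = (v z).re * dx φ z + (v z).im * dy φ z`). `dvg v` is continuous on `interior M`: if `dvg v z ≠ 0` take a bump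
function in a small ball around `z`.
-/

set_option autoImplicit false

noncomputable section

namespace Pool.Agent.EAC.PA

open MeasureTheory Set Filter Topology Metric
open scoped ENNReal ComplexConjugate

private theorem integrable_of_cont {K U : Set ℂ} (hK : IsCompact K) (hKU : K ⊆ U) {h : ℂ → ℝ}
    (hc : ContinuousOn h U) (h0 : ∀ z, z ∉ K → h z = 0) : Integrable h := by
  have h1 : IntegrableOn h K := (hc.mono hKU).integrableOn_compact hK
  refine (integrableOn_iff_integrable_of_support_subset ?_).1 h1
  intro z hz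
  by_contra hzK
  exact hz (h0 z hzK)

private theorem fderiv_apply_eq (φ : ℂ → ℝ) (z w : ℂ) :
    fderiv ℝ φ z w = fderiv ℝ φ z 1 * w.re + fderiv ℝ φ z Complex.I * w.im := by
  have hw : w = w.re • (1 : ℂ) + w.im • Complex.I := by
    apply Complex.ext <;> simp
  conv_lhs => rw [hw]
  rw [map_add, map_smul, map_smul, smul_eq_mul, smul_eq_mul]
  ring

theorem dvg_zero {M : Set ℂ} (hM : IsCompact M) {v : ℂ → ℂ} (hv : ContinuousOn v M)
    (hd : DivFree M v) (hdiff : ∀ z ∈ interior M, DifferentiableAt ℝ v z)
    (hc : ContinuousOn (fun z => fderiv ℝ v z) (interior M)) : ∀ z ∈ interior M, dvg v z = 0 := by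
  intro z₀ hz₀
  by_contra hne
  have hvi : ContinuousOn v (interior M) := hv.mono interior_subset
  have hcw : ∀ w : ℂ, ContinuousOn (fun z => fderiv ℝ v z w) (interior M) := fun w =>
    hc.clm_apply continuousOn_const
  have hdc : ContinuousOn (fun z => dvg v z) (interior M) :=
    (Complex.continuous_re.comp_continuousOn (hcw 1)).add
      (Complex.continuous_im.comp_continuousOn (hcw Complex.I))
  -- the sign
  obtain ⟨σ, hσ⟩ : ∃ σ : ℝ, 0 < σ * dvg v z₀ := by
    refine ⟨dvg v z₀, ?_⟩
    exact mul_self_pos.2 hne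
  have hsc : ContinuousOn (fun z => σ * dvg v z) (interior M) := continuousOn_const.mul hdc
  have hnb : ∀ᶠ z in 𝓝 z₀, 0 < σ * dvg v z ∧ z ∈ interior M := by
    have h1 := (hsc.continuousAt (isOpen_interior.mem_nhds hz₀)).eventually (lt_mem_nhds hσ)
    exact h1.and (isOpen_interior.mem_nhds hz₀)
  obtain ⟨R, hR, hball⟩ := Metric.eventually_nhds_iff_ball.1 hnb
  -- the bump function
  let φ : ContDiffBump z₀ := ⟨R / 4, R / 2, by positivity, by linarith⟩
  have hrout : φ.rOut = R / 2 := rfl
  have hφts : tsupport φ ⊆ ball z₀ R := by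
    rw [φ.tsupport_eq, hrout]
    exact closedBall_subset_ball (by linarith)
  have hφM : tsupport φ ⊆ interior M := fun z hz => (hball z (hφts hz)).2
  have hφK : IsCompact (tsupport φ) := φ.hasCompactSupport
  have hφs : ContDiff ℝ (⊤ : ℕ∞) φ := φ.contDiff
  have hφd : Differentiable ℝ φ := hφs.differentiable (by simp)
  have hφ0 : ∀ z, z ∉ tsupport φ → φ z = 0 := fun z hz => image_eq_zero_of_notMem_tsupport hz
  have hφ0' : ∀ z, z ∉ tsupport φ → fderiv ℝ φ z = 0 := by
    intro z hz
    have h1 : z ∉ tsupport (fderiv ℝ φ) := fun h => hz (tsupport_fderiv_subset ℝ h)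
    exact image_eq_zero_of_notMem_tsupport h1
  have hφc : Continuous (fderiv ℝ φ) := hφs.continuous_fderiv (by simp)
  have hφcw : ∀ w : ℂ, Continuous (fun z => fderiv ℝ φ z w) := fun w =>
    hφc.clm_apply continuous_const
  have hre : ∀ z ∈ interior M, HasFDerivAt (fun z => (v z).re)
      (Complex.reCLM.comp (fderiv ℝ v z)) z := fun z hz =>
    Complex.reCLM.hasFDerivAt.comp z (hdiff z hz).hasFDerivAt
  have him : ∀ z ∈ interior M, HasFDerivAt (fun z => (v z).im)
      (Complex.imCLM.comp (fderiv ℝ v z)) z := fun z hz =>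
    Complex.imCLM.hasFDerivAt.comp z (hdiff z hz).hasFDerivAt
  have hrc : ContinuousOn (fun z => fderiv ℝ (fun z => (v z).re) z 1) (interior M) := by
    refine (Complex.continuous_re.comp_continuousOn (hcw 1)).congr fun z hz => ?_
    simp [(hre z hz).fderiv]
  have hic : ContinuousOn (fun z => fderiv ℝ (fun z => (v z).im) z Complex.I) (interior M) := by
    refine (Complex.continuous_im.comp_continuousOn (hcw Complex.I)).congr fun z hz => ?_
    simp [(him z hz).fderiv]
  have hvr : ContinuousOn (fun z => (v z).re) (interior M) :=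
    Complex.continuous_re.comp_continuousOn hvi
  have hvim : ContinuousOn (fun z => (v z).im) (interior M) :=
    Complex.continuous_im.comp_continuousOn hvi
  -- integrability
  have i1 : Integrable (fun z => fderiv ℝ φ z 1 * (v z).re) :=
    integrable_of_cont hφK hφM ((hφcw 1).continuousOn.mul hvr)
      fun z hz => by simp [hφ0' z hz]
  have i2 : Integrable (fun z => fderiv ℝ φ z Complex.I * (v z).im) :=
    integrable_of_cont hφK hφM ((hφcw Complex.I).continuousOn.mul hvim)
      fun z hz => by simp [hφ0' z hz]
  have i3 : Integrable (fun z => φ z * fderiv ℝ (fun z => (v z).re) z 1) :=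
    integrable_of_cont hφK hφM (φ.continuous.continuousOn.mul hrc)
      fun z hz => by simp [hφ0 z hz]
  have i4 : Integrable (fun z => φ z * fderiv ℝ (fun z => (v z).im) z Complex.I) :=
    integrable_of_cont hφK hφM (φ.continuous.continuousOn.mul hic)
      fun z hz => by simp [hφ0 z hz]
  have i5 : Integrable (fun z => φ z * (v z).re) :=
    integrable_of_cont hφK hφM (φ.continuous.continuousOn.mul hvr)
      fun z hz => by simp [hφ0 z hz]
  have i6 : Integrable (fun z => φ z * (v z).im) :=
    integrable_of_cont hφK hφM (φ.continuous.continuousOn.mul hvim)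
      fun z hz => by simp [hφ0 z hz]
  -- integration by parts
  have p1 := integral_mul_fderiv_eq_neg_fderiv_mul_of_integrable (μ := volume) i1 i3 i5
    (fun x _ => hφd x) (fun x hx => (hre x (hφM hx)).differentiableAt)
  have p2 := integral_mul_fderiv_eq_neg_fderiv_mul_of_integrable (μ := volume) i2 i4 i6
    (fun x _ => hφd x) (fun x hx => (him x (hφM hx)).differentiableAt)
  have hzero : ∫ z, (fderiv ℝ φ z 1 * (v z).re + fderiv ℝ φ z Complex.I * (v z).im) = 0 := by
    have h1 := hd φ hφs φ.hasCompactSupport
    rw [setIntegral_eq_integral_of_forall_compl_eq_zero] at h1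
    · rw [← h1]
      refine integral_congr_ae (Eventually.of_forall fun z => ?_)
      exact (fderiv_apply_eq φ z (v z)).symm
    · intro z hz
      rw [hφ0' z fun h => hz (hφM h)]
      rfl
  rw [integral_add i1 i2] at hzero
  have hsum : ∫ z, φ z * dvg v z = 0 := by
    have h1 : ∫ z, φ z * dvg v z = ∫ z, (φ z * fderiv ℝ (fun z => (v z).re) z 1 +
        φ z * fderiv ℝ (fun z => (v z).im) z Complex.I) := by
      refine integral_congr_ae (Eventually.of_forall fun z => ?_)
      by_cases hz : z ∈ tsupport φ
      · have hz' := hφM hz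
        simp only [dvg, dx, dy]
        rw [(hre z hz').fderiv, (him z hz').fderiv]
        simp
        ring
      · simp [hφ0 z hz]
    rw [h1, integral_add i3 i4, p1, p2]
    linarith
  have hpos : 0 < ∫ z, φ z * (σ * dvg v z) := by
    have hnn : 0 ≤ fun z => φ z * (σ * dvg v z) := by
      intro z
      by_cases hz : z ∈ tsupport φ
      · exact mul_nonneg φ.nonneg (hball z (hφts hz)).1.le
      · simp [hφ0 z hz]
    have hint : Integrable (fun z => φ z * (σ * dvg v z)) :=
      integrable_of_cont hφK hφM (φ.continuous.continuousOn.mul hsc)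
        fun z hz => by simp [hφ0 z hz]
    rw [integral_pos_iff_support_of_nonneg hnn hint]
    refine lt_of_lt_of_le (measure_ball_pos volume z₀ (show 0 < R / 2 by positivity))
      (measure_mono ?_)
    intro z hz
    have h1 : 0 < φ z := φ.pos_of_mem_ball hz
    have h2 : z ∈ ball z₀ R := ball_subset_ball (by linarith) hz
    exact (mul_pos h1 (hball z h2).1).ne'
  have hcon : ∫ z, φ z * (σ * dvg v z) = 0 := by
    have : (fun z => φ z * (σ * dvg v z)) = fun z => σ * (φ z * dvg v z) := by
      funext z
      ring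
    rw [this, integral_const_mul, hsum, mul_zero]
  exact hpos.ne' hcon

end Pool.Agent.EAC.PA
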