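import Pool.Agent.EAC.PA.AInterp

/-!
# EAC-A-LIP: Lipschitz bounds from a bound of the derivative in the interior

`lip_patch`: `v ∘ ψ` is `C L`-Lipschitz on the convex open half disc `{‖ζ‖ < 16 a, 0 < Im ζ}` (chain rule, mean value
inequality, `‖ψ'‖ ≤ C`), by continuity also on `{‖ζ‖ < a, 0 ≤ Im ζ}` (approximate `ζ` by `ζ + i ε`); for `z, w ∈ M` near `x`
use `cover` and `‖ζ - ξ‖ ≤ C ‖z - w‖`.
`lip_local`: `uniformize` with `P z w K := ∀ v L, 0 ≤ L → ContinuousOn v M → (derivative bound) → ‖v z - v w‖ ≤ K * L * ‖z - w‖`.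
`lip_global`: local Lipschitz bound for distance `< ρ`, sup bound by `interp`, distance `≥ ρ`: `2 sup / ρ`.
-/

set_option autoImplicit false

noncomputable section

namespace Pool.Agent.EAC.PA

open MeasureTheory Set Filter Topology Metric
open scoped ENNReal ComplexConjugate

theorem lip_patch {M : Set ℂ} {x : ℂ} {ψ : ℂ → ℂ} {a C r : ℝ} (hP : Patch M x ψ a C r) {v : ℂ → ℂ}
    {L : ℝ} (hL : 0 ≤ L) (hc : ContinuousOn v M)
    (hd : ∀ z ∈ interior M, DifferentiableAt ℝ v z ∧ ‖fderiv ℝ v z‖ ≤ L) :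
    ∀ z ∈ M, ∀ w ∈ M, ‖z - x‖ < r → ‖w - x‖ < r → ‖v z - v w‖ ≤ C ^ 2 * L * ‖z - w‖ := by
  intro z hz w hw hzx hwx
  obtain ⟨ζ, hζ, hζ0, rfl⟩ := hP.cover z hz hzx
  obtain ⟨ξ, hξ, hξ0, rfl⟩ := hP.cover w hw hwx
  have ha := hP.ha
  have hC := hP.hC
  have hC0 : 0 ≤ C := le_trans zero_le_one hC
  have hSconv : Convex ℝ (ball (0 : ℂ) (16 * a) ∩ {y : ℂ | 0 < y.im}) :=
    (convex_ball 0 _).inter (convex_halfSpace_im_gt 0)
  have hψd : ∀ y ∈ ball (0 : ℂ) (16 * a), HasDerivAt ψ (deriv ψ y) y := fun y hy =>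
    (hP.holo.differentiableAt (isOpen_ball.mem_nhds hy)).hasDerivAt
  have hder : ∀ y ∈ ball (0 : ℂ) (16 * a) ∩ {y : ℂ | 0 < y.im},
      HasFDerivWithinAt (fun y => v (ψ y)) ((fderiv ℝ v (ψ y)).comp
        ((ContinuousLinearMap.toSpanSingleton ℂ (deriv ψ y)).restrictScalars ℝ))
        (ball (0 : ℂ) (16 * a) ∩ {y : ℂ | 0 < y.im}) y := by
    rintro y ⟨hy, hy0⟩
    have h1 := (hd (ψ y) (hP.inside y hy hy0)).1.hasFDerivAt
    have h2 := (hψd y hy).hasFDerivAt.restrictScalars ℝ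
    exact (h1.comp y h2).hasFDerivWithinAt
  have hbd : ∀ y ∈ ball (0 : ℂ) (16 * a) ∩ {y : ℂ | 0 < y.im},
      ‖(fderiv ℝ v (ψ y)).comp
        ((ContinuousLinearMap.toSpanSingleton ℂ (deriv ψ y)).restrictScalars ℝ)‖ ≤ L * C := by
    rintro y ⟨hy, hy0⟩
    refine (ContinuousLinearMap.opNorm_comp_le _ _).trans ?_
    rw [ContinuousLinearMap.norm_restrictScalars, ContinuousLinearMap.norm_toSpanSingleton]
    exact mul_le_mul (hd _ (hP.inside y hy hy0)).2 (hP.upp y hy) (norm_nonneg _) hL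
  -- the bound in the open half disc
  have hopen : ∀ e : ℝ, 0 < e → e < a →
      ‖v (ψ (ζ + (e : ℂ) * Complex.I)) - v (ψ (ξ + (e : ℂ) * Complex.I))‖ ≤ L * C * ‖ζ - ξ‖ := by
    intro e he hea
    have hmem : ∀ y : ℂ, ‖y‖ < a → 0 ≤ y.im →
        y + (e : ℂ) * Complex.I ∈ ball (0 : ℂ) (16 * a) ∩ {y : ℂ | 0 < y.im} := by
      intro y hy hy0
      refine ⟨?_, ?_⟩
      · rw [mem_ball_zero_iff]
        have : ‖y + (e : ℂ) * Complex.I‖ ≤ ‖y‖ + ‖(e : ℂ) * Complex.I‖ := norm_add_le _ _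
        have h2 : ‖(e : ℂ) * Complex.I‖ = e := by
          rw [norm_mul, Complex.norm_I, mul_one, Complex.norm_real, Real.norm_of_nonneg he.le]
        linarith
      · simp only [mem_ofPred_eq, Complex.add_im, Complex.mul_im, Complex.ofReal_re, Complex.I_im,
          Complex.ofReal_im, Complex.I_re]
        linarith
    have := hSconv.norm_image_sub_le_of_norm_hasFDerivWithin_le hder hbd (hmem ξ hξ hξ0)
      (hmem ζ hζ hζ0)
    simpa [add_sub_add_right_eq_sub] using this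
  -- limit
  have hlim : ∀ y : ℂ, ‖y‖ < a → 0 ≤ y.im →
      Tendsto (fun e : ℝ => v (ψ (y + (e : ℂ) * Complex.I))) (𝓝[>] 0) (𝓝 (v (ψ y))) := by
    intro y hy hy0
    have hyB : y ∈ ball (0 : ℂ) (16 * a) := by
      rw [mem_ball_zero_iff]; linarith
    have h1 : Tendsto (fun e : ℝ => y + (e : ℂ) * Complex.I) (𝓝[>] 0) (𝓝 y) := by
      have : Continuous (fun e : ℝ => y + (e : ℂ) * Complex.I) := by fun_prop
      have h := this.tendsto 0
      simp only [Complex.ofReal_zero, zero_mul, add_zero] at h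
      exact h.mono_left nhdsWithin_le_nhds
    have h2 : Tendsto (fun e : ℝ => ψ (y + (e : ℂ) * Complex.I)) (𝓝[>] 0) (𝓝 (ψ y)) :=
      (hψd y hyB).continuousAt.tendsto.comp h1
    have h3 : ∀ᶠ e : ℝ in 𝓝[>] 0, ψ (y + (e : ℂ) * Complex.I) ∈ M := by
      have h4 : ∀ᶠ e : ℝ in 𝓝[>] 0, y + (e : ℂ) * Complex.I ∈ ball (0 : ℂ) (16 * a) :=
        h1.eventually (isOpen_ball.mem_nhds hyB)
      filter_upwards [h4, self_mem_nhdsWithin] with e he he0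
      refine hP.inM _ he ?_
      simp only [Complex.add_im, Complex.mul_im, Complex.ofReal_re, Complex.I_im,
          Complex.ofReal_im, Complex.I_re]
      have : (0 : ℝ) < e := he0
      linarith
    have h5 : Tendsto (fun e : ℝ => ψ (y + (e : ℂ) * Complex.I)) (𝓝[>] 0) (𝓝[M] (ψ y)) :=
      tendsto_nhdsWithin_iff.mpr ⟨h2, h3⟩
    exact (hc (ψ y) (hP.inM y hyB hy0)).tendsto.comp h5
  have hfin : ‖v (ψ ζ) - v (ψ ξ)‖ ≤ L * C * ‖ζ - ξ‖ := by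
    refine le_of_tendsto ((hlim ζ hζ hζ0).sub (hlim ξ hξ hξ0)).norm ?_
    filter_upwards [Ioo_mem_nhdsGT ha] with e he
    exact hopen e he.1 he.2
  have hbi := (hP.bilip ζ (by rw [mem_ball_zero_iff]; linarith) ξ
    (by rw [mem_ball_zero_iff]; linarith)).1
  calc ‖v (ψ ζ) - v (ψ ξ)‖ ≤ L * C * ‖ζ - ξ‖ := hfin
    _ ≤ L * C * (C * ‖ψ ζ - ψ ξ‖) := mul_le_mul_of_nonneg_left hbi (mul_nonneg hL hC0)
    _ = C ^ 2 * L * ‖ψ ζ - ψ ξ‖ := by ring

theorem lip_local {M : Set ℂ} (hM : AnalyticDomain M) : ∃ ρ > 0, ∃ K > 0, ∀ (v : ℂ → ℂ) (L : ℝ),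
    0 ≤ L → ContinuousOn v M → (∀ z ∈ interior M, DifferentiableAt ℝ v z ∧ ‖fderiv ℝ v z‖ ≤ L) →
      ∀ z ∈ M, ∀ w ∈ M, ‖z - w‖ < ρ → ‖v z - v w‖ ≤ K * L * ‖z - w‖ := by
  obtain ⟨ρ, hρ, K, hK, h⟩ := uniformize hM.compact
    (fun z w K => ∀ (v : ℂ → ℂ) (L : ℝ), 0 ≤ L → ContinuousOn v M →
      (∀ z ∈ interior M, DifferentiableAt ℝ v z ∧ ‖fderiv ℝ v z‖ ≤ L) →
        ‖v z - v w‖ ≤ K * L * ‖z - w‖)
    (fun z w C C' h hCC v L hL hc hd => (h v L hL hc hd).trans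
      (mul_le_mul_of_nonneg_right (mul_le_mul_of_nonneg_right hCC hL) (norm_nonneg _)))
    (fun x hx => by
      obtain ⟨ψ, a, C, r, hP⟩ := patch hM hx
      exact ⟨r, hP.hr, C ^ 2, fun z hz w hw hzx hwx v L hL hc hd =>
        lip_patch hP hL hc hd z hz w hw hzx hwx⟩)
  exact ⟨ρ, hρ, K, hK, fun v L hL hc hd z hz w hw hzw => h z hz w hw hzw v L hL hc hd⟩

theorem lip_global {M : Set ℂ} (hM : AnalyticDomain M) {ρ : ℝ} (hρ : 0 < ρ) :
    ∃ K > 0, ∀ (u : ℂ → ℂ) (L E : ℝ), 0 ≤ L → 0 ≤ E → ContinuousOn u M →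
      (∀ x ∈ M, ∀ y ∈ M, ‖x - y‖ < ρ → ‖u x - u y‖ ≤ L * ‖x - y‖) →
      ∫ z in interior M, ‖u z‖ ^ 2 ≤ E ^ 2 →
        (∀ x ∈ M, ‖u x‖ ≤ K * (L + E)) ∧ ∀ x ∈ M, ∀ y ∈ M, ‖u x - u y‖ ≤ K * (L + E) * ‖x - y‖ := by
  obtain ⟨C, hC, h⟩ := interp hM hρ
  refine ⟨1 + (ρ + C) + 2 * (ρ + C) / ρ, by positivity, ?_⟩
  intro u L E hL hE hc hloc hint
  have hsup : ∀ x ∈ M, ‖u x‖ ≤ (ρ + C) * (L + E) := by
    intro x hx
    refine (h u L E hL hE hc hloc hint x hx).trans ?_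
    nlinarith [mul_nonneg hρ.le hE, mul_nonneg hC.le hL]
  have hq : 0 ≤ 2 * (ρ + C) / ρ := by positivity
  have hLE : 0 ≤ L + E := add_nonneg hL hE
  refine ⟨fun x hx => (hsup x hx).trans (mul_le_mul_of_nonneg_right (by linarith) hLE), ?_⟩
  intro x hx y hy
  rcases lt_or_ge ‖x - y‖ ρ with hlt | hge
  · refine (hloc x hx y hy hlt).trans (mul_le_mul_of_nonneg_right ?_ (norm_nonneg _))
    have : L ≤ 1 * (L + E) := by linarith
    exact this.trans (mul_le_mul_of_nonneg_right (by linarith) hLE)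
  · have h1 : ‖u x - u y‖ ≤ 2 * (ρ + C) * (L + E) := by
      refine (norm_sub_le _ _).trans ?_
      have := hsup x hx
      have := hsup y hy
      linarith
    have h2 : 2 * (ρ + C) * (L + E) ≤ 2 * (ρ + C) / ρ * (L + E) * ‖x - y‖ := by
      have h3 : 2 * (ρ + C) * (L + E) = 2 * (ρ + C) / ρ * (L + E) * ρ := by
        field_simp
      rw [h3]
      exact mul_le_mul_of_nonneg_left hge (mul_nonneg hq hLE)
    refine (h1.trans h2).trans (mul_le_mul_of_nonneg_right ?_ (norm_nonneg _))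
    exact mul_le_mul_of_nonneg_right (by linarith) hLE

end Pool.Agent.EAC.PA
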