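import Pool.Agent.EAC.PA.ADefs
import Pool.Agent.EAC.G5

/-!
# EAC-A-SCHI: local Schauder estimate in the interior

`closedBall x (8 r) ⊆ interior M`: `lemmaS_disc` with `R = 8 r`, `g = conj v`, `q = -(I/2) curl v`, `D = fderiv ℝ g`.
-/

set_option autoImplicit false

noncomputable section

namespace Pool.Agent.EAC.PA

open MeasureTheory Set Filter Topology Metric
open scoped ENNReal ComplexConjugate

private theorem dbar_conj (v : ℂ → ℂ) (z : ℂ) (hd : dvg v z = 0) :
    Pool.Agent.EAC.dbar ((Complex.conjCLE : ℂ →L[ℝ] ℂ).comp (fderiv ℝ v z)) =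
      -(Complex.I / 2) * (curl v z : ℂ) := by
  unfold dvg dx dy at hd
  unfold Pool.Agent.EAC.dbar curl dx dy
  simp only [ContinuousLinearMap.comp_apply, ContinuousLinearEquiv.coe_coe,
    Complex.conjCLE_apply]
  set p := fderiv ℝ v z 1
  set q := fderiv ℝ v z Complex.I
  apply Complex.ext
  · simp
    linarith
  · simp
    ring

theorem schauder_int {M : Set ℂ} {x : ℂ} (hx : x ∈ interior M) :
    ∃ r > 0, ∃ K > 0, ∀ (v : ℂ → ℂ) (L A Ω : ℝ), 0 ≤ A → 0 ≤ Ω →
      (∀ y ∈ M, ∀ z ∈ M, ‖v y - v z‖ ≤ L * ‖y - z‖) →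
      (∀ z ∈ interior M, DifferentiableAt ℝ v z) → (∀ z ∈ interior M, dvg v z = 0) →
      (∀ z ∈ M, ‖v z‖ ≤ A) → (∀ z ∈ interior M, |curl v z| ≤ Ω) →
      (∀ z ∈ interior M, ∀ w ∈ interior M, |curl v z - curl v w| ≤ Ω * ‖z - w‖ ^ (1 / 2 : ℝ)) →
      ∀ y ∈ M, ∀ z ∈ M, ‖y - x‖ < r → ‖z - x‖ < r → ‖v y - v z‖ ≤ K * (A + Ω) * ‖y - z‖ := by
  obtain ⟨ρ, hρ, hball⟩ := Metric.isOpen_iff.mp isOpen_interior x hx
  set r : ℝ := ρ / 16 with hr
  have hr0 : 0 < r := by positivity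
  have hsub : closedBall x (8 * r) ⊆ interior M := by
    refine (closedBall_subset_ball ?_).trans hball
    rw [hr]; linarith
  obtain ⟨C, hC0, hC⟩ := lemmaS_disc (R := 8 * r) (β := 1 / 2) (by positivity) (by norm_num)
    (by norm_num)
  refine ⟨r, hr0, 2 * C + 1, by positivity, ?_⟩
  intro v L A Ω hA hΩ hlip hdiff hdiv hbd hcurl hhol y hy z hz hyx hzx
  have hM : closedBall x (8 * r) ⊆ M := hsub.trans interior_subset
  have hbI : ball x (8 * r) ⊆ interior M := ball_subset_closedBall.trans hsub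
  have hdata : DiscData (8 * r) x (fun z => conj (v z))
      (fun z => (Complex.conjCLE : ℂ →L[ℝ] ℂ).comp (fderiv ℝ v z))
      (fun z => -(Complex.I / 2) * (curl v z : ℂ)) A Ω := by
    constructor
    · refine ⟨L, ?_⟩
      intro z hz w hw
      rw [← map_sub, Complex.norm_conj]
      exact hlip z (hM hz) w (hM hw)
    · intro z hz
      exact (Complex.conjCLE : ℂ →L[ℝ] ℂ).hasFDerivAt.comp z (hdiff z (hbI hz)).hasFDerivAt
    · intro z hz
      exact dbar_conj v z (hdiv z (hbI hz))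
    · intro z hz
      rw [Complex.norm_conj]
      exact hbd z (hM hz)
    · intro z hz
      have h1 := hcurl z (hbI hz)
      rw [norm_mul, norm_neg, norm_div, Complex.norm_I, Complex.norm_ofNat, Complex.norm_real,
        Real.norm_eq_abs]
      linarith [abs_nonneg (curl v z)]
  have hq : ∀ z ∈ ball x (8 * r), ∀ w ∈ ball x (8 * r),
      ‖-(Complex.I / 2) * (curl v z : ℂ) - -(Complex.I / 2) * (curl v w : ℂ)‖ ≤
        Ω * ‖z - w‖ ^ (1 / 2 : ℝ) := by
    intro z hz w hw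
    have h1 := hhol z (hbI hz) w (hbI hw)
    rw [← mul_sub, ← Complex.ofReal_sub, norm_mul, norm_neg, norm_div, Complex.norm_I,
      Complex.norm_ofNat, Complex.norm_real, Real.norm_eq_abs]
    linarith [abs_nonneg (curl v z - curl v w)]
  have e8 : 8 * r / 8 = r := by ring
  have h1 := hC x _ _ _ A Ω Ω hA hΩ hΩ hdata hq y
    (by rw [e8, mem_closedBall, dist_eq_norm]; exact hyx.le) z
    (by rw [e8, mem_closedBall, dist_eq_norm]; exact hzx.le)
  rw [← map_sub, Complex.norm_conj] at h1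
  refine h1.trans ?_
  apply mul_le_mul_of_nonneg_right _ (norm_nonneg _)
  nlinarith [mul_nonneg hC0 hA, mul_nonneg hC0 hΩ]

end Pool.Agent.EAC.PA
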