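import Pool.Agent.EAC.PA.ASchB
import Pool.Agent.EAC.PA.ASchI
import Pool.Agent.EAC.PA.ADiv
import Pool.Agent.EAC.PA.ALip

/-!
# EAC-A-SCH: global Schauder type estimate

`uniformize` (with `P z w K := ∀ v L A Ω, ... → ‖v z - v w‖ ≤ K (A + Ω) ‖z - w‖`): for `‖y - z‖ < ρ`,
`‖v y - v z‖ ≤ K₀ (A + Ω) ‖y - z‖` for every bound `A` of `‖v‖` on `M` (we may decrease `ρ`: `K₀ ρ ≤ 1/2`).
Let `A = sup_M ‖v‖` (attained; `M` compact). `interp` with this `ρ`: `A ≤ ρ K₀ (A + Ω) + C E`, hence `A ≤ Ω + 2 C E`; then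
`lip_global`.
-/

set_option autoImplicit false

noncomputable section

namespace Pool.Agent.EAC.PA

open MeasureTheory Set Filter Topology Metric
open scoped ENNReal ComplexConjugate

/-- local estimate with a uniform constant. -/
theorem schauder_unif {M : Set ℂ} (hM : AnalyticDomain M) :
    ∃ r > 0, ∃ K > 0, ∀ y ∈ M, ∀ z ∈ M, ‖y - z‖ < r → ∀ (v : ℂ → ℂ) (L A Ω : ℝ), 0 ≤ A → 0 ≤ Ω →
      (∀ y ∈ M, ∀ z ∈ M, ‖v y - v z‖ ≤ L * ‖y - z‖) → DivFree M v →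
      (∀ z ∈ interior M, DifferentiableAt ℝ v z) → (∀ z ∈ interior M, dvg v z = 0) →
      (∀ z ∈ M, ‖v z‖ ≤ A) → (∀ z ∈ interior M, |curl v z| ≤ Ω) →
      (∀ z ∈ interior M, ∀ w ∈ interior M, |curl v z - curl v w| ≤ Ω * ‖z - w‖ ^ (1 / 2 : ℝ)) →
      ‖v y - v z‖ ≤ K * (A + Ω) * ‖y - z‖ := by
  refine uniformize hM.compact (fun y z K => ∀ (v : ℂ → ℂ) (L A Ω : ℝ), 0 ≤ A → 0 ≤ Ω →
      (∀ y ∈ M, ∀ z ∈ M, ‖v y - v z‖ ≤ L * ‖y - z‖) → DivFree M v →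
      (∀ z ∈ interior M, DifferentiableAt ℝ v z) → (∀ z ∈ interior M, dvg v z = 0) →
      (∀ z ∈ M, ‖v z‖ ≤ A) → (∀ z ∈ interior M, |curl v z| ≤ Ω) →
      (∀ z ∈ interior M, ∀ w ∈ interior M, |curl v z - curl v w| ≤ Ω * ‖z - w‖ ^ (1 / 2 : ℝ)) →
      ‖v y - v z‖ ≤ K * (A + Ω) * ‖y - z‖) ?_ ?_
  · intro y z K K' hK hKK v L A Ω hA hΩ h1 h2 h3 h4 h5 h6 h7
    refine (hK v L A Ω hA hΩ h1 h2 h3 h4 h5 h6 h7).trans ?_
    have h8 : 0 ≤ A + Ω := by linarith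
    gcongr
  · intro x hx
    by_cases hxi : x ∈ interior M
    · obtain ⟨r, hr, K, -, hK⟩ := schauder_int hxi
      exact ⟨r, hr, K, fun y hy z hz hyx hzx v L A Ω hA hΩ h1 _ h3 h4 h5 h6 h7 =>
        hK v L A Ω hA hΩ h1 h3 h4 h5 h6 h7 y hy z hz hyx hzx⟩
    · obtain ⟨ψ, φ, a, C, r, R, hP⟩ := bpatch hM hx hxi
      obtain ⟨K, -, hK⟩ := schauder_bdry hM.compact hP
      exact ⟨r, hP.hr, K, fun y hy z hz hyx hzx v L A Ω hA hΩ h1 h2 h3 h4 h5 h6 h7 =>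
        hK v L A Ω hA hΩ h1 h2 h3 h4 h5 h6 h7 y hy z hz hyx hzx⟩

theorem schauder {M : Set ℂ} (hM : AnalyticDomain M) :
    ∃ K > 0, ∀ (v : ℂ → ℂ) (L Ω E : ℝ), 0 ≤ Ω → 0 ≤ E →
      (∀ y ∈ M, ∀ z ∈ M, ‖v y - v z‖ ≤ L * ‖y - z‖) → DivFree M v →
      (∀ z ∈ interior M, DifferentiableAt ℝ v z) →
      ContinuousOn (fun z => fderiv ℝ v z) (interior M) →
      (∀ z ∈ interior M, |curl v z| ≤ Ω) →
      (∀ z ∈ interior M, ∀ w ∈ interior M, |curl v z - curl v w| ≤ Ω * ‖z - w‖ ^ (1 / 2 : ℝ)) →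
      ∫ z in interior M, ‖v z‖ ^ 2 ≤ E ^ 2 →
      ∀ y ∈ M, ∀ z ∈ M, ‖v y - v z‖ ≤ K * (Ω + E) * ‖y - z‖ := by
  obtain ⟨r₀, hr₀, K₀, hK₀, hloc⟩ := schauder_unif hM
  set ρ : ℝ := min r₀ (1 / (2 * K₀)) with hρdef
  have hρ : 0 < ρ := lt_min hr₀ (by positivity)
  have hρ1 : ρ ≤ r₀ := min_le_left _ _
  have hρ2 : ρ * K₀ ≤ 1 / 2 := by
    have h1 : ρ ≤ 1 / (2 * K₀) := min_le_right _ _
    calc ρ * K₀ ≤ 1 / (2 * K₀) * K₀ := mul_le_mul_of_nonneg_right h1 hK₀.le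
      _ = 1 / 2 := by field_simp
  obtain ⟨C, hC, hint⟩ := interp hM hρ
  obtain ⟨K₁, hK₁, hglob⟩ := lip_global hM hρ
  refine ⟨K₁ * (2 * K₀ + 2 * K₀ * C + 1), by positivity, ?_⟩
  intro v L Ω E hΩ hE hlip hdiv hdiff hfc hcurl hcurlH hE2 y hy z hz
  have hcont : ContinuousOn v M := by
    have h1 : LipschitzOnWith (Real.toNNReal L) v M := by
      refine LipschitzOnWith.of_dist_le_mul (fun x hx y hy => ?_)
      rw [dist_eq_norm, dist_eq_norm]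
      refine (hlip x hx y hy).trans ?_
      gcongr
      exact Real.le_coe_toNNReal L
    exact h1.continuousOn
  have hdvg := dvg_zero hM.compact hcont hdiv hdiff hfc
  obtain ⟨x₀, hx₀, hmax⟩ := hM.compact.exists_isMaxOn ⟨y, hy⟩ hcont.norm
  set A : ℝ := ‖v x₀‖ with hA
  have hA0 : 0 ≤ A := norm_nonneg _
  have hbd : ∀ z ∈ M, ‖v z‖ ≤ A := fun z hz => hmax hz
  have hl : ∀ x ∈ M, ∀ y ∈ M, ‖x - y‖ < ρ → ‖v x - v y‖ ≤ K₀ * (A + Ω) * ‖x - y‖ := by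
    intro x hx y hy hxy
    exact hloc x hx y hy (hxy.trans_le hρ1) v L A Ω hA0 hΩ hlip hdiv hdiff hdvg hbd hcurl hcurlH
  have hL0 : 0 ≤ K₀ * (A + Ω) := by positivity
  have h1 := hint v (K₀ * (A + Ω)) E hL0 hE hcont hl hE2 x₀ hx₀
  have h2 : A ≤ Ω + 2 * C * E := by
    have h3 : ρ * (K₀ * (A + Ω)) ≤ 1 / 2 * (A + Ω) := by
      rw [← mul_assoc]
      exact mul_le_mul_of_nonneg_right hρ2 (by linarith)
    linarith
  refine ((hglob v (K₀ * (A + Ω)) E hL0 hE hcont hl hE2).2 y hy z hz).trans ?_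
  have h4 : K₀ * (A + Ω) + E ≤ (2 * K₀ + 2 * K₀ * C + 1) * (Ω + E) := by
    have h5 : K₀ * (A + Ω) ≤ K₀ * (2 * Ω + 2 * C * E) := mul_le_mul_of_nonneg_left (by linarith) hK₀.le
    have h6 : 0 ≤ K₀ * E := by positivity
    have h7 : 0 ≤ K₀ * C * Ω := by positivity
    nlinarith
  calc K₁ * (K₀ * (A + Ω) + E) * ‖y - z‖
      ≤ K₁ * ((2 * K₀ + 2 * K₀ * C + 1) * (Ω + E)) * ‖y - z‖ := by gcongr
    _ = K₁ * (2 * K₀ + 2 * K₀ * C + 1) * (Ω + E) * ‖y - z‖ := by ring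

end Pool.Agent.EAC.PA
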