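import Pool.Agent.EAC.PA.ATan

/-!
# EAC-A-FINT: interior points stay interior points

`Z = {t ∈ [0,1] | X t x ∉ interior M}` is closed. It is open in `[0,1]`: let `t₀ ∈ Z`, `x₀ = X t₀ x`, `bpatch` at `x₀`: for `t ∈ [0,1]` near `t₀`
put `ζ t = φ (X t x)` (`ζ t₀ = 0`, `‖ζ t‖ < a`, `ψ (ζ t) = X t x`, `0 ≤ Im ζ t`), `y t = Im (ζ t)`;
`ζ' = φ'(X) v(t, X) = V(t, ζ)`, `V(t, ζ) = v t (ψ ζ) / ψ' ζ` (`φ' (ψ ζ) = 1/ψ' ζ`), and `Im V(t, Re ζ) = 0` (`tangent`), `V(t, ·)` is Lipschitz on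
the half disc with constant `L'` independent of `t` (Lipschitz quotient; `‖v‖ ≤ A`), so
`|y'| ≤ L' y`, `y t₀ = 0`; Gronwall in both directions (`y e^{-L' t}` antitone, `y e^{L' t}` monotone) gives `y = 0` near `t₀`, i.e.
`X t x ∉ interior M` (`bdI`). `[0,1]` is preconnected (`isPreconnected_Icc`).
-/

set_option autoImplicit false

noncomputable section

namespace Pool.Agent.EAC.PA

open MeasureTheory Set Filter Topology Metric
open scoped ENNReal ComplexConjugate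

private theorem zero_near {D : Set ℝ} (hD : Convex ℝ D) {y y' : ℝ → ℝ} {K t0 : ℝ} (ht0 : t0 ∈ D)
    (hd : ∀ t ∈ D, HasDerivWithinAt y (y' t) D t) (hy : ∀ t ∈ D, 0 ≤ y t)
    (hb : ∀ t ∈ D, |y' t| ≤ K * y t) (h0 : y t0 = 0) : ∀ t ∈ D, y t = 0 := by
  have hc : ContinuousOn y D := fun t ht => (hd t ht).continuousWithinAt
  have hda : ∀ t ∈ interior D, HasDerivAt y (y' t) t := fun t ht =>
    (hd t (interior_subset ht)).hasDerivAt (mem_interior_iff_mem_nhds.1 ht)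
  have hexp : ∀ (c t : ℝ), HasDerivAt (fun t : ℝ => Real.exp (c * t)) (Real.exp (c * t) * c) t := by
    intro c t
    have h1 : HasDerivAt (fun t : ℝ => c * t) c t := by
      simpa using (hasDerivAt_id t).const_mul c
    exact h1.exp
  have hprod : ∀ (c t : ℝ), t ∈ interior D → HasDerivAt (fun t : ℝ => y t * Real.exp (c * t))
      (y' t * Real.exp (c * t) + y t * (Real.exp (c * t) * c)) t :=
    fun c t ht => (hda t ht).mul (hexp c t)
  have hcont : ∀ c : ℝ, ContinuousOn (fun t : ℝ => y t * Real.exp (c * t)) D := by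
    intro c
    apply hc.mul
    fun_prop
  intro t ht
  apply le_antisymm _ (hy t ht)
  rcases le_total t0 t with h | h
  · have hanti : AntitoneOn (fun t : ℝ => y t * Real.exp (-K * t)) D := by
      apply antitoneOn_of_deriv_nonpos hD (hcont _)
      · intro s hs
        exact (hprod _ s hs).differentiableAt.differentiableWithinAt
      · intro s hs
        rw [(hprod _ s hs).deriv]
        have h1 := hb s (interior_subset hs)
        have h2 := le_abs_self (y' s)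
        have h3 := Real.exp_pos (-K * s)
        have h4 : y' s * Real.exp (-K * s) + y s * (Real.exp (-K * s) * -K) =
            (y' s - K * y s) * Real.exp (-K * s) := by ring
        rw [h4]
        exact mul_nonpos_of_nonpos_of_nonneg (by linarith) h3.le
    have h5 := hanti ht0 ht h
    simp only [h0, zero_mul] at h5
    have h3 := Real.exp_pos (-K * t)
    by_contra hcon
    push Not at hcon
    have := mul_pos hcon h3
    linarith
  · have hmono : MonotoneOn (fun t : ℝ => y t * Real.exp (K * t)) D := by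
      apply monotoneOn_of_deriv_nonneg hD (hcont _)
      · intro s hs
        exact (hprod _ s hs).differentiableAt.differentiableWithinAt
      · intro s hs
        rw [(hprod _ s hs).deriv]
        have h1 := hb s (interior_subset hs)
        have h2 := neg_abs_le (y' s)
        have h3 := Real.exp_pos (K * s)
        have h4 : y' s * Real.exp (K * s) + y s * (Real.exp (K * s) * K) =
            (y' s + K * y s) * Real.exp (K * s) := by ring
        rw [h4]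
        exact mul_nonneg (by linarith) h3.le
    have h5 := hmono ht ht0 h
    simp only [h0, zero_mul] at h5
    have h3 := Real.exp_pos (K * t)
    by_contra hcon
    push Not at hcon
    have := mul_pos hcon h3
    linarith

/-- derivative of the inverse chart -/
private theorem deriv_inv {M : Set ℂ} {x : ℂ} {ψ φ : ℂ → ℂ} {a C r R : ℝ}
    (hP : BPatch M x ψ φ a C r R) {ζ : ℂ} (hζ : ζ ∈ ball (0 : ℂ) (16 * a)) :
    deriv φ (ψ ζ) = (deriv ψ ζ)⁻¹ := by
  have h1 : HasDerivAt ψ (deriv ψ ζ) ζ :=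
    (hP.holo.differentiableAt (isOpen_ball.mem_nhds hζ)).hasDerivAt
  have h2 : HasDerivAt φ (deriv φ (ψ ζ)) (ψ ζ) :=
    (hP.φd.differentiableAt (isOpen_ball.mem_nhds (hP.φψ ζ hζ).1)).hasDerivAt
  have h3 : HasDerivAt (fun ξ => φ (ψ ξ)) (deriv φ (ψ ζ) * deriv ψ ζ) ζ := h2.comp ζ h1
  have h4 : HasDerivAt (fun ξ => φ (ψ ξ)) 1 ζ := by
    refine (hasDerivAt_id ζ).congr_of_eventuallyEq ?_
    filter_upwards [isOpen_ball.mem_nhds hζ] with ξ hξ
    exact (hP.φψ ξ hξ).2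
  have h5 := h3.unique h4
  exact eq_inv_of_mul_eq_one_left h5

/-- the field in the chart -/
private theorem field_im {M : Set ℂ} (hM : AnalyticDomain M) {x : ℂ} {ψ φ : ℂ → ℂ}
    {a C r R L : ℝ} (hL : 0 ≤ L) (hP : BPatch M x ψ φ a C r R) {v : ℂ → ℂ}
    (hlip : ∀ x ∈ M, ∀ y ∈ M, ‖v x - v y‖ ≤ L * ‖x - y‖) (hbd : ∀ x ∈ M, ‖v x‖ ≤ L)
    (hd : DivFree M v) {ζ : ℂ} (hζ : ‖ζ‖ < 16 * a) (hi : 0 ≤ ζ.im) :
    |(v (ψ ζ) / deriv ψ ζ).im| ≤ (L * C ^ 2 + L * C ^ 3) * ζ.im := by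
  have hC0 : 0 < C := by linarith [hP.hC]
  have hv : ContinuousOn v M := by
    apply LipschitzOnWith.continuousOn (K := ⟨L, hL⟩)
    apply LipschitzOnWith.of_dist_le_mul
    intro x hx y hy
    rw [dist_eq_norm, dist_eq_norm]
    exact hlip x hx y hy
  have hζb : ζ ∈ ball (0 : ℂ) (16 * a) := by rwa [mem_ball_zero_iff]
  have hre : |ζ.re| < 16 * a := (Complex.abs_re_le_norm ζ).trans_lt hζ
  have hsb : (ζ.re : ℂ) ∈ ball (0 : ℂ) (16 * a) := by
    rw [mem_ball_zero_iff, Complex.norm_real, Real.norm_eq_abs]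
    exact hre
  have htan := tangent hM.compact hP hv hd ζ.re hre
  have hdist : ‖ζ - (ζ.re : ℂ)‖ = ζ.im := by
    have : ζ - (ζ.re : ℂ) = (ζ.im : ℂ) * Complex.I := by
      apply Complex.ext <;> simp
    rw [this, norm_mul, Complex.norm_I, mul_one, Complex.norm_real, Real.norm_of_nonneg hi]
  have hζM : ψ ζ ∈ M := hP.inM ζ hζb hi
  have hsM : ψ (ζ.re : ℂ) ∈ M := hP.inM _ hsb (by simp)
  have hl1 := hP.low ζ hζb
  have hl2 := hP.low _ hsb
  have hn1 : 0 < ‖deriv ψ ζ‖ := by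
    by_contra hcon
    push Not at hcon
    have : ‖deriv ψ ζ‖ = 0 := le_antisymm hcon (norm_nonneg _)
    rw [this] at hl1
    linarith
  have hn2 : 0 < ‖deriv ψ (ζ.re : ℂ)‖ := by
    by_contra hcon
    push Not at hcon
    have : ‖deriv ψ (ζ.re : ℂ)‖ = 0 := le_antisymm hcon (norm_nonneg _)
    rw [this] at hl2
    linarith
  have hi1 : ‖(deriv ψ ζ)⁻¹‖ ≤ C := by
    rw [norm_inv]
    exact inv_le_of_inv_le₀ hC0 (by
      rw [inv_eq_one_div, div_le_iff₀ hC0, mul_comm]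
      exact hl1)
  have hi2 : ‖(deriv ψ (ζ.re : ℂ))⁻¹‖ ≤ C := by
    rw [norm_inv]
    exact inv_le_of_inv_le₀ hC0 (by
      rw [inv_eq_one_div, div_le_iff₀ hC0, mul_comm]
      exact hl2)
  have hdd : ‖deriv ψ (ζ.re : ℂ) - deriv ψ ζ‖ ≤ C * ‖(ζ.re : ℂ) - ζ‖ := by
    have hhol : DifferentiableOn ℂ (deriv ψ) (ball 0 (16 * a)) := hP.holo.deriv isOpen_ball
    exact Convex.norm_image_sub_le_of_norm_deriv_le
      (fun ξ hξ => hhol.differentiableAt (isOpen_ball.mem_nhds hξ)) hP.upp2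
      (convex_ball (0 : ℂ) (16 * a)) hζb hsb
  rw [norm_sub_rev (ζ.re : ℂ) ζ, hdist] at hdd
  have hvv : ‖v (ψ ζ) - v (ψ (ζ.re : ℂ))‖ ≤ L * (C * ζ.im) := by
    refine (hlip _ hζM _ hsM).trans (mul_le_mul_of_nonneg_left ?_ hL)
    have := (hP.bilip ζ hζb _ hsb).2
    rwa [hdist] at this
  have hinv : (deriv ψ ζ)⁻¹ - (deriv ψ (ζ.re : ℂ))⁻¹ =
      (deriv ψ ζ)⁻¹ * (deriv ψ (ζ.re : ℂ) - deriv ψ ζ) * (deriv ψ (ζ.re : ℂ))⁻¹ := by
    have e1 : deriv ψ ζ ≠ 0 := norm_pos_iff.1 hn1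
    have e2 : deriv ψ (ζ.re : ℂ) ≠ 0 := norm_pos_iff.1 hn2
    field_simp
  have hinv2 : ‖(deriv ψ ζ)⁻¹ - (deriv ψ (ζ.re : ℂ))⁻¹‖ ≤ C ^ 3 * ζ.im := by
    rw [hinv, norm_mul, norm_mul]
    calc ‖(deriv ψ ζ)⁻¹‖ * ‖deriv ψ (ζ.re : ℂ) - deriv ψ ζ‖ * ‖(deriv ψ (ζ.re : ℂ))⁻¹‖
        ≤ C * (C * ζ.im) * C := by
          apply mul_le_mul _ hi2 (norm_nonneg _) (by positivity)
          exact mul_le_mul hi1 hdd (norm_nonneg _) hC0.le
      _ = C ^ 3 * ζ.im := by ring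
  have hsplit : v (ψ ζ) / deriv ψ ζ - v (ψ (ζ.re : ℂ)) / deriv ψ (ζ.re : ℂ) =
      (v (ψ ζ) - v (ψ (ζ.re : ℂ))) * (deriv ψ ζ)⁻¹ +
        v (ψ (ζ.re : ℂ)) * ((deriv ψ ζ)⁻¹ - (deriv ψ (ζ.re : ℂ))⁻¹) := by
    rw [div_eq_mul_inv, div_eq_mul_inv]
    ring
  calc |(v (ψ ζ) / deriv ψ ζ).im|
      = |(v (ψ ζ) / deriv ψ ζ - v (ψ (ζ.re : ℂ)) / deriv ψ (ζ.re : ℂ)).im| := by
        rw [Complex.sub_im, htan, sub_zero]
    _ ≤ ‖v (ψ ζ) / deriv ψ ζ - v (ψ (ζ.re : ℂ)) / deriv ψ (ζ.re : ℂ)‖ :=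
        Complex.abs_im_le_norm _
    _ ≤ ‖(v (ψ ζ) - v (ψ (ζ.re : ℂ))) * (deriv ψ ζ)⁻¹‖ +
        ‖v (ψ (ζ.re : ℂ)) * ((deriv ψ ζ)⁻¹ - (deriv ψ (ζ.re : ℂ))⁻¹)‖ := by
        rw [hsplit]
        exact norm_add_le _ _
    _ ≤ L * (C * ζ.im) * C + L * (C ^ 3 * ζ.im) := by
        rw [norm_mul, norm_mul]
        apply add_le_add
        · exact mul_le_mul hvv hi1 (norm_nonneg _) (by positivity)
        · exact mul_le_mul (hbd _ hsM) hinv2 (norm_nonneg _) hL
    _ = (L * C ^ 2 + L * C ^ 3) * ζ.im := by ring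

theorem flow_interior {M : Set ℂ} (hM : AnalyticDomain M) {v : ℝ → ℂ → ℂ} {X : ℝ → ℂ → ℂ} {L : ℝ}
    (hX : IsFlow M 1 v X)
    (hlip : ∀ t ∈ Icc (0 : ℝ) 1, ∀ x ∈ M, ∀ y ∈ M, ‖v t x - v t y‖ ≤ L * ‖x - y‖)
    (hbd : ∀ t ∈ Icc (0 : ℝ) 1, ∀ x ∈ M, ‖v t x‖ ≤ L)
    (hdiv : ∀ t ∈ Icc (0 : ℝ) 1, DivFree M (v t)) {x : ℂ} (hx : x ∈ M) :
    ∀ t ∈ Icc (0 : ℝ) 1, (X t x ∈ interior M ↔ x ∈ interior M) := by
  have h01 : (0 : ℝ) ∈ Icc (0 : ℝ) 1 := ⟨le_rfl, zero_le_one⟩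
  have hL : 0 ≤ L := (norm_nonneg _).trans (hbd 0 h01 x hx)
  have hXM : ∀ t ∈ Icc (0 : ℝ) 1, X t x ∈ M := fun t ht => (hX.bij t ht).mapsTo hx
  have hXc : ContinuousOn (fun t => X t x) (Icc (0 : ℝ) 1) :=
    fun t ht => (hX.deriv t ht x hx).continuousWithinAt
  have key : ∀ t0 ∈ Icc (0 : ℝ) 1, ∀ᶠ t in 𝓝[Icc (0 : ℝ) 1] t0,
      (X t0 x ∈ interior M ↔ X t x ∈ interior M) := by
    intro t0 ht0
    by_cases hint : X t0 x ∈ interior M
    · have := (hXc t0 ht0).eventually (isOpen_interior.mem_nhds hint)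
      filter_upwards [this] with t ht
      exact ⟨fun _ => ht, fun _ => hint⟩
    · obtain ⟨ψ, φ, a, C, r, R, hP⟩ := bpatch hM (hXM t0 ht0) hint
      obtain ⟨δ, hδ, hball⟩ : ∃ δ > 0, ∀ t ∈ Icc (0 : ℝ) 1, |t - t0| < δ →
          X t x ∈ ball (X t0 x) r := by
        have := Metric.continuousWithinAt_iff.1 (hXc t0 ht0) r hP.hr
        obtain ⟨δ, hδ, h⟩ := this
        exact ⟨δ, hδ, fun t ht hd => h ht (by rwa [Real.dist_eq])⟩
      set D : Set ℝ := Icc (0 : ℝ) 1 ∩ ball t0 δ with hDdef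
      have hDc : Convex ℝ D := (convex_Icc 0 1).inter (convex_ball t0 δ)
      have hmem : ∀ t ∈ D, X t x ∈ ball (X t0 x) r := by
        intro t ht
        apply hball t ht.1
        have := ht.2
        rwa [mem_ball, Real.dist_eq] at this
      have ht0D : t0 ∈ D := ⟨ht0, mem_ball_self hδ⟩
      have hζn : ∀ t ∈ D, ‖φ (X t x)‖ < 16 * a := by
        intro t ht
        have h1 := (hP.ψφ _ (hmem t ht)).1
        have := hP.ha
        linarith
      have hψζ : ∀ t ∈ D, ψ (φ (X t x)) = X t x := fun t ht => (hP.ψφ _ (hmem t ht)).2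
      have hζb : ∀ t ∈ D, φ (X t x) ∈ ball (0 : ℂ) (16 * a) := by
        intro t ht
        rw [mem_ball_zero_iff]
        exact hζn t ht
      have hζi : ∀ t ∈ D, 0 ≤ (φ (X t x)).im := by
        intro t ht
        apply (hP.bd _ (hζb t ht)).1
        rw [hψζ t ht]
        exact hXM t ht.1
      have hdint : ∀ t ∈ D, (X t x ∈ interior M ↔ 0 < (φ (X t x)).im) := by
        intro t ht
        have := hP.bdI _ (hζb t ht)
        rwa [hψζ t ht] at this
      have hder : ∀ t ∈ D, HasDerivWithinAt (fun τ => (φ (X τ x)).im)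
          ((v t (ψ (φ (X t x))) / deriv ψ (φ (X t x))).im) D t := by
        intro t ht
        have h1 : HasDerivWithinAt (fun τ => X τ x) (v t (X t x)) D t :=
          (hX.deriv t ht.1 x hx).mono inter_subset_left
        have hxR : X t x ∈ ball (X t0 x) R := ball_subset_ball hP.hrR (hmem t ht)
        have h2 : HasDerivAt φ (deriv φ (X t x)) (X t x) :=
          (hP.φd.differentiableAt (isOpen_ball.mem_nhds hxR)).hasDerivAt
        have h3 := h2.complexToReal_fderiv.comp_hasDerivWithinAt t h1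
        have h4 := (Complex.imCLM.hasFDerivAt (x := φ (X t x))).comp_hasDerivWithinAt t h3
        have h5 : deriv φ (X t x) = (deriv ψ (φ (X t x)))⁻¹ := by
          have := deriv_inv hP (hζb t ht)
          rwa [hψζ t ht] at this
        have h6 : Complex.imCLM ((deriv φ (X t x) • (1 : ℂ →L[ℝ] ℂ)) (v t (X t x))) =
            (v t (ψ (φ (X t x))) / deriv ψ (φ (X t x))).im := by
          rw [hψζ t ht, h5, div_eq_mul_inv, mul_comm (v t (X t x))]
          simp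
        rw [h6] at h4
        exact h4
      have hbound : ∀ t ∈ D, |(v t (ψ (φ (X t x))) / deriv ψ (φ (X t x))).im| ≤
          (L * C ^ 2 + L * C ^ 3) * (φ (X t x)).im := fun t ht =>
        field_im hM hL hP (hlip t ht.1) (hbd t ht.1) (hdiv t ht.1) (hζn t ht) (hζi t ht)
      have h0 : (φ (X t0 x)).im = 0 := by
        apply le_antisymm _ (hζi t0 ht0D)
        by_contra hcon
        push Not at hcon
        exact hint ((hdint t0 ht0D).2 hcon)
      have hzero := zero_near hDc ht0D hder hζi hbound h0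
      have hev : ∀ᶠ t in 𝓝[Icc (0 : ℝ) 1] t0, t ∈ D :=
        inter_mem_nhdsWithin _ (ball_mem_nhds t0 hδ)
      filter_upwards [hev] with t ht
      constructor
      · intro h
        exact absurd h hint
      · intro h
        have := (hdint t ht).1 h
        rw [hzero t ht] at this
        exact absurd this (lt_irrefl _)
  intro t ht
  have := isPreconnected_Icc.induction₂ (fun s t => (X s x ∈ interior M ↔ X t x ∈ interior M))
    key (fun _ _ _ _ _ _ h1 h2 => h1.trans h2) (fun _ _ _ _ h => h.symm) ht h01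
  rwa [hX.init x hx] at this

end Pool.Agent.EAC.PA
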