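import Pool.Agent.EAC.PA.ACirc
import Pool.Agent.EAC.PA.AFint
import Pool.Agent.EAC.PA.ADiv

/-!
# EAC-A-VORT: the vorticity is transported

`c t = X t x` stays in `interior M` (`flow_interior`), the curve is compact, so `closedBall (c t) r ⊆ interior M` for `r ≤ r₀`;
`circ_moving`, `circ_approx` (twice), divide by `π r²`, `r → 0`.
`dvg = 0` from `dvg_zero` (`fderiv` is Hölder, hence continuous on `interior M`).
-/

set_option autoImplicit false

noncomputable section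

namespace Pool.Agent.EAC.PA

open MeasureTheory Set Filter Topology Metric
open scoped ENNReal ComplexConjugate

theorem vorticity {M : Set ℂ} (hM : AnalyticDomain M) {s : ℕ} {v : ℝ → ℂ → ℂ} {X : ℝ → ℂ → ℂ} {L : ℝ}
    (hE : IsEuler M s 1 v) (hR : Reg M v L) (hX : IsFlow M 1 v X) {x : ℂ} (hx : x ∈ interior M) :
    ∀ t ∈ Icc (0 : ℝ) 1, curl (v t) (X t x) = curl (v 0) x := by
  intro t ht
  have h01 : (0 : ℝ) ∈ Icc (0 : ℝ) 1 := ⟨le_refl _, zero_le_one⟩
  have hL := hR.hL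
  have hxM : x ∈ M := interior_subset hx
  have hcint : ∀ t ∈ Icc (0 : ℝ) 1, X t x ∈ interior M := fun t ht =>
    (flow_interior hM hX hR.lip hR.bd hE.divfree hxM t ht).mpr hx
  have hcd : ∀ t ∈ Icc (0 : ℝ) 1,
      HasDerivWithinAt (fun τ => X τ x) (v t (X t x)) (Icc 0 1) t := fun t ht => hX.deriv t ht x hxM
  have hcont : ContinuousOn (fun τ => X τ x) (Icc 0 1) := fun t ht => (hcd t ht).continuousWithinAt
  have hK : IsCompact ((fun τ => X τ x) '' Icc (0 : ℝ) 1) := isCompact_Icc.image_of_continuousOn hcont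
  have hKsub : ((fun τ => X τ x) '' Icc (0 : ℝ) 1) ⊆ interior M := by
    rintro _ ⟨τ, hτ, rfl⟩
    exact hcint τ hτ
  obtain ⟨r0, hr0, hthick⟩ := hK.exists_cthickening_subset_open isOpen_interior hKsub
  have hball : ∀ r, r ≤ r0 → ∀ t ∈ Icc (0 : ℝ) 1, closedBall (X t x) r ⊆ interior M := by
    intro r hr t ht
    have h1 : closedBall (X t x) r0 ⊆ cthickening r0 ((fun τ => X τ x) '' Icc (0 : ℝ) 1) :=
      closedBall_subset_cthickening (mem_image_of_mem (fun τ => X τ x) ht) r0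
    exact (closedBall_subset_closedBall hr).trans (h1.trans hthick)
  have hfc : ∀ t ∈ Icc (0 : ℝ) 1, ContinuousOn (fun z => fderiv ℝ (v t) z) (interior M) := by
    intro t ht z hz
    rw [Metric.continuousWithinAt_iff]
    intro e he
    refine ⟨(e / (L + 1)) ^ 2, by positivity, fun {w} hw hwz => ?_⟩
    rw [dist_eq_norm] at hwz ⊢
    have h1 := hR.hol t ht w hw z hz
    have h2 : ‖w - z‖ ^ (1 / 2 : ℝ) < e / (L + 1) := by
      have h3 : ((e / (L + 1)) ^ 2) ^ (1 / 2 : ℝ) = e / (L + 1) := by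
        rw [← Real.sqrt_eq_rpow, Real.sqrt_sq (by positivity)]
      rw [← h3]
      exact Real.rpow_lt_rpow (norm_nonneg _) hwz (by norm_num)
    have h4 : L * ‖w - z‖ ^ (1 / 2 : ℝ) ≤ L * (e / (L + 1)) :=
      mul_le_mul_of_nonneg_left h2.le hL
    have h5 : L * (e / (L + 1)) < e := by
      rw [mul_div_assoc', div_lt_iff₀ (by positivity)]
      nlinarith
    linarith
  have hdiv : ∀ t ∈ Icc (0 : ℝ) 1, ∀ z ∈ interior M, dvg (v t) z = 0 := fun t ht =>
    dvg_zero hM.compact (hE.cont t ht) (hE.divfree t ht) (hR.diff t ht) (hfc t ht)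
  obtain ⟨p, K, hp⟩ := hE.momentum
  have happ : ∀ r, 0 < r → r ≤ r0 → ∀ t ∈ Icc (0 : ℝ) 1,
      |circ (v t) (X t x) r - Real.pi * r ^ 2 * curl (v t) (X t x)| ≤
        2 * Real.pi * L * r ^ (5 / 2 : ℝ) := by
    intro r hr hr1 t ht
    refine circ_approx hr hL (fun z hz => hR.diff t ht z (hball r hr1 t ht hz)) (fun z hz => ?_)
    exact hR.hol t ht z (hball r hr1 t ht hz) _ (hcint t ht)
  have hmove : ∀ r, 0 < r → r ≤ r0 → |circ (v t) (X t x) r - circ (v 0) (X 0 x) r| ≤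
      4 * Real.pi * L ^ 2 * r ^ (5 / 2 : ℝ) := by
    intro r hr hr1
    exact circ_moving hR (fun t ht => (hp t ht).1) (fun t ht z hz => ((hp t ht).2 z hz).1)
      (fun t ht z hz => ((hp t ht).2 z hz).2) hdiv (c := fun τ => X τ x) hr (hball r hr1) hcd t ht
  rw [← hX.init x hxM]
  nth_rewrite 2 [hX.init x hxM]
  set Δ := curl (v t) (X t x) - curl (v 0) (X 0 x) with hΔ
  have hbound : ∀ r, 0 < r → r ≤ r0 → |Δ| ≤ (4 * L ^ 2 + 4 * L) * r ^ (1 / 2 : ℝ) := by
    intro r hr hr1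
    have h1 := happ r hr hr1 t ht
    have h2 := happ r hr hr1 0 h01
    have h3 := hmove r hr hr1
    have h4 : Real.pi * r ^ 2 * |Δ| ≤
        (4 * Real.pi * L ^ 2 + 4 * Real.pi * L) * r ^ (5 / 2 : ℝ) := by
      have h5 : Real.pi * r ^ 2 * |Δ| = |Real.pi * r ^ 2 * Δ| := by
        rw [abs_mul, abs_of_pos (by positivity : 0 < Real.pi * r ^ 2)]
      rw [h5, hΔ]
      rw [abs_le] at h1 h2 h3 ⊢
      constructor <;> nlinarith [h1.1, h1.2, h2.1, h2.2, h3.1, h3.2]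
    have h6 : r ^ (5 / 2 : ℝ) = r ^ 2 * r ^ (1 / 2 : ℝ) := by
      rw [← Real.rpow_natCast, ← Real.rpow_add hr]
      norm_num
    rw [h6] at h4
    have hpos : 0 < Real.pi * r ^ 2 := by positivity
    refine le_of_mul_le_mul_left ?_ hpos
    refine h4.trans (le_of_eq ?_)
    ring
  have hzero : |Δ| ≤ 0 := by
    have hT : Tendsto (fun r : ℝ => (4 * L ^ 2 + 4 * L) * r ^ (1 / 2 : ℝ)) (𝓝[>] 0) (𝓝 0) := by
      have h1 : Tendsto (fun r : ℝ => r ^ (1 / 2 : ℝ)) (𝓝[>] 0) (𝓝 0) := by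
        have h2 : ContinuousAt (fun r : ℝ => r ^ (1 / 2 : ℝ)) 0 :=
          Real.continuousAt_rpow_const 0 (1 / 2) (Or.inr (by norm_num))
        have h3 := h2.tendsto
        rw [Real.zero_rpow (by norm_num)] at h3
        exact h3.mono_left nhdsWithin_le_nhds
      simpa using h1.const_mul (4 * L ^ 2 + 4 * L)
    refine ge_of_tendsto hT ?_
    have : Ioc 0 r0 ∈ 𝓝[>] (0 : ℝ) := Ioc_mem_nhdsGT hr0
    filter_upwards [this] with r hr
    exact hbound r hr.1 hr.2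
  have h0 : Δ = 0 := abs_eq_zero.mp (le_antisymm hzero (abs_nonneg _))
  rw [hΔ] at h0
  rw [hX.init x hxM] at h0 ⊢
  linarith

end Pool.Agent.EAC.PA
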