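import Pool.Agent.EAC.PA.AReg
import Pool.Agent.EAC.PA.ASch
import Pool.Agent.EAC.PA.AEner
import Pool.Agent.EAC.PA.AVort
import Pool.Agent.EAC.PA.AEll
import Pool.Agent.EAC.PA.AGron

/-!
# EAC, PART A: assembly (`A_main`)
-/

set_option autoImplicit false

noncomputable section

namespace Pool.Agent.EAC.PA

open MeasureTheory Set Filter Topology Metric
open scoped ENNReal ComplexConjugate

theorem abs_curl_le (v : ℂ → ℂ) (z : ℂ) : |curl v z| ≤ 2 * ‖fderiv ℝ v z‖ := by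
  have h1 : ‖dx v z‖ ≤ ‖fderiv ℝ v z‖ := by
    simpa [dx] using (fderiv ℝ v z).le_opNorm 1
  have h2 : ‖dy v z‖ ≤ ‖fderiv ℝ v z‖ := by
    simpa [dy] using (fderiv ℝ v z).le_opNorm Complex.I
  have h3 := Complex.abs_im_le_norm (dx v z)
  have h4 := Complex.abs_re_le_norm (dy v z)
  unfold curl
  have := abs_sub (dx v z).im (dy v z).re
  linarith

theorem abs_curl_sub_le (v : ℂ → ℂ) (z w : ℂ) :
    |curl v z - curl v w| ≤ 2 * ‖fderiv ℝ v z - fderiv ℝ v w‖ := by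
  have h1 : ‖dx v z - dx v w‖ ≤ ‖fderiv ℝ v z - fderiv ℝ v w‖ := by
    simpa [dx] using (fderiv ℝ v z - fderiv ℝ v w).le_opNorm 1
  have h2 : ‖dy v z - dy v w‖ ≤ ‖fderiv ℝ v z - fderiv ℝ v w‖ := by
    simpa [dy] using (fderiv ℝ v z - fderiv ℝ v w).le_opNorm Complex.I
  have h3 := Complex.abs_im_le_norm (dx v z - dx v w)
  have h4 := Complex.abs_re_le_norm (dy v z - dy v w)
  rw [Complex.sub_im] at h3
  rw [Complex.sub_re] at h4
  unfold curl
  have e : (dx v z).im - (dy v z).re - ((dx v w).im - (dy v w).re) =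
      ((dx v z).im - (dx v w).im) - ((dy v z).re - (dy v w).re) := by ring
  rw [e]
  have := abs_sub ((dx v z).im - (dx v w).im) ((dy v z).re - (dy v w).re)
  linarith

theorem A_main {M : Set ℂ} (hM : AnalyticDomain M) {s : ℕ} (hs : 3 ≤ s) :
    ∃ K > 0, ∃ ε₀ > 0, ∀ ε : ℝ, 0 < ε → ε ≤ ε₀ → ∀ ξ ∈ expBall M s (ENNReal.ofReal ε),
      ∀ x ∈ M, ∀ y ∈ M, ‖x - y‖ ≤ Real.exp (K * ε) * ‖ξ x - ξ y‖ := by
  obtain ⟨C1, hC1, hsob⟩ := sobolev hM
  obtain ⟨C2, hC2, hsch⟩ := schauder hM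
  -- constant `A = D * ε`
  set D : ℝ := C2 * (2 * C1 + 1) with hD
  have hDpos : 0 < D := by positivity
  refine ⟨2 * D, by positivity, 1 / (2 * D), by positivity, ?_⟩
  rintro ε hε hε0 ξ ⟨v, X, hv, hn, hX, hξ⟩ x hx y hy
  obtain ⟨L, hR⟩ := reg_of_euler hM hs hv
  have h01 : (0 : ℝ) ∈ Icc (0 : ℝ) 1 := ⟨le_refl _, zero_le_one⟩
  have h11 : (1 : ℝ) ∈ Icc (0 : ℝ) 1 := ⟨zero_le_one, le_refl _⟩
  have hn3 : hsNorm M 3 (v 0) < ENNReal.ofReal ε := lt_of_le_of_lt (hsNorm_mono M (v 0) hs) hn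
  obtain ⟨s1, s2, s3, s4, s5⟩ := hsob (v 0) ε hε (hv.cont 0 h01) hn3
  have hE0 : ∫ z in interior M, ‖v 0 z‖ ^ 2 ≤ ε ^ 2 := l2_le hM.compact (hv.cont 0 h01) hε hn3
  set ℓ : ℝ → ℝ := fun t => ell M (v t) with hℓ
  have hspec : ∀ t ∈ Icc (0 : ℝ) 1, 0 ≤ ℓ t ∧ ∀ x ∈ M, ∀ y ∈ M, ‖v t x - v t y‖ ≤ ℓ t * ‖x - y‖ :=
    fun t ht => ell_spec ⟨L, hR.lip t ht⟩
  have hℓc : ContinuousOn ℓ (Icc 0 1) := ell_cont hR
  have hflow := fun (x y : ℂ) (hx : x ∈ M) (hy : y ∈ M) => flow_lower hX hℓc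
    (fun t ht => (hspec t ht).2) hx hy
  have hint : ∀ t ∈ Icc (0 : ℝ) 1, 0 ≤ ∫ τ in (0 : ℝ)..t, ℓ τ := by
    intro t ht
    refine intervalIntegral.integral_nonneg ht.1 fun u hu => (hspec u ⟨hu.1, hu.2.trans ht.2⟩).1
  -- the key inequality
  have key : ∀ t ∈ Icc (0 : ℝ) 1, ℓ t ≤ D * ε * Real.exp (∫ τ in (0 : ℝ)..t, ℓ τ) := by
    intro t ht
    set y1 := ∫ τ in (0 : ℝ)..t, ℓ τ with hy1
    have hy1n : 0 ≤ y1 := hint t ht
    have he1 : 1 ≤ Real.exp y1 := Real.one_le_exp hy1n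
    -- every interior point is the image of an interior point
    have hpre : ∀ z ∈ interior M, ∃ x ∈ interior M, X t x = z := by
      intro z hz
      obtain ⟨x, hx, hxz⟩ := (hX.bij t ht).surjOn (interior_subset hz)
      refine ⟨x, ?_, hxz⟩
      have := flow_interior hM hX hR.lip hR.bd hv.divfree hx t ht
      rw [← this, hxz]
      exact hz
    have hvort : ∀ x ∈ interior M, curl (v t) (X t x) = curl (v 0) x := fun x hx =>
      vorticity hM hv hR hX hx t ht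
    have hcd : ContinuousOn (fun z => fderiv ℝ (v t) z) (interior M) := by
      intro z hz
      rw [Metric.continuousWithinAt_iff]
      intro e he
      refine ⟨(e / (L + 1)) ^ 2, by have := hR.hL; positivity, fun {w} hw hwz => ?_⟩
      rw [dist_eq_norm] at hwz ⊢
      have h1 := hR.hol t ht w hw z hz
      have hL := hR.hL
      have h2 : ‖w - z‖ ^ (1 / 2 : ℝ) < e / (L + 1) := by
        have h3 : ((e / (L + 1)) ^ 2) ^ (1 / 2 : ℝ) = e / (L + 1) := by
          rw [← Real.sqrt_eq_rpow, Real.sqrt_sq (by positivity)]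
        rw [← h3]
        exact Real.rpow_lt_rpow (norm_nonneg _) hwz (by norm_num)
      have h4 : L * ‖w - z‖ ^ (1 / 2 : ℝ) ≤ L * (e / (L + 1)) :=
        mul_le_mul_of_nonneg_left h2.le hL
      have h5 : L * (e / (L + 1)) < e := by
        rw [mul_div_assoc', div_lt_iff₀ (by positivity)]
        nlinarith
      linarith
    have hE : ∫ z in interior M, ‖v t z‖ ^ 2 ≤ (ε * Real.exp y1) ^ 2 := by
      rw [energy hM.compact hv hR t ht]
      refine hE0.trans ?_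
      apply pow_le_pow_left₀ hε.le
      nlinarith
    have hΩ1 : ∀ z ∈ interior M, |curl (v t) z| ≤ 2 * C1 * ε * Real.exp y1 := by
      intro z hz
      obtain ⟨x, hx, rfl⟩ := hpre z hz
      rw [hvort x hx]
      have h1 := abs_curl_le (v 0) x
      have h2 := s2 x hx
      have h3 : 0 ≤ C1 * ε := by positivity
      nlinarith
    have hΩ2 : ∀ z ∈ interior M, ∀ w ∈ interior M, |curl (v t) z - curl (v t) w| ≤
        2 * C1 * ε * Real.exp y1 * ‖z - w‖ ^ (1 / 2 : ℝ) := by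
      intro z hz w hw
      obtain ⟨x, hx, rfl⟩ := hpre z hz
      obtain ⟨x', hx', rfl⟩ := hpre w hw
      rw [hvort x hx, hvort x' hx']
      have h1 := abs_curl_sub_le (v 0) x x'
      have h2 := s3 x hx x' hx'
      have h3 := hflow x x' (interior_subset hx) (interior_subset hx') t ht
      have h4 : ‖x - x'‖ ^ (1 / 2 : ℝ) ≤ Real.exp y1 * ‖X t x - X t x'‖ ^ (1 / 2 : ℝ) := by
        have h5 := Real.rpow_le_rpow (norm_nonneg _) h3 (by norm_num : (0 : ℝ) ≤ 1 / 2)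
        rw [Real.mul_rpow (Real.exp_pos _).le (norm_nonneg _)] at h5
        refine h5.trans ?_
        apply mul_le_mul_of_nonneg_right _ (Real.rpow_nonneg (norm_nonneg _) _)
        calc (Real.exp y1) ^ (1 / 2 : ℝ) ≤ (Real.exp y1) ^ (1 : ℝ) :=
              Real.rpow_le_rpow_of_exponent_le he1 (by norm_num)
          _ = Real.exp y1 := Real.rpow_one _
      have h6 : 0 ≤ C1 * ε := by positivity
      have h7 := mul_le_mul_of_nonneg_left h4 h6
      linarith
    have hmain := hsch (v t) L (2 * C1 * ε * Real.exp y1) (ε * Real.exp y1)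
      (by positivity) (by positivity) (hR.lip t ht) (hv.divfree t ht) (hR.diff t ht) hcd hΩ1 hΩ2 hE
    have hle := ell_le (by positivity) hmain
    refine hle.trans (le_of_eq ?_)
    rw [hD]
    ring
  have hA2 : D * ε ≤ 1 / 2 := by
    have : D * ε ≤ D * (1 / (2 * D)) := mul_le_mul_of_nonneg_left hε0 hDpos.le
    refine this.trans (le_of_eq ?_)
    field_simp
  have hcl := closing hℓc (fun t ht => (hspec t ht).1) (by positivity) hA2 key
  rw [hξ hx, hξ hy]
  have h1 := hflow x y hx hy 1 h11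
  refine h1.trans ?_
  apply mul_le_mul_of_nonneg_right _ (norm_nonneg _)
  apply Real.exp_le_exp.mpr
  linarith

end Pool.Agent.EAC.PA
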