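import Pool.Agent.EAC.PA.ADefs

/-!
# EAC-A-CHAIN: derivatives of `F ∘ ψ`, `ψ` holomorphic

On the ball: `dx (F ∘ ψ) ζ = (ψ' ζ).re • dx F (ψ ζ) + (ψ' ζ).im • dy F (ψ ζ)`,
`dy (F ∘ ψ) ζ = -(ψ' ζ).im • dx F (ψ ζ) + (ψ' ζ).re • dy F (ψ ζ)` (`fderiv ψ ζ h = ψ' ζ * h`). Differentiate the first one:
`dy (dx (F ∘ ψ)) = ψ'.re • (-ψ'.im • F_xx + ψ'.re • F_yx) + ψ'.im • (-ψ'.im • F_xy + ψ'.re • F_yy) - ψ''.im • F_x + ψ''.re • F_y`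
(`∂_y ψ' = i ψ''`, real part `-ψ''.im`, imaginary part `ψ''.re`), `F_yx = F_xy`. `|re|, |im| ≤ ‖·‖ ≤ C`, `1 ≤ C`.
-/

set_option autoImplicit false

noncomputable section

namespace Pool.Agent.EAC.PA

open MeasureTheory Set Filter Topology Metric
open scoped ENNReal ComplexConjugate

private theorem fderiv_split (u : ℂ → ℂ) (z h : ℂ) : fderiv ℝ u z h = h.re • dx u z + h.im • dy u z := by
  have h1 : h = h.re • (1 : ℂ) + h.im • Complex.I := by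
    apply Complex.ext <;> simp
  conv_lhs => rw [h1, map_add, map_smul, map_smul]
  rfl

/-- first derivatives of the composition. -/
private theorem chain_first {ψ : ℂ → ℂ} {d ζ : ℂ} (hψ : HasDerivAt ψ d ζ) {F : ℂ → ℂ}
    (hF : DifferentiableAt ℝ F (ψ ζ)) :
    HasFDerivAt (fun ζ => F (ψ ζ)) ((fderiv ℝ F (ψ ζ)).comp (d • (1 : ℂ →L[ℝ] ℂ))) ζ ∧
    dx (fun ζ => F (ψ ζ)) ζ = d.re • dx F (ψ ζ) + d.im • dy F (ψ ζ) ∧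
    dy (fun ζ => F (ψ ζ)) ζ = (-d.im) • dx F (ψ ζ) + d.re • dy F (ψ ζ) := by
  have h1 : HasFDerivAt (fun ζ => F (ψ ζ)) ((fderiv ℝ F (ψ ζ)).comp (d • (1 : ℂ →L[ℝ] ℂ))) ζ :=
    hF.hasFDerivAt.comp ζ hψ.complexToReal_fderiv
  refine ⟨h1, ?_, ?_⟩
  · show fderiv ℝ (fun ζ => F (ψ ζ)) ζ 1 = _
    rw [h1.fderiv]
    simp only [ContinuousLinearMap.comp_apply, smul_apply,
      one_apply_eq_self, smul_eq_mul, mul_one]
    exact fderiv_split F _ _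
  · show fderiv ℝ (fun ζ => F (ψ ζ)) ζ Complex.I = _
    rw [h1.fderiv]
    simp only [ContinuousLinearMap.comp_apply, smul_apply,
      one_apply_eq_self, smul_eq_mul]
    rw [fderiv_split F _ (d * Complex.I)]
    simp

private theorem dx_contDiff {F : ℂ → ℂ} (hF : ContDiff ℝ (⊤ : ℕ∞) F) : ContDiff ℝ (⊤ : ℕ∞) (dx F) := by
  have h1 : ContDiff ℝ (⊤ : ℕ∞) (fderiv ℝ F) := hF.fderiv_right (by simp)
  exact h1.clm_apply contDiff_const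

private theorem dy_contDiff {F : ℂ → ℂ} (hF : ContDiff ℝ (⊤ : ℕ∞) F) : ContDiff ℝ (⊤ : ℕ∞) (dy F) := by
  have h1 : ContDiff ℝ (⊤ : ℕ∞) (fderiv ℝ F) := hF.fderiv_right (by simp)
  exact h1.clm_apply contDiff_const

private theorem dydx_symm {F : ℂ → ℂ} (hF : ContDiff ℝ (⊤ : ℕ∞) F) (z : ℂ) : dy (dx F) z = dx (dy F) z := by
  have h1 : ContDiff ℝ (⊤ : ℕ∞) (fderiv ℝ F) := hF.fderiv_right (by simp)
  have hd : DifferentiableAt ℝ (fderiv ℝ F) z := (h1.differentiable (by simp)) z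
  have hs : IsSymmSndFDerivAt ℝ F z := hF.contDiffAt.isSymmSndFDerivAt (by
    rw [minSmoothness_of_isRCLikeNormedField]
    exact WithTop.coe_le_coe.2 (le_top : (2 : ℕ∞) ≤ ⊤))
  have h2 : ∀ e : ℂ, fderiv ℝ (fun w => fderiv ℝ F w e) z =
      (fderiv ℝ (fderiv ℝ F) z).flip e := by
    intro e
    have h3 : HasFDerivAt (fun w => fderiv ℝ F w e) ((fderiv ℝ (fderiv ℝ F) z).flip e) z := by
      have h4 := hd.hasFDerivAt.clm_apply (hasFDerivAt_const e z)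
      simpa using h4
    exact h3.fderiv
  show fderiv ℝ (fun w => fderiv ℝ F w 1) z Complex.I = fderiv ℝ (fun w => fderiv ℝ F w Complex.I) z 1
  rw [h2, h2]
  simp only [ContinuousLinearMap.flip_apply]
  exact hs _ _

theorem chain_bounds {ψ : ℂ → ℂ} {ρ C : ℝ} (hC : 1 ≤ C) (hψ : DifferentiableOn ℂ ψ (ball 0 ρ))
    (h1 : ∀ ζ ∈ ball (0 : ℂ) ρ, ‖deriv ψ ζ‖ ≤ C) (h2 : ∀ ζ ∈ ball (0 : ℂ) ρ, ‖deriv (deriv ψ) ζ‖ ≤ C)
    {F : ℂ → ℂ} (hF : ContDiff ℝ (⊤ : ℕ∞) F) :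
    ContDiffOn ℝ 2 (fun ζ => F (ψ ζ)) (ball 0 ρ) ∧ ∀ ζ ∈ ball (0 : ℂ) ρ,
      ‖dx (fun ζ => F (ψ ζ)) ζ‖ ≤ 2 * C ^ 2 * H2 F (ψ ζ) ∧
      ‖dy (fun ζ => F (ψ ζ)) ζ‖ ≤ 2 * C ^ 2 * H2 F (ψ ζ) ∧
      ‖dy (dx (fun ζ => F (ψ ζ))) ζ‖ ≤ 2 * C ^ 2 * H2 F (ψ ζ) := by
  have hFd : ∀ z, DifferentiableAt ℝ F z := fun z => (hF.differentiable (by simp)) z
  have hxd : ∀ z, DifferentiableAt ℝ (dx F) z := fun z => ((dx_contDiff hF).differentiable (by simp)) z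
  have hyd : ∀ z, DifferentiableAt ℝ (dy F) z := fun z => ((dy_contDiff hF).differentiable (by simp)) z
  have hψd : ∀ ζ ∈ ball (0 : ℂ) ρ, HasDerivAt ψ (deriv ψ ζ) ζ := fun ζ hζ =>
    (hψ.differentiableAt (isOpen_ball.mem_nhds hζ)).hasDerivAt
  have hψd2 : ∀ ζ ∈ ball (0 : ℂ) ρ, HasDerivAt (deriv ψ) (deriv (deriv ψ) ζ) ζ := fun ζ hζ =>
    ((hψ.deriv isOpen_ball).differentiableAt (isOpen_ball.mem_nhds hζ)).hasDerivAt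
  have hsq : C ≤ C ^ 2 := by nlinarith
  have hCsq : 1 ≤ C ^ 2 := by nlinarith
  refine ⟨?_, fun ζ hζ => ?_⟩
  · have h3 : ContDiffOn ℝ 2 ψ (ball 0 ρ) := (hψ.contDiffOn isOpen_ball).restrict_scalars ℝ
    exact (hF.of_le (WithTop.coe_le_coe.2 (le_top : (2 : ℕ∞) ≤ ⊤))).comp_contDiffOn h3
  have n0 := norm_nonneg (F (ψ ζ))
  have n1 := norm_nonneg (dx F (ψ ζ))
  have n2 := norm_nonneg (dy F (ψ ζ))
  have n3 := norm_nonneg (dx (dx F) (ψ ζ))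
  have n4 := norm_nonneg (dx (dy F) (ψ ζ))
  have n5 := norm_nonneg (dy (dy F) (ψ ζ))
  obtain ⟨-, e1, e2⟩ := chain_first (hψd ζ hζ) (hFd (ψ ζ))
  set p := deriv ψ ζ with hp
  set q := deriv (deriv ψ) ζ with hq
  have bp1 : |p.re| ≤ C := (Complex.abs_re_le_norm p).trans (h1 ζ hζ)
  have bp2 : |p.im| ≤ C := (Complex.abs_im_le_norm p).trans (h1 ζ hζ)
  have bq1 : |q.re| ≤ C := (Complex.abs_re_le_norm q).trans (h2 ζ hζ)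
  have bq2 : |q.im| ≤ C := (Complex.abs_im_le_norm q).trans (h2 ζ hζ)
  have hlin : ∀ (a b : ℝ) (X Y : ℂ), |a| ≤ C → |b| ≤ C → ‖a • X + b • Y‖ ≤ C * (‖X‖ + ‖Y‖) := by
    intro a b X Y ha hb
    refine (norm_add_le _ _).trans ?_
    rw [norm_smul, norm_smul, Real.norm_eq_abs, Real.norm_eq_abs]
    have := mul_le_mul_of_nonneg_right ha (norm_nonneg X)
    have := mul_le_mul_of_nonneg_right hb (norm_nonneg Y)
    linarith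
  have hH : ‖dx F (ψ ζ)‖ + ‖dy F (ψ ζ)‖ ≤ H2 F (ψ ζ) := by unfold H2; linarith
  have hH0 : 0 ≤ H2 F (ψ ζ) := by unfold H2; linarith
  have hfirst : C * (‖dx F (ψ ζ)‖ + ‖dy F (ψ ζ)‖) ≤ 2 * C ^ 2 * H2 F (ψ ζ) := by
    calc C * (‖dx F (ψ ζ)‖ + ‖dy F (ψ ζ)‖) ≤ C ^ 2 * H2 F (ψ ζ) :=
          mul_le_mul hsq hH (by linarith) (by linarith)
      _ ≤ 2 * C ^ 2 * H2 F (ψ ζ) := by nlinarith
  refine ⟨?_, ?_, ?_⟩
  · rw [e1]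
    exact (hlin _ _ _ _ bp1 bp2).trans hfirst
  · rw [e2]
    exact (hlin _ _ _ _ (by rw [abs_neg]; exact bp2) bp1).trans hfirst
  · -- the mixed derivative
    have hev : dx (fun ζ => F (ψ ζ)) =ᶠ[𝓝 ζ]
        fun ξ => (deriv ψ ξ).re • dx F (ψ ξ) + (deriv ψ ξ).im • dy F (ψ ξ) := by
      filter_upwards [isOpen_ball.mem_nhds hζ] with ξ hξ
      exact (chain_first (hψd ξ hξ) (hFd (ψ ξ))).2.1
    have hre : HasFDerivAt (fun ξ => (deriv ψ ξ).re) (Complex.reCLM.comp (q • (1 : ℂ →L[ℝ] ℂ))) ζ :=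
      Complex.reCLM.hasFDerivAt.comp ζ (hψd2 ζ hζ).complexToReal_fderiv
    have him : HasFDerivAt (fun ξ => (deriv ψ ξ).im) (Complex.imCLM.comp (q • (1 : ℂ →L[ℝ] ℂ))) ζ :=
      Complex.imCLM.hasFDerivAt.comp ζ (hψd2 ζ hζ).complexToReal_fderiv
    obtain ⟨cx, -, cxy⟩ := chain_first (hψd ζ hζ) (hxd (ψ ζ))
    obtain ⟨cy, -, cyy⟩ := chain_first (hψd ζ hζ) (hyd (ψ ζ))
    have hsum := (hre.smul cx).add (him.smul cy)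
    have hx' : (fderiv ℝ (dx F) (ψ ζ)).comp (p • (1 : ℂ →L[ℝ] ℂ)) Complex.I =
        (-p.im) • dx (dx F) (ψ ζ) + p.re • dx (dy F) (ψ ζ) := by
      rw [← dydx_symm hF, ← cxy]
      show _ = fderiv ℝ (fun ζ => dx F (ψ ζ)) ζ Complex.I
      rw [cx.fderiv]
    have hy' : (fderiv ℝ (dy F) (ψ ζ)).comp (p • (1 : ℂ →L[ℝ] ℂ)) Complex.I =
        (-p.im) • dx (dy F) (ψ ζ) + p.re • dy (dy F) (ψ ζ) := by
      rw [← cyy]
      show _ = fderiv ℝ (fun ζ => dy F (ψ ζ)) ζ Complex.I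
      rw [cy.fderiv]
    have e3 : dy (dx (fun ζ => F (ψ ζ))) ζ =
        (p.re • ((-p.im) • dx (dx F) (ψ ζ) + p.re • dx (dy F) (ψ ζ)) + (-q.im) • dx F (ψ ζ)) +
        (p.im • ((-p.im) • dx (dy F) (ψ ζ) + p.re • dy (dy F) (ψ ζ)) + q.re • dy F (ψ ζ)) := by
      show fderiv ℝ (dx (fun ζ => F (ψ ζ))) ζ Complex.I = _
      rw [hev.fderiv_eq, ← hx', ← hy']
      refine (congrArg (fun L : ℂ →L[ℝ] ℂ => L Complex.I) hsum.fderiv).trans ?_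
      simp [hp]
    rw [e3]
    have b1 := hlin (-p.im) p.re (dx (dx F) (ψ ζ)) (dx (dy F) (ψ ζ)) (by rw [abs_neg]; exact bp2) bp1
    have b2 := hlin (-p.im) p.re (dx (dy F) (ψ ζ)) (dy (dy F) (ψ ζ)) (by rw [abs_neg]; exact bp2) bp1
    have b3 : ‖p.re • ((-p.im) • dx (dx F) (ψ ζ) + p.re • dx (dy F) (ψ ζ)) + (-q.im) • dx F (ψ ζ)‖ ≤
        C * (C * (‖dx (dx F) (ψ ζ)‖ + ‖dx (dy F) (ψ ζ)‖) + ‖dx F (ψ ζ)‖) := by
      refine (hlin _ _ _ _ bp1 (by rw [abs_neg]; exact bq2)).trans ?_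
      have : 0 ≤ C := by linarith
      gcongr
    have b4 : ‖p.im • ((-p.im) • dx (dy F) (ψ ζ) + p.re • dy (dy F) (ψ ζ)) + q.re • dy F (ψ ζ)‖ ≤
        C * (C * (‖dx (dy F) (ψ ζ)‖ + ‖dy (dy F) (ψ ζ)‖) + ‖dy F (ψ ζ)‖) := by
      refine (hlin _ _ _ _ bp2 bq1).trans ?_
      have : 0 ≤ C := by linarith
      gcongr
    refine (norm_add_le _ _).trans ((add_le_add b3 b4).trans ?_)
    unfold H2
    have m1 : C * ‖dx F (ψ ζ)‖ ≤ C ^ 2 * ‖dx F (ψ ζ)‖ := mul_le_mul_of_nonneg_right hsq n1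
    have m2 : C * ‖dy F (ψ ζ)‖ ≤ C ^ 2 * ‖dy F (ψ ζ)‖ := mul_le_mul_of_nonneg_right hsq n2
    have m0 : 0 ≤ C ^ 2 * ‖F (ψ ζ)‖ := by positivity
    have m1' : 0 ≤ C ^ 2 * ‖dx F (ψ ζ)‖ := by positivity
    have m2' : 0 ≤ C ^ 2 * ‖dy F (ψ ζ)‖ := by positivity
    have m3 : 0 ≤ C ^ 2 * ‖dx (dx F) (ψ ζ)‖ := by positivity
    have m4 : 0 ≤ C ^ 2 * ‖dx (dy F) (ψ ζ)‖ := by positivity
    have m5 : 0 ≤ C ^ 2 * ‖dy (dy F) (ψ ζ)‖ := by positivity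
    nlinarith

end Pool.Agent.EAC.PA
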