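import Pool.Agent.EAC.PA.ADefs

/-!
# EAC-A-CHG: change of variables in a patch
-/

set_option autoImplicit false

noncomputable section

namespace Pool.Agent.EAC.PA

open MeasureTheory Set Filter Topology Metric
open scoped ENNReal ComplexConjugate

private def mulR (c : ℂ) : ℂ →L[ℝ] ℂ :=
  (ContinuousLinearMap.toSpanSingleton ℂ c).restrictScalars ℝ

private theorem mulR_apply (c z : ℂ) : mulR c z = z * c := by
  simp [mulR, mul_comm]

private theorem det_mulR (c : ℂ) : (mulR c).det = ‖c‖ ^ 2 := by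
  have h : ((mulR c : ℂ →L[ℝ] ℂ) : ℂ →ₗ[ℝ] ℂ) = LinearMap.mul ℝ ℂ c := by
    ext <;> simp [mulR, mul_comm]
  rw [ContinuousLinearMap.det, h, ← Complex.normSq_eq_norm_sq]
  exact Algebra.norm_complex_apply c

theorem change_le {M : Set ℂ} {x : ℂ} {ψ : ℂ → ℂ} {a C r : ℝ} (hP : Patch M x ψ a C r) {A : Set ℂ}
    (hA : MeasurableSet A) (hA' : A ⊆ ball 0 (16 * a)) (h : ℂ → ℝ≥0∞) :
    ∫⁻ ζ in A, h (ψ ζ) ≤ ENNReal.ofReal (C ^ 2) * ∫⁻ z in ψ '' A, h z := by
  have hder : ∀ ζ ∈ A, HasFDerivWithinAt ψ (mulR (deriv ψ ζ)) A ζ := by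
    intro ζ hζ
    have h1 : HasDerivAt ψ (deriv ψ ζ) ζ :=
      (hP.holo.differentiableAt (isOpen_ball.mem_nhds (hA' hζ))).hasDerivAt
    have h2 := h1.hasFDerivAt.restrictScalars ℝ
    exact h2.hasFDerivWithinAt
  have hinj : InjOn ψ A := by
    intro ζ hζ ξ hξ hE
    have h1 := (hP.bilip ζ (hA' hζ) ξ (hA' hξ)).1
    rw [hE, sub_self, norm_zero, mul_zero] at h1
    exact sub_eq_zero.1 (norm_le_zero_iff.1 h1)
  rw [lintegral_image_eq_lintegral_abs_det_fderiv_mul volume hA hder hinj h,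
    ← lintegral_const_mul' _ _ ENNReal.ofReal_ne_top]
  apply setLIntegral_mono' hA
  intro ζ hζ
  rw [← mul_assoc, det_mulR, ← ENNReal.ofReal_mul (by positivity)]
  have h1 := hP.low ζ (hA' hζ)
  have h2 : (1 : ℝ) ≤ C ^ 2 * |‖deriv ψ ζ‖ ^ 2| := by
    rw [abs_of_nonneg (by positivity), ← mul_pow]
    exact one_le_pow₀ h1
  calc h (ψ ζ) = 1 * h (ψ ζ) := (one_mul _).symm
    _ ≤ _ := by
      gcongr
      rw [← ENNReal.ofReal_one]
      exact ENNReal.ofReal_le_ofReal h2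

end Pool.Agent.EAC.PA
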