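import Pool.Agent.EAC.PA.ADefs

/-!
# EAC-A-MOV: derivative of the velocity at a moving point

`v τ (c τ + w) - v t (c t + w) = [(v τ - v t)(c τ + w) - (v τ - v t)(c t + w)] + [v t (c τ + w) - v t (c t + w)] + [v τ (c t + w) - v t (c t + w)]`;
the first bracket is `≤ e ‖c τ - c t‖ = o(|τ - t|)` (`tcont`), the second is differentiable by the chain rule
(`HasFDerivAt.comp_hasDerivWithinAt`), the third by `momentum`.
-/

set_option autoImplicit false

noncomputable section

namespace Pool.Agent.EAC.PA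

open MeasureTheory Set Filter Topology Metric
open scoped ENNReal ComplexConjugate

theorem moving_deriv {M : Set ℂ} {v : ℝ → ℂ → ℂ} {L : ℝ} (hR : Reg M v L) {p : ℝ → ℂ → ℝ}
    (hp : ∀ t ∈ Icc (0 : ℝ) 1, ∀ z ∈ interior M,
      HasDerivWithinAt (fun τ => v τ z) (-(fderiv ℝ (v t) z (v t z)) - grad (p t) z) (Icc 0 1) t)
    {c : ℝ → ℂ} {c' : ℝ → ℂ} {w : ℂ}
    (hc : ∀ t ∈ Icc (0 : ℝ) 1, c t + w ∈ interior M)
    (hc' : ∀ t ∈ Icc (0 : ℝ) 1, HasDerivWithinAt c (c' t) (Icc 0 1) t) :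
    ∀ t ∈ Icc (0 : ℝ) 1, HasDerivWithinAt (fun τ => v τ (c τ + w))
      (-(fderiv ℝ (v t) (c t + w) (v t (c t + w))) - grad (p t) (c t + w)
        + fderiv ℝ (v t) (c t + w) (c' t)) (Icc 0 1) t := by
  intro t ht
  have hA := hp t ht (c t + w) (hc t ht)
  have hB : HasDerivWithinAt (fun τ => v t (c τ + w)) (fderiv ℝ (v t) (c t + w) (c' t))
      (Icc 0 1) t := by
    have h1 : HasDerivWithinAt (fun τ => c τ + w) (c' t) (Icc 0 1) t := (hc' t ht).add_const w
    exact ((hR.diff t ht _ (hc t ht)).hasFDerivAt).comp_hasDerivWithinAt t h1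
  set E : ℝ → ℂ := fun τ => (v τ (c τ + w) - v t (c τ + w)) - (v τ (c t + w) - v t (c t + w))
    with hE
  have hE0 : E t = 0 := by simp [hE]
  have hEd : HasDerivWithinAt E 0 (Icc 0 1) t := by
    rw [hasDerivWithinAt_iff_isLittleO, Asymptotics.isLittleO_iff]
    intro e he
    obtain ⟨K, hK, hKb⟩ := ((hc' t ht).hasFDerivWithinAt.isBigO_sub).exists_pos
    have h1 := hR.tcont t ht (e / K) (div_pos he hK)
    filter_upwards [h1, hKb.bound, self_mem_nhdsWithin] with τ h2 h3 h4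
    have h5 := h2 (c τ + w) (interior_subset (hc τ h4)) (c t + w) (interior_subset (hc t ht))
    rw [hE0]
    simp only [smul_zero, sub_zero]
    have h6 : c τ + w - (c t + w) = c τ - c t := by ring
    rw [h6] at h5
    calc ‖E τ‖ ≤ e / K * ‖c τ - c t‖ := h5
      _ ≤ e / K * (K * ‖τ - t‖) := mul_le_mul_of_nonneg_left h3 (div_pos he hK).le
      _ = e * ‖τ - t‖ := by field_simp
  have hsum := ((hA.add hB).add hEd).sub_const (v t (c t + w))
  have e1 : (fun τ => v τ (c τ + w)) = fun τ =>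
      (v τ (c t + w) + v t (c τ + w)) + E τ - v t (c t + w) := by
    funext τ
    simp only [hE]
    ring
  rw [e1]
  have e2 : -(fderiv ℝ (v t) (c t + w) (v t (c t + w))) - grad (p t) (c t + w)
        + fderiv ℝ (v t) (c t + w) (c' t) =
      -(fderiv ℝ (v t) (c t + w) (v t (c t + w))) - grad (p t) (c t + w)
        + fderiv ℝ (v t) (c t + w) (c' t) + 0 := by rw [add_zero]
  rw [e2]
  exact hsum

end Pool.Agent.EAC.PA
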