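import Pool.Agent.EAC.PA.ADefs

/-!
# EAC-A-TAY: Taylor expansion of the circulation

`A = fderiv ℝ u c`; for `‖w‖ = r`: `‖u (c + w) - u c - A w‖ ≤ L r^(3/2)`, `‖u (c+w) - u c‖ ≤ L r` (mean value inequality on the ball).
`circ_approx`: `∫ ⟨u c, i w⟩ = 0`, `∫ ⟨A w, i w⟩ dθ = π r² curl u c`
(`A (cos θ + i sin θ)`; integrals of `sin², cos², sin cos`).
-/

set_option autoImplicit false

noncomputable section

namespace Pool.Agent.EAC.PA

open MeasureTheory Set Filter Topology Metric
open scoped ENNReal ComplexConjugate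

private theorem pt_norm {r : ℝ} (hr : 0 < r) (θ : ℝ) : ‖pt r θ‖ = r := by
  unfold pt
  rw [norm_mul, Complex.norm_exp_ofReal_mul_I, mul_one, Complex.norm_real, Real.norm_eq_abs,
    abs_of_pos hr]

private theorem pt_re (r θ : ℝ) : (pt r θ).re = r * Real.cos θ := by
  unfold pt
  rw [Complex.re_ofReal_mul, Complex.exp_ofReal_mul_I_re]

private theorem pt_im (r θ : ℝ) : (pt r θ).im = r * Real.sin θ := by
  unfold pt
  rw [Complex.im_ofReal_mul, Complex.exp_ofReal_mul_I_im]

private theorem pt_cont (r : ℝ) : Continuous (pt r) := by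
  unfold pt
  fun_prop

private theorem lin_apply' (A : ℂ →L[ℝ] ℂ) (z : ℂ) :
    A z = (z.re : ℂ) * A 1 + (z.im : ℂ) * A Complex.I := by
  have h : z = z.re • (1 : ℂ) + z.im • Complex.I := by
    apply Complex.ext <;> simp
  conv_lhs => rw [h]
  rw [map_add, map_smul, map_smul]
  simp

private theorem re_conj_mul_le (a b : ℂ) : |(conj a * b).re| ≤ ‖a‖ * ‖b‖ := by
  refine (Complex.abs_re_le_norm _).trans ?_
  rw [norm_mul, Complex.norm_conj]

private theorem int_formula (A : ℂ →L[ℝ] ℂ) (b : ℂ) (r : ℝ) :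
    ∫ θ in (0 : ℝ)..(2 * Real.pi), (conj (b + A (pt r θ)) * (Complex.I * pt r θ)).re =
      Real.pi * r ^ 2 * ((A 1).im - (A Complex.I).re) := by
  have h1 : ∀ θ : ℝ, (conj (b + A (pt r θ)) * (Complex.I * pt r θ)).re =
      (r * b.im) * Real.cos θ - (r * b.re) * Real.sin θ + (r ^ 2 * (A 1).im) * Real.cos θ ^ 2 -
      (r ^ 2 * (A Complex.I).re) * Real.sin θ ^ 2 +
      (r ^ 2 * ((A Complex.I).im - (A 1).re)) * (Real.sin θ * Real.cos θ) := by
    intro θ
    rw [lin_apply' A (pt r θ)]
    simp only [map_add, map_mul, Complex.conj_ofReal, Complex.mul_re, Complex.add_re,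
      Complex.add_im, Complex.mul_im, Complex.ofReal_re, Complex.ofReal_im, Complex.I_re,
      Complex.I_im, Complex.conj_re, Complex.conj_im, pt_re, pt_im]
    ring
  have hder : ∀ θ ∈ uIcc (0 : ℝ) (2 * Real.pi), HasDerivAt (fun θ : ℝ =>
      (r * b.im) * Real.sin θ + (r * b.re) * Real.cos θ +
      (r ^ 2 * (A 1).im) * ((θ + Real.sin θ * Real.cos θ) / 2) -
      (r ^ 2 * (A Complex.I).re) * ((θ - Real.sin θ * Real.cos θ) / 2) +
      (r ^ 2 * ((A Complex.I).im - (A 1).re)) * (Real.sin θ ^ 2 / 2))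
      ((conj (b + A (pt r θ)) * (Complex.I * pt r θ)).re) θ := by
    intro θ _
    rw [h1 θ]
    have hs := Real.hasDerivAt_sin θ
    have hc := Real.hasDerivAt_cos θ
    have hid := hasDerivAt_id θ
    have hsc := hs.mul hc
    have := ((((hs.const_mul (r * b.im)).add (hc.const_mul (r * b.re))).add
      (((hid.add hsc).div_const 2).const_mul (r ^ 2 * (A 1).im))).sub
      (((hid.sub hsc).div_const 2).const_mul (r ^ 2 * (A Complex.I).re))).add
      (((hs.pow 2).div_const 2).const_mul (r ^ 2 * ((A Complex.I).im - (A 1).re)))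
    refine this.congr_deriv ?_
    have h2 := Real.sin_sq_add_cos_sq θ
    have h3 : Real.cos θ ^ 2 = 1 - Real.sin θ ^ 2 := by linarith
    norm_num
    linear_combination (r ^ 2 * (A 1).im / 2 - r ^ 2 * (A Complex.I).re / 2) * (-h2)
  rw [intervalIntegral.integral_eq_sub_of_hasDerivAt hder]
  · simp
    ring
  · apply Continuous.intervalIntegrable
    simp only [h1]
    fun_prop

theorem circ_approx {u : ℂ → ℂ} {c : ℂ} {r L : ℝ} (hr : 0 < r) (hL : 0 ≤ L)
    (hd : ∀ z ∈ closedBall c r, DifferentiableAt ℝ u z)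
    (hh : ∀ z ∈ closedBall c r, ‖fderiv ℝ u z - fderiv ℝ u c‖ ≤ L * ‖z - c‖ ^ (1 / 2 : ℝ)) :
    |circ u c r - Real.pi * r ^ 2 * curl u c| ≤ 2 * Real.pi * L * r ^ (5 / 2 : ℝ) := by
  set A : ℂ →L[ℝ] ℂ := fderiv ℝ u c with hA
  have hc : c ∈ closedBall c r := mem_closedBall_self hr.le
  have hz : ∀ θ : ℝ, c + pt r θ ∈ closedBall c r := by
    intro θ
    rw [mem_closedBall, dist_eq_norm, add_sub_cancel_left, pt_norm hr]
  have h2 : ∀ θ : ℝ, ‖u (c + pt r θ) - u c - A (pt r θ)‖ ≤ L * r ^ (1 / 2 : ℝ) * r := by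
    intro θ
    have hder : ∀ x ∈ closedBall c r, HasFDerivWithinAt (fun z => u z - A z)
        (fderiv ℝ u x - A) (closedBall c r) x := fun x hx =>
      ((hd x hx).hasFDerivAt.sub A.hasFDerivAt).hasFDerivWithinAt
    have hbd : ∀ x ∈ closedBall c r, ‖fderiv ℝ u x - A‖ ≤ L * r ^ (1 / 2 : ℝ) := by
      intro x hx
      refine (hh x hx).trans ?_
      rw [mem_closedBall, dist_eq_norm] at hx
      gcongr
    have := (convex_closedBall c r).norm_image_sub_le_of_norm_hasFDerivWithin_le hder hbd hc (hz θ)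
    rw [add_sub_cancel_left, pt_norm hr] at this
    refine le_trans (le_of_eq ?_) this
    congr 1
    rw [map_add]
    ring
  have hr52 : r ^ (1 / 2 : ℝ) * r * r = r ^ (5 / 2 : ℝ) := by
    rw [mul_assoc, show r * r = r ^ (2 : ℝ) by norm_num; ring, ← Real.rpow_add hr]
    norm_num
  have hf : Continuous (fun θ : ℝ => (conj (u (c + pt r θ)) * (Complex.I * pt r θ)).re) := by
    have hu : Continuous (fun θ : ℝ => u (c + pt r θ)) := by
      rw [continuous_iff_continuousAt]
      intro θ
      exact ContinuousAt.comp (f := fun θ : ℝ => c + pt r θ) (g := u)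
        (hd _ (hz θ)).continuousAt ((continuous_const.add (pt_cont r)).continuousAt)
    have := pt_cont r
    exact Complex.continuous_re.comp ((Complex.continuous_conj.comp hu).mul
      (continuous_const.mul this))
  have hg : Continuous (fun θ : ℝ => (conj (u c + A (pt r θ)) * (Complex.I * pt r θ)).re) := by
    have := pt_cont r
    exact Complex.continuous_re.comp ((Complex.continuous_conj.comp
      (continuous_const.add (A.continuous.comp this))).mul (continuous_const.mul this))
  have hcurl : curl u c = (A 1).im - (A Complex.I).re := rfl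
  rw [hcurl, ← int_formula A (u c) r]
  unfold circ
  rw [← intervalIntegral.integral_sub (hf.intervalIntegrable _ _) (hg.intervalIntegrable _ _)]
  have hbound : ∀ θ ∈ uIoc (0 : ℝ) (2 * Real.pi), ‖(conj (u (c + pt r θ)) * (Complex.I * pt r θ)).re -
      (conj (u c + A (pt r θ)) * (Complex.I * pt r θ)).re‖ ≤ L * r ^ (1 / 2 : ℝ) * r * r := by
    intro θ _
    have e : (conj (u (c + pt r θ)) * (Complex.I * pt r θ)).re -
      (conj (u c + A (pt r θ)) * (Complex.I * pt r θ)).re =
      (conj (u (c + pt r θ) - u c - A (pt r θ)) * (Complex.I * pt r θ)).re := by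
      rw [← Complex.sub_re, ← sub_mul, ← map_sub, sub_add_eq_sub_sub]
    rw [e, Real.norm_eq_abs]
    refine (re_conj_mul_le _ _).trans ?_
    rw [norm_mul, Complex.norm_I, one_mul, pt_norm hr]
    gcongr
    exact h2 θ
  have := intervalIntegral.norm_integral_le_of_norm_le_const hbound
  rw [Real.norm_eq_abs] at this
  refine this.trans (le_of_eq ?_)
  rw [sub_zero, abs_of_pos (by positivity : (0 : ℝ) < 2 * Real.pi), ← hr52]
  ring

end Pool.Agent.EAC.PA
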