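import Pool.Agent.EAC.PA.ADefs

/-!
# EAC-A-TAYB: the integrand of the derivative of the circulation

`A = fderiv ℝ u c`, `w = pt r θ`, `z = c + w`; `‖u z - u c‖ ≤ L r`, `‖u z - u c - A w‖ ≤ L r^(3/2)` (mean value inequality on the ball).
For traceless `A` (`dvg u c = 0`): `A (A w) = -(det A) w`, so `⟨A (A w), i w⟩ = 0`; the expression
`⟨-Du(z)(u z - u c), i w⟩` differs from `-⟨A (A w), i w⟩` by `≤ r (L r^(1/2) L r + L L r^(3/2)) = 2 L² r^(5/2)`.
-/

set_option autoImplicit false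

noncomputable section

namespace Pool.Agent.EAC.PA

open MeasureTheory Set Filter Topology Metric
open scoped ENNReal ComplexConjugate

private theorem pt_norm {r : ℝ} (hr : 0 < r) (θ : ℝ) : ‖pt r θ‖ = r := by
  unfold pt
  rw [norm_mul, Complex.norm_exp_ofReal_mul_I, mul_one, Complex.norm_real, Real.norm_eq_abs,
    abs_of_pos hr]

private theorem lin_apply' (A : ℂ →L[ℝ] ℂ) (z : ℂ) :
    A z = (z.re : ℂ) * A 1 + (z.im : ℂ) * A Complex.I := by
  have h : z = z.re • (1 : ℂ) + z.im • Complex.I := by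
    apply Complex.ext <;> simp
  conv_lhs => rw [h]
  rw [map_add, map_smul, map_smul]
  simp

private theorem traceless (A : ℂ →L[ℝ] ℂ) (hA : (A 1).re + (A Complex.I).im = 0) (w : ℂ) :
    (conj (A (A w)) * (Complex.I * w)).re = 0 := by
  have h1 : (A 1).re = - (A Complex.I).im := by linarith
  rw [lin_apply' A (A w), lin_apply' A w]
  simp only [map_add, map_mul, Complex.conj_ofReal, Complex.mul_re, Complex.add_re, Complex.add_im,
    Complex.mul_im, Complex.ofReal_re, Complex.ofReal_im, Complex.I_re, Complex.I_im,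
    Complex.conj_re, Complex.conj_im]
  rw [h1]
  ring

private theorem re_conj_mul_le (a b : ℂ) : |(conj a * b).re| ≤ ‖a‖ * ‖b‖ := by
  refine (Complex.abs_re_le_norm _).trans ?_
  rw [norm_mul, Complex.norm_conj]

theorem circ_rhs {u : ℂ → ℂ} {c : ℂ} {r L : ℝ} (hr : 0 < r) (hL : 0 ≤ L)
    (hd : ∀ z ∈ closedBall c r, DifferentiableAt ℝ u z)
    (hb : ∀ z ∈ closedBall c r, ‖fderiv ℝ u z‖ ≤ L)
    (hh : ∀ z ∈ closedBall c r, ‖fderiv ℝ u z - fderiv ℝ u c‖ ≤ L * ‖z - c‖ ^ (1 / 2 : ℝ))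
    (hdiv : dvg u c = 0) (θ : ℝ) :
    |(conj (-(fderiv ℝ u (c + pt r θ) (u (c + pt r θ) - u c))) * (Complex.I * pt r θ)).re| ≤
      2 * L ^ 2 * r ^ (5 / 2 : ℝ) := by
  set w : ℂ := pt r θ with hw
  set A : ℂ →L[ℝ] ℂ := fderiv ℝ u c with hA
  have hwn : ‖w‖ = r := pt_norm hr θ
  have hz : c + w ∈ closedBall c r := by
    rw [mem_closedBall, dist_eq_norm, add_sub_cancel_left, hwn]
  have hc : c ∈ closedBall c r := mem_closedBall_self hr.le
  have h1 : ‖u (c + w) - u c‖ ≤ L * r := by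
    have := (convex_closedBall c r).norm_image_sub_le_of_norm_hasFDerivWithin_le
      (f := u) (f' := fderiv ℝ u) (C := L)
      (fun x hx => (hd x hx).hasFDerivAt.hasFDerivWithinAt) hb hc hz
    rwa [add_sub_cancel_left, hwn] at this
  have h2 : ‖u (c + w) - u c - A w‖ ≤ L * r ^ (1 / 2 : ℝ) * r := by
    have hder : ∀ x ∈ closedBall c r, HasFDerivWithinAt (fun z => u z - A z)
        (fderiv ℝ u x - A) (closedBall c r) x := fun x hx =>
      ((hd x hx).hasFDerivAt.sub A.hasFDerivAt).hasFDerivWithinAt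
    have hbd : ∀ x ∈ closedBall c r, ‖fderiv ℝ u x - A‖ ≤ L * r ^ (1 / 2 : ℝ) := by
      intro x hx
      refine (hh x hx).trans ?_
      rw [mem_closedBall, dist_eq_norm] at hx
      gcongr
    have := (convex_closedBall c r).norm_image_sub_le_of_norm_hasFDerivWithin_le hder hbd hc hz
    rw [add_sub_cancel_left, hwn] at this
    refine le_trans (le_of_eq ?_) this
    congr 1
    rw [map_add]
    ring
  have h3 : ‖fderiv ℝ u (c + w) - A‖ ≤ L * r ^ (1 / 2 : ℝ) := by
    have := hh _ hz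
    rwa [add_sub_cancel_left, hwn] at this
  have hAn : ‖A‖ ≤ L := hb c hc
  have hdec : fderiv ℝ u (c + w) (u (c + w) - u c) =
      A (A w) + ((fderiv ℝ u (c + w) - A) (u (c + w) - u c) + A (u (c + w) - u c - A w)) := by
    simp only [sub_apply, map_sub]
    ring
  have htr : (A 1).re + (A Complex.I).im = 0 := hdiv
  have h0 := traceless A htr w
  have hr32 : r ^ (1 / 2 : ℝ) * r * r = r ^ (5 / 2 : ℝ) := by
    rw [mul_assoc, show r * r = r ^ (2 : ℝ) by norm_num; ring, ← Real.rpow_add hr]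
    norm_num
  rw [hdec]
  have e : (conj (-(A (A w) + ((fderiv ℝ u (c + w) - A) (u (c + w) - u c) +
      A (u (c + w) - u c - A w)))) * (Complex.I * w)).re =
      -(conj (A (A w)) * (Complex.I * w)).re -
      (conj ((fderiv ℝ u (c + w) - A) (u (c + w) - u c) +
      A (u (c + w) - u c - A w)) * (Complex.I * w)).re := by
    rw [map_neg, map_add, neg_mul, add_mul, Complex.neg_re, Complex.add_re]
    ring
  rw [e, h0, neg_zero, zero_sub, abs_neg]
  refine (re_conj_mul_le _ _).trans ?_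
  rw [norm_mul, Complex.norm_I, one_mul, hwn]
  have h4 : ‖(fderiv ℝ u (c + w) - A) (u (c + w) - u c) + A (u (c + w) - u c - A w)‖ ≤
      L * r ^ (1 / 2 : ℝ) * (L * r) + L * (L * r ^ (1 / 2 : ℝ) * r) := by
    refine (norm_add_le _ _).trans (add_le_add ?_ ?_)
    · exact (ContinuousLinearMap.le_opNorm _ _).trans (by gcongr)
    · exact (ContinuousLinearMap.le_opNorm _ _).trans (by gcongr)
  calc _ ≤ (L * r ^ (1 / 2 : ℝ) * (L * r) + L * (L * r ^ (1 / 2 : ℝ) * r)) * r := by gcongr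
    _ = 2 * L ^ 2 * (r ^ (1 / 2 : ℝ) * r * r) := by ring
    _ = 2 * L ^ 2 * r ^ (5 / 2 : ℝ) := by rw [hr32]

end Pool.Agent.EAC.PA
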