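import Pool.Agent.EAC.PA.ADint
import Pool.Agent.EAC.PA.AMov
import Pool.Agent.EAC.PA.ATay
import Pool.Agent.EAC.PA.ATayB

/-!
# EAC-A-CIRC: the circulation along a small circle moving with its centre

`moving_deriv` for every `w = pt r θ`, `c' t = v t (c t)`; `hasDerivWithinAt_integral` on `(0, 2π]` with
`f τ θ = (conj (v τ (c τ + w)) * (I w)).re`; the derivative is `∫ (conj (-Dv(z)(v z - v c) - grad p z) * (I w)).re dθ`;
`(conj (grad p z) * (I w)).re = fderiv p z (I w) = d/dθ p (c + pt r θ)`, its integral over `[0, 2π]` vanishes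
(`intervalIntegral.integral_eq_sub_of_hasDerivAt`; the derivative is bounded by `K r` and measurable, `measurable_deriv`);
the rest by `circ_rhs`: `|Γ'| ≤ 2π * 2 L² r^(5/2)`. Mean value inequality on `[0, t]`.
-/

set_option autoImplicit false

noncomputable section

namespace Pool.Agent.EAC.PA

open MeasureTheory Set Filter Topology Metric
open scoped ENNReal ComplexConjugate

private theorem ptDeriv (r θ : ℝ) :
    HasDerivAt (fun x : ℝ => pt r x) (Complex.I * pt r θ) θ := by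
  unfold pt
  have h1 : HasDerivAt (fun x : ℝ => ((x : ℂ) * Complex.I)) (1 * Complex.I) θ := by
    have h := (Complex.ofRealCLM.hasDerivAt (x := θ)).mul_const Complex.I
    simpa using h
  have h2 := (h1.cexp).const_mul (r : ℂ)
  have e : Complex.I * ((r : ℂ) * Complex.exp ((θ : ℂ) * Complex.I)) =
      (r : ℂ) * (Complex.exp ((θ : ℂ) * Complex.I) * (1 * Complex.I)) := by ring
  rw [e]
  exact h2

private theorem ptNorm {r : ℝ} (hr : 0 < r) (θ : ℝ) : ‖pt r θ‖ = r := by
  unfold pt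
  rw [norm_mul, Complex.norm_exp_ofReal_mul_I, Complex.norm_real, mul_one, Real.norm_eq_abs,
    abs_of_pos hr]

private theorem ptPeriod (r : ℝ) : pt r (2 * Real.pi) = pt r 0 := by
  unfold pt
  push_cast
  rw [Complex.exp_two_pi_mul_I]
  simp

private theorem ptCont (r : ℝ) : Continuous (fun x : ℝ => pt r x) :=
  continuous_iff_continuousAt.2 fun θ => (ptDeriv r θ).continuousAt

private theorem velCont {M : Set ℂ} {v : ℝ → ℂ → ℂ} {L : ℝ} (hR : Reg M v L) {t : ℝ}
    (ht : t ∈ Icc (0 : ℝ) 1) : ContinuousOn (v t) (interior M) := by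
  have h : LipschitzOnWith ⟨L, hR.hL⟩ (v t) M := by
    apply LipschitzOnWith.of_dist_le_mul
    intro x hx y hy
    rw [dist_eq_norm, dist_eq_norm]
    exact hR.lip t ht x hx y hy
  exact h.continuousOn.mono interior_subset

private theorem derCont {M : Set ℂ} {v : ℝ → ℂ → ℂ} {L : ℝ} (hR : Reg M v L) {t : ℝ}
    (ht : t ∈ Icc (0 : ℝ) 1) : ContinuousOn (fun z => fderiv ℝ (v t) z) (interior M) := by
  intro x hx
  show Tendsto (fun z => fderiv ℝ (v t) z) (𝓝[interior M] x) (𝓝 (fderiv ℝ (v t) x))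
  rw [tendsto_iff_norm_sub_tendsto_zero]
  have h1 : Tendsto (fun z : ℂ => L * ‖z - x‖ ^ (1 / 2 : ℝ)) (𝓝[interior M] x) (𝓝 0) := by
    have h2 : Tendsto (fun z : ℂ => ‖z - x‖) (𝓝[interior M] x) (𝓝 0) := by
      have h3 : Continuous (fun z : ℂ => ‖z - x‖) := by fun_prop
      have h4 := h3.tendsto x
      rw [sub_self, norm_zero] at h4
      exact h4.mono_left nhdsWithin_le_nhds
    have h5 := (h2.rpow_const (p := (1 / 2 : ℝ)) (Or.inr (by norm_num))).const_mul L
    rw [Real.zero_rpow (by norm_num), mul_zero] at h5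
    exact h5
  refine squeeze_zero' (Eventually.of_forall fun z => norm_nonneg _) ?_ h1
  filter_upwards [self_mem_nhdsWithin] with z hz
  exact hR.hol t ht z hz x hx

theorem circ_moving {M : Set ℂ} {v : ℝ → ℂ → ℂ} {L : ℝ} (hR : Reg M v L) {p : ℝ → ℂ → ℝ} {K : NNReal}
    (hp1 : ∀ t ∈ Icc (0 : ℝ) 1, LipschitzOnWith K (p t) M)
    (hp2 : ∀ t ∈ Icc (0 : ℝ) 1, ∀ z ∈ interior M, DifferentiableAt ℝ (p t) z)
    (hp : ∀ t ∈ Icc (0 : ℝ) 1, ∀ z ∈ interior M,
      HasDerivWithinAt (fun τ => v τ z) (-(fderiv ℝ (v t) z (v t z)) - grad (p t) z) (Icc 0 1) t)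
    (hdiv : ∀ t ∈ Icc (0 : ℝ) 1, ∀ z ∈ interior M, dvg (v t) z = 0)
    {c : ℝ → ℂ} {r : ℝ} (hr : 0 < r)
    (hc : ∀ t ∈ Icc (0 : ℝ) 1, closedBall (c t) r ⊆ interior M)
    (hc' : ∀ t ∈ Icc (0 : ℝ) 1, HasDerivWithinAt c (v t (c t)) (Icc 0 1) t) :
    ∀ t ∈ Icc (0 : ℝ) 1, |circ (v t) (c t) r - circ (v 0) (c 0) r| ≤
      4 * Real.pi * L ^ 2 * r ^ (5 / 2 : ℝ) := by
  have hpi : (0 : ℝ) ≤ 2 * Real.pi := by positivity
  have hin : ∀ t ∈ Icc (0 : ℝ) 1, ∀ θ : ℝ, c t + pt r θ ∈ interior M := by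
    intro t ht θ
    apply hc t ht
    rw [mem_closedBall, dist_eq_norm, add_sub_cancel_left, ptNorm hr]
  have hcin : ∀ t ∈ Icc (0 : ℝ) 1, c t ∈ interior M := fun t ht =>
    hc t ht (mem_closedBall_self hr.le)
  -- the integrand and its two parts
  set f : ℝ → ℝ → ℝ := fun τ θ => (conj (v τ (c τ + pt r θ)) * (Complex.I * pt r θ)).re with hf
  set g1 : ℝ → ℝ → ℝ := fun t θ =>
    (conj (-(fderiv ℝ (v t) (c t + pt r θ) (v t (c t + pt r θ) - v t (c t)))) *
      (Complex.I * pt r θ)).re with hg1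
  set g2 : ℝ → ℝ → ℝ := fun t θ => fderiv ℝ (p t) (c t + pt r θ) (Complex.I * pt r θ) with hg2
  have hcz : ∀ t : ℝ, Continuous (fun θ : ℝ => c t + pt r θ) := fun t =>
    continuous_const.add (ptCont r)
  have hvc : ∀ t ∈ Icc (0 : ℝ) 1, Continuous (fun θ : ℝ => v t (c t + pt r θ)) := fun t ht =>
    (velCont hR ht).comp_continuous (hcz t) (hin t ht)
  have hfc : ∀ t ∈ Icc (0 : ℝ) 1, Continuous (f t) := by
    intro t ht
    exact Complex.continuous_re.comp ((Complex.continuous_conj.comp (hvc t ht)).mul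
      (continuous_const.mul (ptCont r)))
  have hg1c : ∀ t ∈ Icc (0 : ℝ) 1, Continuous (g1 t) := by
    intro t ht
    have h1 : Continuous (fun θ : ℝ => fderiv ℝ (v t) (c t + pt r θ)) :=
      (derCont hR ht).comp_continuous (hcz t) (hin t ht)
    have h2 : Continuous (fun θ : ℝ => fderiv ℝ (v t) (c t + pt r θ)
        (v t (c t + pt r θ) - v t (c t))) := h1.clm_apply ((hvc t ht).sub continuous_const)
    exact Complex.continuous_re.comp ((Complex.continuous_conj.comp h2.neg).mul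
      (continuous_const.mul (ptCont r)))
  have hg1b : ∀ t ∈ Icc (0 : ℝ) 1, ∀ θ, |g1 t θ| ≤ 2 * L ^ 2 * r ^ (5 / 2 : ℝ) := by
    intro t ht θ
    exact circ_rhs hr hR.hL (fun z hz => hR.diff t ht z (hc t ht hz))
      (fun z hz => hR.dbd t ht z (hc t ht hz))
      (fun z hz => hR.hol t ht z (hc t ht hz) (c t) (hcin t ht)) (hdiv t ht _ (hcin t ht)) θ
  have hpn : ∀ t ∈ Icc (0 : ℝ) 1, ∀ z ∈ interior M, ‖fderiv ℝ (p t) z‖ ≤ K := by
    intro t ht z hz
    exact norm_fderiv_le_of_lipschitzOn ℝ (mem_interior_iff_mem_nhds.1 hz) (hp1 t ht)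
  have hg2b : ∀ t ∈ Icc (0 : ℝ) 1, ∀ θ, |g2 t θ| ≤ K * r := by
    intro t ht θ
    have h1 := (fderiv ℝ (p t) (c t + pt r θ)).le_opNorm (Complex.I * pt r θ)
    rw [norm_mul, Complex.norm_I, one_mul, ptNorm hr, Real.norm_eq_abs] at h1
    exact h1.trans (mul_le_mul_of_nonneg_right (hpn t ht _ (hin t ht θ)) hr.le)
  have hg2d : ∀ t ∈ Icc (0 : ℝ) 1, ∀ θ, HasDerivAt (fun x : ℝ => p t (c t + pt r x)) (g2 t θ) θ := by
    intro t ht θ
    have h1 := (hp2 t ht _ (hin t ht θ)).hasFDerivAt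
    have h2 : HasDerivAt (fun x : ℝ => c t + pt r x) (Complex.I * pt r θ) θ :=
      (ptDeriv r θ).const_add (c t)
    exact h1.comp_hasDerivAt θ h2
  have hg2m : ∀ t ∈ Icc (0 : ℝ) 1, Measurable (g2 t) := by
    intro t ht
    have e : g2 t = deriv (fun x : ℝ => p t (c t + pt r x)) := by
      funext θ
      exact (hg2d t ht θ).deriv.symm
    rw [e]
    exact measurable_deriv _
  have hg2i : ∀ t ∈ Icc (0 : ℝ) 1, IntervalIntegrable (g2 t) volume 0 (2 * Real.pi) := by
    intro t ht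
    rw [intervalIntegrable_iff_integrableOn_Ioc_of_le hpi]
    refine Measure.integrableOn_of_bounded (M := K * r) measure_Ioc_lt_top.ne (hg2m t ht).aestronglyMeasurable
      (Eventually.of_forall fun θ => ?_)
    rw [Real.norm_eq_abs]
    exact hg2b t ht θ
  have hg20 : ∀ t ∈ Icc (0 : ℝ) 1, ∫ θ in (0 : ℝ)..(2 * Real.pi), g2 t θ = 0 := by
    intro t ht
    rw [intervalIntegral.integral_eq_sub_of_hasDerivAt (fun θ _ => hg2d t ht θ) (hg2i t ht),
      ptPeriod, sub_self]
  -- the derivative of the integrand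
  have hfd : ∀ θ : ℝ, ∀ t ∈ Icc (0 : ℝ) 1,
      HasDerivWithinAt (fun τ => f τ θ) (g1 t θ - g2 t θ) (Icc 0 1) t := by
    intro θ t ht
    have h1 := moving_deriv hR hp (c := c) (c' := fun t => v t (c t)) (w := pt r θ)
      (fun t ht => hin t ht θ) hc' t ht
    have h2 : HasDerivWithinAt (fun τ => conj (v τ (c τ + pt r θ)) * (Complex.I * pt r θ))
        (conj (-(fderiv ℝ (v t) (c t + pt r θ) (v t (c t + pt r θ))) -
          grad (p t) (c t + pt r θ) + fderiv ℝ (v t) (c t + pt r θ) (v t (c t))) *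
          (Complex.I * pt r θ)) (Icc 0 1) t := by
      have h3 := (Complex.conjCLE.toContinuousLinearMap.hasFDerivAt
        (x := v t (c t + pt r θ))).comp_hasDerivWithinAt t h1
      exact h3.mul_const _
    have h4 := Complex.reCLM.hasFDerivAt.comp_hasDerivWithinAt t h2
    have e : g1 t θ - g2 t θ = Complex.reCLM
        (conj (-(fderiv ℝ (v t) (c t + pt r θ) (v t (c t + pt r θ))) -
          grad (p t) (c t + pt r θ) + fderiv ℝ (v t) (c t + pt r θ) (v t (c t))) *
          (Complex.I * pt r θ)) := by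
      have e1 : g2 t θ = (conj (grad (p t) (c t + pt r θ)) * (Complex.I * pt r θ)).re := by
        have e2 : Complex.I * pt r θ = (Complex.I * pt r θ).re • (1 : ℂ) +
            (Complex.I * pt r θ).im • Complex.I := by
          simp only [Complex.real_smul, mul_one]
          exact (Complex.re_add_im _).symm
        have e3 : g2 t θ = (Complex.I * pt r θ).re * dx (p t) (c t + pt r θ) +
            (Complex.I * pt r θ).im * dy (p t) (c t + pt r θ) := by
          show fderiv ℝ (p t) (c t + pt r θ) (Complex.I * pt r θ) = _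
          conv_lhs => rw [e2]
          rw [map_add, map_smul, map_smul]
          rfl
        rw [e3]
        unfold grad
        simp only [map_add, map_mul, Complex.conj_ofReal, Complex.conj_I, Complex.mul_re,
          Complex.add_re, Complex.add_im, Complex.mul_im, Complex.ofReal_re, Complex.ofReal_im,
          Complex.neg_re, Complex.neg_im, Complex.I_re, Complex.I_im]
        ring
      rw [e1, Complex.reCLM_apply]
      show (conj (-(fderiv ℝ (v t) (c t + pt r θ) (v t (c t + pt r θ) - v t (c t)))) *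
        (Complex.I * pt r θ)).re - _ = _
      rw [map_sub (fderiv ℝ (v t) (c t + pt r θ)), ← Complex.sub_re, ← sub_mul, ← map_sub]
      congr 3
      ring
    rw [e]
    exact h4
  have hmain := hasDerivWithinAt_integral (μ := volume.restrict (Ioc (0 : ℝ) (2 * Real.pi)))
    (f := f) (f' := fun t θ => g1 t θ - g2 t θ)
    (B := 2 * L ^ 2 * r ^ (5 / 2 : ℝ) + K * r)
    (fun t ht => ((hfc t ht).intervalIntegrable 0 (2 * Real.pi)).1)
    (Eventually.of_forall fun θ => hfd θ)
    (Eventually.of_forall fun θ t ht => (abs_sub _ _).trans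
      (add_le_add (hg1b t ht θ) (hg2b t ht θ)))
  have hcirc : ∀ t, circ (v t) (c t) r = ∫ θ in Ioc (0 : ℝ) (2 * Real.pi), f t θ := by
    intro t
    unfold circ
    rw [intervalIntegral.integral_of_le hpi]
  have hder : ∀ t ∈ Icc (0 : ℝ) 1, HasDerivWithinAt (fun τ => circ (v τ) (c τ) r)
      (∫ θ in (0 : ℝ)..(2 * Real.pi), g1 t θ) (Icc 0 1) t := by
    intro t ht
    have h1 := hmain t ht
    have e1 : (fun τ => circ (v τ) (c τ) r) = fun τ => ∫ θ in Ioc (0 : ℝ) (2 * Real.pi), f τ θ :=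
      funext hcirc
    have e2 : ∫ θ in (0 : ℝ)..(2 * Real.pi), g1 t θ =
        ∫ θ in Ioc (0 : ℝ) (2 * Real.pi), (g1 t θ - g2 t θ) := by
      rw [← intervalIntegral.integral_of_le hpi,
        intervalIntegral.integral_sub ((hg1c t ht).intervalIntegrable _ _) (hg2i t ht),
        hg20 t ht, sub_zero]
    rw [e1, e2]
    exact h1
  have hbound : ∀ t ∈ Icc (0 : ℝ) 1, ‖∫ θ in (0 : ℝ)..(2 * Real.pi), g1 t θ‖ ≤
      4 * Real.pi * L ^ 2 * r ^ (5 / 2 : ℝ) := by
    intro t ht
    have h1 := intervalIntegral.norm_integral_le_of_norm_le_const (a := (0 : ℝ))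
      (b := 2 * Real.pi) (C := 2 * L ^ 2 * r ^ (5 / 2 : ℝ)) (f := g1 t) (fun θ _ => by
        rw [Real.norm_eq_abs]
        exact hg1b t ht θ)
    refine h1.trans (le_of_eq ?_)
    rw [sub_zero, abs_of_nonneg hpi]
    ring
  intro t ht
  have h1 := Convex.norm_image_sub_le_of_norm_hasDerivWithin_le (f := fun τ => circ (v τ) (c τ) r)
    (s := Icc (0 : ℝ) 1) hder hbound (convex_Icc 0 1) (left_mem_Icc.2 zero_le_one) ht
  rw [Real.norm_eq_abs, sub_zero, Real.norm_eq_abs, abs_of_nonneg ht.1] at h1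
  refine h1.trans ?_
  have h2 : 0 ≤ 4 * Real.pi * L ^ 2 * r ^ (5 / 2 : ℝ) := by positivity
  nlinarith [ht.2]

end Pool.Agent.EAC.PA
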