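import Pool.Agent.EAC.PA.APatch

/-!
# EAC-A-COV: patches at all points, compactness

`ipatch`: `ball x (17 * a) ⊆ interior M`, `ψ ζ = x + ζ - (a / 2) * I`, `C = 1` (also `deriv (deriv ψ) = 0`), `r = a / 4`.
`dense`: boundary points by `ψ (t * I) → ψ 0 = x`, `t ↓ 0`.
`uniformize`: finite subcover of the balls of radius `r_x / 2` (`hM.elim_finite_subcover` or Lebesgue number lemma).
-/

set_option autoImplicit false

noncomputable section

namespace Pool.Agent.EAC.PA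

open MeasureTheory Set Filter Topology Metric
open scoped ENNReal ComplexConjugate

theorem ipatch {M : Set ℂ} {x : ℂ} (hx : x ∈ interior M) : ∃ ψ a C r, Patch M x ψ a C r := by
  obtain ⟨ε, hε, hball⟩ := Metric.isOpen_iff.1 isOpen_interior x hx
  set a : ℝ := ε / 17 with ha
  have ha0 : 0 < a := by positivity
  have h17 : 17 * a = ε := by rw [ha]; ring
  set ψ : ℂ → ℂ := fun ζ => x + ζ - ((a / 2 : ℝ) : ℂ) * Complex.I with hψ
  have hd : ∀ ζ, HasDerivAt ψ 1 ζ := by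
    intro ζ
    have h1 : HasDerivAt (fun ζ : ℂ => ζ) 1 ζ := hasDerivAt_id ζ
    exact (h1.const_add x).sub_const _
  have hder : deriv ψ = fun _ => (1 : ℂ) := funext fun ζ => (hd ζ).deriv
  have hnI : ‖((a / 2 : ℝ) : ℂ) * Complex.I‖ = a / 2 := by
    rw [norm_mul, Complex.norm_I, mul_one, Complex.norm_real, Real.norm_eq_abs,
      abs_of_pos (by positivity)]
  have hin : ∀ ζ ∈ ball (0 : ℂ) (16 * a), ψ ζ ∈ interior M := by
    intro ζ hζ
    apply hball
    rw [mem_ball_zero_iff] at hζ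
    rw [mem_ball, dist_eq_norm]
    have h1 : ψ ζ - x = ζ - ((a / 2 : ℝ) : ℂ) * Complex.I := by simp only [hψ]; ring
    rw [h1]
    calc ‖ζ - ((a / 2 : ℝ) : ℂ) * Complex.I‖ ≤ ‖ζ‖ + ‖((a / 2 : ℝ) : ℂ) * Complex.I‖ := norm_sub_le _ _
      _ < ε := by rw [hnI]; linarith
  have hcov : ∀ z : ℂ, ‖z - x‖ < a / 4 → ∃ ζ, ‖ζ‖ < a ∧ 0 < ζ.im ∧ ψ ζ = z := by
    intro z hz
    refine ⟨z - x + ((a / 2 : ℝ) : ℂ) * Complex.I, ?_, ?_, ?_⟩
    · calc ‖z - x + ((a / 2 : ℝ) : ℂ) * Complex.I‖ ≤ ‖z - x‖ + ‖((a / 2 : ℝ) : ℂ) * Complex.I‖ :=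
            norm_add_le _ _
        _ < a := by rw [hnI]; linarith
    · have h1 : |(z - x).im| ≤ ‖z - x‖ := Complex.abs_im_le_norm _
      have h2 := (abs_le.1 h1).1
      have h3 : (z - x + ((a / 2 : ℝ) : ℂ) * Complex.I).im = (z - x).im + a / 2 := by
        simp
      rw [h3]
      linarith
    · simp only [hψ]
      ring
  refine ⟨ψ, a, 1, a / 4, ⟨ha0, le_rfl, by positivity, ?_, ?_, ?_, ?_, ?_, ?_, ?_, ?_, ?_⟩⟩
  · intro ζ _
    exact (hd ζ).differentiableAt.differentiableWithinAt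
  · intro ζ _
    rw [hder]; simp
  · intro ζ _
    rw [hder]; simp
  · intro ζ _
    rw [hder]; simp
  · intro ζ _ ξ _
    have h1 : ψ ζ - ψ ξ = ζ - ξ := by simp only [hψ]; ring
    rw [h1, one_mul]
    exact ⟨le_rfl, le_rfl⟩
  · intro ζ hζ _
    exact interior_subset (hin ζ hζ)
  · intro ζ hζ _
    exact hin ζ hζ
  · intro z _ hz
    obtain ⟨ζ, h1, h2, h3⟩ := hcov z hz
    exact ⟨ζ, h1, h2.le, h3⟩
  · intro z _ hz
    exact hcov z hz

theorem patch {M : Set ℂ} (hM : AnalyticDomain M) {x : ℂ} (hx : x ∈ M) :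
    ∃ ψ a C r, Patch M x ψ a C r := by
  by_cases h : x ∈ interior M
  · exact ipatch h
  · obtain ⟨ψ, φ, a, C, r, R, hP⟩ := bpatch hM hx h
    exact ⟨ψ, a, C, r, hP.toPatch⟩

theorem subset_closure_interior {M : Set ℂ} (hM : AnalyticDomain M) : M ⊆ closure (interior M) := by
  intro x hx
  by_cases h : x ∈ interior M
  · exact subset_closure h
  · obtain ⟨ψ, φ, a, C, r, R, hP⟩ := bpatch hM hx h
    have ha := hP.ha
    have hc : ContinuousAt ψ 0 :=
      (hP.holo.differentiableAt (ball_mem_nhds (0 : ℂ) (by linarith))).continuousAt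
    have h1 : Tendsto (fun t : ℝ => (t : ℂ) * Complex.I) (𝓝[>] 0) (𝓝 0) := by
      have h2 : Continuous (fun t : ℝ => (t : ℂ) * Complex.I) := by fun_prop
      have h3 := (h2.tendsto 0).mono_left (nhdsWithin_le_nhds (s := Ioi (0 : ℝ)))
      simpa using h3
    have h4 : Tendsto (fun t : ℝ => ψ ((t : ℂ) * Complex.I)) (𝓝[>] 0) (𝓝 x) := by
      have h5 := hc.tendsto.comp h1
      rw [hP.center] at h5
      exact h5
    refine mem_closure_of_tendsto h4 ?_
    have h6 : ∀ᶠ t : ℝ in 𝓝[>] 0, t ∈ Ioo (0 : ℝ) (16 * a) :=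
      Ioo_mem_nhdsGT (by linarith)
    filter_upwards [h6] with t ht
    apply hP.inside
    · rw [mem_ball_zero_iff, norm_mul, Complex.norm_I, mul_one, Complex.norm_real,
        Real.norm_eq_abs, abs_of_pos ht.1]
      exact ht.2
    · simpa using ht.1

/-- a local property with a constant, monotone in the constant, is uniform on a compact set. -/
theorem uniformize {M : Set ℂ} (hM : IsCompact M) (P : ℂ → ℂ → ℝ → Prop)
    (mono : ∀ z w C C', P z w C → C ≤ C' → P z w C')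
    (loc : ∀ x ∈ M, ∃ r > 0, ∃ C, ∀ z ∈ M, ∀ w ∈ M, ‖z - x‖ < r → ‖w - x‖ < r → P z w C) :
    ∃ r > 0, ∃ C > 0, ∀ z ∈ M, ∀ w ∈ M, ‖z - w‖ < r → P z w C := by
  choose! r hr C hC using loc
  obtain ⟨t, htM, hcov⟩ := hM.elim_nhds_subcover (fun x => ball x (r x / 2))
    (fun x hx => ball_mem_nhds x (half_pos (hr x hx)))
  have h1 : ∀ᶠ ρ : ℝ in 𝓝[>] 0, ∀ x ∈ t, ρ < r x / 2 := by
    rw [Filter.eventually_all_finset]
    intro x hx
    exact (eventually_lt_nhds (half_pos (hr x (htM x hx)))).filter_mono nhdsWithin_le_nhds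
  have h2 : ∀ᶠ ρ : ℝ in 𝓝[>] 0, 0 < ρ := eventually_mem_nhdsWithin
  obtain ⟨ρ, hρ1, hρ2⟩ := (h1.and h2).exists
  have h3 : ∀ᶠ K : ℝ in atTop, ∀ x ∈ t, C x ≤ K := by
    rw [Filter.eventually_all_finset]
    intro x _
    exact eventually_ge_atTop (C x)
  obtain ⟨K, hK1, hK2⟩ := (h3.and (eventually_gt_atTop (0 : ℝ))).exists
  refine ⟨ρ, hρ2, K, hK2, fun z hz w hw hzw => ?_⟩
  obtain ⟨x, hx, hzx⟩ := mem_iUnion₂.1 (hcov hz)
  rw [mem_ball, dist_eq_norm] at hzx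
  have h4 := hr x (htM x hx)
  have h5 := hρ1 x hx
  refine mono _ _ _ _ (hC x (htM x hx) z hz w hw (by linarith) ?_) (hK1 x hx)
  calc ‖w - x‖ = ‖(z - x) - (z - w)‖ := by congr 1; ring
    _ ≤ ‖z - x‖ + ‖z - w‖ := norm_sub_le _ _
    _ < r x := by linarith

end Pool.Agent.EAC.PA
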