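import Pool.Agent.EAC.Defs

/-!
# EAC, PART A: definitions

`Patch M x ψ a C r`: `ψ` is a holomorphic bi-Lipschitz map of the disc `|ζ| < 16 a` with
`ψ {Im > 0} ⊆ interior M`, which covers `M ∩ ball x r` by the closed half disc of radius `a`.
`BPatch`: the same at a boundary point, `φ` the inverse map, `ψ ζ ∈ M ↔ 0 ≤ Im ζ`.
-/

set_option autoImplicit false

noncomputable section

namespace Pool.Agent.EAC.PA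

open MeasureTheory Set Filter Topology Metric
open scoped ENNReal ComplexConjugate

/-- scalar vorticity -/
def curl (v : ℂ → ℂ) (z : ℂ) : ℝ := (dx v z).im - (dy v z).re

/-- divergence -/
def dvg (v : ℂ → ℂ) (z : ℂ) : ℝ := (dx v z).re + (dy v z).im

structure Patch (M : Set ℂ) (x : ℂ) (ψ : ℂ → ℂ) (a C r : ℝ) : Prop where
  ha : 0 < a
  hC : 1 ≤ C
  hr : 0 < r
  holo : DifferentiableOn ℂ ψ (ball 0 (16 * a))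
  low : ∀ ζ ∈ ball (0 : ℂ) (16 * a), 1 ≤ C * ‖deriv ψ ζ‖
  upp : ∀ ζ ∈ ball (0 : ℂ) (16 * a), ‖deriv ψ ζ‖ ≤ C
  upp2 : ∀ ζ ∈ ball (0 : ℂ) (16 * a), ‖deriv (deriv ψ) ζ‖ ≤ C
  bilip : ∀ ζ ∈ ball (0 : ℂ) (16 * a), ∀ ξ ∈ ball (0 : ℂ) (16 * a),
    ‖ζ - ξ‖ ≤ C * ‖ψ ζ - ψ ξ‖ ∧ ‖ψ ζ - ψ ξ‖ ≤ C * ‖ζ - ξ‖
  inM : ∀ ζ ∈ ball (0 : ℂ) (16 * a), 0 ≤ ζ.im → ψ ζ ∈ M
  inside : ∀ ζ ∈ ball (0 : ℂ) (16 * a), 0 < ζ.im → ψ ζ ∈ interior M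
  cover : ∀ z ∈ M, ‖z - x‖ < r → ∃ ζ, ‖ζ‖ < a ∧ 0 ≤ ζ.im ∧ ψ ζ = z
  coverI : ∀ z ∈ interior M, ‖z - x‖ < r → ∃ ζ, ‖ζ‖ < a ∧ 0 < ζ.im ∧ ψ ζ = z

structure BPatch (M : Set ℂ) (x : ℂ) (ψ φ : ℂ → ℂ) (a C r R : ℝ) : Prop
    extends Patch M x ψ a C r where
  center : ψ 0 = x
  hrR : r ≤ R
  bd : ∀ ζ ∈ ball (0 : ℂ) (16 * a), (ψ ζ ∈ M ↔ 0 ≤ ζ.im)
  bdI : ∀ ζ ∈ ball (0 : ℂ) (16 * a), (ψ ζ ∈ interior M ↔ 0 < ζ.im)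
  φd : DifferentiableOn ℂ φ (ball x R)
  φinj : InjOn φ (ball x R)
  φψ : ∀ ζ ∈ ball (0 : ℂ) (16 * a), ψ ζ ∈ ball x R ∧ φ (ψ ζ) = ζ
  ψφ : ∀ z ∈ ball x r, ‖φ z‖ < a ∧ ψ (φ z) = z

/-- closed rectangle in the half disc -/
def rect (a e : ℝ) : Set ℂ := {ζ | -a ≤ ζ.re ∧ ζ.re ≤ a ∧ e ≤ ζ.im ∧ ζ.im ≤ 2 * a}

/-- sum of the norms of the derivatives of order at most two -/
def H2 (F : ℂ → ℂ) (z : ℂ) : ℝ :=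
  ‖F z‖ + ‖dx F z‖ + ‖dy F z‖ + ‖dx (dx F) z‖ + ‖dx (dy F) z‖ + ‖dy (dy F) z‖

/-- bump function of radius `δ` (for `0 < δ`) -/
def bum (δ : ℝ) : ContDiffBump (0 : ℂ) :=
  if h : 0 < δ then ⟨δ / 2, δ, half_pos h, half_lt_self h⟩ else ⟨1, 2, one_pos, one_lt_two⟩

/-- mollifier -/
def eta (δ : ℝ) (z : ℂ) : ℝ := (bum δ).normed volume z

/-- mollification of `f` (considered as `0` outside the interior of `M`) -/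
def mol (M : Set ℂ) (δ : ℝ) (f : ℂ → ℂ) (z : ℂ) : ℂ := ∫ w in interior M, eta δ (z - w) • f w

/-- the mollifications of `f` converge to `f` at `z` -/
def Good (M : Set ℂ) (f : ℂ → ℂ) (z : ℂ) : Prop :=
  Tendsto (fun δ : ℝ => mol M δ f z) (𝓝[>] 0) (𝓝 (f z))

/-- the real linear map with `1 ↦ p`, `I ↦ q` -/
def lin (p q : ℂ) : ℂ →L[ℝ] ℂ := Complex.reCLM.smulRight p + Complex.imCLM.smulRight q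

/-- consequences of `IsEuler M s 1 v`, `s ≥ 3` and the Sobolev embedding -/
structure Reg (M : Set ℂ) (v : ℝ → ℂ → ℂ) (L : ℝ) : Prop where
  hL : 0 ≤ L
  lip : ∀ t ∈ Icc (0 : ℝ) 1, ∀ x ∈ M, ∀ y ∈ M, ‖v t x - v t y‖ ≤ L * ‖x - y‖
  bd : ∀ t ∈ Icc (0 : ℝ) 1, ∀ x ∈ M, ‖v t x‖ ≤ L
  diff : ∀ t ∈ Icc (0 : ℝ) 1, ∀ z ∈ interior M, DifferentiableAt ℝ (v t) z
  dbd : ∀ t ∈ Icc (0 : ℝ) 1, ∀ z ∈ interior M, ‖fderiv ℝ (v t) z‖ ≤ L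
  hol : ∀ t ∈ Icc (0 : ℝ) 1, ∀ z ∈ interior M, ∀ w ∈ interior M,
    ‖fderiv ℝ (v t) z - fderiv ℝ (v t) w‖ ≤ L * ‖z - w‖ ^ (1 / 2 : ℝ)
  tcont : ∀ t ∈ Icc (0 : ℝ) 1, ∀ e > 0, ∀ᶠ τ in 𝓝[Icc (0 : ℝ) 1] t, ∀ x ∈ M, ∀ y ∈ M,
    ‖(v τ x - v t x) - (v τ y - v t y)‖ ≤ e * ‖x - y‖

/-- the smallest Lipschitz constant of `v` on `M` -/
def ell (M : Set ℂ) (v : ℂ → ℂ) : ℝ :=
  sInf {L : ℝ | 0 ≤ L ∧ ∀ x ∈ M, ∀ y ∈ M, ‖v x - v y‖ ≤ L * ‖x - y‖}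

/-- `r e^{iθ}` -/
def pt (r θ : ℝ) : ℂ := (r : ℂ) * Complex.exp ((θ : ℂ) * Complex.I)

/-- circulation of `u` along the circle with centre `c` and radius `r` -/
def circ (u : ℂ → ℂ) (c : ℂ) (r : ℝ) : ℝ :=
  ∫ θ in (0 : ℝ)..(2 * Real.pi), (conj (u (c + pt r θ)) * (Complex.I * pt r θ)).re

end Pool.Agent.EAC.PA
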