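import Pool.Agent.EAC.PA.AMol0

/-!
# EAC-A-GOOD: convergence of the mollification

`good_ae`: `ContDiffBump.ae_convolution_tendsto_right_of_locallyIntegrable` with
`g = (interior M).indicator f` (`K = 2`, `rOut (bum δ) = δ → 0`); `mol M δ f z = (eta δ ⋆[lsmul ℝ ℝ, volume] g) z`
(`convolution_eq_swap`, `integral_indicator`, `isOpen_interior.measurableSet`).
`good_cont`: directly, `‖mol M δ f z - f z‖ ≤ sup_{ball z δ} ‖f w - f z‖` for `closedBall z δ ⊆ interior M`
(`eta_integral_in`, `eta_eq_zero`).
-/

set_option autoImplicit false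

noncomputable section

namespace Pool.Agent.EAC.PA

open MeasureTheory Set Filter Topology Metric
open scoped ENNReal ComplexConjugate Convolution

theorem mol_eq_conv (M : Set ℂ) (δ : ℝ) (f : ℂ → ℂ) (z : ℂ) :
    mol M δ f z =
      ((bum δ).normed volume ⋆[ContinuousLinearMap.lsmul ℝ ℝ, volume] (interior M).indicator f) z := by
  rw [convolution_eq_swap, mol, ← integral_indicator isOpen_interior.measurableSet]
  congr 1
  ext w
  by_cases hw : w ∈ interior M
  · rw [indicator_of_mem hw, indicator_of_mem hw]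
    rfl
  · rw [indicator_of_notMem hw, indicator_of_notMem hw]
    simp

theorem bum_rOut {δ : ℝ} (hδ : 0 < δ) : (bum δ).rOut = δ := by
  simp [bum, hδ]

theorem bum_rIn {δ : ℝ} (hδ : 0 < δ) : (bum δ).rIn = δ / 2 := by
  simp [bum, hδ]

theorem bum_rOut_tendsto : Tendsto (fun δ : ℝ => (bum δ).rOut) (𝓝[>] 0) (𝓝 0) := by
  have h1 : Tendsto (fun δ : ℝ => δ) (𝓝[>] 0) (𝓝 0) := nhdsWithin_le_nhds
  refine h1.congr' ?_
  filter_upwards [self_mem_nhdsWithin] with δ hδ
  exact (bum_rOut hδ).symm

theorem good_ae {M : Set ℂ} {f : ℂ → ℂ} (hf : IntegrableOn f (interior M)) :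
    ∀ᵐ z, z ∈ interior M → Good M f z := by
  have hg : LocallyIntegrable ((interior M).indicator f) volume :=
    ((integrable_indicator_iff isOpen_interior.measurableSet).2 hf).locallyIntegrable
  have h2 : ∀ᶠ δ : ℝ in 𝓝[>] 0, (bum δ).rOut ≤ 2 * (bum δ).rIn := by
    filter_upwards [self_mem_nhdsWithin] with δ hδ
    rw [bum_rOut hδ, bum_rIn hδ]
    linarith
  filter_upwards [ContDiffBump.ae_convolution_tendsto_right_of_locallyIntegrable
    bum_rOut_tendsto h2 hg] with z hz hzM
  rw [indicator_of_mem hzM] at hz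
  unfold Good
  simp only [mol_eq_conv]
  exact hz

theorem good_cont {M : Set ℂ} {f : ℂ → ℂ} (hf : ContinuousOn f (interior M)) :
    ∀ z ∈ interior M, Good M f z := by
  intro z hz
  unfold Good
  simp only [mol_eq_conv]
  refine ContDiffBump.convolution_tendsto_right bum_rOut_tendsto ?_ ?_ tendsto_const_nhds
  · refine Eventually.of_forall fun δ => ?_
    rw [aestronglyMeasurable_indicator_iff isOpen_interior.measurableSet]
    exact hf.aestronglyMeasurable isOpen_interior.measurableSet
  · have h1 : Tendsto ((interior M).indicator f) (𝓝 z) (𝓝 (f z)) := by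
      have h2 : ContinuousAt f z := hf.continuousAt (isOpen_interior.mem_nhds hz)
      refine h2.tendsto.congr' ?_
      filter_upwards [isOpen_interior.mem_nhds hz] with w hw
      rw [indicator_of_mem hw]
    exact h1.comp tendsto_snd

end Pool.Agent.EAC.PA
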