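import Pool.Agent.EAC.PA.AMol2
import Pool.Agent.EAC.PA.AGood

/-!
# EAC-A-DER: the weak derivatives are classical derivatives

`hasFDerivAt_of_tendstoUniformlyOn` on a small ball around `z` for `mol M δ_n v`, `δ_n → 0`: pointwise limit `v` (`good_cont`),
derivatives `lin (mol M δ_n (g 1 0) z) (mol M δ_n (g 0 1) z)` (`mol_weak`), uniformly convergent to `lin (F z) (G z)`.
(`fderiv ℝ u z = lin (dx u z) (dy u z)`.)
-/

set_option autoImplicit false

noncomputable section

namespace Pool.Agent.EAC.PA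

open MeasureTheory Set Filter Topology Metric
open scoped ENNReal ComplexConjugate

theorem lin_apply (p q h : ℂ) : lin p q h = h.re • p + h.im • q := by
  simp [lin]

theorem norm_lin_le (p q : ℂ) : ‖lin p q‖ ≤ ‖p‖ + ‖q‖ := by
  refine (norm_add_le _ _).trans (le_of_eq ?_)
  rw [ContinuousLinearMap.norm_smulRight_apply, ContinuousLinearMap.norm_smulRight_apply,
    Complex.reCLM_norm, Complex.imCLM_norm, one_mul, one_mul]

theorem fderiv_eq_lin (u : ℂ → ℂ) (z : ℂ) : fderiv ℝ u z = lin (dx u z) (dy u z) := by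
  ext1 h
  have h1 : h = h.re • (1 : ℂ) + h.im • Complex.I := by
    apply Complex.ext <;> simp
  rw [lin_apply]
  conv_lhs => rw [h1, map_add, map_smul, map_smul]
  rfl

theorem hasFDerivAt_of_weak {M : Set ℂ} {v : ℂ → ℂ} {g : ℕ → ℕ → ℂ → ℂ} (hg : IsWeak M 3 v g)
    (hv : ContinuousOn v M) (hvi : IntegrableOn v (interior M)) {F G : ℂ → ℂ} {K : ℝ}
    (hF : ∀ z ∈ interior M, ∀ δ > 0, closedBall z δ ⊆ interior M →
      ‖mol M δ (g 1 0) z - F z‖ ≤ K * δ ^ (1 / 2 : ℝ))
    (hG : ∀ z ∈ interior M, ∀ δ > 0, closedBall z δ ⊆ interior M →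
      ‖mol M δ (g 0 1) z - G z‖ ≤ K * δ ^ (1 / 2 : ℝ)) :
    ∀ z ∈ interior M, HasFDerivAt v (lin (F z) (G z)) z := by
  intro z hz
  obtain ⟨r, hr, hrM⟩ := nhds_basis_closedBall.mem_iff.1 (isOpen_interior.mem_nhds hz)
  set d : ℕ → ℝ := fun n => (r / 2) / ((n : ℝ) + 1) with hd
  have hd0 : ∀ n, 0 < d n := fun n => by positivity
  have hdr : ∀ n, d n ≤ r / 2 := fun n => by
    rw [hd]
    exact div_le_self (by positivity) (by have : (0 : ℝ) ≤ n := Nat.cast_nonneg n; linarith)
  have hdlim : Tendsto d atTop (𝓝 0) := by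
    have h1 := (tendsto_one_div_add_atTop_nhds_zero_nat (𝕜 := ℝ)).const_mul (r / 2)
    rw [mul_zero] at h1
    refine h1.congr (fun n => ?_)
    rw [hd]
    ring
  have hsub : ∀ w ∈ ball z (r / 2), ∀ n, closedBall w (d n) ⊆ interior M := by
    intro w hw n
    refine Subset.trans ?_ hrM
    refine closedBall_subset_closedBall' ?_
    have h2 := hdr n
    rw [mem_ball] at hw
    linarith
  have hder : ∀ n, ∀ w ∈ ball z (r / 2),
      fderiv ℝ (mol M (d n) v) w = lin (mol M (d n) (g 1 0) w) (mol M (d n) (g 0 1) w) := by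
    intro n w hw
    have h10 := mol_weak hg hvi (i := 1) (j := 0) (by norm_num) (hd0 n) (hsub w hw n)
    have h01 := mol_weak hg hvi (i := 0) (j := 1) (by norm_num) (hd0 n) (hsub w hw n)
    rw [fderiv_eq_lin, ← h10, ← h01]
    rfl
  refine hasFDerivAt_of_tendstoUniformlyOn (f := fun n => mol M (d n) v)
    (f' := fun n w => fderiv ℝ (mol M (d n) v) w) (g' := fun w => lin (F w) (G w))
    (s := ball z (r / 2)) (l := atTop) isOpen_ball ?_ ?_ ?_ (x := z) (mem_ball_self (by positivity))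
  · rw [Metric.tendstoUniformlyOn_iff]
    intro e he
    have hlim : Tendsto (fun n => 2 * (K * d n ^ (1 / 2 : ℝ))) atTop (𝓝 0) := by
      have h1 : Tendsto (fun n => d n ^ (1 / 2 : ℝ)) atTop (𝓝 ((0 : ℝ) ^ (1 / 2 : ℝ))) :=
        hdlim.rpow_const (Or.inr (by norm_num))
      rw [Real.zero_rpow (by norm_num)] at h1
      simpa using (h1.const_mul K).const_mul 2
    filter_upwards [hlim.eventually (gt_mem_nhds he)] with n hn w hw
    have hwM : w ∈ interior M := hsub w hw n (mem_closedBall_self (hd0 n).le)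
    have h1 := hF w hwM (d n) (hd0 n) (hsub w hw n)
    have h2 := hG w hwM (d n) (hd0 n) (hsub w hw n)
    show dist (lin (F w) (G w)) (fderiv ℝ (mol M (d n) v) w) < e
    rw [dist_comm, dist_eq_norm, hder n w hw]
    have h3 : lin (mol M (d n) (g 1 0) w) (mol M (d n) (g 0 1) w) - lin (F w) (G w) =
        lin (mol M (d n) (g 1 0) w - F w) (mol M (d n) (g 0 1) w - G w) := by
      ext1 h
      simp only [sub_apply, lin_apply, smul_sub]
      ring
    rw [h3]
    refine (norm_lin_le _ _).trans_lt (lt_of_le_of_lt ?_ hn)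
    linarith
  · intro n w _
    exact ((mol_contDiff hvi (d n)).differentiable (by simp)).differentiableAt.hasFDerivAt
  · intro w hw
    have hwM : w ∈ interior M := hsub w hw 0 (mem_closedBall_self (hd0 0).le)
    have h1 : Good M v w := good_cont (hv.mono interior_subset) w hwM
    have h2 : Tendsto d atTop (𝓝[>] 0) :=
      tendsto_nhdsWithin_iff.2 ⟨hdlim, Eventually.of_forall fun n => hd0 n⟩
    have h3 : Tendsto (fun δ : ℝ => mol M δ v w) (𝓝[>] 0) (𝓝 (v w)) := h1
    exact h3.comp h2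

end Pool.Agent.EAC.PA
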