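import Mathlib

/-!
# EAC-A-DINT: differentiation under the integral on a closed interval

The slopes `(f τ x - f t x) / (τ - t)` are bounded by `B` (mean value inequality on `[0,1]`:
`Convex.norm_image_sub_le_of_norm_hasDerivWithin_le`) and converge to `f' t x`; dominated convergence
`tendsto_integral_filter_of_dominated_convergence`, `hasDerivWithinAt_iff_tendsto_slope`.
-/

set_option autoImplicit false

noncomputable section

namespace Pool.Agent.EAC.PA

open MeasureTheory Set Filter Topology Metric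
open scoped ENNReal ComplexConjugate

theorem hasDerivWithinAt_integral {α : Type*} [MeasurableSpace α] {μ : Measure α} [IsFiniteMeasure μ]
    {f f' : ℝ → α → ℝ} {B : ℝ} (hm : ∀ t ∈ Icc (0 : ℝ) 1, Integrable (f t) μ)
    (hd : ∀ᵐ x ∂μ, ∀ t ∈ Icc (0 : ℝ) 1, HasDerivWithinAt (fun τ => f τ x) (f' t x) (Icc 0 1) t)
    (hB : ∀ᵐ x ∂μ, ∀ t ∈ Icc (0 : ℝ) 1, |f' t x| ≤ B) :
    ∀ t ∈ Icc (0 : ℝ) 1, HasDerivWithinAt (fun τ => ∫ x, f τ x ∂μ) (∫ x, f' t x ∂μ) (Icc 0 1) t := by
  intro t ht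
  rw [hasDerivWithinAt_iff_tendsto_slope]
  have hev : ∀ᶠ τ in 𝓝[Icc (0 : ℝ) 1 \ {t}] t, τ ∈ Icc (0 : ℝ) 1 \ {t} := self_mem_nhdsWithin
  have e : (fun τ => ∫ x, slope (fun τ => f τ x) t τ ∂μ) =ᶠ[𝓝[Icc (0 : ℝ) 1 \ {t}] t]
      slope (fun τ => ∫ x, f τ x ∂μ) t := by
    filter_upwards [hev] with τ hτ
    simp only [slope, vsub_eq_sub]
    rw [integral_smul, integral_sub (hm τ hτ.1) (hm t ht)]
  refine Tendsto.congr' e ?_
  apply tendsto_integral_filter_of_dominated_convergence (fun _ => B)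
  · filter_upwards [hev] with τ hτ
    simp only [slope, vsub_eq_sub]
    exact (((hm τ hτ.1).sub (hm t ht)).const_mul (τ - t)⁻¹).aestronglyMeasurable
  · filter_upwards [hev] with τ hτ
    filter_upwards [hd, hB] with x hx hxB
    have h1 := Convex.norm_image_sub_le_of_norm_hasDerivWithin_le (f := fun τ => f τ x)
      (s := Icc (0 : ℝ) 1) (C := B) hx (fun t ht => hxB t ht) (convex_Icc 0 1) ht hτ.1
    have h2 : 0 < ‖τ - t‖ := norm_pos_iff.2 (sub_ne_zero.2 hτ.2)
    simp only [slope, vsub_eq_sub, smul_eq_mul]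
    rw [norm_mul, norm_inv, inv_mul_le_iff₀ h2, mul_comm]
    exact h1
  · exact integrable_const B
  · filter_upwards [hd] with x hx
    exact hasDerivWithinAt_iff_tendsto_slope.1 (hx t ht)

end Pool.Agent.EAC.PA
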