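import Pool.Agent.EAC.PA.AHold

/-!
# EAC-A-HOLG: H² functions are Hölder continuous on `M` outside the exceptional set
-/

set_option autoImplicit false

noncomputable section

namespace Pool.Agent.EAC.PA

open MeasureTheory Set Filter Topology Metric
open scoped ENNReal ComplexConjugate

theorem holder_glob {M : Set ℂ} (hM : AnalyticDomain M) :
    ∃ K > 0, ∀ (f : ℂ → ℂ) (G : ℕ → ℕ → ℂ → ℂ) (E : ℝ), 0 ≤ E → IsWeak M 2 f G →
      hsSq M 2 G ≤ ENNReal.ofReal (E ^ 2) →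
      ∀ z ∈ interior M, ∀ w ∈ interior M, Good M f z → Good M f w →
        ‖f z‖ ≤ K * E ∧ ‖f z - f w‖ ≤ K * E * ‖z - w‖ ^ (1 / 2 : ℝ) := by
  obtain ⟨ρ, hρ, K, hK, hP⟩ := uniformize hM.compact
    (fun z w K => ∀ (f : ℂ → ℂ) (G : ℕ → ℕ → ℂ → ℂ) (E : ℝ), 0 ≤ E → IsWeak M 2 f G →
      hsSq M 2 G ≤ ENNReal.ofReal (E ^ 2) → z ∈ interior M → w ∈ interior M →
      Good M f z → Good M f w →
        ‖f z‖ ≤ K * E ∧ ‖f z - f w‖ ≤ K * E * ‖z - w‖ ^ (1 / 2 : ℝ))
    (by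
      intro z w C C' h hCC f G E hE hG hs hz hw hgz hgw
      obtain ⟨h1, h2⟩ := h f G E hE hG hs hz hw hgz hgw
      have h3 : C * E ≤ C' * E := mul_le_mul_of_nonneg_right hCC hE
      exact ⟨h1.trans h3, h2.trans (mul_le_mul_of_nonneg_right h3
        (Real.rpow_nonneg (norm_nonneg _) _))⟩)
    (by
      intro x hx
      obtain ⟨ψ, a, C, r, hPa⟩ := patch hM hx
      obtain ⟨K, hK, hh⟩ := holder_patch hM.compact hPa
      refine ⟨r, hPa.hr, K, fun z _ w _ hzx hwx f G E hE hG hs hz hw hgz hgw => ?_⟩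
      obtain ⟨ζ, h1, h2, rfl⟩ := hPa.coverI z hz hzx
      obtain ⟨ξ, h3, h4, rfl⟩ := hPa.coverI w hw hwx
      exact hh f G E hE hG hs ζ ξ h1 h2 h3 h4 hgz hgw)
  -- global
  set c : ℝ := ρ ^ (1 / 2 : ℝ) with hc
  have hc0 : 0 < c := Real.rpow_pos_of_pos hρ _
  refine ⟨K + 2 * K / c, by positivity, fun f G E hE hG hs z hz w hw hgz hgw => ?_⟩
  have hzM := interior_subset hz
  have hwM := interior_subset hw
  have s1 := (hP z hzM z hzM (by simpa using hρ) f G E hE hG hs hz hz hgz hgz).1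
  have s2 := (hP w hwM w hwM (by simpa using hρ) f G E hE hG hs hw hw hgw hgw).1
  have hKE : 0 ≤ K * E := by positivity
  have h2 : 0 ≤ 2 * K / c * E := by positivity
  constructor
  · rw [add_mul]
    linarith
  · rcases lt_or_ge ‖z - w‖ ρ with h | h
    · have := (hP z hzM w hwM h f G E hE hG hs hz hw hgz hgw).2
      refine this.trans (mul_le_mul_of_nonneg_right ?_ (Real.rpow_nonneg (norm_nonneg _) _))
      rw [add_mul]
      linarith
    · have h3 : c ≤ ‖z - w‖ ^ (1 / 2 : ℝ) := Real.rpow_le_rpow hρ.le h (by norm_num)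
      have h4 : ‖f z - f w‖ ≤ 2 * (K * E) := by
        have := norm_sub_le (f z) (f w)
        linarith
      have h5 : 2 * (K * E) = 2 * K / c * E * c := by field_simp
      calc ‖f z - f w‖ ≤ 2 * K / c * E * c := by rw [← h5]; exact h4
        _ ≤ 2 * K / c * E * ‖z - w‖ ^ (1 / 2 : ℝ) := mul_le_mul_of_nonneg_left h3 h2
        _ ≤ (K + 2 * K / c) * E * ‖z - w‖ ^ (1 / 2 : ℝ) := by
          apply mul_le_mul_of_nonneg_right _ (Real.rpow_nonneg (norm_nonneg _) _)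
          rw [add_mul]
          linarith

end Pool.Agent.EAC.PA
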