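import Pool.Agent.EAC.PA.AMol1

/-!
# EAC-A-MOL2: mollification commutes with weak derivatives

`mol_dxdy`; `(dx^[i] (dy^[j] (eta δ))) (z - w) = (-1)^(i+j) (dx^[i] (dy^[j] (fun w => eta δ (z - w)))) w` (induction, for a smooth
function in place of `eta δ`), and `fun w => eta δ (z - w)` is a test function for `IsWeak` (support
`⊆ closedBall z δ ⊆ interior M`); `f = v` in `IsWeak M s v G` (here `v` is called `f`).
-/

set_option autoImplicit false

noncomputable section

namespace Pool.Agent.EAC.PA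

open MeasureTheory Set Filter Topology Metric
open scoped ENNReal ComplexConjugate

private theorem contDiff_dx' {g : ℂ → ℝ} (hg : ContDiff ℝ (⊤ : ℕ∞) g) :
    ContDiff ℝ (⊤ : ℕ∞) (dx g) := by
  have h := (hg.fderiv_right (m := ((⊤ : ℕ∞) : WithTop ℕ∞)) (by simp))
  exact h.clm_apply contDiff_const

private theorem contDiff_dy' {g : ℂ → ℝ} (hg : ContDiff ℝ (⊤ : ℕ∞) g) :
    ContDiff ℝ (⊤ : ℕ∞) (dy g) := by
  have h := (hg.fderiv_right (m := ((⊤ : ℕ∞) : WithTop ℕ∞)) (by simp))
  exact h.clm_apply contDiff_const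

private theorem contDiff_dy_it {g : ℂ → ℝ} (hg : ContDiff ℝ (⊤ : ℕ∞) g) (j : ℕ) :
    ContDiff ℝ (⊤ : ℕ∞) (dy^[j] g) := by
  induction j with
  | zero => exact hg
  | succ j ih =>
    rw [Function.iterate_succ_apply']
    exact contDiff_dy' ih

private theorem contDiff_dx_it {g : ℂ → ℝ} (hg : ContDiff ℝ (⊤ : ℕ∞) g) (i : ℕ) :
    ContDiff ℝ (⊤ : ℕ∞) (dx^[i] g) := by
  induction i with
  | zero => exact hg
  | succ i ih =>
    rw [Function.iterate_succ_apply']
    exact contDiff_dx' ih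

private theorem fderiv_refl {g : ℂ → ℝ} (hg : ContDiff ℝ (⊤ : ℕ∞) g) (c : ℝ) (z w u : ℂ) :
    fderiv ℝ (fun w => c * g (z - w)) w u = -c * fderiv ℝ g (z - w) u := by
  have h1 : HasFDerivAt g (fderiv ℝ g (z - w)) (z - w) :=
    (hg.differentiable (by simp)).differentiableAt.hasFDerivAt
  have h2 : HasFDerivAt (fun w : ℂ => z - w) (-(ContinuousLinearMap.id ℝ ℂ)) w :=
    (hasFDerivAt_id w).const_sub z
  have h3 := (h1.comp w h2).const_mul c
  have h4 : fderiv ℝ (fun w => c * g (z - w)) w =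
      c • (fderiv ℝ g (z - w)).comp (-(ContinuousLinearMap.id ℝ ℂ)) := h3.fderiv
  rw [h4]
  simp

private theorem dx_refl {g : ℂ → ℝ} (hg : ContDiff ℝ (⊤ : ℕ∞) g) (c : ℝ) (z : ℂ) :
    dx (fun w => c * g (z - w)) = fun w => -c * dx g (z - w) := by
  funext w
  exact fderiv_refl hg c z w 1

private theorem dy_refl {g : ℂ → ℝ} (hg : ContDiff ℝ (⊤ : ℕ∞) g) (c : ℝ) (z : ℂ) :
    dy (fun w => c * g (z - w)) = fun w => -c * dy g (z - w) := by
  funext w
  exact fderiv_refl hg c z w Complex.I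

private theorem dy_it_refl {g : ℂ → ℝ} (hg : ContDiff ℝ (⊤ : ℕ∞) g) (z : ℂ) (j : ℕ) :
    dy^[j] (fun w => g (z - w)) = fun w => (-1) ^ j * (dy^[j] g) (z - w) := by
  induction j with
  | zero => simp
  | succ j ih =>
    rw [Function.iterate_succ_apply', ih, dy_refl (contDiff_dy_it hg j),
      Function.iterate_succ_apply']
    funext w
    ring

private theorem dx_it_refl {g : ℂ → ℝ} (hg : ContDiff ℝ (⊤ : ℕ∞) g) (c : ℝ) (z : ℂ) (i : ℕ) :
    dx^[i] (fun w => c * g (z - w)) = fun w => (-1) ^ i * c * (dx^[i] g) (z - w) := by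
  induction i with
  | zero => simp
  | succ i ih =>
    rw [Function.iterate_succ_apply', ih, dx_refl (contDiff_dx_it hg i),
      Function.iterate_succ_apply']
    funext w
    ring

/-- mollification commutes with weak derivatives -/
theorem mol_weak {M : Set ℂ} {f : ℂ → ℂ} {G : ℕ → ℕ → ℂ → ℂ} {s : ℕ} (hG : IsWeak M s f G)
    (hf : IntegrableOn f (interior M)) {i j : ℕ} (hij : i + j ≤ s) {δ : ℝ} (hδ : 0 < δ) {z : ℂ}
    (hz : closedBall z δ ⊆ interior M) :
    (dx^[i] (dy^[j] (mol M δ f))) z = mol M δ (G i j) z := by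
  have hs : ∀ w, eta δ (z - w) ≠ 0 → w ∈ closedBall z δ := by
    intro w hw
    by_contra hcon
    apply hw
    apply eta_eq_zero hδ
    rw [mem_closedBall, dist_eq_norm, not_le] at hcon
    rw [norm_sub_rev]
    exact hcon.le
  have hts : tsupport (fun w => eta δ (z - w)) ⊆ closedBall z δ := by
    apply closure_minimal _ isClosed_closedBall
    intro w hw
    exact hs w hw
  have hcs : HasCompactSupport (fun w => eta δ (z - w)) :=
    HasCompactSupport.of_support_subset_isCompact (isCompact_closedBall z δ)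
      (fun w hw => hs w hw)
  have hcd : ContDiff ℝ (⊤ : ℕ∞) (fun w => eta δ (z - w)) :=
    (eta_contDiff δ).comp (contDiff_const.sub contDiff_id)
  have h1 := hG.weak i j hij (fun w => eta δ (z - w)) hcd hcs (hts.trans hz)
  have h2 : dx^[i] (dy^[j] (fun w => eta δ (z - w))) =
      fun w => (-1) ^ (i + j) * (dx^[i] (dy^[j] (eta δ))) (z - w) := by
    rw [dy_it_refl (eta_contDiff δ), dx_it_refl (contDiff_dy_it (eta_contDiff δ) j)]
    funext w
    ring
  rw [h2] at h1
  rw [mol_dxdy hf, mol, h1]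
  have h3 : ∀ w, ((-1 : ℝ) ^ (i + j) * (dx^[i] (dy^[j] (eta δ))) (z - w)) • f w =
      (-1 : ℝ) ^ (i + j) • ((dx^[i] (dy^[j] (eta δ))) (z - w) • f w) := by
    intro w
    rw [mul_smul]
  simp_rw [h3]
  rw [integral_smul, smul_smul, ← pow_add, ← two_mul, pow_mul]
  simp

end Pool.Agent.EAC.PA
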