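import Pool.Agent.EAC.PA.AMol0

/-!
# EAC-A-L2: the mollification does not increase the `L²` norm

`‖mol M δ f z‖² ≤ ∫ eta δ (z - w) ‖f w‖² dw` (Cauchy-Schwarz / Jensen for the density `eta δ (z - ·)` of integral `1`;
`∫⁻` version: `(∫⁻ η g)² ≤ (∫⁻ η)(∫⁻ η g²)`, `ENNReal.lintegral_mul_le_Lp_mul_Lq` with exponents `2, 2`), then Tonelli
`lintegral_lintegral_swap` and `∫⁻ z, eta δ (z - w) = 1`.
-/

set_option autoImplicit false

noncomputable section

namespace Pool.Agent.EAC.PA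

open MeasureTheory Set Filter Topology Metric
open scoped ENNReal ComplexConjugate

private theorem cs_weight {α : Type*} [MeasurableSpace α] (μ : Measure α) {e g : α → ℝ≥0∞}
    (he : AEMeasurable e μ) (hg : AEMeasurable g μ) :
    (∫⁻ a, e a * g a ∂μ) ^ 2 ≤ (∫⁻ a, e a ∂μ) * ∫⁻ a, e a * g a ^ 2 ∂μ := by
  have hsq : ∀ x : ℝ≥0∞, (x ^ (1 / 2 : ℝ)) ^ (2 : ℝ) = x := by
    intro x
    rw [← ENNReal.rpow_mul]; norm_num
  have hmul : ∀ x : ℝ≥0∞, x ^ (1 / 2 : ℝ) * x ^ (1 / 2 : ℝ) = x := by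
    intro x
    have := hsq x
    rwa [ENNReal.rpow_two, sq] at this
  have hpq : (2 : ℝ).HolderConjugate 2 := by
    exact Real.HolderConjugate.two_two
  have h := ENNReal.lintegral_mul_le_Lp_mul_Lq μ hpq (f := fun a => e a ^ (1 / 2 : ℝ))
    (g := fun a => e a ^ (1 / 2 : ℝ) * g a) (he.pow_const _) ((he.pow_const _).mul hg)
  have h1 : ∀ a, ((fun a => e a ^ (1 / 2 : ℝ)) * (fun a => e a ^ (1 / 2 : ℝ) * g a)) a =
      e a * g a := by
    intro a
    simp only [Pi.mul_apply]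
    rw [← mul_assoc, hmul]
  have h2 : ∀ a, (e a ^ (1 / 2 : ℝ)) ^ (2 : ℝ) = e a := fun a => hsq _
  have h3 : ∀ a, (e a ^ (1 / 2 : ℝ) * g a) ^ (2 : ℝ) = e a * g a ^ 2 := by
    intro a
    rw [ENNReal.mul_rpow_of_nonneg _ _ (by norm_num), hsq, ENNReal.rpow_two]
  simp only [h1, h2, h3] at h
  calc (∫⁻ a, e a * g a ∂μ) ^ 2 ≤
      ((∫⁻ a, e a ∂μ) ^ (1 / 2 : ℝ) * (∫⁻ a, e a * g a ^ 2 ∂μ) ^ (1 / 2 : ℝ)) ^ 2 := by
        exact pow_le_pow_left' h 2
    _ = (∫⁻ a, e a ∂μ) * ∫⁻ a, e a * g a ^ 2 ∂μ := by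
        rw [mul_pow, ← ENNReal.rpow_two, ← ENNReal.rpow_two, hsq, hsq]

private theorem eta_meas (δ : ℝ) : Measurable (eta δ) := (eta_contDiff δ).continuous.measurable

private theorem eta_lint {δ : ℝ} (hδ : 0 < δ) : ∫⁻ z, ENNReal.ofReal (eta δ z) = 1 := by
  have hi : Integrable (eta δ) :=
    (eta_contDiff δ).continuous.integrable_of_hasCompactSupport (eta_hasCompactSupport δ)
  rw [← ofReal_integral_eq_lintegral_ofReal hi (Eventually.of_forall fun z => eta_nonneg δ z),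
    eta_integral hδ, ENNReal.ofReal_one]

theorem mol_l2 {M : Set ℂ} {f : ℂ → ℂ} (hf : IntegrableOn f (interior M)) {δ : ℝ} (hδ : 0 < δ)
    (A : Set ℂ) : ∫⁻ z in A, ‖mol M δ f z‖ₑ ^ 2 ≤ ∫⁻ z in interior M, ‖f z‖ₑ ^ 2 := by
  have hgm : AEMeasurable (fun w => ‖f w‖ₑ) (volume.restrict (interior M)) :=
    hf.aestronglyMeasurable.enorm
  have hem : ∀ z : ℂ, Measurable (fun w : ℂ => ENNReal.ofReal (eta δ (z - w))) := fun z =>
    ((eta_meas δ).comp (measurable_const.sub measurable_id)).ennreal_ofReal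
  have key : ∀ z : ℂ, ‖mol M δ f z‖ₑ ^ 2 ≤
      ∫⁻ w in interior M, ENNReal.ofReal (eta δ (z - w)) * ‖f w‖ₑ ^ 2 := by
    intro z
    have h1 : ‖mol M δ f z‖ₑ ≤ ∫⁻ w in interior M, ENNReal.ofReal (eta δ (z - w)) * ‖f w‖ₑ := by
      unfold mol
      refine (enorm_integral_le_lintegral_enorm _).trans (le_of_eq ?_)
      refine lintegral_congr fun w => ?_
      rw [enorm_smul, Real.enorm_of_nonneg (eta_nonneg δ _)]
    have h2 : ∫⁻ w in interior M, ENNReal.ofReal (eta δ (z - w)) ≤ 1 := by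
      refine (setLIntegral_le_lintegral _ _).trans (le_of_eq ?_)
      rw [lintegral_sub_left_eq_self (fun w : ℂ => ENNReal.ofReal (eta δ w)) z]
      exact eta_lint hδ
    calc ‖mol M δ f z‖ₑ ^ 2 ≤
        (∫⁻ w in interior M, ENNReal.ofReal (eta δ (z - w)) * ‖f w‖ₑ) ^ 2 :=
          pow_le_pow_left' h1 2
      _ ≤ (∫⁻ w in interior M, ENNReal.ofReal (eta δ (z - w))) *
          ∫⁻ w in interior M, ENNReal.ofReal (eta δ (z - w)) * ‖f w‖ₑ ^ 2 :=
          cs_weight _ (hem z).aemeasurable hgm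
      _ ≤ 1 * ∫⁻ w in interior M, ENNReal.ofReal (eta δ (z - w)) * ‖f w‖ₑ ^ 2 :=
          mul_le_mul_left h2 _
      _ = _ := one_mul _
  calc ∫⁻ z in A, ‖mol M δ f z‖ₑ ^ 2 ≤ ∫⁻ z, ‖mol M δ f z‖ₑ ^ 2 := setLIntegral_le_lintegral _ _
    _ ≤ ∫⁻ z, ∫⁻ w in interior M, ENNReal.ofReal (eta δ (z - w)) * ‖f w‖ₑ ^ 2 :=
        lintegral_mono key
    _ = ∫⁻ w in interior M, ∫⁻ z, ENNReal.ofReal (eta δ (z - w)) * ‖f w‖ₑ ^ 2 := by
        refine lintegral_lintegral_swap ?_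
        have m1 : AEMeasurable (fun p : ℂ × ℂ => ENNReal.ofReal (eta δ (p.1 - p.2)))
            (volume.prod (volume.restrict (interior M))) :=
          (((eta_meas δ).comp (measurable_fst.sub measurable_snd)).ennreal_ofReal).aemeasurable
        have m2 : AEMeasurable (fun p : ℂ × ℂ => ‖f p.2‖ₑ ^ 2)
            (volume.prod (volume.restrict (interior M))) := (hgm.pow_const 2).comp_snd
        exact m1.mul m2
    _ = ∫⁻ w in interior M, ‖f w‖ₑ ^ 2 := by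
        refine lintegral_congr fun w => ?_
        have m1 : Measurable (fun z : ℂ => ENNReal.ofReal (eta δ (z - w))) :=
          ((eta_meas δ).comp (measurable_id.sub measurable_const)).ennreal_ofReal
        have h1 : ∫⁻ z, ENNReal.ofReal (eta δ (z - w)) = 1 := by
          rw [lintegral_sub_right_eq_self (fun z : ℂ => ENNReal.ofReal (eta δ z)) w]
          exact eta_lint hδ
        rw [lintegral_mul_const _ m1, h1, one_mul]

end Pool.Agent.EAC.PA
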