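import Pool.Agent.EAC.PA.ADefs

/-!
# EAC-A-WEAK: bookkeeping for `IsWeak`, `hsSq`, `hsNorm`

`shift_x, shift_y`: test function `dx^[i] (dy^[j] φ)` (smooth, compact support in `interior M`), `Function.iterate_succ`;
for `shift_y` the symmetry `dx (dy φ) = dy (dx φ)` of smooth functions.
`hsSq_shift`: `choose k i ≤ choose (k+1) (i+1)`, `choose k i ≤ choose (k+1) i`; only the ranges `k ≤ 2` resp. `k ≤ 3`: expand the
finite sums with `Finset.sum_range_succ`.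
`exists_weak`: definition of `hsNorm` (`iInf`), `(x^(1/2)) < ofReal E` gives `x < ofReal (E²)`, `iInf_lt_iff`.
-/

set_option autoImplicit false

noncomputable section

namespace Pool.Agent.EAC.PA

open MeasureTheory Set Filter Topology Metric
open scoped ENNReal ComplexConjugate

/-! ### smoothness and supports of `dx φ`, `dy φ` -/

private theorem contDiff_dir {φ : ℂ → ℝ} (hφ : ContDiff ℝ (⊤ : ℕ∞) φ) (e : ℂ) :
    ContDiff ℝ (⊤ : ℕ∞) (fun z => fderiv ℝ φ z e) :=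
  (hφ.fderiv_right (m := (⊤ : ℕ∞)) (by simp)).clm_apply contDiff_const

private theorem supp_dir (φ : ℂ → ℝ) (e : ℂ) : tsupport (fun z => fderiv ℝ φ z e) ⊆ tsupport φ :=
  tsupport_fderiv_apply_subset ℝ e

private theorem test_dir {M : Set ℂ} {φ : ℂ → ℝ} (e : ℂ)
    (h : ContDiff ℝ (⊤ : ℕ∞) φ ∧ HasCompactSupport φ ∧ tsupport φ ⊆ interior M) :
    ContDiff ℝ (⊤ : ℕ∞) (fun z => fderiv ℝ φ z e) ∧ HasCompactSupport (fun z => fderiv ℝ φ z e) ∧
      tsupport (fun z => fderiv ℝ φ z e) ⊆ interior M :=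
  ⟨contDiff_dir h.1 e, h.2.1.fderiv_apply ℝ e, (supp_dir φ e).trans h.2.2⟩

private theorem test_dy {M : Set ℂ} {φ : ℂ → ℝ}
    (h : ContDiff ℝ (⊤ : ℕ∞) φ ∧ HasCompactSupport φ ∧ tsupport φ ⊆ interior M) (j : ℕ) :
    ContDiff ℝ (⊤ : ℕ∞) (dy^[j] φ) ∧ HasCompactSupport (dy^[j] φ) ∧
      tsupport (dy^[j] φ) ⊆ interior M := by
  induction j with
  | zero => exact h
  | succ j ih =>
    rw [Function.iterate_succ']
    exact test_dir Complex.I ih

private theorem test_dx {M : Set ℂ} {φ : ℂ → ℝ}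
    (h : ContDiff ℝ (⊤ : ℕ∞) φ ∧ HasCompactSupport φ ∧ tsupport φ ⊆ interior M) (j : ℕ) :
    ContDiff ℝ (⊤ : ℕ∞) (dx^[j] φ) ∧ HasCompactSupport (dx^[j] φ) ∧
      tsupport (dx^[j] φ) ⊆ interior M := by
  induction j with
  | zero => exact h
  | succ j ih =>
    rw [Function.iterate_succ']
    exact test_dir 1 ih

private theorem fderiv_dir {φ : ℂ → ℝ} (hφ : ContDiff ℝ (⊤ : ℕ∞) φ) (e a z : ℂ) :
    fderiv ℝ (fun z => fderiv ℝ φ z e) z a = fderiv ℝ (fderiv ℝ φ) z a e := by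
  have h1 : DifferentiableAt ℝ (fderiv ℝ φ) z :=
    (hφ.fderiv_right (m := (⊤ : ℕ∞)) (by simp)).differentiable (by simp) z
  rw [fderiv_clm_apply h1 (differentiableAt_const e)]
  simp

private theorem comm_xy {φ : ℂ → ℝ} (hφ : ContDiff ℝ (⊤ : ℕ∞) φ) : dy (dx φ) = dx (dy φ) := by
  funext z
  have hs : IsSymmSndFDerivAt ℝ φ z := by
    apply ((contDiff_infty.1 hφ 2).contDiffAt (x := z)).isSymmSndFDerivAt
    simp
  have h1 : dy (dx φ) z = fderiv ℝ (fderiv ℝ φ) z Complex.I 1 := fderiv_dir hφ 1 Complex.I z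
  have h2 : dx (dy φ) z = fderiv ℝ (fderiv ℝ φ) z 1 Complex.I := fderiv_dir hφ Complex.I 1 z
  rw [h1, h2]
  exact hs.eq Complex.I 1

private theorem comm_iter {M : Set ℂ} {φ : ℂ → ℝ}
    (h : ContDiff ℝ (⊤ : ℕ∞) φ ∧ HasCompactSupport φ ∧ tsupport φ ⊆ interior M) (i : ℕ) :
    dy (dx^[i] φ) = dx^[i] (dy φ) := by
  induction i with
  | zero => rfl
  | succ i ih =>
    rw [Function.iterate_succ']
    simp only [Function.comp_apply]
    rw [comm_xy (test_dx h i).1, ih]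

theorem shift_x {M : Set ℂ} {v : ℂ → ℂ} {g : ℕ → ℕ → ℂ → ℂ} (hg : IsWeak M 3 v g) :
    IsWeak M 2 (g 1 0) (fun i j => g (i + 1) j) := by
  refine ⟨fun z _ => rfl, fun i j hij => hg.meas (i + 1) j (by omega), ?_⟩
  intro i j hij φ h1 h2 h3
  have ht := test_dx (test_dy ⟨h1, h2, h3⟩ j) i
  have e1 := hg.weak (i + 1) j (by omega) φ h1 h2 h3
  have e2 := hg.weak 1 0 (by omega) (dx^[i] (dy^[j] φ)) ht.1 ht.2.1 ht.2.2
  rw [Function.iterate_succ'] at e1
  simp only [Function.comp_apply] at e1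
  simp only [Function.iterate_one, Function.iterate_zero, id_eq] at e2
  rw [e1, e2, smul_smul]
  congr 1
  ring

theorem shift_y {M : Set ℂ} {v : ℂ → ℂ} {g : ℕ → ℕ → ℂ → ℂ} (hg : IsWeak M 3 v g) :
    IsWeak M 2 (g 0 1) (fun i j => g i (j + 1)) := by
  refine ⟨fun z _ => rfl, fun i j hij => hg.meas i (j + 1) (by omega), ?_⟩
  intro i j hij φ h1 h2 h3
  have hy := test_dy (M := M) ⟨h1, h2, h3⟩ j
  have ht := test_dx hy i
  have e1 := hg.weak i (j + 1) (by omega) φ h1 h2 h3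
  have e2 := hg.weak 0 1 (by omega) (dx^[i] (dy^[j] φ)) ht.1 ht.2.1 ht.2.2
  rw [Function.iterate_succ'] at e1
  simp only [Function.comp_apply] at e1
  simp only [Function.iterate_one, Function.iterate_zero, id_eq] at e2
  rw [comm_iter hy i] at e2
  rw [e1, e2, smul_smul]
  congr 1
  ring

theorem hsSq_shift_x (M : Set ℂ) (g : ℕ → ℕ → ℂ → ℂ) :
    hsSq M 2 (fun i j => g (i + 1) j) ≤ hsSq M 3 g := by
  unfold hsSq
  simp only [Finset.sum_range_succ, Finset.sum_range_zero]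
  norm_num [Nat.choose]
  generalize (∫⁻ z in interior M, ‖g 0 0 z‖ₑ ^ 2) = a00
  generalize (∫⁻ z in interior M, ‖g 0 1 z‖ₑ ^ 2) = a01
  generalize (∫⁻ z in interior M, ‖g 1 0 z‖ₑ ^ 2) = a10
  generalize (∫⁻ z in interior M, ‖g 0 2 z‖ₑ ^ 2) = a02
  generalize (∫⁻ z in interior M, ‖g 1 1 z‖ₑ ^ 2) = a11
  generalize (∫⁻ z in interior M, ‖g 2 0 z‖ₑ ^ 2) = a20
  generalize (∫⁻ z in interior M, ‖g 0 3 z‖ₑ ^ 2) = a03
  generalize (∫⁻ z in interior M, ‖g 1 2 z‖ₑ ^ 2) = a12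
  generalize (∫⁻ z in interior M, ‖g 2 1 z‖ₑ ^ 2) = a21
  generalize (∫⁻ z in interior M, ‖g 3 0 z‖ₑ ^ 2) = a30
  refine (le_self_add (a := _) (b := a00 + a01 + a02 + a11 + a03 + 2 * a12 + a21)).trans_eq ?_
  ring

theorem hsSq_shift_y (M : Set ℂ) (g : ℕ → ℕ → ℂ → ℂ) :
    hsSq M 2 (fun i j => g i (j + 1)) ≤ hsSq M 3 g := by
  unfold hsSq
  simp only [Finset.sum_range_succ, Finset.sum_range_zero]
  norm_num [Nat.choose]
  generalize (∫⁻ z in interior M, ‖g 0 0 z‖ₑ ^ 2) = a00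
  generalize (∫⁻ z in interior M, ‖g 0 1 z‖ₑ ^ 2) = a01
  generalize (∫⁻ z in interior M, ‖g 1 0 z‖ₑ ^ 2) = a10
  generalize (∫⁻ z in interior M, ‖g 0 2 z‖ₑ ^ 2) = a02
  generalize (∫⁻ z in interior M, ‖g 1 1 z‖ₑ ^ 2) = a11
  generalize (∫⁻ z in interior M, ‖g 2 0 z‖ₑ ^ 2) = a20
  generalize (∫⁻ z in interior M, ‖g 0 3 z‖ₑ ^ 2) = a03
  generalize (∫⁻ z in interior M, ‖g 1 2 z‖ₑ ^ 2) = a12
  generalize (∫⁻ z in interior M, ‖g 2 1 z‖ₑ ^ 2) = a21
  generalize (∫⁻ z in interior M, ‖g 3 0 z‖ₑ ^ 2) = a30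
  refine (le_self_add (a := _) (b := a00 + a10 + a20 + a11 + a30 + 2 * a21 + a12)).trans_eq ?_
  ring

theorem le_hsSq (M : Set ℂ) (g : ℕ → ℕ → ℂ → ℂ) {s i j : ℕ} (h : i + j ≤ s) :
    ∫⁻ z in interior M, ‖g i j z‖ₑ ^ 2 ≤ hsSq M s g := by
  unfold hsSq
  have h1 := Finset.single_le_sum
    (f := fun k => ∑ i ∈ Finset.range (k + 1),
      (k.choose i : ℝ≥0∞) * ∫⁻ z in interior M, ‖g i (k - i) z‖ₑ ^ 2)
    (s := Finset.range (s + 1)) (fun k _ => zero_le)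
    (Finset.mem_range.2 (show i + j < s + 1 by omega))
  refine le_trans ?_ h1
  have h2 := Finset.single_le_sum
    (f := fun l => ((i + j).choose l : ℝ≥0∞) * ∫⁻ z in interior M, ‖g l (i + j - l) z‖ₑ ^ 2)
    (s := Finset.range (i + j + 1)) (fun k _ => zero_le)
    (Finset.mem_range.2 (show i < i + j + 1 by omega))
  refine le_trans ?_ h2
  have h3 : i + j - i = j := by omega
  simp only [h3]
  have h4 : (1 : ℝ≥0∞) ≤ ((i + j).choose i : ℝ≥0∞) := by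
    have : 1 ≤ (i + j).choose i := Nat.choose_pos (by omega)
    exact_mod_cast this
  calc ∫⁻ z in interior M, ‖g i j z‖ₑ ^ 2 = 1 * ∫⁻ z in interior M, ‖g i j z‖ₑ ^ 2 := (one_mul _).symm
    _ ≤ _ := mul_le_mul_left h4 _

theorem integrable_of_hsSq {M : Set ℂ} (hM : IsCompact M) {s : ℕ} {v : ℂ → ℂ} {g : ℕ → ℕ → ℂ → ℂ}
    (hg : IsWeak M s v g) (hs : hsSq M s g < ⊤) {i j : ℕ} (h : i + j ≤ s) :
    IntegrableOn (g i j) (interior M) := by
  have hfin : volume (interior M) < ⊤ := (measure_mono interior_subset).trans_lt hM.measure_lt_top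
  have : IsFiniteMeasure (volume.restrict (interior M)) := ⟨by rwa [Measure.restrict_apply_univ]⟩
  have h1 : MemLp (g i j) 2 (volume.restrict (interior M)) := by
    refine ⟨hg.meas i j h, ?_⟩
    rw [eLpNorm_lt_top_iff_lintegral_rpow_enorm_lt_top two_ne_zero ENNReal.ofNat_ne_top]
    simp only [ENNReal.toReal_ofNat, ENNReal.rpow_ofNat]
    exact (le_hsSq M g h).trans_lt hs
  exact h1.integrable one_le_two

theorem exists_weak {M : Set ℂ} {s : ℕ} {v : ℂ → ℂ} {E : ℝ} (hE : 0 < E)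
    (h : hsNorm M s v < ENNReal.ofReal E) :
    ∃ g, IsWeak M s v g ∧ hsSq M s g ≤ ENNReal.ofReal (E ^ 2) := by
  unfold hsNorm at h
  have h1 : (⨅ g ∈ {g | IsWeak M s v g}, hsSq M s g) < ENNReal.ofReal (E ^ 2) := by
    have h2 := ENNReal.rpow_lt_rpow h (show (0 : ℝ) < 2 by norm_num)
    rw [← ENNReal.rpow_mul] at h2
    norm_num at h2
    rw [ENNReal.ofReal_pow hE.le]
    simpa using h2
  rw [iInf_lt_iff] at h1
  obtain ⟨g, hg⟩ := h1
  rw [iInf_lt_iff] at hg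
  obtain ⟨h3, h4⟩ := hg
  exact ⟨g, h3, h4.le⟩

theorem hsNorm_mono (M : Set ℂ) (v : ℂ → ℂ) {s t : ℕ} (h : s ≤ t) : hsNorm M s v ≤ hsNorm M t v := by
  unfold hsNorm
  apply ENNReal.rpow_le_rpow _ (by norm_num)
  refine le_iInf₂ fun g hg => ?_
  have hg' : IsWeak M t v g := hg
  have h1 : IsWeak M s v g := ⟨hg'.zero, fun i j hij => hg'.meas i j (hij.trans h),
    fun i j hij => hg'.weak i j (hij.trans h)⟩
  refine (iInf₂_le g h1).trans ?_
  unfold hsSq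
  exact Finset.sum_le_sum_of_subset (Finset.range_mono (by omega))

theorem l2_le {M : Set ℂ} (hM : IsCompact M) {s : ℕ} {v : ℂ → ℂ} (hc : ContinuousOn v M) {E : ℝ}
    (hE : 0 < E) (h : hsNorm M s v < ENNReal.ofReal E) :
    ∫ z in interior M, ‖v z‖ ^ 2 ≤ E ^ 2 := by
  obtain ⟨g, hg, hb⟩ := exists_weak hE h
  have h1 : ∫⁻ z in interior M, ‖v z‖ₑ ^ 2 ≤ ENNReal.ofReal (E ^ 2) := by
    have h2 := (le_hsSq M g (s := s) (i := 0) (j := 0) (by omega)).trans hb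
    refine le_trans (le_of_eq ?_) h2
    refine setLIntegral_congr_fun isOpen_interior.measurableSet fun z hz => ?_
    simp only [hg.zero z hz]
  have hm : AEStronglyMeasurable v (volume.restrict (interior M)) :=
    (hc.mono interior_subset).aestronglyMeasurable isOpen_interior.measurableSet
  rw [integral_eq_lintegral_of_nonneg_ae (ae_of_all _ fun z => by positivity)
    (show AEStronglyMeasurable (fun z => ‖v z‖ ^ 2) _ from hm.norm.pow 2)]
  have h3 : ∀ z, ENNReal.ofReal (‖v z‖ ^ 2) = ‖v z‖ₑ ^ 2 := by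
    intro z
    rw [ENNReal.ofReal_pow (norm_nonneg _), ofReal_norm]
  simp only [h3]
  exact ENNReal.toReal_le_of_le_ofReal (by positivity) h1

end Pool.Agent.EAC.PA
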