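import Pool.Agent.EAC.PA.ASmooth
import Pool.Agent.EAC.PA.AMol2
import Pool.Agent.EAC.PA.AMolL2
import Pool.Agent.EAC.PA.AWeak
import Pool.Agent.EAC.PA.ACover

/-!
# EAC-A-HOL: H² functions are a.e. Hölder continuous (in a patch)
-/

set_option autoImplicit false

noncomputable section

namespace Pool.Agent.EAC.PA

open MeasureTheory Set Filter Topology Metric
open scoped ENNReal ComplexConjugate

private theorem rect_subset {a e : ℝ} (ha : 0 < a) (he : 0 < e) :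
    rect a e ⊆ ball (0 : ℂ) (16 * a) := by
  rintro ζ ⟨h1, h2, h3, h4⟩
  rw [mem_ball_zero_iff]
  have h5 := Complex.norm_le_abs_re_add_abs_im ζ
  have h6 : |ζ.re| ≤ a := abs_le.2 ⟨h1, h2⟩
  have h7 : |ζ.im| ≤ 2 * a := by
    rw [abs_of_nonneg (he.le.trans h3)]
    exact h4
  linarith

private theorem rect_compact {a e : ℝ} (ha : 0 < a) (he : 0 < e) : IsCompact (rect a e) := by
  apply Metric.isCompact_of_isClosed_isBounded
  · have h1 : IsClosed {ζ : ℂ | -a ≤ ζ.re} := isClosed_le continuous_const Complex.continuous_re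
    have h2 : IsClosed {ζ : ℂ | ζ.re ≤ a} := isClosed_le Complex.continuous_re continuous_const
    have h3 : IsClosed {ζ : ℂ | e ≤ ζ.im} := isClosed_le continuous_const Complex.continuous_im
    have h4 : IsClosed {ζ : ℂ | ζ.im ≤ 2 * a} := isClosed_le Complex.continuous_im continuous_const
    exact h1.inter (h2.inter (h3.inter h4))
  · exact isBounded_ball.subset (rect_subset ha he)

theorem holder_patch {M : Set ℂ} (hM : IsCompact M) {x : ℂ} {ψ : ℂ → ℂ} {a C r : ℝ}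
    (hP : Patch M x ψ a C r) :
    ∃ K > 0, ∀ (f : ℂ → ℂ) (G : ℕ → ℕ → ℂ → ℂ) (E : ℝ), 0 ≤ E → IsWeak M 2 f G →
      hsSq M 2 G ≤ ENNReal.ofReal (E ^ 2) →
      ∀ ζ ξ : ℂ, ‖ζ‖ < a → 0 < ζ.im → ‖ξ‖ < a → 0 < ξ.im → Good M f (ψ ζ) → Good M f (ψ ξ) →
        ‖f (ψ ζ)‖ ≤ K * E ∧ ‖f (ψ ζ) - f (ψ ξ)‖ ≤ K * E * ‖ψ ζ - ψ ξ‖ ^ (1 / 2 : ℝ) := by
  obtain ⟨K, hK, hch⟩ := chart_smooth hP
  refine ⟨K, hK, fun f G E hE hG hs ζ ξ hζ hζi hξ hξi hgζ hgξ => ?_⟩
  have ha := hP.ha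
  set e : ℝ := min (min ζ.im ξ.im) a / 2 with he
  have hm : 0 < min (min ζ.im ξ.im) a := lt_min (lt_min hζi hξi) ha
  have he0 : 0 < e := half_pos hm
  have hlt : e < min (min ζ.im ξ.im) a := half_lt_self hm
  have hea : e < a := lt_of_lt_of_le hlt (min_le_right _ _)
  have heζ : e < ζ.im := lt_of_lt_of_le hlt ((min_le_left _ _).trans (min_le_left _ _))
  have heξ : e < ξ.im := lt_of_lt_of_le hlt ((min_le_left _ _).trans (min_le_right _ _))
  have hrect : ∀ η : ℂ, ‖η‖ < a → e < η.im → η ∈ rect a e := by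
    intro η h1 h2
    have h3 := Complex.abs_re_le_norm η
    have h4 := Complex.abs_im_le_norm η
    have h5 := abs_le.1 (h3.trans h1.le)
    have h6 := (le_abs_self η.im).trans (h4.trans h1.le)
    exact ⟨h5.1, h5.2, h2.le, by linarith⟩
  -- the compact image
  have hsub := rect_subset ha he0
  have hcomp : IsCompact (ψ '' rect a e) :=
    (rect_compact ha he0).image_of_continuousOn (hP.holo.continuousOn.mono hsub)
  have hin : ψ '' rect a e ⊆ interior M := by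
    rintro z ⟨η, hη, rfl⟩
    exact hP.inside η (hsub hη) (lt_of_lt_of_le he0 hη.2.2.1)
  obtain ⟨δ0, hδ0, hth⟩ := hcomp.exists_cthickening_subset_open isOpen_interior hin
  have hfin : hsSq M 2 G < ⊤ := lt_of_le_of_lt hs ENNReal.ofReal_lt_top
  have hGi : ∀ i j : ℕ, i + j ≤ 2 → IntegrableOn (G i j) (interior M) := fun i j hij =>
    integrable_of_hsSq hM hG hfin hij
  have hfi : IntegrableOn f (interior M) :=
    (hGi 0 0 (by norm_num)).congr_fun (fun z hz => hG.zero z hz) isOpen_interior.measurableSet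
  have key : ∀ δ : ℝ, 0 < δ → δ ≤ δ0 → ∀ η₁ ∈ rect a e, ∀ η₂ ∈ rect a e,
      ‖mol M δ f (ψ η₁)‖ ≤ K * E ∧ ‖mol M δ f (ψ η₁) - mol M δ f (ψ η₂)‖ ≤
        K * E * ‖ψ η₁ - ψ η₂‖ ^ (1 / 2 : ℝ) := by
    intro δ hδ hδ0'
    apply hch (mol M δ f) e E (mol_contDiff hfi δ) he0 hea hE
    intro i j hij
    have hball : ∀ z ∈ ψ '' rect a e, closedBall z δ ⊆ interior M := by
      intro z hz
      exact (closedBall_subset_closedBall hδ0').trans
        ((closedBall_subset_cthickening hz δ0).trans hth)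
    calc ∫⁻ z in ψ '' rect a e, ‖(dx^[i] (dy^[j] (mol M δ f))) z‖ₑ ^ 2
        = ∫⁻ z in ψ '' rect a e, ‖mol M δ (G i j) z‖ₑ ^ 2 := by
          apply setLIntegral_congr_fun hcomp.measurableSet
          intro z hz
          simp only
          rw [mol_weak hG hfi hij hδ (hball z hz)]
      _ ≤ ∫⁻ z in interior M, ‖G i j z‖ₑ ^ 2 := mol_l2 (hGi i j hij) hδ _
      _ ≤ hsSq M 2 G := le_hsSq M G hij
      _ ≤ ENNReal.ofReal (E ^ 2) := hs
  have hev : ∀ᶠ δ : ℝ in 𝓝[>] 0, 0 < δ ∧ δ ≤ δ0 :=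
    (Ioc_mem_nhdsGT hδ0 : Ioc (0 : ℝ) δ0 ∈ 𝓝[>] (0 : ℝ))
  have hζr := hrect ζ hζ heζ
  have hξr := hrect ξ hξ heξ
  constructor
  · refine le_of_tendsto hgζ.norm ?_
    filter_upwards [hev] with δ hδ
    exact (key δ hδ.1 hδ.2 ζ hζr ξ hξr).1
  · refine le_of_tendsto (hgζ.sub hgξ).norm ?_
    filter_upwards [hev] with δ hδ
    exact (key δ hδ.1 hδ.2 ζ hζr ξ hξr).2

end Pool.Agent.EAC.PA
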