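import Mathlib

/-!
# EAC-A-INJ: the derivative of an injective holomorphic function does not vanish

Proof: `φ z - φ x = (z - x)^n * h z` near `x` with `h` analytic, `h x ≠ 0`, `n ≥ 1` (`φ` is not constant near `x` by
injectivity; Mathlib: `AnalyticAt.exists_eventuallyEq_pow_smul_nonzero_iff` or `analyticOrderAt`).
If `n = 1` then `deriv φ x = h x ≠ 0`. If `n ≥ 2`: choose an analytic `n`-th root `k` of `h` near `x`
(`k z = (h x)^(1/n) * exp (log (h z / h x) / n)`), `u z = (z - x) * k z` has `deriv u x = k x ≠ 0`, so `u` maps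
neighbourhoods of `x` onto neighbourhoods of `0` (`HasStrictDerivAt.map_nhds_eq`); for small `ε > 0` there are `z₁, z₂` in the
ball with `u z₁ = ε`, `u z₂ = ε * exp (2 π i / n)`; `z₁ ≠ z₂` but `φ z₁ = φ x + ε^n = φ z₂`: contradiction.
-/

set_option autoImplicit false

noncomputable section

namespace Pool.Agent.EAC.PA

open MeasureTheory Set Filter Topology Metric
open scoped ENNReal ComplexConjugate

theorem deriv_ne_zero_of_injOn {φ : ℂ → ℂ} {x : ℂ} {r : ℝ} (hr : 0 < r)
    (hd : DifferentiableOn ℂ φ (ball x r)) (hi : InjOn φ (ball x r)) : deriv φ x ≠ 0 := by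
  intro h0
  have hball : ball x r ∈ 𝓝 x := ball_mem_nhds x hr
  have hφ : AnalyticAt ℂ φ x := hd.analyticAt hball
  have hg : AnalyticAt ℂ (fun z => φ z - φ x) x := hφ.sub analyticAt_const
  -- not locally constant
  have hnc : ¬ ∀ᶠ z in 𝓝 x, φ z - φ x = 0 := by
    intro hc
    have h1 : ∀ᶠ z in 𝓝[≠] x, φ z - φ x = 0 ∧ z ∈ ball x r ∧ z ≠ x := by
      filter_upwards [nhdsWithin_le_nhds hc, nhdsWithin_le_nhds hball, self_mem_nhdsWithin] with
        z h1 h2 h3 using ⟨h1, h2, h3⟩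
    obtain ⟨z, h1, h2, h3⟩ := h1.exists
    exact h3 (hi h2 (mem_ball_self hr) (sub_eq_zero.1 h1))
  obtain ⟨n, h, hh, hhx, heq⟩ := hg.exists_eventuallyEq_pow_smul_nonzero_iff.2 hnc
  simp only [smul_eq_mul] at heq
  have hn0 : n ≠ 0 := by
    rintro rfl
    have := heq.self_of_nhds
    simp at this
    exact hhx this.symm
  have hn1 : n ≠ 1 := by
    rintro rfl
    have h1 : HasDerivAt (fun z => (z - x) ^ 1 * h z) (1 * h x + (x - x) * deriv h x) x := by
      have h2 := ((hasDerivAt_id x).sub_const x).fun_mul hh.differentiableAt.hasDerivAt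
      simpa only [pow_one, id] using h2
    have h2 : HasDerivAt (fun z => φ z - φ x) (deriv φ x) x :=
      hφ.differentiableAt.hasDerivAt.sub_const _
    have h3 := h2.unique (h1.congr_of_eventuallyEq heq)
    rw [h0] at h3
    simp at h3
    exact hhx h3.symm
  have hn2 : 2 ≤ n := by omega
  have hnC : (n : ℂ) ≠ 0 := Nat.cast_ne_zero.2 hn0
  -- the n-th root
  obtain ⟨c, hc⟩ : ∃ c : ℂ, c ^ n = h x := IsAlgClosed.exists_pow_nat_eq _ (by omega)
  have hc0 : c ≠ 0 := by
    rintro rfl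
    rw [zero_pow hn0] at hc
    exact hhx hc.symm
  let k : ℂ → ℂ := fun z => c * Complex.exp (Complex.log (h z / h x) / n)
  have hq : AnalyticAt ℂ (fun z => h z / h x) x := hh.div analyticAt_const hhx
  have hqx : h x / h x = 1 := div_self hhx
  have hk : AnalyticAt ℂ k x := by
    refine analyticAt_const.mul ?_
    refine AnalyticAt.cexp ?_
    refine AnalyticAt.div ?_ analyticAt_const hnC
    refine AnalyticAt.clog hq ?_
    rw [hqx]
    exact Complex.one_mem_slitPlane
  have hkx : k x = c := by simp [k, hqx]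
  have hkn : ∀ᶠ z in 𝓝 x, k z ^ n = h z := by
    have h1 : ∀ᶠ z in 𝓝 x, h z ≠ 0 := hh.continuousAt.eventually_ne hhx
    filter_upwards [h1] with z hz
    have h2 : h z / h x ≠ 0 := div_ne_zero hz hhx
    simp only [k]
    rw [mul_pow, hc, ← Complex.exp_nat_mul, mul_div_cancel₀ _ hnC, Complex.exp_log h2]
    field_simp
  let u : ℂ → ℂ := fun z => (z - x) * k z
  have hu : HasStrictDerivAt u c x := by
    have h1 : HasStrictDerivAt (fun z : ℂ => z - x) 1 x := (hasStrictDerivAt_id x).sub_const x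
    have h2 := h1.fun_mul hk.hasStrictDerivAt
    simpa only [hkx, one_mul, sub_self, zero_mul, add_zero] using h2
  have hmap := hu.map_nhds_eq hc0
  have hux : u x = 0 := by simp [u]
  rw [hux] at hmap
  let S : Set ℂ := {z | z ∈ ball x r ∧ φ z - φ x = u z ^ n}
  have hS : S ∈ 𝓝 x := by
    filter_upwards [hball, heq, hkn] with z h1 h2 h3
    refine ⟨h1, ?_⟩
    calc φ z - φ x = (z - x) ^ n * k z ^ n := by rw [h2, h3]
      _ = u z ^ n := (mul_pow _ _ _).symm
  have hSu : u '' S ∈ 𝓝 (0 : ℂ) := by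
    rw [← hmap]
    exact image_mem_map hS
  let ω : ℂ := Complex.exp (2 * Real.pi * Complex.I / n)
  have hω : ω ^ n = 1 := (Complex.isPrimitiveRoot_exp n hn0).pow_eq_one
  have hω1 : ω ≠ 1 := (Complex.isPrimitiveRoot_exp n hn0).ne_one (by omega)
  have hSu' : (fun w => ω * w) ⁻¹' (u '' S) ∈ 𝓝 (0 : ℂ) := by
    apply (continuous_const.mul continuous_id).continuousAt.preimage_mem_nhds
    simpa using hSu
  have h1 : ∀ᶠ w in 𝓝[≠] (0 : ℂ), w ∈ u '' S ∧ ω * w ∈ u '' S ∧ w ≠ 0 := by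
    filter_upwards [nhdsWithin_le_nhds hSu, nhdsWithin_le_nhds hSu', self_mem_nhdsWithin] with
      w h1 h2 h3 using ⟨h1, h2, h3⟩
  obtain ⟨w, ⟨z1, hz1, e1⟩, ⟨z2, hz2, e2⟩, hw⟩ := h1.exists
  have h3 : φ z1 = φ z2 := by
    have h4 := hz1.2
    have h5 := hz2.2
    rw [e1] at h4
    rw [e2, mul_pow, hω, one_mul] at h5
    exact sub_left_injective (h4.trans h5.symm)
  have h4 := hi hz1.1 hz2.1 h3
  rw [h4, e2] at e1
  have h5 : (ω - 1) * w = 0 := by linear_combination e1
  rcases mul_eq_zero.1 h5 with h6 | h6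
  · exact hω1 (sub_eq_zero.1 h6)
  · exact hw h6

end Pool.Agent.EAC.PA
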