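import Pool.Agent.EAC.PA.ACover

/-!
# EAC-A-INT: interpolation between a local Lipschitz bound and the `L²` norm

For `x ∈ M` the set `B = interior M ∩ ball x ρ` has measure at least `m > 0`, `m` independent of `x` (finite cover of `M` by
balls `ball x_i (ρ/2)`, each of which meets the open set `interior M` by `subset_closure_interior`). There is `y ∈ B` with
`‖u y‖² ≤ (1/|B|) ∫_B ‖u‖² ≤ E²/m` (`exists_le_setAverage`), and `‖u x‖ ≤ ‖u y‖ + L ρ`. `C = 1/√m`.
-/

set_option autoImplicit false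

noncomputable section

namespace Pool.Agent.EAC.PA

open MeasureTheory Set Filter Topology Metric
open scoped ENNReal ComplexConjugate

private theorem exists_m {M : Set ℂ} (hM : AnalyticDomain M) {ρ : ℝ} (hρ : 0 < ρ) :
    ∃ m > 0, ∀ x ∈ M, m ≤ (volume (interior M ∩ ball x ρ)).toReal := by
  obtain ⟨t, htM, htf, hcov⟩ := hM.compact.finite_cover_balls (half_pos hρ)
  have hMfin : volume M < ⊤ := hM.compact.measure_lt_top
  have hfin : ∀ x r, volume (interior M ∩ ball x r) < ⊤ := fun x r =>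
    lt_of_le_of_lt (measure_mono (inter_subset_left.trans interior_subset)) hMfin
  have hpos : ∀ x ∈ t, 0 < (volume (interior M ∩ ball x (ρ / 2))).toReal := by
    intro x hx
    apply ENNReal.toReal_pos _ (hfin x _).ne
    have hopen : IsOpen (interior M ∩ ball x (ρ / 2)) := isOpen_interior.inter isOpen_ball
    have hne : (interior M ∩ ball x (ρ / 2)).Nonempty := by
      have := subset_closure_interior hM (htM hx)
      rw [_root_.mem_closure_iff] at this
      obtain ⟨y, hy1, hy2⟩ := this (ball x (ρ / 2)) isOpen_ball (mem_ball_self (half_pos hρ))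
      exact ⟨y, hy2, hy1⟩
    exact (hopen.measure_pos volume hne).ne'
  have key : ∃ m > 0, ∀ x ∈ t, m ≤ (volume (interior M ∩ ball x (ρ / 2))).toReal := by
    clear hcov
    induction t, htf using Set.Finite.induction_on with
    | empty => exact ⟨1, one_pos, by simp⟩
    | @insert a s _ _ ih =>
      obtain ⟨m, hm, hm2⟩ := ih (fun z hz => htM (mem_insert_of_mem _ hz))
        (fun z hz => hpos z (mem_insert_of_mem _ hz))
      refine ⟨min m (volume (interior M ∩ ball a (ρ / 2))).toReal,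
        lt_min hm (hpos a (mem_insert _ _)), ?_⟩
      intro x hx
      rcases mem_insert_iff.1 hx with rfl | hx
      · exact min_le_right _ _
      · exact (min_le_left _ _).trans (hm2 x hx)
  obtain ⟨m, hm, hm2⟩ := key
  refine ⟨m, hm, fun x hx => ?_⟩
  obtain ⟨y, hy, hxy⟩ := mem_iUnion₂.1 (hcov hx)
  refine (hm2 y hy).trans (ENNReal.toReal_mono (hfin x ρ).ne (measure_mono ?_))
  refine inter_subset_inter_right _ (ball_subset_ball' ?_)
  rw [mem_ball] at hxy
  rw [dist_comm] at hxy
  linarith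

theorem interp {M : Set ℂ} (hM : AnalyticDomain M) {ρ : ℝ} (hρ : 0 < ρ) :
    ∃ C > 0, ∀ (u : ℂ → ℂ) (L E : ℝ), 0 ≤ L → 0 ≤ E → ContinuousOn u M →
      (∀ x ∈ M, ∀ y ∈ M, ‖x - y‖ < ρ → ‖u x - u y‖ ≤ L * ‖x - y‖) →
      ∫ z in interior M, ‖u z‖ ^ 2 ≤ E ^ 2 → ∀ x ∈ M, ‖u x‖ ≤ ρ * L + C * E := by
  obtain ⟨m, hm, hmv⟩ := exists_m hM hρ
  refine ⟨1 / √m, by positivity, ?_⟩
  intro u L E hL hE hu hlip hint x hx
  set B : Set ℂ := interior M ∩ ball x ρ with hB
  have hMfin : volume M < ⊤ := hM.compact.measure_lt_top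
  have hBfin : volume B < ⊤ :=
    lt_of_le_of_lt (measure_mono (inter_subset_left.trans interior_subset)) hMfin
  have hBm : m ≤ (volume B).toReal := hmv x hx
  have hBpos : 0 < (volume B).toReal := hm.trans_le hBm
  have hB0 : volume B ≠ 0 := fun h => by
    rw [h] at hBpos
    simp at hBpos
  have hintM : IntegrableOn (fun z => ‖u z‖ ^ 2) M :=
    ContinuousOn.integrableOn_compact hM.compact (hu.norm.pow 2)
  have hintI : IntegrableOn (fun z => ‖u z‖ ^ 2) (interior M) := hintM.mono_set interior_subset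
  have hintB : IntegrableOn (fun z => ‖u z‖ ^ 2) B := hintI.mono_set inter_subset_left
  obtain ⟨y, hyB, hy⟩ := exists_le_setAverage hB0 hBfin.ne hintB
  have h1 : ∫ z in B, ‖u z‖ ^ 2 ≤ E ^ 2 :=
    (setIntegral_mono_set hintI (Eventually.of_forall fun z => by positivity)
      (Eventually.of_forall inter_subset_left)).trans hint
  have h2 : ‖u y‖ ^ 2 ≤ (1 / √m * E) ^ 2 := by
    refine hy.trans ?_
    rw [setAverage_eq, smul_eq_mul]
    have e : (1 / √m * E) ^ 2 = m⁻¹ * E ^ 2 := by
      rw [mul_pow, div_pow, Real.sq_sqrt hm.le]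
      simp
    rw [e]
    refine mul_le_mul ?_ h1 (integral_nonneg fun z => by positivity) (by positivity)
    exact inv_anti₀ hm hBm
  have h3 : ‖u y‖ ≤ 1 / √m * E :=
    le_of_sq_le_sq h2 (by positivity)
  have hyM : y ∈ M := interior_subset hyB.1
  have hxy : ‖x - y‖ < ρ := by
    have := mem_ball.1 hyB.2
    rwa [dist_comm, dist_eq_norm] at this
  calc ‖u x‖ = ‖(u x - u y) + u y‖ := by rw [sub_add_cancel]
    _ ≤ ‖u x - u y‖ + ‖u y‖ := norm_add_le _ _
    _ ≤ L * ‖x - y‖ + 1 / √m * E := add_le_add (hlip x hx y hyM hxy) h3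
    _ ≤ ρ * L + 1 / √m * E := by
      have := mul_le_mul_of_nonneg_left hxy.le hL
      linarith

end Pool.Agent.EAC.PA
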