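import Pool.Agent.EAC.PA.AGood

/-!
# EAC-A-LIM: the continuous representative

For `closedBall z δ, closedBall z' δ' ⊆ interior M`: `‖mol M δ f z - mol M δ' f z'‖ ≤ K (‖z - z'‖ + δ + δ')^(1/2)`, because both are
averages of `f` over the balls and a.e. point is `Good` (`good_ae`); and `‖mol M δ f z‖ ≤ K`. So `mol M δ f z` is Cauchy as
`δ ↓ 0`; `F z` = limit.
-/

set_option autoImplicit false

noncomputable section

namespace Pool.Agent.EAC.PA

open MeasureTheory Set Filter Topology Metric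
open scoped ENNReal ComplexConjugate

private theorem alim_avg {M : Set ℂ} {f : ℂ → ℂ} (hf : IntegrableOn f (interior M)) {z c : ℂ}
    {δ B : ℝ} (hδ : 0 < δ) (hz : closedBall z δ ⊆ interior M)
    (h : ∀ᵐ w, w ∈ interior M → ‖w - z‖ < δ → ‖f w - c‖ ≤ B) : ‖mol M δ f z - c‖ ≤ B := by
  have hη1 : ∫ w in interior M, eta δ (z - w) = 1 := eta_integral_in hδ hz
  have hηi : IntegrableOn (fun w => eta δ (z - w)) (interior M) := by
    by_contra hcon
    have h0 := integral_undef hcon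
    rw [hη1] at h0
    exact one_ne_zero h0
  have hηc : Continuous (fun w => eta δ (z - w)) :=
    (eta_contDiff δ).continuous.comp (continuous_const.sub continuous_id)
  obtain ⟨C, hC⟩ := (eta_contDiff δ).continuous.bounded_above_of_compact_support
    (eta_hasCompactSupport δ)
  have hfi : IntegrableOn (fun w => eta δ (z - w) • f w) (interior M) := by
    refine (hf.norm.const_mul C).mono' (hηc.aestronglyMeasurable.smul hf.aestronglyMeasurable) ?_
    refine Eventually.of_forall fun w => ?_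
    rw [norm_smul]
    exact mul_le_mul_of_nonneg_right (hC _) (norm_nonneg _)
  have hci : IntegrableOn (fun w => eta δ (z - w) • c) (interior M) := hηi.smul_const c
  have hint : mol M δ f z - c = ∫ w in interior M, eta δ (z - w) • (f w - c) := by
    have h1 : ∫ w in interior M, eta δ (z - w) • (f w - c) =
        ∫ w in interior M, (eta δ (z - w) • f w - eta δ (z - w) • c) := by
      simp only [smul_sub]
    rw [h1, integral_sub hfi hci, integral_smul_const, hη1, one_smul]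
    rfl
  rw [hint]
  have hb : ‖∫ w in interior M, eta δ (z - w) • (f w - c)‖ ≤
      ∫ w in interior M, eta δ (z - w) * B := by
    refine norm_integral_le_of_norm_le (hηi.mul_const B) ?_
    rw [ae_restrict_iff' isOpen_interior.measurableSet]
    filter_upwards [h] with w hw hwO
    rw [norm_smul, Real.norm_of_nonneg (eta_nonneg δ _)]
    by_cases hwz : ‖w - z‖ < δ
    · exact mul_le_mul_of_nonneg_left (hw hwO hwz) (eta_nonneg δ _)
    · have h0 : eta δ (z - w) = 0 := by
        refine eta_eq_zero hδ ?_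
        rw [norm_sub_rev]
        exact not_lt.1 hwz
      rw [h0, zero_mul, zero_mul]
  refine hb.trans ?_
  rw [integral_mul_const, hη1, one_mul]

theorem lim_exists {M : Set ℂ} {f : ℂ → ℂ} {K : ℝ} (hK : 0 ≤ K) (hf : IntegrableOn f (interior M))
    (h : ∀ z ∈ interior M, ∀ w ∈ interior M, Good M f z → Good M f w →
      ‖f z‖ ≤ K ∧ ‖f z - f w‖ ≤ K * ‖z - w‖ ^ (1 / 2 : ℝ)) :
    ∃ F : ℂ → ℂ, (∀ z ∈ interior M, ‖F z‖ ≤ K) ∧
      (∀ z ∈ interior M, ∀ w ∈ interior M, ‖F z - F w‖ ≤ K * ‖z - w‖ ^ (1 / 2 : ℝ)) ∧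
      ∀ z ∈ interior M, ∀ δ > 0, closedBall z δ ⊆ interior M →
        ‖mol M δ f z - F z‖ ≤ K * δ ^ (1 / 2 : ℝ) := by
  have hgood := good_ae hf
  have hmono : ∀ {x y : ℝ}, 0 ≤ x → x ≤ y → K * x ^ (1 / 2 : ℝ) ≤ K * y ^ (1 / 2 : ℝ) := by
    intro x y hx hxy
    exact mul_le_mul_of_nonneg_left (Real.rpow_le_rpow hx hxy (by norm_num)) hK
  -- size
  have hsize : ∀ z δ, 0 < δ → closedBall z δ ⊆ interior M → ‖mol M δ f z‖ ≤ K := by
    intro z δ hδ hz
    have h1 := alim_avg (c := 0) (B := K) hf hδ hz (by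
      filter_upwards [hgood] with w hw hwO _
      rw [sub_zero]
      exact (h w hwO w hwO (hw hwO) (hw hwO)).1)
    rwa [sub_zero] at h1
  -- one good point
  have hA : ∀ w ∈ interior M, Good M f w → ∀ z δ, 0 < δ → closedBall z δ ⊆ interior M →
      ‖f w - mol M δ f z‖ ≤ K * (‖w - z‖ + δ) ^ (1 / 2 : ℝ) := by
    intro w hwO hwg z δ hδ hz
    rw [norm_sub_rev]
    refine alim_avg hf hδ hz ?_
    filter_upwards [hgood] with y hy hyO hyz
    refine ((h y hyO w hwO (hy hyO) hwg).2).trans (hmono (norm_nonneg _) ?_)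
    have h1 : ‖y - w‖ ≤ ‖y - z‖ + ‖z - w‖ := norm_sub_le_norm_sub_add_norm_sub _ _ _
    rw [norm_sub_rev z w] at h1
    linarith
  have hB : ∀ z δ z' δ', 0 < δ → closedBall z δ ⊆ interior M → 0 < δ' →
      closedBall z' δ' ⊆ interior M →
      ‖mol M δ f z - mol M δ' f z'‖ ≤ K * (‖z - z'‖ + δ + δ') ^ (1 / 2 : ℝ) := by
    intro z δ z' δ' hδ hz hδ' hz'
    refine alim_avg hf hδ hz ?_
    filter_upwards [hgood] with w hw hwO hwz
    refine (hA w hwO (hw hwO) z' δ' hδ' hz').trans (hmono (by positivity) ?_)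
    have h1 : ‖w - z'‖ ≤ ‖w - z‖ + ‖z - z'‖ := norm_sub_le_norm_sub_add_norm_sub _ _ _
    linarith
  -- small balls
  have hev : ∀ z ∈ interior M, ∀ᶠ δ in 𝓝[>] (0 : ℝ), 0 < δ ∧ closedBall z δ ⊆ interior M := by
    intro z hz
    obtain ⟨r, hr, hrb⟩ := Metric.isOpen_iff.1 (isOpen_interior (s := M)) z hz
    have h1 : Ioo (0 : ℝ) r ∈ 𝓝[>] (0 : ℝ) := Ioo_mem_nhdsGT hr
    filter_upwards [h1] with δ hδ
    exact ⟨hδ.1, (closedBall_subset_ball hδ.2).trans hrb⟩
  have hlim : ∀ z ∈ interior M, ∃ y, Tendsto (fun δ => mol M δ f z) (𝓝[>] (0 : ℝ)) (𝓝 y) := by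
    intro z hz
    rw [← cauchy_map_iff_exists_tendsto, cauchy_map_iff]
    refine ⟨inferInstance, ?_⟩
    rw [tendsto_uniformity_iff_dist_tendsto_zero]
    have hz1 : Tendsto (fun p : ℝ × ℝ => K * (p.1 + p.2) ^ (1 / 2 : ℝ))
        (𝓝[>] (0 : ℝ) ×ˢ 𝓝[>] (0 : ℝ)) (𝓝 0) := by
      have hc : Continuous (fun p : ℝ × ℝ => K * (p.1 + p.2) ^ (1 / 2 : ℝ)) :=
        continuous_const.mul ((continuous_fst.add continuous_snd).rpow_const
          (fun _ => Or.inr (by norm_num)))
      have h0 := hc.tendsto (0, 0)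
      have h00 : K * (((0 : ℝ), (0 : ℝ)).1 + ((0 : ℝ), (0 : ℝ)).2) ^ (1 / 2 : ℝ) = 0 := by
        simp
      rw [h00] at h0
      refine h0.mono_left ?_
      rw [nhds_prod_eq]
      exact Filter.prod_mono nhdsWithin_le_nhds nhdsWithin_le_nhds
    refine squeeze_zero' (Eventually.of_forall fun _ => dist_nonneg) ?_ hz1
    filter_upwards [prod_mem_prod (hev z hz) (hev z hz)] with p hp
    rw [dist_eq_norm]
    have h1 := hB z p.1 z p.2 hp.1.1 hp.1.2 hp.2.1 hp.2.2
    simpa using h1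
  choose! F hF using hlim
  refine ⟨F, ?_, ?_, ?_⟩
  · intro z hz
    refine le_of_tendsto (hF z hz).norm ?_
    filter_upwards [hev z hz] with δ hδ
    exact hsize z δ hδ.1 hδ.2
  · intro z hz w hw
    have h1 : Tendsto (fun δ : ℝ => K * (‖z - w‖ + δ + δ) ^ (1 / 2 : ℝ)) (𝓝[>] (0 : ℝ))
        (𝓝 (K * ‖z - w‖ ^ (1 / 2 : ℝ))) := by
      have hc : Continuous (fun δ : ℝ => K * (‖z - w‖ + δ + δ) ^ (1 / 2 : ℝ)) :=
        continuous_const.mul (((continuous_const.add continuous_id).add continuous_id).rpow_const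
          (fun _ => Or.inr (by norm_num)))
      have h0 := hc.tendsto 0
      rw [add_zero, add_zero] at h0
      exact h0.mono_left nhdsWithin_le_nhds
    refine le_of_tendsto_of_tendsto ((hF z hz).sub (hF w hw)).norm h1 ?_
    filter_upwards [hev z hz, hev w hw] with δ hδ hδ'
    exact hB z δ w δ hδ.1 hδ.2 hδ'.1 hδ'.2
  · intro z hz δ hδ hzδ
    have h1 : Tendsto (fun δ' : ℝ => K * (δ + δ') ^ (1 / 2 : ℝ)) (𝓝[>] (0 : ℝ))
        (𝓝 (K * δ ^ (1 / 2 : ℝ))) := by
      have hc : Continuous (fun δ' : ℝ => K * (δ + δ') ^ (1 / 2 : ℝ)) :=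
        continuous_const.mul ((continuous_const.add continuous_id).rpow_const
          (fun _ => Or.inr (by norm_num)))
      have h0 := hc.tendsto 0
      rw [add_zero] at h0
      exact h0.mono_left nhdsWithin_le_nhds
    refine le_of_tendsto_of_tendsto ((hF z hz).const_sub (mol M δ f z)).norm h1 ?_
    filter_upwards [hev z hz] with δ' hδ'
    have h2 := hB z δ z δ' hδ hzδ hδ'.1 hδ'.2
    simpa using h2

end Pool.Agent.EAC.PA
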