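import Pool.Agent.EAC.PA.ADefs

/-!
# EAC-A-MOL0: the mollifier

Everything from `ContDiffBump.normed` (`contDiff_normed`, `nonneg_normed`, `support_normed_eq`, `integral_normed`,
`normed_neg`, `normed_sub`) for `bum δ`, `rOut = δ` for `0 < δ`.
-/

set_option autoImplicit false

noncomputable section

namespace Pool.Agent.EAC.PA

open MeasureTheory Set Filter Topology Metric
open scoped ENNReal ComplexConjugate

theorem eta_contDiff (δ : ℝ) : ContDiff ℝ (⊤ : ℕ∞) (eta δ) :=
  (bum δ).contDiff_normed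

theorem eta_nonneg (δ : ℝ) (z : ℂ) : 0 ≤ eta δ z :=
  (bum δ).nonneg_normed z

private theorem bum_rOut {δ : ℝ} (hδ : 0 < δ) : (bum δ).rOut = δ := by
  simp [bum, hδ]

theorem eta_eq_zero {δ : ℝ} (hδ : 0 < δ) {z : ℂ} (hz : δ ≤ ‖z‖) : eta δ z = 0 := by
  by_contra h
  have h1 : z ∈ Function.support ((bum δ).normed volume) := h
  rw [(bum δ).support_normed_eq, bum_rOut hδ, mem_ball_zero_iff] at h1
  exact absurd h1 (not_lt.2 hz)

theorem eta_hasCompactSupport (δ : ℝ) : HasCompactSupport (eta δ) :=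
  (bum δ).hasCompactSupport_normed

theorem eta_integral {δ : ℝ} (hδ : 0 < δ) : ∫ z, eta δ z = 1 :=
  (bum δ).integral_normed

theorem eta_neg (δ : ℝ) (z : ℂ) : eta δ (-z) = eta δ z :=
  (bum δ).normed_neg z

/-- averages over the small ball -/
theorem eta_integral_in {M : Set ℂ} {δ : ℝ} (hδ : 0 < δ) {z : ℂ} (hz : closedBall z δ ⊆ interior M) :
    ∫ w in interior M, eta δ (z - w) = 1 := by
  rw [setIntegral_eq_integral_of_forall_compl_eq_zero]
  · rw [integral_sub_left_eq_self (fun w => eta δ w) volume z]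
    exact eta_integral hδ
  · intro w hw
    apply eta_eq_zero hδ
    by_contra hlt
    rw [not_le] at hlt
    apply hw
    apply hz
    rw [mem_closedBall, dist_comm, dist_eq_norm]
    exact hlt.le

end Pool.Agent.EAC.PA
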