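import Pool.Agent.EAC.PA.AMol0

/-!
# EAC-A-MOL1: smoothness and derivatives of the mollification

`mol M δ f z = ∫_{interior M} eta δ (z - w) f w dw`: smooth with derivatives on the smooth factor
(`HasCompactSupport.contDiff_convolution_left`, `HasCompactSupport.hasFDerivAt_convolution_left` or
`hasFDerivAt_integral_of_dominated_of_fderiv_le`). `mol_dxdy` by induction on `i, j` for a general smooth compactly supported
function in place of `eta δ`. 
-/

set_option autoImplicit false

noncomputable section

namespace Pool.Agent.EAC.PA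

open MeasureTheory Set Filter Topology Metric
open scoped ENNReal ComplexConjugate

private theorem amol1_loc {M : Set ℂ} {f : ℂ → ℂ} (hf : IntegrableOn f (interior M)) :
    LocallyIntegrable ((interior M).indicator f) volume :=
  ((integrable_indicator_iff isOpen_interior.measurableSet).mpr hf).locallyIntegrable

private theorem amol1_eq {M : Set ℂ} {f : ℂ → ℂ} (g : ℂ → ℝ) :
    (fun z => ∫ w in interior M, g (z - w) • f w) =
      MeasureTheory.convolution g ((interior M).indicator f)
        (ContinuousLinearMap.lsmul ℝ ℝ : ℝ →L[ℝ] ℂ →L[ℝ] ℂ) volume := by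
  funext z
  rw [MeasureTheory.convolution_eq_swap]
  rw [← integral_indicator isOpen_interior.measurableSet]
  apply integral_congr_ae
  refine Filter.Eventually.of_forall fun w => ?_
  simp only [ContinuousLinearMap.lsmul_apply]
  by_cases hw : w ∈ interior M
  · rw [indicator_of_mem hw, indicator_of_mem hw]
  · rw [indicator_of_notMem hw, indicator_of_notMem hw, smul_zero]

private theorem amol1_contDiff {M : Set ℂ} {f : ℂ → ℂ} (hf : IntegrableOn f (interior M))
    {g : ℂ → ℝ} (hg : ContDiff ℝ (⊤ : ℕ∞) g) (hc : HasCompactSupport g) :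
    ContDiff ℝ (⊤ : ℕ∞) (fun z => ∫ w in interior M, g (z - w) • f w) := by
  rw [amol1_eq]
  exact hc.contDiff_convolution_left _ hg (amol1_loc hf)

private theorem amol1_fderiv {M : Set ℂ} {f : ℂ → ℂ} (hf : IntegrableOn f (interior M))
    {g : ℂ → ℝ} (hg : ContDiff ℝ (⊤ : ℕ∞) g) (hc : HasCompactSupport g) (z e : ℂ) :
    fderiv ℝ (fun z => ∫ w in interior M, g (z - w) • f w) z e =
      ∫ w in interior M, (fderiv ℝ g (z - w) e) • f w := by
  have hd : DifferentiableAt ℝ (fun z => ∫ w in interior M, g (z - w) • f w) z :=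
    (amol1_contDiff hf hg hc).differentiable (by simp) z
  have hline : ∀ t : ℝ, HasDerivAt (fun t : ℝ => z + t • e) e t := by
    intro t
    have := ((hasDerivAt_id t).smul_const e).const_add z
    simpa using this
  have h1 : HasDerivAt (fun t : ℝ => ∫ w in interior M, g (z + t • e - w) • f w)
      (fderiv ℝ (fun z => ∫ w in interior M, g (z - w) • f w) z e) 0 := by
    have h0 : HasFDerivAt (fun z => ∫ w in interior M, g (z - w) • f w)
        (fderiv ℝ (fun z => ∫ w in interior M, g (z - w) • f w) z) (z + (0 : ℝ) • e) := by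
      rw [zero_smul, add_zero]
      exact hd.hasFDerivAt
    exact h0.comp_hasDerivAt 0 (hline 0)
  have hgc : Continuous g := hg.continuous
  have hgd : Differentiable ℝ g := hg.differentiable (by simp)
  have hg'c : Continuous (fderiv ℝ g) := hg.continuous_fderiv (by simp)
  obtain ⟨C0, hC0⟩ := hc.exists_bound_of_continuous hgc
  obtain ⟨C, hC⟩ := (hc.fderiv (𝕜 := ℝ)).exists_bound_of_continuous hg'c
  have hfm : AEStronglyMeasurable f (volume.restrict (interior M)) := hf.aestronglyMeasurable
  have hmeas : ∀ u : ℂ, AEStronglyMeasurable (fun w => g (u - w) • f w)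
      (volume.restrict (interior M)) := by
    intro u
    have : Continuous fun w => g (u - w) := hgc.comp (by fun_prop)
    exact this.aestronglyMeasurable.smul hfm
  have hint : Integrable (fun w => g (z - w) • f w) (volume.restrict (interior M)) := by
    refine (hf.norm.const_mul C0).mono' (hmeas z) ?_
    refine Filter.Eventually.of_forall fun w => ?_
    rw [norm_smul]
    gcongr
    exact hC0 _
  have key := hasDerivAt_integral_of_dominated_loc_of_deriv_le
    (μ := volume.restrict (interior M))
    (F := fun (t : ℝ) (w : ℂ) => g (z + t • e - w) • f w)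
    (F' := fun (t : ℝ) (w : ℂ) => (fderiv ℝ g (z + t • e - w) e) • f w) (x₀ := 0)
    (s := univ) (bound := fun w => C * ‖e‖ * ‖f w‖) univ_mem
    (Filter.Eventually.of_forall fun t => hmeas _) ?_ ?_ ?_ ?_ ?_
  · have h2 := h1.unique key.2
    rw [h2]
    simp only [zero_smul, add_zero]
  · simpa only [zero_smul, add_zero] using hint
  · have : Continuous fun w => fderiv ℝ g (z + (0 : ℝ) • e - w) e :=
      (hg'c.comp (by fun_prop)).clm_apply continuous_const
    exact this.aestronglyMeasurable.smul hfm
  · refine Filter.Eventually.of_forall fun w t _ => ?_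
    rw [norm_smul]
    gcongr
    refine ((fderiv ℝ g (z + t • e - w)).le_opNorm e).trans ?_
    gcongr
    exact hC _
  · exact hf.norm.const_mul _
  · refine Filter.Eventually.of_forall fun w t _ => ?_
    have h3 : HasDerivAt (fun t : ℝ => z + t • e - w) e t := (hline t).sub_const w
    have h4 := (hgd (z + t • e - w)).hasFDerivAt.comp_hasDerivAt t h3
    exact h4.smul_const (f w)

private theorem amol1_smooth {g : ℂ → ℝ} (hg : ContDiff ℝ (⊤ : ℕ∞) g) (e : ℂ) :
    ContDiff ℝ (⊤ : ℕ∞) (fun z => fderiv ℝ g z e) := by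
  have h1 : ContDiff ℝ (⊤ : ℕ∞) (fderiv ℝ g) := by
    have := (contDiff_infty_iff_fderiv.mp hg).2
    exact this
  exact h1.clm_apply contDiff_const

private theorem amol1_supp {g : ℂ → ℝ} (hc : HasCompactSupport g) (e : ℂ) :
    HasCompactSupport (fun z => fderiv ℝ g z e) :=
  hc.fderiv_apply (𝕜 := ℝ) e

private theorem amol1_dy {M : Set ℂ} {f : ℂ → ℂ} (hf : IntegrableOn f (interior M)) (j : ℕ) :
    ∀ {g : ℂ → ℝ}, ContDiff ℝ (⊤ : ℕ∞) g → HasCompactSupport g →
      dy^[j] (fun z => ∫ w in interior M, g (z - w) • f w) =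
        fun z => ∫ w in interior M, (dy^[j] g) (z - w) • f w := by
  induction j with
  | zero => intro g _ _; rfl
  | succ j ih =>
    intro g hg hc
    rw [Function.iterate_succ_apply, Function.iterate_succ_apply]
    have h1 : dy (fun z => ∫ w in interior M, g (z - w) • f w) =
        fun z => ∫ w in interior M, (dy g) (z - w) • f w := by
      funext z
      exact amol1_fderiv hf hg hc z Complex.I
    rw [h1]
    exact ih (amol1_smooth hg Complex.I) (amol1_supp hc Complex.I)

private theorem amol1_dx {M : Set ℂ} {f : ℂ → ℂ} (hf : IntegrableOn f (interior M)) (i : ℕ) :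
    ∀ {g : ℂ → ℝ}, ContDiff ℝ (⊤ : ℕ∞) g → HasCompactSupport g →
      dx^[i] (fun z => ∫ w in interior M, g (z - w) • f w) =
        fun z => ∫ w in interior M, (dx^[i] g) (z - w) • f w := by
  induction i with
  | zero => intro g _ _; rfl
  | succ i ih =>
    intro g hg hc
    rw [Function.iterate_succ_apply, Function.iterate_succ_apply]
    have h1 : dx (fun z => ∫ w in interior M, g (z - w) • f w) =
        fun z => ∫ w in interior M, (dx g) (z - w) • f w := by
      funext z
      exact amol1_fderiv hf hg hc z 1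
    rw [h1]
    exact ih (amol1_smooth hg 1) (amol1_supp hc 1)

private theorem amol1_dy_nice {g : ℂ → ℝ} (j : ℕ) (hg : ContDiff ℝ (⊤ : ℕ∞) g)
    (hc : HasCompactSupport g) :
    ContDiff ℝ (⊤ : ℕ∞) (dy^[j] g) ∧ HasCompactSupport (dy^[j] g) := by
  induction j with
  | zero => exact ⟨hg, hc⟩
  | succ j ih =>
    rw [Function.iterate_succ_apply']
    exact ⟨amol1_smooth ih.1 Complex.I, amol1_supp ih.2 Complex.I⟩

theorem mol_contDiff {M : Set ℂ} {f : ℂ → ℂ} (hf : IntegrableOn f (interior M)) (δ : ℝ) :
    ContDiff ℝ (⊤ : ℕ∞) (mol M δ f) :=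
  amol1_contDiff hf (eta_contDiff δ) (eta_hasCompactSupport δ)

theorem mol_dxdy {M : Set ℂ} {f : ℂ → ℂ} (hf : IntegrableOn f (interior M)) (δ : ℝ) (i j : ℕ)
    (z : ℂ) : (dx^[i] (dy^[j] (mol M δ f))) z =
      ∫ w in interior M, (dx^[i] (dy^[j] (eta δ))) (z - w) • f w := by
  have h1 : mol M δ f = fun z => ∫ w in interior M, eta δ (z - w) • f w := rfl
  rw [h1, amol1_dy hf j (eta_contDiff δ) (eta_hasCompactSupport δ)]
  have h2 := amol1_dy_nice j (eta_contDiff δ) (eta_hasCompactSupport δ)
  rw [amol1_dx hf i h2.1 h2.2]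

end Pool.Agent.EAC.PA
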