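import Pool.Agent.EAC.PA.ADefs
import Pool.Agent.EAC.PA.AInj

/-!
# EAC-A-BP: a boundary patch from the chart of an analytic domain

`hM.chart x` gives `φ` holomorphic and injective on `ball x R`, `φ x = 0`, `z ∈ M ↔ 0 ≤ Im φ z`. `deriv φ x ≠ 0` (AInj).
`ψ` = local inverse.
-/

set_option autoImplicit false

noncomputable section

namespace Pool.Agent.EAC.PA

open MeasureTheory Set Filter Topology Metric
open scoped ENNReal ComplexConjugate

theorem bpatch {M : Set ℂ} (hM : AnalyticDomain M) {x : ℂ} (hx : x ∈ M) (hx' : x ∉ interior M) :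
    ∃ ψ φ a C r R, BPatch M x ψ φ a C r R := by
  obtain ⟨R, hR, φ, hφd, hφi, hφ0, hφM⟩ := hM.chart x hx hx'
  have hne : deriv φ x ≠ 0 := deriv_ne_zero_of_injOn hR hφd hφi
  have han : AnalyticAt ℂ φ x := hφd.analyticAt (ball_mem_nhds x hR)
  have hst : HasStrictDerivAt φ (deriv φ x) x := han.hasStrictDerivAt
  set ψ : ℂ → ℂ := hst.localInverse φ (deriv φ x) x hne with hψdef
  have hψa : AnalyticAt ℂ ψ 0 := by
    have := han.analyticAt_localInverse hne
    rw [hφ0] at this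
    exact this
  have hleft : ∀ᶠ z in 𝓝 x, ψ (φ z) = z := HasStrictDerivAt.eventually_left_inverse hst hne
  have hright : ∀ᶠ ζ in 𝓝 (0 : ℂ), φ (ψ ζ) = ζ := by
    have := HasStrictDerivAt.eventually_right_inverse hst hne
    rw [hφ0] at this
    exact this
  have hψ0 : ψ 0 = x := by
    have := hleft.self_of_nhds
    rwa [hφ0] at this
  have hd0 : HasStrictDerivAt ψ (deriv φ x)⁻¹ 0 := by
    have := HasStrictDerivAt.to_localInverse hst hne
    rw [hφ0] at this
    exact this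
  set d : ℂ := deriv ψ 0 with hd
  have hd' : d = (deriv φ x)⁻¹ := hd0.hasDerivAt.deriv
  have hdne : d ≠ 0 := by rw [hd']; exact inv_ne_zero hne
  have hdpos : 0 < ‖d‖ := norm_pos_iff.2 hdne
  -- eventual properties
  have E1 : ∀ᶠ ζ in 𝓝 (0 : ℂ), AnalyticAt ℂ ψ ζ := hψa.eventually_analyticAt
  have E2 : ∀ᶠ ζ in 𝓝 (0 : ℂ), ψ ζ ∈ ball x R := by
    apply hψa.continuousAt.eventually_mem
    rw [hψ0]
    exact ball_mem_nhds x hR
  have E4 : ∀ᶠ ζ in 𝓝 (0 : ℂ), ‖deriv ψ ζ - d‖ < ‖d‖ / 2 := by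
    have hc : ContinuousAt (deriv ψ) 0 := hψa.deriv.continuousAt
    have := hc.eventually_mem (ball_mem_nhds (deriv ψ 0) (half_pos hdpos))
    filter_upwards [this] with ζ hζ
    simpa [dist_eq_norm] using hζ
  have E5 : ∀ᶠ ζ in 𝓝 (0 : ℂ), ‖deriv (deriv ψ) ζ‖ < ‖deriv (deriv ψ) 0‖ + 1 := by
    have hc : ContinuousAt (deriv (deriv ψ)) 0 := hψa.deriv.deriv.continuousAt
    exact hc.norm.eventually_lt continuousAt_const (by linarith)
  obtain ⟨ρ, hρ, hball⟩ := Metric.eventually_nhds_iff_ball.1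
    (E1.and (E2.and (hright.and (E4.and E5))))
  set a : ℝ := ρ / 16 with ha
  have ha0 : 0 < a := by positivity
  have h16 : 16 * a = ρ := by rw [ha]; ring
  set C : ℝ := 1 + 2 / ‖d‖ + 2 * ‖d‖ + (‖deriv (deriv ψ) 0‖ + 1) with hC
  have hn2 : 0 ≤ ‖deriv (deriv ψ) 0‖ := norm_nonneg _
  have hn3 : 0 ≤ 2 / ‖d‖ := by positivity
  have hC1 : 1 ≤ C := by linarith
  have hC2 : 2 / ‖d‖ ≤ C := by linarith
  have hC3 : 2 * ‖d‖ ≤ C := by linarith
  have hC4 : ‖deriv (deriv ψ) 0‖ + 1 ≤ C := by linarith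
  -- inverse radius
  have F1 : ∀ᶠ z in 𝓝 x, ‖φ z‖ < a := by
    have hc : ContinuousAt φ x := han.continuousAt
    refine hc.norm.eventually_lt continuousAt_const ?_
    simpa [hφ0] using ha0
  obtain ⟨r0, hr0, hball2⟩ := Metric.eventually_nhds_iff_ball.1 (F1.and hleft)
  set r : ℝ := min r0 R with hr
  have hrpos : 0 < r := lt_min hr0 hR
  have hrR : r ≤ R := min_le_right _ _
  have hrr0 : r ≤ r0 := min_le_left _ _
  have hlow : ∀ ζ ∈ ball (0 : ℂ) (16 * a), ‖d‖ / 2 ≤ ‖deriv ψ ζ‖ := by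
    intro ζ hζ
    rw [h16] at hζ
    have := (hball ζ hζ).2.2.2.1
    have h2 := norm_sub_norm_le d (deriv ψ ζ)
    rw [norm_sub_rev] at h2
    linarith
  have hbd : ∀ ζ ∈ ball (0 : ℂ) (16 * a), (ψ ζ ∈ M ↔ 0 ≤ ζ.im) := by
    intro ζ hζ
    rw [h16] at hζ
    have h1 := hball ζ hζ
    rw [hφM _ h1.2.1, h1.2.2.1]
  have hbdI : ∀ ζ ∈ ball (0 : ℂ) (16 * a), (ψ ζ ∈ interior M ↔ 0 < ζ.im) := by
    intro ζ hζ
    have hζ' := hζ
    rw [h16] at hζ'
    have h1 := hball ζ hζ'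
    constructor
    · intro h
      have h0 : 0 ≤ ζ.im := (hbd ζ hζ).1 (interior_subset h)
      rcases h0.eq_or_lt with h0 | h0
      · exfalso
        have hc : Continuous fun e : ℝ => ζ - (e : ℂ) * Complex.I := by fun_prop
        have hc2 : ContinuousAt (fun e : ℝ => ψ (ζ - (e : ℂ) * Complex.I)) 0 := by
          have hψc : ContinuousAt ψ (ζ - ((0 : ℝ) : ℂ) * Complex.I) := by
            simpa using h1.1.continuousAt
          exact ContinuousAt.comp (f := fun e : ℝ => ζ - (e : ℂ) * Complex.I) hψc hc.continuousAt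
        have ev1 : ∀ᶠ e : ℝ in 𝓝 0, ψ (ζ - (e : ℂ) * Complex.I) ∈ interior M := by
          apply hc2.eventually_mem
          apply isOpen_interior.mem_nhds
          simpa using h
        have ev2 : ∀ᶠ e : ℝ in 𝓝 0, ζ - (e : ℂ) * Complex.I ∈ ball (0 : ℂ) (16 * a) := by
          apply hc.continuousAt.eventually_mem
          apply isOpen_ball.mem_nhds
          simpa using hζ
        obtain ⟨δ, hδ, hB⟩ := Metric.eventually_nhds_iff_ball.1 (ev1.and ev2)
        have h2 := hB (δ / 2) (by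
          rw [mem_ball, dist_zero_right, Real.norm_eq_abs, abs_of_pos (half_pos hδ)]
          exact half_lt_self hδ)
        have h3 := (hbd _ h2.2).1 (interior_subset h2.1)
        have h4 : (ζ - ((δ / 2 : ℝ) : ℂ) * Complex.I).im = - (δ / 2) := by
          rw [Complex.sub_im, ← h0]
          simp
        rw [h4] at h3
        linarith
      · exact h0
    · intro h
      have hopen : IsOpen {z | z ∈ ball x R ∧ 0 < (φ z).im} := by
        have hc : ContinuousOn (fun z => (φ z).im) (ball x R) :=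
          Complex.continuous_im.comp_continuousOn hφd.continuousOn
        have := hc.isOpen_inter_preimage isOpen_ball (isOpen_Ioi (a := (0 : ℝ)))
        exact this
      refine interior_maximal ?_ hopen ⟨h1.2.1, ?_⟩
      · rintro z ⟨hz1, hz2⟩
        exact (hφM z hz1).2 hz2.le
      · rw [h1.2.2.1]
        exact h
  have hψφ : ∀ z ∈ ball x r, ‖φ z‖ < a ∧ ψ (φ z) = z := fun z hz =>
    hball2 z (ball_subset_ball hrr0 hz)
  have h16a : ∀ ζ : ℂ, ‖ζ‖ < a → ζ ∈ ball (0 : ℂ) (16 * a) := by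
    intro ζ hζ
    rw [mem_ball_zero_iff]
    linarith
  refine ⟨ψ, φ, a, C, r, R, ?_⟩
  refine
    { ha := ha0
      hC := hC1
      hr := hrpos
      holo := ?_
      low := ?_
      upp := ?_
      upp2 := ?_
      bilip := ?_
      inM := fun ζ hζ h => (hbd ζ hζ).2 h
      inside := fun ζ hζ h => (hbdI ζ hζ).2 h
      cover := ?_
      coverI := ?_
      center := hψ0
      hrR := hrR
      bd := hbd
      bdI := hbdI
      φd := hφd
      φinj := hφi
      φψ := ?_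
      ψφ := hψφ }
  · intro ζ hζ
    rw [h16] at hζ
    exact (hball ζ hζ).1.differentiableAt.differentiableWithinAt
  · intro ζ hζ
    have h1 := hlow ζ hζ
    calc (1 : ℝ) = 2 / ‖d‖ * (‖d‖ / 2) := by field_simp
      _ ≤ C * ‖deriv ψ ζ‖ := by
        apply mul_le_mul hC2 h1 (by positivity) (by linarith)
  · intro ζ hζ
    rw [h16] at hζ
    have := (hball ζ hζ).2.2.2.1
    have h2 := norm_sub_norm_le (deriv ψ ζ) d
    linarith
  · intro ζ hζ
    rw [h16] at hζ
    have := (hball ζ hζ).2.2.2.2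
    linarith
  · intro ζ hζ ξ hξ
    have hmv : ‖(ψ ζ - d * ζ) - (ψ ξ - d * ξ)‖ ≤ ‖d‖ / 2 * ‖ζ - ξ‖ := by
      have hder : ∀ y ∈ ball (0 : ℂ) ρ, HasDerivWithinAt (fun y => ψ y - d * y) (deriv ψ y - d)
          (ball (0 : ℂ) ρ) y := by
        intro y hy
        have h1 := (hball y hy).1.differentiableAt.hasDerivAt
        have h2 : HasDerivAt (fun y : ℂ => d * y) d y := by
          simpa using (hasDerivAt_id y).const_mul d
        exact (h1.sub h2).hasDerivWithinAt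
      rw [h16] at hζ hξ
      exact (convex_ball (0 : ℂ) ρ).norm_image_sub_le_of_norm_hasDerivWithin_le
        hder (fun y hy => (hball y hy).2.2.2.1.le) hξ hζ
    have e1 : (ψ ζ - d * ζ) - (ψ ξ - d * ξ) = (ψ ζ - ψ ξ) - d * (ζ - ξ) := by ring
    rw [e1] at hmv
    constructor
    · have h1 := norm_sub_norm_le (d * (ζ - ξ)) (ψ ζ - ψ ξ)
      rw [norm_sub_rev (d * (ζ - ξ)) (ψ ζ - ψ ξ), norm_mul] at h1
      have h2 : ‖d‖ / 2 * ‖ζ - ξ‖ ≤ ‖ψ ζ - ψ ξ‖ := by linarith
      calc ‖ζ - ξ‖ = 2 / ‖d‖ * (‖d‖ / 2 * ‖ζ - ξ‖) := by field_simp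
        _ ≤ C * ‖ψ ζ - ψ ξ‖ := by
          apply mul_le_mul hC2 h2 (by positivity) (by linarith)
    · have h1 := norm_sub_norm_le (ψ ζ - ψ ξ) (d * (ζ - ξ))
      rw [norm_mul] at h1
      have h3 : ‖ψ ζ - ψ ξ‖ ≤ 2 * ‖d‖ * ‖ζ - ξ‖ := by
        have : 0 ≤ ‖d‖ * ‖ζ - ξ‖ := by positivity
        linarith
      exact h3.trans (mul_le_mul_of_nonneg_right hC3 (norm_nonneg _))
  · intro z hz hzr
    have hzb : z ∈ ball x r := by rwa [mem_ball, dist_eq_norm]
    obtain ⟨h1, h2⟩ := hψφ z hzb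
    exact ⟨φ z, h1, (hφM z (ball_subset_ball hrR hzb)).1 hz, h2⟩
  · intro z hz hzr
    have hzb : z ∈ ball x r := by rwa [mem_ball, dist_eq_norm]
    obtain ⟨h1, h2⟩ := hψφ z hzb
    refine ⟨φ z, h1, (hbdI (φ z) (h16a _ h1)).1 ?_, h2⟩
    rw [h2]
    exact hz
  · intro ζ hζ
    rw [h16] at hζ
    exact ⟨(hball ζ hζ).2.1, (hball ζ hζ).2.2.1⟩

end Pool.Agent.EAC.PA
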