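import Pool.Agent.EAC.PA.ASob

/-!
# EAC-A-REG: regularity of a solution

`sobolev` for `v t` and for `v τ - v t` (`hs_cont`, `hsNorm_mono`): every `t` has a neighbourhood in `[0,1]` on which all bounds hold with
one constant; compactness of `[0,1]` (`isCompact_Icc.induction_on` or a finite subcover). `fderiv (v τ) = fderiv (v t) + fderiv (v τ - v t)`
at interior points. For `E > 0`: `hsNorm M 3 (v τ - v t) < ofReal E` eventually.
-/

set_option autoImplicit false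

noncomputable section

namespace Pool.Agent.EAC.PA

open MeasureTheory Set Filter Topology Metric
open scoped ENNReal ComplexConjugate

private def QQ (M : Set ℂ) (u : ℂ → ℂ) (L : ℝ) : Prop :=
  (∀ x ∈ M, ∀ y ∈ M, ‖u x - u y‖ ≤ L * ‖x - y‖) ∧ (∀ x ∈ M, ‖u x‖ ≤ L) ∧
    (∀ z ∈ interior M, DifferentiableAt ℝ u z) ∧ (∀ z ∈ interior M, ‖fderiv ℝ u z‖ ≤ L) ∧
    ∀ z ∈ interior M, ∀ w ∈ interior M,
      ‖fderiv ℝ u z - fderiv ℝ u w‖ ≤ L * ‖z - w‖ ^ (1 / 2 : ℝ)

private theorem QQ.mono {M : Set ℂ} {u : ℂ → ℂ} {L L' : ℝ} (h : QQ M u L) (hL : L ≤ L') :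
    QQ M u L' := by
  obtain ⟨h1, h2, h3, h4, h5⟩ := h
  refine ⟨fun x hx y hy => (h1 x hx y hy).trans (mul_le_mul_of_nonneg_right hL (norm_nonneg _)),
    fun x hx => (h2 x hx).trans hL, h3, fun z hz => (h4 z hz).trans hL, fun z hz w hw =>
    (h5 z hz w hw).trans (mul_le_mul_of_nonneg_right hL (by positivity))⟩

private theorem QQ.add {M : Set ℂ} {u w : ℂ → ℂ} {L L' : ℝ} (h : QQ M u L)
    (h' : QQ M (fun z => w z - u z) L') : QQ M w (L + L') := by
  obtain ⟨h1, h2, h3, h4, h5⟩ := h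
  obtain ⟨g1, g2, g3, g4, g5⟩ := h'
  have hd : ∀ z ∈ interior M, DifferentiableAt ℝ w z := fun z hz => by
    have := (g3 z hz).add (h3 z hz)
    have e : (fun z => w z - u z) + u = w := by
      funext z; simp
    rwa [e] at this
  have hf : ∀ z ∈ interior M, fderiv ℝ w z = fderiv ℝ (fun z => w z - u z) z + fderiv ℝ u z :=
    fun z hz => by
      rw [fderiv_fun_sub (hd z hz) (h3 z hz)]; abel
  refine ⟨fun x hx y hy => ?_, fun x hx => ?_, hd, fun z hz => ?_, fun z hz y hy => ?_⟩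
  · have a1 := h1 x hx y hy
    have a2 := g1 x hx y hy
    have e : w x - w y = (u x - u y) + ((w x - u x) - (w y - u y)) := by ring
    rw [e]
    refine (norm_add_le _ _).trans ?_
    rw [add_mul]
    exact add_le_add a1 a2
  · have e : w x = u x + (w x - u x) := by ring
    rw [e]
    exact (norm_add_le _ _).trans (add_le_add (h2 x hx) (g2 x hx))
  · rw [hf z hz, add_comm L L']
    exact (norm_add_le _ _).trans (add_le_add (g4 z hz) (h4 z hz))
  · rw [hf z hz, hf y hy]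
    have e : fderiv ℝ (fun z => w z - u z) z + fderiv ℝ u z -
        (fderiv ℝ (fun z => w z - u z) y + fderiv ℝ u y) =
        (fderiv ℝ u z - fderiv ℝ u y) +
        (fderiv ℝ (fun z => w z - u z) z - fderiv ℝ (fun z => w z - u z) y) := by abel
    rw [e, add_mul]
    exact (norm_add_le _ _).trans (add_le_add (h5 z hz y hy) (g5 z hz y hy))

theorem reg_of_euler {M : Set ℂ} (hM : AnalyticDomain M) {s : ℕ} (hs : 3 ≤ s) {v : ℝ → ℂ → ℂ}
    (hE : IsEuler M s 1 v) : ∃ L, Reg M v L := by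
  obtain ⟨C, hC, hsob⟩ := sobolev hM
  have hQ : ∀ (u : ℂ → ℂ) (E : ℝ), 0 < E → ContinuousOn u M → hsNorm M 3 u < ENNReal.ofReal E →
      QQ M u (C * E) := fun u E hE0 hc hn => by
    obtain ⟨b1, b2, b3, b4, b5⟩ := hsob u E hE0 hc hn
    exact ⟨b5, b4, b1, b2, b3⟩
  -- small differences
  have hsmall : ∀ t ∈ Icc (0 : ℝ) 1, ∀ E : ℝ, 0 < E → ∀ᶠ τ in 𝓝[Icc (0 : ℝ) 1] t,
      QQ M (fun z => v τ z - v t z) (C * E) := by
    intro t ht E hE0
    have h1 := (hE.hs_cont t ht).eventually (gt_mem_nhds (ENNReal.ofReal_pos.mpr hE0))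
    filter_upwards [h1, self_mem_nhdsWithin] with τ hτ hτ'
    exact hQ _ E hE0 ((hE.cont τ hτ').sub (hE.cont t ht)) ((hsNorm_mono M _ hs).trans_lt hτ)
  have hone : ∀ t ∈ Icc (0 : ℝ) 1, ∃ L, QQ M (v t) L := by
    intro t ht
    have h1 : hsNorm M 3 (v t) < ⊤ := (hsNorm_mono M _ hs).trans_lt (hE.hs t ht)
    refine ⟨C * ((hsNorm M 3 (v t)).toReal + 1), hQ _ _ (by positivity) (hE.cont t ht) ?_⟩
    rw [ENNReal.lt_ofReal_iff_toReal_lt h1.ne]
    linarith
  have hcomp : ∃ L, ∀ t ∈ Icc (0 : ℝ) 1, QQ M (v t) L := by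
    refine isCompact_Icc.induction_on (p := fun S => ∃ L, ∀ t ∈ S, QQ M (v t) L) ?_ ?_ ?_ ?_
    · exact ⟨0, fun t ht => absurd ht (Set.notMem_empty t)⟩
    · rintro S S' hSS ⟨L, hL⟩
      exact ⟨L, fun t ht => hL t (hSS ht)⟩
    · rintro S S' ⟨L, hL⟩ ⟨L', hL'⟩
      refine ⟨max L L', fun t ht => ?_⟩
      rcases ht with ht | ht
      · exact (hL t ht).mono (le_max_left _ _)
      · exact (hL' t ht).mono (le_max_right _ _)
    · intro t ht
      obtain ⟨L, hL⟩ := hone t ht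
      refine ⟨{τ | QQ M (fun z => v τ z - v t z) (C * 1)}, hsmall t ht 1 one_pos, L + C * 1,
        fun τ hτ => hL.add hτ⟩
  obtain ⟨L, hL⟩ := hcomp
  have hM' : ∀ t ∈ Icc (0 : ℝ) 1, QQ M (v t) (max L 0) := fun t ht => (hL t ht).mono (le_max_left _ _)
  refine ⟨max L 0, ⟨le_max_right _ _, fun t ht => (hM' t ht).1, fun t ht => (hM' t ht).2.1,
    fun t ht => (hM' t ht).2.2.1, fun t ht => (hM' t ht).2.2.2.1,
    fun t ht => (hM' t ht).2.2.2.2, fun t ht e he => ?_⟩⟩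
  filter_upwards [hsmall t ht (e / C) (by positivity)] with τ hτ x hx y hy
  have h1 := hτ.1 x hx y hy
  rwa [mul_div_cancel₀ e hC.ne'] at h1

end Pool.Agent.EAC.PA
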