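import Pool.Agent.EAC.PA.ATan
import Pool.Agent.EAC.G5

/-!
# EAC-A-SCHB: local Schauder estimate at the boundary

`lemmaS_half` with `R = 8 a`, `β = 1/2`, `c = 0`, `g ζ = conj (v (ψ ζ)) * ψ' ζ`,
`D ζ = fderiv ℝ g ζ`, `q ζ = -(I/2) * curl v (ψ ζ) * ‖ψ' ζ‖²`:
- `∂̄ (conj v) = (1/2) dvg v - (I/2) curl v`, `∂̄ (f ∘ ψ) = (∂̄ f)(ψ) conj ψ'`, `∂̄ (h ψ') = (∂̄ h) ψ'`.
- `Im g = 0` on the real axis: `v (ψ t) = λ ψ' t`, `λ` real (`tangent`), so `g = λ ‖ψ'‖²`.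
- `‖g‖ ≤ C A`, `‖q‖ ≤ C² Ω`; `q` is 1/2-Hölder with constant `≤ K Ω` (`ψ`, `ψ'` are `C`-Lipschitz on the convex ball, `‖ψ'‖ ≤ C`,
  `‖ζ - ξ‖ ≤ (32 a)^(1/2) ‖ζ - ξ‖^(1/2)`).
Conclusion: `g` is `K (A + Ω)`-Lipschitz on the half disc `‖ζ‖ ≤ a`, hence `v ∘ ψ = conj (g / ψ')` is
`K (A + Ω)`-Lipschitz there, and `v` on `M ∩ ball x r` by `cover`, `bilip`.
-/

set_option autoImplicit false

noncomputable section

namespace Pool.Agent.EAC.PA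

open MeasureTheory Set Filter Topology Metric
open scoped ENNReal ComplexConjugate

private theorem lin_apply' (A : ℂ →L[ℝ] ℂ) (z : ℂ) :
    A z = (z.re : ℂ) * A 1 + (z.im : ℂ) * A Complex.I := by
  have h : z = z.re • (1 : ℂ) + z.im • Complex.I := by
    apply Complex.ext <;> simp
  conv_lhs => rw [h]
  rw [map_add, map_smul, map_smul]
  simp

private theorem dbar_g {v ψ : ℂ → ℂ} {ζ : ℂ} (hψ : DifferentiableAt ℂ ψ ζ)
    (hψ' : DifferentiableAt ℂ (deriv ψ) ζ) (hv : DifferentiableAt ℝ v (ψ ζ))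
    (hdiv : dvg v (ψ ζ) = 0) :
    HasFDerivAt (fun z => conj (v (ψ z)) * deriv ψ z)
      (fderiv ℝ (fun z => conj (v (ψ z)) * deriv ψ z) ζ) ζ ∧
    dbar (fderiv ℝ (fun z => conj (v (ψ z)) * deriv ψ z) ζ) =
      -(Complex.I / 2) * ((curl v (ψ ζ) : ℝ) : ℂ) * ((‖deriv ψ ζ‖ ^ 2 : ℝ) : ℂ) := by
  have h1 := hψ.hasFDerivAt.restrictScalars ℝ
  have h2 := hv.hasFDerivAt.comp ζ h1
  have h3 := (Complex.conjCLE : ℂ →L[ℝ] ℂ).hasFDerivAt.comp ζ h2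
  have h4 := hψ'.hasFDerivAt.restrictScalars ℝ
  have h5 := h3.mul h4
  have h6 : HasFDerivAt (fun z => conj (v (ψ z)) * deriv ψ z) _ ζ := h5
  refine ⟨h6.differentiableAt.hasFDerivAt, ?_⟩
  rw [h6.fderiv]
  unfold dbar
  have e1 : (dx v (ψ ζ)) = fderiv ℝ v (ψ ζ) 1 := rfl
  have e2 : (dy v (ψ ζ)) = fderiv ℝ v (ψ ζ) Complex.I := rfl
  have hd : (fderiv ℝ v (ψ ζ) 1).re + (fderiv ℝ v (ψ ζ) Complex.I).im = 0 := hdiv
  have hn : ((‖deriv ψ ζ‖ ^ 2 : ℝ) : ℂ) = deriv ψ ζ * conj (deriv ψ ζ) := by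
    rw [Complex.mul_conj, Complex.normSq_eq_norm_sq]
  rw [hn]
  unfold curl
  rw [e1, e2]
  simp only [add_apply, smul_apply, ContinuousLinearMap.comp_apply,
    ContinuousLinearMap.coe_restrictScalars', fderiv_eq_smul_deriv, smul_eq_mul, one_mul,
    Function.comp_apply, ContinuousLinearEquiv.coe_coe, Complex.conjCLE_apply]
  rw [lin_apply' _ (deriv ψ ζ), lin_apply' _ (Complex.I * deriv ψ ζ)]
  set p := fderiv ℝ v (ψ ζ) 1
  set q := fderiv ℝ v (ψ ζ) Complex.I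
  set d := deriv ψ ζ
  set d' := deriv (deriv ψ) ζ
  set V := v (ψ ζ)
  have hp : p.re = -q.im := by linarith
  apply Complex.ext
  · simp
    rw [hp]
    ring
  · simp
    rw [hp]
    ring

private theorem quot_est {g₁ g₂ d₁ d₂ : ℂ} {C A' e : ℝ} (hC : 1 ≤ C) (h1 : 1 ≤ C * ‖d₁‖)
    (h2 : 1 ≤ C * ‖d₂‖) (hg : ‖g₂‖ ≤ A') (hd : ‖d₁ - d₂‖ ≤ C * e) :
    ‖g₁ / d₁ - g₂ / d₂‖ ≤ C * ‖g₁ - g₂‖ + A' * C ^ 3 * e := by
  have hC0 : 0 < C := by linarith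
  have hd1 : 0 < ‖d₁‖ := by
    by_contra h
    have : ‖d₁‖ = 0 := le_antisymm (not_lt.1 h) (norm_nonneg _)
    rw [this] at h1; linarith
  have hd2 : 0 < ‖d₂‖ := by
    by_contra h
    have : ‖d₂‖ = 0 := le_antisymm (not_lt.1 h) (norm_nonneg _)
    rw [this] at h2; linarith
  have hi1 : ‖d₁‖⁻¹ ≤ C := by
    rw [inv_le_iff_one_le_mul₀ hd1]; linarith
  have hi2 : ‖d₂‖⁻¹ ≤ C := by
    rw [inv_le_iff_one_le_mul₀ hd2]; linarith
  have hn1 : d₁ ≠ 0 := norm_pos_iff.1 hd1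
  have hn2 : d₂ ≠ 0 := norm_pos_iff.1 hd2
  have e1 : g₁ / d₁ - g₂ / d₂ = (g₁ - g₂) * d₁⁻¹ + g₂ * (d₁⁻¹ * (d₂ - d₁) * d₂⁻¹) := by
    field_simp
    ring
  have hA' : 0 ≤ A' := (norm_nonneg _).trans hg
  rw [e1]
  refine (norm_add_le _ _).trans (add_le_add ?_ ?_)
  · rw [norm_mul, norm_inv, mul_comm]
    gcongr
  · rw [norm_mul, norm_mul, norm_mul, norm_inv, norm_inv, norm_sub_rev d₂ d₁]
    have he : 0 ≤ C * e := (norm_nonneg _).trans hd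
    calc ‖g₂‖ * (‖d₁‖⁻¹ * ‖d₁ - d₂‖ * ‖d₂‖⁻¹) ≤ A' * (C * (C * e) * C) := by gcongr
      _ = A' * C ^ 3 * e := by ring

theorem schauder_bdry {M : Set ℂ} (hM : IsCompact M) {x : ℂ} {ψ φ : ℂ → ℂ} {a C r R : ℝ}
    (hP : BPatch M x ψ φ a C r R) :
    ∃ K > 0, ∀ (v : ℂ → ℂ) (L A Ω : ℝ), 0 ≤ A → 0 ≤ Ω →
      (∀ y ∈ M, ∀ z ∈ M, ‖v y - v z‖ ≤ L * ‖y - z‖) → DivFree M v →
      (∀ z ∈ interior M, DifferentiableAt ℝ v z) → (∀ z ∈ interior M, dvg v z = 0) →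
      (∀ z ∈ M, ‖v z‖ ≤ A) → (∀ z ∈ interior M, |curl v z| ≤ Ω) →
      (∀ z ∈ interior M, ∀ w ∈ interior M, |curl v z - curl v w| ≤ Ω * ‖z - w‖ ^ (1 / 2 : ℝ)) →
      ∀ y ∈ M, ∀ z ∈ M, ‖y - x‖ < r → ‖z - x‖ < r → ‖v y - v z‖ ≤ K * (A + Ω) * ‖y - z‖ := by
  have ha : 0 < a := hP.ha
  have hC1 : 1 ≤ C := hP.hC
  have hC0 : 0 < C := by linarith
  obtain ⟨C₀, hC₀, hS⟩ := lemmaS_half (R := 8 * a) (β := 1 / 2) (by positivity) (by norm_num)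
    (by norm_num)
  set B₀ : Set ℂ := ball 0 (16 * a) with hB₀
  have hψd : ∀ ζ ∈ B₀, DifferentiableAt ℂ ψ ζ := fun ζ hζ =>
    (hP.holo ζ hζ).differentiableAt (isOpen_ball.mem_nhds hζ)
  have hψ'd : ∀ ζ ∈ B₀, DifferentiableAt ℂ (deriv ψ) ζ := fun ζ hζ =>
    ((hP.holo.deriv isOpen_ball) ζ hζ).differentiableAt (isOpen_ball.mem_nhds hζ)
  have hψ'lip : ∀ ζ ∈ B₀, ∀ ξ ∈ B₀, ‖deriv ψ ζ - deriv ψ ξ‖ ≤ C * ‖ζ - ξ‖ := fun ζ hζ ξ hξ =>
    (convex_ball (0 : ℂ) (16 * a)).norm_image_sub_le_of_norm_deriv_le hψ'd hP.upp2 hξ hζ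
  have hsub : closedBall (0 : ℂ) (8 * a) ⊆ B₀ := closedBall_subset_ball (by linarith)
  have hsub' : ball (0 : ℂ) (8 * a) ⊆ B₀ := ball_subset_ball (by linarith)
  set K₀ : ℝ := C ^ 3 + 2 * C ^ 2 * (16 * a) ^ (1 / 2 : ℝ) with hK₀
  have hK₀0 : 0 ≤ K₀ := by positivity
  set C₁ : ℝ := C₀ * (C + C ^ 2 + K₀) with hC₁
  have hC₁0 : 0 ≤ C₁ := by positivity
  refine ⟨(C * C₁ + C * C ^ 3) * C, by positivity, ?_⟩
  intro v L A Ω hA hΩ hlip hdiv hdiff hdvg hbd hcurl hcurlH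
  have hLmax : ∀ y ∈ M, ∀ z ∈ M, ‖v y - v z‖ ≤ max L 0 * ‖y - z‖ := fun y hy z hz =>
    (hlip y hy z hz).trans (mul_le_mul_of_nonneg_right (le_max_left _ _) (norm_nonneg _))
  have hvc : ContinuousOn v M := by
    apply LipschitzOnWith.continuousOn (K := (max L 0).toNNReal)
    apply LipschitzOnWith.of_dist_le_mul
    intro z hz w hw
    rw [dist_eq_norm, dist_eq_norm, Real.coe_toNNReal _ (le_max_right _ _)]
    exact hLmax z hz w hw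
  set g : ℂ → ℂ := fun z => conj (v (ψ z)) * deriv ψ z with hg
  set q : ℂ → ℂ := fun z => -(Complex.I / 2) * ((curl v (ψ z) : ℝ) : ℂ) *
    ((‖deriv ψ z‖ ^ 2 : ℝ) : ℂ) with hq
  have hqn : ∀ s t : ℝ, ‖-(Complex.I / 2) * (s : ℂ) * (t : ℂ)‖ = 1 / 2 * |s| * |t| := by
    intro s t
    rw [norm_mul, norm_mul, norm_neg, norm_div, Complex.norm_I, Complex.norm_real,
      Complex.norm_real, Real.norm_eq_abs, Real.norm_eq_abs]
    norm_num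
  have hgbd : ∀ z ∈ B₀, 0 ≤ z.im → ‖g z‖ ≤ A * C := by
    intro z hz hz0
    rw [hg]
    simp only [norm_mul, Complex.norm_conj]
    exact mul_le_mul (hbd _ (hP.inM z hz hz0)) (hP.upp z hz) (norm_nonneg _) hA
  have hqbd : ∀ z ∈ B₀, 0 < z.im → ‖q z‖ ≤ C ^ 2 * Ω := by
    intro z hz hz0
    rw [hq]
    simp only []
    rw [hqn, abs_of_nonneg (by positivity : (0 : ℝ) ≤ ‖deriv ψ z‖ ^ 2)]
    have h1 := hcurl _ (hP.inside z hz hz0)
    have h2 := hP.upp z hz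
    calc 1 / 2 * |curl v (ψ z)| * ‖deriv ψ z‖ ^ 2 ≤ 1 / 2 * Ω * C ^ 2 := by gcongr
      _ ≤ C ^ 2 * Ω := by
        have : 0 ≤ C ^ 2 * Ω := by positivity
        linarith
  have hdata : HalfData (8 * a) 0 g (fun ζ => fderiv ℝ g ζ) q (A * C) (C ^ 2 * Ω) := by
    refine ⟨⟨max L 0 * C * C + A * C, ?_⟩, ?_, ?_, ?_, ?_, ?_⟩
    · intro z hz hz0 w hw hw0
      have hz' := hsub hz
      have hw' := hsub hw
      have hz0' : 0 ≤ z.im := by simpa using hz0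
      have hw0' : 0 ≤ w.im := by simpa using hw0
      have hzM := hP.inM z hz' hz0'
      have hwM := hP.inM w hw' hw0'
      have e : g z - g w = conj (v (ψ z) - v (ψ w)) * deriv ψ z +
          conj (v (ψ w)) * (deriv ψ z - deriv ψ w) := by
        rw [hg]; simp only [map_sub]; ring
      rw [e]
      have hψzw := (hP.bilip z hz' w hw').2
      have h1 : ‖v (ψ z) - v (ψ w)‖ ≤ max L 0 * (C * ‖z - w‖) :=
        (hLmax _ hzM _ hwM).trans (mul_le_mul_of_nonneg_left hψzw (le_max_right _ _))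
      calc ‖conj (v (ψ z) - v (ψ w)) * deriv ψ z + conj (v (ψ w)) * (deriv ψ z - deriv ψ w)‖
          ≤ ‖conj (v (ψ z) - v (ψ w)) * deriv ψ z‖ + ‖conj (v (ψ w)) * (deriv ψ z - deriv ψ w)‖ :=
            norm_add_le _ _
        _ = ‖v (ψ z) - v (ψ w)‖ * ‖deriv ψ z‖ + ‖v (ψ w)‖ * ‖deriv ψ z - deriv ψ w‖ := by
            rw [norm_mul, norm_mul, Complex.norm_conj, Complex.norm_conj]
        _ ≤ (max L 0 * (C * ‖z - w‖)) * C + A * (C * ‖z - w‖) := by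
            refine add_le_add (mul_le_mul h1 (hP.upp z hz') (norm_nonneg _)
              (by have := le_max_right L 0; positivity)) ?_
            exact mul_le_mul (hbd _ hwM) (hψ'lip z hz' w hw') (norm_nonneg _) hA
        _ = (max L 0 * C * C + A * C) * ‖z - w‖ := by ring
    · intro z hz hz0
      have hz' := hsub' hz
      have hz0' : 0 < z.im := by simpa using hz0
      have hzI := hP.inside z hz' hz0'
      exact (dbar_g (hψd z hz') (hψ'd z hz') (hdiff _ hzI) (hdvg _ hzI)).1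
    · intro z hz hz0
      have hz' := hsub' hz
      have hz0' : 0 < z.im := by simpa using hz0
      have hzI := hP.inside z hz' hz0'
      exact (dbar_g (hψd z hz') (hψ'd z hz') (hdiff _ hzI) (hdvg _ hzI)).2
    · intro z hz hz0
      have hz0' : z.im = 0 := by simpa using hz0
      have hzt : z = ((z.re : ℝ) : ℂ) := by apply Complex.ext <;> simp [hz0']
      have hz' := hsub hz
      have ht : |z.re| < 16 * a := by
        rw [hB₀, mem_ball_zero_iff] at hz'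
        exact (Complex.abs_re_le_norm z).trans_lt hz'
      have htan := tangent hM hP hvc hdiv z.re ht
      rw [← hzt] at htan
      have hd0 : deriv ψ z ≠ 0 := by
        intro h0
        have := hP.low z hz'
        rw [h0, norm_zero, mul_zero] at this
        linarith
      have e : g z = conj (v (ψ z) / deriv ψ z) * ((‖deriv ψ z‖ ^ 2 : ℝ) : ℂ) := by
        rw [← Complex.normSq_eq_norm_sq, ← Complex.mul_conj, hg]
        simp only [map_div₀]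
        have hd0' : conj (deriv ψ z) ≠ 0 := by simpa using hd0
        field_simp
      rw [e, Complex.mul_im, Complex.ofReal_re, Complex.ofReal_im, Complex.conj_im, htan]
      simp
    · intro z hz hz0
      exact hgbd z (hsub hz) (by simpa using hz0)
    · intro z hz hz0
      exact hqbd z (hsub' hz) (by simpa using hz0)
  have hqH : ∀ z ∈ ball (0 : ℂ) (8 * a), (0 : ℂ).im < z.im → ∀ w ∈ ball (0 : ℂ) (8 * a),
      (0 : ℂ).im < w.im → ‖q z - q w‖ ≤ (K₀ * Ω) * ‖z - w‖ ^ (1 / 2 : ℝ) := by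
    intro z hz hz0 w hw hw0
    have hz' := hsub' hz
    have hw' := hsub' hw
    have hzI := hP.inside z hz' (by simpa using hz0)
    have hwI := hP.inside w hw' (by simpa using hw0)
    have e : q z - q w = -(Complex.I / 2) * ((curl v (ψ z) - curl v (ψ w) : ℝ) : ℂ) *
        ((‖deriv ψ z‖ ^ 2 : ℝ) : ℂ) + -(Complex.I / 2) * ((curl v (ψ w) : ℝ) : ℂ) *
        ((‖deriv ψ z‖ ^ 2 - ‖deriv ψ w‖ ^ 2 : ℝ) : ℂ) := by
      rw [hq]; push_cast; ring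
    rw [e]
    refine (norm_add_le _ _).trans ?_
    rw [hqn, hqn]
    have hn0 : 0 ≤ ‖z - w‖ := norm_nonneg _
    set s : ℝ := ‖z - w‖ ^ (1 / 2 : ℝ) with hs
    have hs0 : 0 ≤ s := by positivity
    have hss : ‖z - w‖ = s * s := by
      rw [hs, ← Real.rpow_add_of_nonneg hn0 (by norm_num) (by norm_num)]
      norm_num
    have hsle : s ≤ (16 * a) ^ (1 / 2 : ℝ) := by
      rw [hs]
      apply Real.rpow_le_rpow hn0 _ (by norm_num)
      rw [mem_ball_zero_iff] at hz hw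
      have := norm_sub_le z w
      linarith
    have h1 : |curl v (ψ z) - curl v (ψ w)| ≤ Ω * (C * s) := by
      refine (hcurlH _ hzI _ hwI).trans ?_
      have h2 : ‖ψ z - ψ w‖ ^ (1 / 2 : ℝ) ≤ (C * ‖z - w‖) ^ (1 / 2 : ℝ) := by
        apply Real.rpow_le_rpow (norm_nonneg _) (hP.bilip z hz' w hw').2 (by norm_num)
      have h3 : (C * ‖z - w‖) ^ (1 / 2 : ℝ) ≤ C * s := by
        rw [Real.mul_rpow hC0.le hn0]
        gcongr
        calc C ^ (1 / 2 : ℝ) ≤ C ^ (1 : ℝ) := Real.rpow_le_rpow_of_exponent_le hC1 (by norm_num)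
          _ = C := Real.rpow_one C
      exact mul_le_mul_of_nonneg_left (h2.trans h3) hΩ
    have h4 : |‖deriv ψ z‖ ^ 2 - ‖deriv ψ w‖ ^ 2| ≤ 2 * C * (C * (s * s)) := by
      have e2 : ‖deriv ψ z‖ ^ 2 - ‖deriv ψ w‖ ^ 2 =
          (‖deriv ψ z‖ + ‖deriv ψ w‖) * (‖deriv ψ z‖ - ‖deriv ψ w‖) := by ring
      rw [e2, abs_mul, abs_of_nonneg (by positivity : (0 : ℝ) ≤ ‖deriv ψ z‖ + ‖deriv ψ w‖)]
      have h5 := hP.upp z hz'
      have h6 := hP.upp w hw'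
      have h7 : |‖deriv ψ z‖ - ‖deriv ψ w‖| ≤ C * (s * s) := by
        rw [← hss]
        exact (abs_norm_sub_norm_le _ _).trans (hψ'lip z hz' w hw')
      exact mul_le_mul (by linarith) h7 (abs_nonneg _) (by positivity)
    have h8 := hcurl _ hwI
    have h9 := hP.upp z hz'
    rw [abs_of_nonneg (by positivity : (0 : ℝ) ≤ ‖deriv ψ z‖ ^ 2)]
    have h10 : ‖deriv ψ z‖ ^ 2 ≤ C ^ 2 := by gcongr
    calc 1 / 2 * |curl v (ψ z) - curl v (ψ w)| * ‖deriv ψ z‖ ^ 2 +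
          1 / 2 * |curl v (ψ w)| * |‖deriv ψ z‖ ^ 2 - ‖deriv ψ w‖ ^ 2|
        ≤ 1 / 2 * (Ω * (C * s)) * C ^ 2 + 1 / 2 * Ω * (2 * C * (C * (s * s))) := by gcongr
      _ = (1 / 2 * C ^ 3 + C ^ 2 * s) * Ω * s := by ring
      _ ≤ (K₀ * Ω) * s := by
          rw [hK₀]
          have h11 : C ^ 2 * s ≤ C ^ 2 * (16 * a) ^ (1 / 2 : ℝ) := by gcongr
          have h12 : 0 ≤ C ^ 2 * (16 * a) ^ (1 / 2 : ℝ) := by positivity
          have h13 : 0 ≤ C ^ 3 := by positivity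
          refine mul_le_mul_of_nonneg_right (mul_le_mul_of_nonneg_right ?_ hΩ) hs0
          linarith
  have hmain := hS 0 g (fun ζ => fderiv ℝ g ζ) q (A * C) (C ^ 2 * Ω) (K₀ * Ω) (by positivity)
    (by positivity) (by positivity) hdata hqH
  intro y hy z hz hyr hzr
  obtain ⟨ζ₁, hζ₁, hζ₁0, rfl⟩ := hP.cover y hy hyr
  obtain ⟨ζ₂, hζ₂, hζ₂0, rfl⟩ := hP.cover z hz hzr
  have hb1 : ζ₁ ∈ B₀ := by rw [hB₀, mem_ball_zero_iff]; linarith
  have hb2 : ζ₂ ∈ B₀ := by rw [hB₀, mem_ball_zero_iff]; linarith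
  have hc1 : ζ₁ ∈ closedBall (0 : ℂ) (8 * a / 8) := by
    rw [mem_closedBall_zero_iff]; linarith
  have hc2 : ζ₂ ∈ closedBall (0 : ℂ) (8 * a / 8) := by
    rw [mem_closedBall_zero_iff]; linarith
  have hgg : ‖g ζ₁ - g ζ₂‖ ≤ C₁ * (A + Ω) * ‖ζ₁ - ζ₂‖ := by
    refine (hmain ζ₁ hc1 (by simpa using hζ₁0) ζ₂ hc2 (by simpa using hζ₂0)).trans ?_
    refine mul_le_mul_of_nonneg_right ?_ (norm_nonneg _)
    rw [hC₁, mul_assoc]
    refine mul_le_mul_of_nonneg_left ?_ hC₀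
    have h1 : 0 ≤ C * Ω := by positivity
    have h2 : 0 ≤ C ^ 2 * A := by positivity
    have h3 : 0 ≤ K₀ * A := by positivity
    nlinarith
  have hd1 : deriv ψ ζ₁ ≠ 0 := by
    intro h0
    have := hP.low ζ₁ hb1
    rw [h0, norm_zero, mul_zero] at this
    linarith
  have hd2 : deriv ψ ζ₂ ≠ 0 := by
    intro h0
    have := hP.low ζ₂ hb2
    rw [h0, norm_zero, mul_zero] at this
    linarith
  have e1 : v (ψ ζ₁) - v (ψ ζ₂) = conj (g ζ₁ / deriv ψ ζ₁ - g ζ₂ / deriv ψ ζ₂) := by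
    rw [hg]
    simp only []
    rw [mul_div_cancel_right₀ _ hd1, mul_div_cancel_right₀ _ hd2, map_sub, Complex.conj_conj,
      Complex.conj_conj]
  rw [e1, Complex.norm_conj]
  have hq1 := quot_est (g₁ := g ζ₁) (g₂ := g ζ₂) hC1 (hP.low ζ₁ hb1) (hP.low ζ₂ hb2)
    (hgbd ζ₂ hb2 hζ₂0) (hψ'lip ζ₁ hb1 ζ₂ hb2)
  refine hq1.trans ?_
  have hbl := (hP.bilip ζ₁ hb1 ζ₂ hb2).1
  calc C * ‖g ζ₁ - g ζ₂‖ + A * C * C ^ 3 * ‖ζ₁ - ζ₂‖
      ≤ C * (C₁ * (A + Ω) * ‖ζ₁ - ζ₂‖) + (A + Ω) * C * C ^ 3 * ‖ζ₁ - ζ₂‖ := by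
        gcongr
        linarith
    _ = (C * C₁ + C * C ^ 3) * (A + Ω) * ‖ζ₁ - ζ₂‖ := by ring
    _ ≤ (C * C₁ + C * C ^ 3) * (A + Ω) * (C * ‖ψ ζ₁ - ψ ζ₂‖) := by gcongr
    _ = (C * C₁ + C * C ^ 3) * C * (A + Ω) * ‖ψ ζ₁ - ψ ζ₂‖ := by ring

end Pool.Agent.EAC.PA
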