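import Pool.Agent.EAC.PA.ADefs

/-!
# EAC-A-SLI: Sobolev inequality on the rectangle `rect a e` by one dimensional slices

`rect a e = [-a,a] × [e,2a]`, `0 < e < a`, sides `2a` and `ℓ = 2a - e ∈ (a, 2a)`. `U` is `C²` near the rectangle.
Horizontal difference: for `x' < x`, `y, y' ∈ [e, 2a]`:
`U(x,y) - U(x',y) = U(x,y') - U(x',y') + ∫_{y'}^{y} ∫_{x'}^{x} U_xy` (FTC twice: `d/dy (U(x,y) - U(x',y)) = ∫_{x'}^{x} ∂_y U_x`),
so `|U(x,y) - U(x',y)| ≤ ∫_{x'}^{x} |U_x(s,y')| ds + ∫∫_{[x',x]×[e,2a]} |U_xy|`; average over `y' ∈ [e,2a]`: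
`≤ (1/ℓ + 1) ∫∫_{[x',x]×[e,2a]} H ≤ (1/ℓ + 1) √(ℓ (x - x')) (∫_rect H²)^{1/2}` (Cauchy-Schwarz).
Vertical difference: the same with `U_y` and `U_yx = U_xy` (symmetry of the second derivative of a `C²` function, or write
`U(x,y) - U(x,y') - U(x',y) + U(x',y') = ∫_{y'}^{y} ∫_{x'}^{x} U_xy` as above and average over `x'`).
Sup bound: `|U(P)| ≤ |U(P')| + C E`; choose `P'` with `|U(P')|² ≤` average of `H²` over the rectangle (`exists_le_setAverage`).
Fubini on `ℂ`: `Complex.measurableEquivRealProd`, `Complex.volume_preserving_equiv_real_prod`.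
If it is more convenient prove it for `U : ℝ × ℝ → ℂ` first.
-/

set_option autoImplicit false

noncomputable section

namespace Pool.Agent.EAC.PA

open MeasureTheory Set Filter Topology Metric
open scoped ENNReal ComplexConjugate

namespace Slice

/-- the point `x + i y` -/
def P (x y : ℝ) : ℂ := (x : ℂ) + (y : ℂ) * Complex.I

theorem P_re (x y : ℝ) : (P x y).re = x := by simp [P]

theorem P_im (x y : ℝ) : (P x y).im = y := by simp [P]

theorem P_eta (z : ℂ) : P z.re z.im = z := Complex.re_add_im z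

theorem hP1 (x y : ℝ) : HasDerivAt (fun s : ℝ => P s y) 1 x := by
  have h := ((hasDerivAt_id x).ofReal_comp).add_const ((y : ℂ) * Complex.I)
  simpa [P] using h

theorem hP2 (x y : ℝ) : HasDerivAt (fun t : ℝ => P x t) Complex.I y := by
  have h := (((hasDerivAt_id y).ofReal_comp).mul_const Complex.I).const_add (x : ℂ)
  simpa [P] using h

theorem P_cont : Continuous fun p : ℝ × ℝ => P p.1 p.2 := by
  unfold P
  fun_prop

theorem P_mem {a e x y : ℝ} (hx : x ∈ Icc (-a) a) (hy : y ∈ Icc e (2 * a)) : P x y ∈ rect a e := by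
  refine ⟨?_, ?_, ?_, ?_⟩
  · rw [P_re]; exact hx.1
  · rw [P_re]; exact hx.2
  · rw [P_im]; exact hy.1
  · rw [P_im]; exact hy.2

theorem mem_P {a e : ℝ} {z : ℂ} (hz : z ∈ rect a e) :
    z.re ∈ Icc (-a) a ∧ z.im ∈ Icc e (2 * a) := ⟨⟨hz.1, hz.2.1⟩, ⟨hz.2.2.1, hz.2.2.2⟩⟩

section ftc

variable {a e : ℝ} {V : ℂ → ℂ} {O : Set ℂ} {H : ℂ → ℝ}

theorem ftc1 (hO : IsOpen O) (hR : rect a e ⊆ O) (hV : DifferentiableOn ℝ V O)
    (hc : ContinuousOn (dx V) O) {x1 x2 y : ℝ} (h1 : x1 ∈ Icc (-a) a) (h2 : x2 ∈ Icc (-a) a)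
    (hy : y ∈ Icc e (2 * a)) : V (P x2 y) - V (P x1 y) = ∫ s in x1..x2, dx V (P s y) := by
  have hsub : uIcc x1 x2 ⊆ Icc (-a) a := uIcc_subset_Icc h1 h2
  have hd : ∀ s ∈ uIcc x1 x2, HasDerivAt (fun s : ℝ => V (P s y)) (dx V (P s y)) s := by
    intro s hs
    have hm := hR (P_mem (hsub hs) hy)
    exact ((hV.differentiableAt (hO.mem_nhds hm)).hasFDerivAt).comp_hasDerivAt s (hP1 s y)
  have hi : IntervalIntegrable (fun s : ℝ => dx V (P s y)) volume x1 x2 := by
    apply ContinuousOn.intervalIntegrable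
    refine hc.comp (P_cont.comp (continuous_id.prodMk continuous_const)).continuousOn ?_
    intro s hs
    exact hR (P_mem (hsub hs) hy)
  exact (intervalIntegral.integral_eq_sub_of_hasDerivAt hd hi).symm

theorem ftc2 (hO : IsOpen O) (hR : rect a e ⊆ O) (hV : DifferentiableOn ℝ V O)
    (hc : ContinuousOn (dy V) O) {x y1 y2 : ℝ} (hx : x ∈ Icc (-a) a) (h1 : y1 ∈ Icc e (2 * a))
    (h2 : y2 ∈ Icc e (2 * a)) : V (P x y2) - V (P x y1) = ∫ t in y1..y2, dy V (P x t) := by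
  have hsub : uIcc y1 y2 ⊆ Icc e (2 * a) := uIcc_subset_Icc h1 h2
  have hd : ∀ t ∈ uIcc y1 y2, HasDerivAt (fun t : ℝ => V (P x t)) (dy V (P x t)) t := by
    intro t ht
    have hm := hR (P_mem hx (hsub ht))
    exact ((hV.differentiableAt (hO.mem_nhds hm)).hasFDerivAt).comp_hasDerivAt t (hP2 x t)
  have hi : IntervalIntegrable (fun t : ℝ => dy V (P x t)) volume y1 y2 := by
    apply ContinuousOn.intervalIntegrable
    refine hc.comp (P_cont.comp (continuous_const.prodMk continuous_id)).continuousOn ?_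
    intro t ht
    exact hR (P_mem hx (hsub ht))
  exact (intervalIntegral.integral_eq_sub_of_hasDerivAt hd hi).symm

/-- the integrand on the product -/
theorem intG (hH : ContinuousOn H (rect a e)) {p q r s : ℝ} (h1 : Icc p q ⊆ Icc (-a) a)
    (h2 : Icc r s ⊆ Icc e (2 * a)) :
    Integrable (fun z : ℝ × ℝ => H (P z.1 z.2))
      ((volume.restrict (Icc p q)).prod (volume.restrict (Icc r s))) := by
  rw [Measure.prod_restrict, ← Measure.volume_eq_prod]
  refine ContinuousOn.integrableOn_compact (isCompact_Icc.prod isCompact_Icc) ?_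
  refine hH.comp P_cont.continuousOn ?_
  rintro ⟨x, y⟩ ⟨hx, hy⟩
  exact P_mem (h1 hx) (h2 hy)

theorem intG2 (hH : ContinuousOn H (rect a e)) {p q r s : ℝ} (h1 : Icc p q ⊆ Icc (-a) a)
    (h2 : Icc r s ⊆ Icc e (2 * a)) :
    Integrable (fun z : ℝ × ℝ => H (P z.1 z.2) ^ 2)
      ((volume.restrict (Icc p q)).prod (volume.restrict (Icc r s))) :=
  intG (H := fun z => H z ^ 2) (hH.pow 2) h1 h2

/-- the integral over a rectangle -/
def J (H : ℂ → ℝ) (p q r s : ℝ) : ℝ :=
  ∫ z : ℝ × ℝ, H (P z.1 z.2) ∂((volume.restrict (Icc p q)).prod (volume.restrict (Icc r s)))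

theorem J1 (hH : ContinuousOn H (rect a e)) {p q r s : ℝ} (h1 : Icc p q ⊆ Icc (-a) a)
    (h2 : Icc r s ⊆ Icc e (2 * a)) :
    J H p q r s = ∫ x in Icc p q, ∫ y in Icc r s, H (P x y) :=
  integral_prod _ (intG hH h1 h2)

theorem J2 (hH : ContinuousOn H (rect a e)) {p q r s : ℝ} (h1 : Icc p q ⊆ Icc (-a) a)
    (h2 : Icc r s ⊆ Icc e (2 * a)) :
    J H p q r s = ∫ y in Icc r s, ∫ x in Icc p q, H (P x y) :=
  integral_prod_symm _ (intG hH h1 h2)

theorem volI {p q : ℝ} (h : p ≤ q) : (volume.real (Icc p q)) = q - p := by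
  rw [Real.volume_real_Icc_of_le h]

theorem sliceInt1 (hH : ContinuousOn H (rect a e)) {p q y : ℝ} (h1 : Icc p q ⊆ Icc (-a) a)
    (hy : y ∈ Icc e (2 * a)) : IntegrableOn (fun x => H (P x y)) (Icc p q) := by
  apply ContinuousOn.integrableOn_Icc
  refine hH.comp (P_cont.comp (continuous_id.prodMk continuous_const)).continuousOn ?_
  intro x hx
  exact P_mem (h1 hx) hy

theorem sliceInt2 (hH : ContinuousOn H (rect a e)) {r s x : ℝ} (hx : x ∈ Icc (-a) a)
    (h2 : Icc r s ⊆ Icc e (2 * a)) : IntegrableOn (fun y => H (P x y)) (Icc r s) := by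
  apply ContinuousOn.integrableOn_Icc
  refine hH.comp (P_cont.comp (continuous_const.prodMk continuous_id)).continuousOn ?_
  intro y hy
  exact P_mem hx (h2 hy)

/-- one dimensional bounds -/
theorem one1 (hO : IsOpen O) (hR : rect a e ⊆ O) (hV : DifferentiableOn ℝ V O)
    (hc : ContinuousOn (dx V) O) (hH : ContinuousOn H (rect a e))
    (hb : ∀ z ∈ rect a e, ‖dx V z‖ ≤ H z) {x1 x2 y : ℝ} (h1 : x1 ∈ Icc (-a) a)
    (h2 : x2 ∈ Icc (-a) a) (hy : y ∈ Icc e (2 * a)) {p q : ℝ} (hpq : Icc p q ⊆ Icc (-a) a)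
    (g1 : x1 ∈ Icc p q) (g2 : x2 ∈ Icc p q) :
    ‖V (P x2 y) - V (P x1 y)‖ ≤ ∫ x in Icc p q, H (P x y) := by
  rw [ftc1 hO hR hV hc h1 h2 hy]
  have hsub : Set.uIoc x1 x2 ⊆ Icc p q := uIoc_subset_uIcc.trans (uIcc_subset_Icc g1 g2)
  have hi := sliceInt1 hH hpq hy
  have hcd : ContinuousOn (fun x => dx V (P x y)) (Icc p q) := by
    refine hc.comp (P_cont.comp (continuous_id.prodMk continuous_const)).continuousOn ?_
    intro x hx
    exact hR (P_mem (hpq hx) hy)
  have hid : IntegrableOn (fun x => ‖dx V (P x y)‖) (Icc p q) := hcd.norm.integrableOn_Icc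
  calc ‖∫ s in x1..x2, dx V (P s y)‖ ≤ ∫ s in Set.uIoc x1 x2, ‖dx V (P s y)‖ :=
        intervalIntegral.norm_integral_le_integral_norm_uIoc
    _ ≤ ∫ s in Icc p q, ‖dx V (P s y)‖ :=
        setIntegral_mono_set hid (Eventually.of_forall fun x => norm_nonneg _)
          (Eventually.of_forall hsub)
    _ ≤ ∫ s in Icc p q, H (P s y) :=
        setIntegral_mono_on hid hi measurableSet_Icc fun x hx => hb _ (P_mem (hpq hx) hy)

theorem one2 (hO : IsOpen O) (hR : rect a e ⊆ O) (hV : DifferentiableOn ℝ V O)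
    (hc : ContinuousOn (dy V) O) (hH : ContinuousOn H (rect a e))
    (hb : ∀ z ∈ rect a e, ‖dy V z‖ ≤ H z) {x y1 y2 : ℝ} (hx : x ∈ Icc (-a) a)
    (h1 : y1 ∈ Icc e (2 * a)) (h2 : y2 ∈ Icc e (2 * a)) {r s : ℝ}
    (hrs : Icc r s ⊆ Icc e (2 * a)) (g1 : y1 ∈ Icc r s) (g2 : y2 ∈ Icc r s) :
    ‖V (P x y2) - V (P x y1)‖ ≤ ∫ y in Icc r s, H (P x y) := by
  rw [ftc2 hO hR hV hc hx h1 h2]
  have hsub : Set.uIoc y1 y2 ⊆ Icc r s := uIoc_subset_uIcc.trans (uIcc_subset_Icc g1 g2)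
  have hi := sliceInt2 hH hx hrs
  have hcd : ContinuousOn (fun y => dy V (P x y)) (Icc r s) := by
    refine hc.comp (P_cont.comp (continuous_const.prodMk continuous_id)).continuousOn ?_
    intro y hy
    exact hR (P_mem hx (hrs hy))
  have hid : IntegrableOn (fun y => ‖dy V (P x y)‖) (Icc r s) := hcd.norm.integrableOn_Icc
  calc ‖∫ t in y1..y2, dy V (P x t)‖ ≤ ∫ t in Set.uIoc y1 y2, ‖dy V (P x t)‖ :=
        intervalIntegral.norm_integral_le_integral_norm_uIoc
    _ ≤ ∫ t in Icc r s, ‖dy V (P x t)‖ :=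
        setIntegral_mono_set hid (Eventually.of_forall fun x => norm_nonneg _)
          (Eventually.of_forall hsub)
    _ ≤ ∫ t in Icc r s, H (P x t) :=
        setIntegral_mono_on hid hi measurableSet_Icc fun y hy => hb _ (P_mem hx (hrs hy))

/-- the mixed difference -/
theorem delta (hO : IsOpen O) (hR : rect a e ⊆ O) (hV : DifferentiableOn ℝ V O)
    (hc : ContinuousOn (dx V) O) (hW : DifferentiableOn ℝ (dx V) O)
    (hcc : ContinuousOn (dy (dx V)) O) (hH : ContinuousOn H (rect a e))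
    (hb : ∀ z ∈ rect a e, ‖dy (dx V) z‖ ≤ H z) {x1 x2 y1 y2 p q r s : ℝ}
    (hpq : Icc p q ⊆ Icc (-a) a) (hrs : Icc r s ⊆ Icc e (2 * a)) (g1 : x1 ∈ Icc p q)
    (g2 : x2 ∈ Icc p q) (k1 : y1 ∈ Icc r s) (k2 : y2 ∈ Icc r s) :
    ‖(V (P x2 y2) - V (P x1 y2)) - (V (P x2 y1) - V (P x1 y1))‖ ≤ J H p q r s := by
  have hcx : ∀ y ∈ Icc r s, ContinuousOn (fun x => dx V (P x y)) (Icc p q) := by
    intro y hy
    refine hc.comp (P_cont.comp (continuous_id.prodMk continuous_const)).continuousOn ?_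
    intro x hx
    exact hR (P_mem (hpq hx) (hrs hy))
  have hii : ∀ y ∈ Icc r s, IntervalIntegrable (fun x => dx V (P x y)) volume x1 x2 := by
    intro y hy
    exact ((hcx y hy).mono (uIcc_subset_Icc g1 g2)).intervalIntegrable
  rw [ftc1 hO hR hV hc (hpq g1) (hpq g2) (hrs k2), ftc1 hO hR hV hc (hpq g1) (hpq g2) (hrs k1),
    ← intervalIntegral.integral_sub (hii y2 k2) (hii y1 k1)]
  have hsub : Set.uIoc x1 x2 ⊆ Icc p q := uIoc_subset_uIcc.trans (uIcc_subset_Icc g1 g2)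
  have hid : IntegrableOn (fun x => ‖dx V (P x y2) - dx V (P x y1)‖) (Icc p q) :=
    (((hcx y2 k2).sub (hcx y1 k1)).norm).integrableOn_Icc
  have hG := intG hH hpq hrs
  have hbd : ∀ x ∈ Icc p q, ‖dx V (P x y2) - dx V (P x y1)‖ ≤ ∫ y in Icc r s, H (P x y) :=
    fun x hx => one2 hO hR hW hcc hH hb (hpq hx) (hrs k1) (hrs k2) hrs k1 k2
  calc ‖∫ x in x1..x2, dx V (P x y2) - dx V (P x y1)‖
      ≤ ∫ x in Set.uIoc x1 x2, ‖dx V (P x y2) - dx V (P x y1)‖ :=
        intervalIntegral.norm_integral_le_integral_norm_uIoc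
    _ ≤ ∫ x in Icc p q, ‖dx V (P x y2) - dx V (P x y1)‖ :=
        setIntegral_mono_set hid (Eventually.of_forall fun x => norm_nonneg _)
          (Eventually.of_forall hsub)
    _ ≤ ∫ x in Icc p q, ∫ y in Icc r s, H (P x y) :=
        setIntegral_mono_on hid hG.integral_prod_left measurableSet_Icc hbd
    _ = J H p q r s := (J1 hH hpq hrs).symm

theorem avg1 (hH : ContinuousOn H (rect a e)) {p q r s D j : ℝ} (hpq : Icc p q ⊆ Icc (-a) a)
    (hrs : Icc r s ⊆ Icc e (2 * a)) (hr : r ≤ s)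
    (h : ∀ y ∈ Icc r s, D ≤ (∫ x in Icc p q, H (P x y)) + j) :
    (s - r) * D ≤ J H p q r s + (s - r) * j := by
  have hG := (intG hH hpq hrs).integral_prod_right
  have hcst : ∀ c : ℝ, IntegrableOn (fun _ : ℝ => c) (Icc r s) := fun c =>
    integrableOn_const (measure_Icc_lt_top).ne
  have h2 := setIntegral_mono_on (hcst D) (hG.add (hcst j)) measurableSet_Icc
    (fun y hy => h y hy)
  rw [setIntegral_const, volI hr, smul_eq_mul] at h2
  have h3 : ∫ y in Icc r s, ((fun y : ℝ => ∫ x in Icc p q, H (P x y)) + (fun _ : ℝ => j)) y =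
      J H p q r s + (s - r) * j := by
    rw [J2 hH hpq hrs]
    rw [integral_add' hG (hcst j), setIntegral_const, volI hr, smul_eq_mul]
  rw [← h3]
  exact h2

theorem avg2 (hH : ContinuousOn H (rect a e)) {p q r s D j : ℝ} (hpq : Icc p q ⊆ Icc (-a) a)
    (hrs : Icc r s ⊆ Icc e (2 * a)) (hp : p ≤ q)
    (h : ∀ x ∈ Icc p q, D ≤ (∫ y in Icc r s, H (P x y)) + j) :
    (q - p) * D ≤ J H p q r s + (q - p) * j := by
  have hG := (intG hH hpq hrs).integral_prod_left
  have hcst : ∀ c : ℝ, IntegrableOn (fun _ : ℝ => c) (Icc p q) := fun c =>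
    integrableOn_const (measure_Icc_lt_top).ne
  have h2 := setIntegral_mono_on (hcst D) (hG.add (hcst j)) measurableSet_Icc
    (fun x hx => h x hx)
  rw [setIntegral_const, volI hp, smul_eq_mul] at h2
  have h3 : ∫ x in Icc p q, ((fun x : ℝ => ∫ y in Icc r s, H (P x y)) + (fun _ : ℝ => j)) x =
      J H p q r s + (q - p) * j := by
    rw [J1 hH hpq hrs]
    rw [integral_add' hG (hcst j), setIntegral_const, volI hp, smul_eq_mul]
  rw [← h3]
  exact h2

theorem J_nonneg (hH0 : ∀ z ∈ rect a e, 0 ≤ H z) (hH : ContinuousOn H (rect a e)) {p q r s : ℝ}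
    (hpq : Icc p q ⊆ Icc (-a) a) (hrs : Icc r s ⊆ Icc e (2 * a)) : 0 ≤ J H p q r s := by
  rw [J1 hH hpq hrs]
  refine setIntegral_nonneg measurableSet_Icc fun x hx => ?_
  exact setIntegral_nonneg measurableSet_Icc fun y hy => hH0 _ (P_mem (hpq hx) (hrs hy))

theorem convert (H : ℂ → ℝ) : ∫ z in rect a e, H z =
    ∫ z : ℝ × ℝ, H (P z.1 z.2)
      ∂((volume.restrict (Icc (-a) a)).prod (volume.restrict (Icc e (2 * a)))) := by
  have h := (Complex.volume_preserving_equiv_real_prod.symm).setIntegral_preimage_emb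
    Complex.measurableEquivRealProd.symm.measurableEmbedding H (rect a e)
  rw [← h, Measure.prod_restrict, ← Measure.volume_eq_prod]
  have hset : Complex.measurableEquivRealProd.symm ⁻¹' (rect a e) =
      Icc (-a) a ×ˢ Icc e (2 * a) := by
    ext ⟨x, y⟩
    constructor
    · rintro ⟨h1, h2, h3, h4⟩
      exact ⟨⟨h1, h2⟩, ⟨h3, h4⟩⟩
    · rintro ⟨⟨h1, h2⟩, ⟨h3, h4⟩⟩
      exact ⟨h1, h2, h3, h4⟩
  rw [hset]
  apply integral_congr_ae
  refine Eventually.of_forall ?_
  rintro ⟨x, y⟩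
  show H (Complex.measurableEquivRealProd.symm (x, y)) = H (P x y)
  congr 1
  apply Complex.ext
  · rw [P_re]; rfl
  · rw [P_im]; rfl

/-- Cauchy-Schwarz -/
theorem cs (hH0 : ∀ z ∈ rect a e, 0 ≤ H z) (hH : ContinuousOn H (rect a e)) {E : ℝ} (hE : 0 ≤ E)
    (hint : ∫ z in rect a e, H z ^ 2 ≤ E ^ 2) {p q r s : ℝ} (hp : p < q) (hr : r < s)
    (hpq : Icc p q ⊆ Icc (-a) a) (hrs : Icc r s ⊆ Icc e (2 * a)) :
    J H p q r s ≤ √((q - p) * (s - r)) * E := by
  have hμ : 0 < (q - p) * (s - r) := mul_pos (by linarith) (by linarith)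
  have hJ := J_nonneg hH0 hH hpq hrs
  set μ := (volume.restrict (Icc p q)).prod (volume.restrict (Icc r s)) with hμd
  have hmass : μ.real univ = (q - p) * (s - r) := by
    rw [hμd, Measure.real, ← Set.univ_prod_univ, Measure.prod_prod, ENNReal.toReal_mul,
      Measure.restrict_apply_univ, Measure.restrict_apply_univ]
    have e1 := volI hp.le
    have e2 := volI hr.le
    rw [Measure.real] at e1 e2
    rw [e1, e2]
  have hfin : IsFiniteMeasure μ := by rw [hμd]; infer_instance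
  have hsq : ∫ z : ℝ × ℝ, H (P z.1 z.2) ^ 2 ∂μ ≤ E ^ 2 := by
    rw [convert (a := a) (e := e) (fun z => H z ^ 2)] at hint
    refine le_trans ?_ hint
    have hbig := intG2 hH (subset_refl (Icc (-a) a)) (subset_refl (Icc e (2 * a)))
    refine integral_mono_measure ?_ (Eventually.of_forall fun z => sq_nonneg _) hbig
    exact Measure.prod_mono (Measure.restrict_mono hpq le_rfl) (Measure.restrict_mono hrs le_rfl)
  have hlam : ∀ l : ℝ, 0 < l → 2 * J H p q r s ≤ l * ((q - p) * (s - r)) + E ^ 2 / l := by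
    intro l hl
    have hG := intG hH hpq hrs
    have hG2 := intG2 hH hpq hrs
    have h1 : ∫ z : ℝ × ℝ, 2 * H (P z.1 z.2) ∂μ ≤
        ∫ z : ℝ × ℝ, (l + H (P z.1 z.2) ^ 2 / l) ∂μ := by
      apply integral_mono (hG.const_mul 2) ((integrable_const l).add (hG2.div_const l))
      intro z
      show 2 * H (P z.1 z.2) ≤ l + H (P z.1 z.2) ^ 2 / l
      rw [← sub_nonneg]
      have : l + H (P z.1 z.2) ^ 2 / l - 2 * H (P z.1 z.2) = (l - H (P z.1 z.2)) ^ 2 / l := by
        field_simp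
        ring
      rw [this]
      positivity
    rw [integral_const_mul, integral_add (integrable_const l) (hG2.div_const l), integral_const,
      hmass, smul_eq_mul, integral_div] at h1
    have h2 : (∫ z : ℝ × ℝ, H (P z.1 z.2) ^ 2 ∂μ) / l ≤ E ^ 2 / l :=
      div_le_div_of_nonneg_right hsq hl.le
    have h3 : J H p q r s = ∫ z : ℝ × ℝ, H (P z.1 z.2) ∂μ := rfl
    rw [h3]
    linarith
  rcases hJ.eq_or_lt with h0 | h0
  · rw [← h0]
    positivity
  · have h1 := hlam (J H p q r s / ((q - p) * (s - r))) (by positivity)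
    have h2 : J H p q r s ^ 2 ≤ ((q - p) * (s - r)) * E ^ 2 := by
      rw [div_mul_cancel₀ _ hμ.ne', div_div_eq_mul_div] at h1
      have h4 : J H p q r s ≤ E ^ 2 * ((q - p) * (s - r)) / J H p q r s := by linarith
      rw [le_div_iff₀ h0] at h4
      nlinarith
    refine le_of_sq_le_sq ?_ (by positivity)
    rw [mul_pow, Real.sq_sqrt hμ.le]
    exact h2

end ftc

end Slice

open Slice in
theorem slices {a : ℝ} (ha : 0 < a) : ∃ K > 0, ∀ (e : ℝ) (U : ℂ → ℂ) (O : Set ℂ) (H : ℂ → ℝ) (E : ℝ),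
    0 < e → e < a → IsOpen O → rect a e ⊆ O → ContDiffOn ℝ 2 U O → ContinuousOn H (rect a e) →
      (∀ z ∈ rect a e, ‖U z‖ ≤ H z ∧ ‖dx U z‖ ≤ H z ∧ ‖dy U z‖ ≤ H z ∧ ‖dy (dx U) z‖ ≤ H z) →
      0 ≤ E → ∫ z in rect a e, H z ^ 2 ≤ E ^ 2 →
        ∀ z ∈ rect a e, ∀ w ∈ rect a e,
          ‖U z‖ ≤ K * E ∧ ‖U z - U w‖ ≤ K * E * ‖z - w‖ ^ (1 / 2 : ℝ) := by
  set K1 : ℝ := (1 / a + 1) * √(2 * a) with hK1
  have hK1p : 0 < K1 := by positivity
  refine ⟨1 / a + 2 * K1 * √(4 * a) + 2 * K1, by positivity, ?_⟩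
  intro e U O H E he hea hO hR hU hH hb hE hint
  have hH0 : ∀ z ∈ rect a e, 0 ≤ H z := fun z hz => (norm_nonneg _).trans (hb z hz).1
  have hd : DifferentiableOn ℝ U O := hU.differentiableOn (by norm_num)
  have hf1 : ContDiffOn ℝ 1 (fderiv ℝ U) O := hU.fderiv_of_isOpen hO (by norm_num)
  have hx1 : ContDiffOn ℝ 1 (dx U) O := hf1.clm_apply contDiffOn_const
  have hy1 : ContDiffOn ℝ 1 (dy U) O := hf1.clm_apply contDiffOn_const
  have hxd : DifferentiableOn ℝ (dx U) O := hx1.differentiableOn (by norm_num)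
  have hxy : ContinuousOn (dy (dx U)) O := by
    have h1 : ContDiffOn ℝ 0 (fderiv ℝ (dx U)) O := hx1.fderiv_of_isOpen hO (by norm_num)
    exact h1.continuousOn.clm_apply continuousOn_const
  have hcx := hx1.continuousOn
  have hcy := hy1.continuousOn
  have hAA := subset_refl (Icc (-a) a)
  have hBB := subset_refl (Icc e (2 * a))
  -- horizontal
  have hor : ∀ x1 x2 y : ℝ, x1 ∈ Icc (-a) a → x2 ∈ Icc (-a) a → y ∈ Icc e (2 * a) → x1 < x2 →
      ‖U (P x2 y) - U (P x1 y)‖ ≤ K1 * E * √(x2 - x1) := by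
    intro x1 x2 y h1 h2 hy h12
    have hsub : Icc x1 x2 ⊆ Icc (-a) a := Icc_subset_Icc h1.1 h2.2
    have g1 : x1 ∈ Icc x1 x2 := ⟨le_rfl, h12.le⟩
    have g2 : x2 ∈ Icc x1 x2 := ⟨h12.le, le_rfl⟩
    have hav := avg1 (D := ‖U (P x2 y) - U (P x1 y)‖) (j := J H x1 x2 e (2 * a)) hH hsub hBB
      (by linarith) (by
        intro y' hy'
        have e1 := one1 hO hR hd hcx hH (fun z hz => (hb z hz).2.1) h1 h2 hy' hsub g1 g2
        have e2 := delta hO hR hd hcx hxd hxy hH (fun z hz => (hb z hz).2.2.2) hsub hBB g1 g2 hy' hy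
        calc ‖U (P x2 y) - U (P x1 y)‖ = ‖(U (P x2 y') - U (P x1 y')) +
              ((U (P x2 y) - U (P x1 y)) - (U (P x2 y') - U (P x1 y')))‖ := by
              congr 1; ring
          _ ≤ _ := (norm_add_le _ _).trans (add_le_add e1 e2))
    have hcs := cs hH0 hH hE hint h12 (by linarith : e < 2 * a) hsub hBB
    set l := 2 * a - e with hl
    have hl0 : 0 < l := by linarith
    have hla : a ≤ l := by linarith
    have hl2 : l ≤ 2 * a := by linarith
    have hs : √((x2 - x1) * l) = √(x2 - x1) * √l := Real.sqrt_mul (by linarith) _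
    rw [hs] at hcs
    have h3 : ‖U (P x2 y) - U (P x1 y)‖ ≤ (1 / l + 1) * J H x1 x2 e (2 * a) := by
      have h4 : ‖U (P x2 y) - U (P x1 y)‖ ≤
          (J H x1 x2 e (2 * a) + l * J H x1 x2 e (2 * a)) / l := by
        rw [le_div_iff₀ hl0]
        linarith
      calc _ ≤ _ := h4
        _ = _ := by field_simp
    calc ‖U (P x2 y) - U (P x1 y)‖ ≤ (1 / l + 1) * J H x1 x2 e (2 * a) := h3
      _ ≤ (1 / l + 1) * (√(x2 - x1) * √l * E) := mul_le_mul_of_nonneg_left hcs (by positivity)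
      _ = ((1 / l + 1) * √l) * E * √(x2 - x1) := by ring
      _ ≤ K1 * E * √(x2 - x1) := by
          have h5 : (1 / l + 1) * √l ≤ K1 := by
            rw [hK1]
            apply mul_le_mul _ (Real.sqrt_le_sqrt hl2) (Real.sqrt_nonneg _) (by positivity)
            have := one_div_le_one_div_of_le ha hla
            linarith
          exact mul_le_mul_of_nonneg_right (mul_le_mul_of_nonneg_right h5 hE) (Real.sqrt_nonneg _)
  -- vertical
  have ver : ∀ x y1 y2 : ℝ, x ∈ Icc (-a) a → y1 ∈ Icc e (2 * a) → y2 ∈ Icc e (2 * a) → y1 < y2 →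
      ‖U (P x y2) - U (P x y1)‖ ≤ K1 * E * √(y2 - y1) := by
    intro x y1 y2 hx h1 h2 h12
    have hsub : Icc y1 y2 ⊆ Icc e (2 * a) := Icc_subset_Icc h1.1 h2.2
    have g1 : y1 ∈ Icc y1 y2 := ⟨le_rfl, h12.le⟩
    have g2 : y2 ∈ Icc y1 y2 := ⟨h12.le, le_rfl⟩
    have hav := avg2 (D := ‖U (P x y2) - U (P x y1)‖) (j := J H (-a) a y1 y2) hH hAA hsub
      (by linarith) (by
        intro x' hx'
        have e1 := one2 hO hR hd hcy hH (fun z hz => (hb z hz).2.2.1) hx' h1 h2 hsub g1 g2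
        have e2 := delta hO hR hd hcx hxd hxy hH (fun z hz => (hb z hz).2.2.2) hAA hsub hx' hx g1 g2
        calc ‖U (P x y2) - U (P x y1)‖ = ‖(U (P x' y2) - U (P x' y1)) +
              ((U (P x y2) - U (P x' y2)) - (U (P x y1) - U (P x' y1)))‖ := by
              congr 1; ring
          _ ≤ _ := (norm_add_le _ _).trans (add_le_add e1 e2))
    have hcs := cs hH0 hH hE hint (by linarith : -a < a) h12 hAA hsub
    have h2a : a - -a = 2 * a := by ring
    rw [h2a] at hav hcs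
    have hs : √((2 * a) * (y2 - y1)) = √(2 * a) * √(y2 - y1) := Real.sqrt_mul (by linarith) _
    rw [hs] at hcs
    have h3 : ‖U (P x y2) - U (P x y1)‖ ≤ (1 / (2 * a) + 1) * J H (-a) a y1 y2 := by
      have h4 : ‖U (P x y2) - U (P x y1)‖ ≤
          (J H (-a) a y1 y2 + (2 * a) * J H (-a) a y1 y2) / (2 * a) := by
        rw [le_div_iff₀ (by positivity)]
        linarith
      calc _ ≤ _ := h4
        _ = _ := by field_simp
    calc ‖U (P x y2) - U (P x y1)‖ ≤ (1 / (2 * a) + 1) * J H (-a) a y1 y2 := h3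
      _ ≤ (1 / (2 * a) + 1) * (√(2 * a) * √(y2 - y1) * E) :=
          mul_le_mul_of_nonneg_left hcs (by positivity)
      _ = ((1 / (2 * a) + 1) * √(2 * a)) * E * √(y2 - y1) := by ring
      _ ≤ K1 * E * √(y2 - y1) := by
          have h5 : (1 / (2 * a) + 1) * √(2 * a) ≤ K1 := by
            rw [hK1]
            apply mul_le_mul_of_nonneg_right _ (Real.sqrt_nonneg _)
            have := one_div_le_one_div_of_le ha (by linarith : a ≤ 2 * a)
            linarith
          exact mul_le_mul_of_nonneg_right (mul_le_mul_of_nonneg_right h5 hE) (Real.sqrt_nonneg _)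
  have hor' : ∀ x1 x2 y : ℝ, x1 ∈ Icc (-a) a → x2 ∈ Icc (-a) a → y ∈ Icc e (2 * a) →
      ‖U (P x2 y) - U (P x1 y)‖ ≤ K1 * E * √|x2 - x1| := by
    intro x1 x2 y h1 h2 hy
    rcases lt_trichotomy x1 x2 with h | h | h
    · rw [abs_of_pos (sub_pos.2 h)]
      exact hor x1 x2 y h1 h2 hy h
    · rw [h]
      simp
    · rw [norm_sub_rev, abs_sub_comm, abs_of_pos (sub_pos.2 h)]
      exact hor x2 x1 y h2 h1 hy h
  have ver' : ∀ x y1 y2 : ℝ, x ∈ Icc (-a) a → y1 ∈ Icc e (2 * a) → y2 ∈ Icc e (2 * a) →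
      ‖U (P x y2) - U (P x y1)‖ ≤ K1 * E * √|y2 - y1| := by
    intro x y1 y2 hx h1 h2
    rcases lt_trichotomy y1 y2 with h | h | h
    · rw [abs_of_pos (sub_pos.2 h)]
      exact ver x y1 y2 hx h1 h2 h
    · rw [h]
      simp
    · rw [norm_sub_rev, abs_sub_comm, abs_of_pos (sub_pos.2 h)]
      exact ver x y2 y1 hx h2 h1 h
  have hold : ∀ z ∈ rect a e, ∀ w ∈ rect a e, ‖U z - U w‖ ≤ 2 * K1 * E * √‖z - w‖ := by
    intro z hz w hw
    obtain ⟨hz1, hz2⟩ := mem_P hz
    obtain ⟨hw1, hw2⟩ := mem_P hw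
    have e1 := hor' w.re z.re z.im hw1 hz1 hz2
    have e2 := ver' w.re w.im z.im hw1 hw2 hz2
    rw [P_eta] at e1 e2
    have m1 : √|z.re - w.re| ≤ √‖z - w‖ := by
      apply Real.sqrt_le_sqrt
      have := Complex.abs_re_le_norm (z - w)
      rwa [Complex.sub_re] at this
    have m2 : √|z.im - w.im| ≤ √‖z - w‖ := by
      apply Real.sqrt_le_sqrt
      have := Complex.abs_im_le_norm (z - w)
      rwa [Complex.sub_im] at this
    have hKE : 0 ≤ K1 * E := by positivity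
    calc ‖U z - U w‖ = ‖(U z - U (P w.re z.im)) + (U (P w.re z.im) - U w)‖ := by congr 1; ring
      _ ≤ ‖U z - U (P w.re z.im)‖ + ‖U (P w.re z.im) - U w‖ := norm_add_le _ _
      _ ≤ K1 * E * √‖z - w‖ + K1 * E * √‖z - w‖ :=
          add_le_add (e1.trans (mul_le_mul_of_nonneg_left m1 hKE))
            (e2.trans (mul_le_mul_of_nonneg_left m2 hKE))
      _ = _ := by ring
  intro z hz w hw
  have hsup : ‖U z‖ ≤ (1 / a + 2 * K1 * √(4 * a)) * E := by
    have hcst : ∀ w ∈ rect a e, ‖U z‖ ≤ H w + 2 * K1 * √(4 * a) * E := by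
      intro w hw
      have e1 := hold z hz w hw
      have e2 : √‖z - w‖ ≤ √(4 * a) := by
        apply Real.sqrt_le_sqrt
        have h1 := Complex.norm_le_abs_re_add_abs_im (z - w)
        have h2 : |(z - w).re| ≤ 2 * a := by
          rw [Complex.sub_re, abs_le]
          obtain ⟨⟨z1, z2⟩, -⟩ := mem_P hz
          obtain ⟨⟨w1, w2⟩, -⟩ := mem_P hw
          constructor <;> linarith
        have h3 : |(z - w).im| ≤ 2 * a := by
          rw [Complex.sub_im, abs_le]
          obtain ⟨-, z1, z2⟩ := mem_P hz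
          obtain ⟨-, w1, w2⟩ := mem_P hw
          constructor <;> linarith
        linarith
      have e3 : ‖U z‖ ≤ ‖U z - U w‖ + ‖U w‖ := by
        calc ‖U z‖ = ‖(U z - U w) + U w‖ := by congr 1; ring
          _ ≤ _ := norm_add_le _ _
      have e4 := (hb w hw).1
      have e5 : 2 * K1 * E * √‖z - w‖ ≤ 2 * K1 * E * √(4 * a) :=
        mul_le_mul_of_nonneg_left e2 (by positivity)
      linarith
    have hl0 : 0 < 2 * a - e := by linarith
    have havg : ∀ x ∈ Icc (-a) a, (2 * a - e) * (‖U z‖ - 2 * K1 * √(4 * a) * E) ≤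
        ∫ y in Icc e (2 * a), H (P x y) := by
      intro x hx
      have hi := sliceInt2 hH hx hBB
      have hc : IntegrableOn (fun _ : ℝ => ‖U z‖ - 2 * K1 * √(4 * a) * E) (Icc e (2 * a)) :=
        integrableOn_const (measure_Icc_lt_top).ne
      have h1 := setIntegral_mono_on hc hi measurableSet_Icc (fun y hy => by
        have := hcst _ (P_mem hx hy)
        linarith)
      rw [setIntegral_const, volI (by linarith : e ≤ 2 * a), smul_eq_mul] at h1
      exact h1
    have h2 := avg2 (j := 0) hH hAA hBB (by linarith : -a ≤ a) (fun x hx => by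
      rw [add_zero]
      exact havg x hx)
    have hcs := cs hH0 hH hE hint (by linarith : -a < a) (by linarith : e < 2 * a) hAA hBB
    have h2a : a - -a = 2 * a := by ring
    rw [h2a] at h2 hcs
    rw [mul_zero, add_zero, ← mul_assoc] at h2
    set A := 2 * a * (2 * a - e) with hA
    have hA0 : 0 < A := by positivity
    have hAa : a ^ 2 ≤ A := by nlinarith
    have hsA : a ≤ √A := by
      rw [← Real.sqrt_sq ha.le]
      exact Real.sqrt_le_sqrt hAa
    have hsA0 : 0 < √A := by linarith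
    have hAA' : √A * √A = A := Real.mul_self_sqrt hA0.le
    have h3 : A * (‖U z‖ - 2 * K1 * √(4 * a) * E) ≤ √A * E := h2.trans hcs
    have h4 : √A * (‖U z‖ - 2 * K1 * √(4 * a) * E) ≤ E := by
      have : √A * (√A * (‖U z‖ - 2 * K1 * √(4 * a) * E)) ≤ √A * E := by
        rw [← mul_assoc, hAA']
        exact h3
      exact le_of_mul_le_mul_left this hsA0
    rcases le_total (‖U z‖ - 2 * K1 * √(4 * a) * E) 0 with h5 | h5
    · have : 0 ≤ 1 / a * E := by positivity
      linarith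
    · have h6 : a * (‖U z‖ - 2 * K1 * √(4 * a) * E) ≤ E :=
        (mul_le_mul_of_nonneg_right hsA h5).trans h4
      have h7 : ‖U z‖ - 2 * K1 * √(4 * a) * E ≤ 1 / a * E := by
        rw [one_div, ← div_eq_inv_mul, le_div_iff₀ ha]
        linarith
      linarith
  constructor
  · refine hsup.trans ?_
    apply mul_le_mul_of_nonneg_right _ hE
    linarith
  · rw [← Real.sqrt_eq_rpow]
    refine (hold z hz w hw).trans ?_
    apply mul_le_mul_of_nonneg_right _ (Real.sqrt_nonneg _)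
    apply mul_le_mul_of_nonneg_right _ hE
    have : 0 ≤ 1 / a + 2 * K1 * √(4 * a) := by positivity
    linarith

end Pool.Agent.EAC.PA
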