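import Pool.Agent.EAC.PA.ASlice
import Pool.Agent.EAC.PA.AChain
import Pool.Agent.EAC.PA.AChg

/-!
# EAC-A-SMO: the Sobolev estimate in a patch for smooth functions

`slices` for `U = F ∘ ψ` on `O = ball 0 (16 a) ⊇ rect a e` with `H ζ = 2 C² H2 F (ψ ζ)` (continuous); `∫ H²`: `H2² ≤ 6 Σ`,
six integrals, each `∫_{rect} ‖D F (ψ ζ)‖² ≤ C² ∫_{ψ '' rect} ‖D F‖² ≤ C² E²` (`change_le`); so `E' = const * E`. Finally
`‖ζ - ξ‖ ≤ C ‖ψ ζ - ψ ξ‖`.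
-/

set_option autoImplicit false

noncomputable section

namespace Pool.Agent.EAC.PA

open MeasureTheory Set Filter Topology Metric
open scoped ENNReal ComplexConjugate

private theorem smo_rect_compact (a e : ℝ) : IsCompact (rect a e) := by
  have h1 : rect a e = (Icc (-a) a) ×ℂ (Icc e (2 * a)) := by
    ext z
    simp only [rect, Complex.mem_reProdIm, mem_setOf_eq, mem_Icc]
    tauto
  rw [h1]
  exact isCompact_Icc.reProdIm isCompact_Icc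

private theorem smo_rect_sub {a e : ℝ} (ha : 0 < a) (he : 0 < e) : rect a e ⊆ ball 0 (16 * a) := by
  intro z hz
  obtain ⟨h1, h2, h3, h4⟩ := hz
  rw [mem_ball_zero_iff]
  have h5 : ‖z‖ ≤ |z.re| + |z.im| := Complex.norm_le_abs_re_add_abs_im z
  have h6 : |z.re| ≤ a := abs_le.mpr ⟨h1, h2⟩
  have h7 : |z.im| ≤ 2 * a := abs_le.mpr ⟨by linarith, h4⟩
  linarith

private theorem smo_dx {F : ℂ → ℂ} (hF : ContDiff ℝ (⊤ : ℕ∞) F) : ContDiff ℝ (⊤ : ℕ∞) (dx F) := by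
  unfold dx
  exact (hF.fderiv_right (m := ((⊤ : ℕ∞) : WithTop ℕ∞)) (by norm_cast)).clm_apply contDiff_const

private theorem smo_dy {F : ℂ → ℂ} (hF : ContDiff ℝ (⊤ : ℕ∞) F) : ContDiff ℝ (⊤ : ℕ∞) (dy F) := by
  unfold dy
  exact (hF.fderiv_right (m := ((⊤ : ℕ∞) : WithTop ℕ∞)) (by norm_cast)).clm_apply contDiff_const

private theorem smo_int {M : Set ℂ} {x : ℂ} {ψ : ℂ → ℂ} {a C r : ℝ} (hP : Patch M x ψ a C r)
    {e E : ℝ} (he : 0 < e) {G : ℂ → ℂ} (hG : Continuous G)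
    (hE : ∫⁻ z in ψ '' rect a e, ‖G z‖ₑ ^ 2 ≤ ENNReal.ofReal (E ^ 2)) :
    IntegrableOn (fun ζ => ‖G (ψ ζ)‖ ^ 2) (rect a e) ∧
      ∫ ζ in rect a e, ‖G (ψ ζ)‖ ^ 2 ≤ C ^ 2 * E ^ 2 := by
  have hsub := smo_rect_sub hP.ha he
  have hψc : ContinuousOn ψ (rect a e) := hP.holo.continuousOn.mono hsub
  have hc : ContinuousOn (fun ζ => ‖G (ψ ζ)‖ ^ 2) (rect a e) :=
    ((hG.comp_continuousOn hψc).norm).pow 2
  have hi : IntegrableOn (fun ζ => ‖G (ψ ζ)‖ ^ 2) (rect a e) :=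
    hc.integrableOn_compact (smo_rect_compact a e)
  refine ⟨hi, ?_⟩
  rw [integral_eq_lintegral_of_nonneg_ae (Eventually.of_forall fun ζ => by positivity)
    hi.aestronglyMeasurable]
  have h1 := change_le hP (smo_rect_compact a e).measurableSet hsub (fun z => ‖G z‖ₑ ^ 2)
  have h2 : ∫⁻ ζ in rect a e, ENNReal.ofReal (‖G (ψ ζ)‖ ^ 2) = ∫⁻ ζ in rect a e, ‖G (ψ ζ)‖ₑ ^ 2 := by
    refine lintegral_congr fun ζ => ?_
    rw [ENNReal.ofReal_pow (norm_nonneg _), ofReal_norm]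
  rw [h2]
  refine ENNReal.toReal_le_of_le_ofReal (by positivity) ?_
  refine h1.trans ?_
  rw [ENNReal.ofReal_mul (by positivity)]
  gcongr

theorem chart_smooth {M : Set ℂ} {x : ℂ} {ψ : ℂ → ℂ} {a C r : ℝ} (hP : Patch M x ψ a C r) :
    ∃ K > 0, ∀ (F : ℂ → ℂ) (e E : ℝ), ContDiff ℝ (⊤ : ℕ∞) F → 0 < e → e < a → 0 ≤ E →
      (∀ i j : ℕ, i + j ≤ 2 →
        ∫⁻ z in ψ '' rect a e, ‖(dx^[i] (dy^[j] F)) z‖ₑ ^ 2 ≤ ENNReal.ofReal (E ^ 2)) →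
      ∀ ζ ∈ rect a e, ∀ ξ ∈ rect a e, ‖F (ψ ζ)‖ ≤ K * E ∧
        ‖F (ψ ζ) - F (ψ ξ)‖ ≤ K * E * ‖ψ ζ - ψ ξ‖ ^ (1 / 2 : ℝ) := by
  obtain ⟨K, hK, hsl⟩ := slices hP.ha
  have hC1 : 1 ≤ C := hP.hC
  have hC0 : 0 < C := by linarith
  refine ⟨12 * K * C ^ 4, by positivity, fun F e E hF he hea hE hint ζ hζ ξ hξ => ?_⟩
  have hsub := smo_rect_sub hP.ha he
  have hψc : ContinuousOn ψ (rect a e) := hP.holo.continuousOn.mono hsub
  obtain ⟨hcd, hb⟩ := chain_bounds hC1 hP.holo hP.upp hP.upp2 hF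
  have c0 : Continuous F := hF.continuous
  have c1 : Continuous (dx F) := (smo_dx hF).continuous
  have c2 : Continuous (dy F) := (smo_dy hF).continuous
  have c3 : Continuous (dx (dx F)) := (smo_dx (smo_dx hF)).continuous
  have c4 : Continuous (dx (dy F)) := (smo_dx (smo_dy hF)).continuous
  have c5 : Continuous (dy (dy F)) := (smo_dy (smo_dy hF)).continuous
  obtain ⟨i0, b0⟩ := smo_int hP he c0 (hint 0 0 (by norm_num))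
  obtain ⟨i1, b1⟩ := smo_int hP he c1 (hint 1 0 (by norm_num))
  obtain ⟨i2, b2⟩ := smo_int hP he c2 (hint 0 1 (by norm_num))
  obtain ⟨i3, b3⟩ := smo_int hP he c3 (hint 2 0 (by norm_num))
  obtain ⟨i4, b4⟩ := smo_int hP he c4 (hint 1 1 (by norm_num))
  obtain ⟨i5, b5⟩ := smo_int hP he c5 (hint 0 2 (by norm_num))
  have hH2c : Continuous (H2 F) := by
    unfold H2
    exact ((((c0.norm.add c1.norm).add c2.norm).add c3.norm).add c4.norm).add c5.norm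
  have hHc : ContinuousOn (fun ζ => 2 * C ^ 2 * H2 F (ψ ζ)) (rect a e) :=
    continuousOn_const.mul (hH2c.comp_continuousOn hψc)
  have hHint : ∫ z in rect a e, (2 * C ^ 2 * H2 F (ψ z)) ^ 2 ≤ (12 * C ^ 3 * E) ^ 2 := by
    have hle : ∫ z in rect a e, (2 * C ^ 2 * H2 F (ψ z)) ^ 2 ≤ ∫ z in rect a e,
        24 * C ^ 4 * (‖F (ψ z)‖ ^ 2 + ‖dx F (ψ z)‖ ^ 2 + ‖dy F (ψ z)‖ ^ 2 +
          ‖dx (dx F) (ψ z)‖ ^ 2 + ‖dx (dy F) (ψ z)‖ ^ 2 + ‖dy (dy F) (ψ z)‖ ^ 2) := by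
      refine integral_mono ((hHc.pow 2).integrableOn_compact (smo_rect_compact a e))
        ((((((i0.add i1).add i2).add i3).add i4).add i5).const_mul (24 * C ^ 4)) fun z => ?_
      simp only [H2]
      have hs : ∀ p q s t u v : ℝ, (p + q + s + t + u + v) ^ 2 ≤
          6 * (p ^ 2 + q ^ 2 + s ^ 2 + t ^ 2 + u ^ 2 + v ^ 2) := by
        intro p q s t u v
        nlinarith [sq_nonneg (p - q), sq_nonneg (p - s), sq_nonneg (p - t), sq_nonneg (p - u),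
          sq_nonneg (p - v), sq_nonneg (q - s), sq_nonneg (q - t), sq_nonneg (q - u),
          sq_nonneg (q - v), sq_nonneg (s - t), sq_nonneg (s - u), sq_nonneg (s - v),
          sq_nonneg (t - u), sq_nonneg (t - v), sq_nonneg (u - v)]
      have h1 := hs ‖F (ψ z)‖ ‖dx F (ψ z)‖ ‖dy F (ψ z)‖ ‖dx (dx F) (ψ z)‖ ‖dx (dy F) (ψ z)‖
        ‖dy (dy F) (ψ z)‖
      have h2 : 0 ≤ 4 * C ^ 4 := by positivity
      have h3 := mul_le_mul_of_nonneg_left h1 h2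
      calc _ = 4 * C ^ 4 * (‖F (ψ z)‖ + ‖dx F (ψ z)‖ + ‖dy F (ψ z)‖ + ‖dx (dx F) (ψ z)‖ +
            ‖dx (dy F) (ψ z)‖ + ‖dy (dy F) (ψ z)‖) ^ 2 := by ring
        _ ≤ _ := h3
        _ = _ := by ring
    refine hle.trans ?_
    have j1 : IntegrableOn (fun z => ‖F (ψ z)‖ ^ 2 + ‖dx F (ψ z)‖ ^ 2) (rect a e) := i0.add i1
    have j2 : IntegrableOn (fun z => ‖F (ψ z)‖ ^ 2 + ‖dx F (ψ z)‖ ^ 2 + ‖dy F (ψ z)‖ ^ 2)
      (rect a e) := j1.add i2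
    have j3 : IntegrableOn (fun z => ‖F (ψ z)‖ ^ 2 + ‖dx F (ψ z)‖ ^ 2 + ‖dy F (ψ z)‖ ^ 2 +
      ‖dx (dx F) (ψ z)‖ ^ 2) (rect a e) := j2.add i3
    have j4 : IntegrableOn (fun z => ‖F (ψ z)‖ ^ 2 + ‖dx F (ψ z)‖ ^ 2 + ‖dy F (ψ z)‖ ^ 2 +
      ‖dx (dx F) (ψ z)‖ ^ 2 + ‖dx (dy F) (ψ z)‖ ^ 2) (rect a e) := j3.add i4
    rw [integral_const_mul, integral_add j4 i5, integral_add j3 i4, integral_add j2 i3,
      integral_add j1 i2, integral_add i0 i1]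
    have h5 : (0 : ℝ) ≤ 24 * C ^ 4 := by positivity
    calc _ ≤ 24 * C ^ 4 * (C ^ 2 * E ^ 2 + C ^ 2 * E ^ 2 + C ^ 2 * E ^ 2 + C ^ 2 * E ^ 2 +
          C ^ 2 * E ^ 2 + C ^ 2 * E ^ 2) := by
          refine mul_le_mul_of_nonneg_left ?_ h5
          linarith
      _ = (12 * C ^ 3 * E) ^ 2 := by ring
  have hmain := hsl e (fun ζ => F (ψ ζ)) (ball 0 (16 * a)) (fun ζ => 2 * C ^ 2 * H2 F (ψ ζ))
    (12 * C ^ 3 * E) he hea isOpen_ball hsub hcd hHc (fun z hz => ?_) (by positivity) hHint ζ hζ ξ hξ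
  · obtain ⟨m1, m2⟩ := hmain
    have hCp : C ^ 3 ≤ C ^ 4 := pow_le_pow_right₀ hC1 (by norm_num)
    constructor
    · refine m1.trans ?_
      calc K * (12 * C ^ 3 * E) = 12 * K * C ^ 3 * E := by ring
        _ ≤ 12 * K * C ^ 4 * E := by gcongr
    · refine m2.trans ?_
      have hb1 : ‖ζ - ξ‖ ≤ C * ‖ψ ζ - ψ ξ‖ := (hP.bilip ζ (hsub hζ) ξ (hsub hξ)).1
      have h6 : ‖ζ - ξ‖ ^ (1 / 2 : ℝ) ≤ C * ‖ψ ζ - ψ ξ‖ ^ (1 / 2 : ℝ) := by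
        calc ‖ζ - ξ‖ ^ (1 / 2 : ℝ) ≤ (C * ‖ψ ζ - ψ ξ‖) ^ (1 / 2 : ℝ) :=
              Real.rpow_le_rpow (norm_nonneg _) hb1 (by norm_num)
          _ = C ^ (1 / 2 : ℝ) * ‖ψ ζ - ψ ξ‖ ^ (1 / 2 : ℝ) :=
              Real.mul_rpow hC0.le (norm_nonneg _)
          _ ≤ C ^ (1 : ℝ) * ‖ψ ζ - ψ ξ‖ ^ (1 / 2 : ℝ) := by
              have : C ^ (1 / 2 : ℝ) ≤ C ^ (1 : ℝ) :=
                Real.rpow_le_rpow_of_exponent_le hC1 (by norm_num)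
              gcongr
          _ = C * ‖ψ ζ - ψ ξ‖ ^ (1 / 2 : ℝ) := by rw [Real.rpow_one]
      calc K * (12 * C ^ 3 * E) * ‖ζ - ξ‖ ^ (1 / 2 : ℝ) ≤
            K * (12 * C ^ 3 * E) * (C * ‖ψ ζ - ψ ξ‖ ^ (1 / 2 : ℝ)) := by gcongr
        _ = 12 * K * C ^ 4 * E * ‖ψ ζ - ψ ξ‖ ^ (1 / 2 : ℝ) := by ring
  · obtain ⟨q1, q2, q3⟩ := hb z (hsub hz)
    refine ⟨?_, q1, q2, q3⟩
    have h7 : ‖F (ψ z)‖ ≤ H2 F (ψ z) := by
      simp only [H2]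
      have := norm_nonneg (dx F (ψ z))
      have := norm_nonneg (dy F (ψ z))
      have := norm_nonneg (dx (dx F) (ψ z))
      have := norm_nonneg (dx (dy F) (ψ z))
      have := norm_nonneg (dy (dy F) (ψ z))
      linarith
    have h8 : 0 ≤ H2 F (ψ z) := (norm_nonneg _).trans h7
    have h9 : 1 ≤ 2 * C ^ 2 := by nlinarith
    calc ‖F (ψ z)‖ ≤ 1 * H2 F (ψ z) := by rw [one_mul]; exact h7
      _ ≤ 2 * C ^ 2 * H2 F (ψ z) := by gcongr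

end Pool.Agent.EAC.PA
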