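import Pool.Agent.EAC.PA.AHolG
import Pool.Agent.EAC.PA.ALim
import Pool.Agent.EAC.PA.ADer
import Pool.Agent.EAC.PA.ALip

/-!
# EAC-A-SOB: Sobolev embedding `H³(M) ⊆ C^{1,1/2}(M)` for an analytic domain

For every `E > ‖v‖` take `g` from `exists_weak`; `shift_x, shift_y`, `holder_glob`, `lim_exists`, `hasFDerivAt_of_weak`:
`fderiv ℝ v z = lin (F z) (G z)` is bounded by `2 K E` and Hölder with constant `2 K E`. `lip_local`, `l2_le`, `lip_global`.
-/

set_option autoImplicit false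

noncomputable section

namespace Pool.Agent.EAC.PA

open MeasureTheory Set Filter Topology Metric
open scoped ENNReal ComplexConjugate

private theorem lin_sub (p q p' q' : ℂ) : lin p q - lin p' q' = lin (p - p') (q - q') := by
  ext h
  simp only [sub_apply, lin_apply, smul_sub]
  ring

theorem sobolev {M : Set ℂ} (hM : AnalyticDomain M) : ∃ C > 0, ∀ (v : ℂ → ℂ) (E : ℝ), 0 < E →
    ContinuousOn v M → hsNorm M 3 v < ENNReal.ofReal E →
      (∀ z ∈ interior M, DifferentiableAt ℝ v z) ∧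
      (∀ z ∈ interior M, ‖fderiv ℝ v z‖ ≤ C * E) ∧
      (∀ z ∈ interior M, ∀ w ∈ interior M,
        ‖fderiv ℝ v z - fderiv ℝ v w‖ ≤ C * E * ‖z - w‖ ^ (1 / 2 : ℝ)) ∧
      (∀ x ∈ M, ‖v x‖ ≤ C * E) ∧
      (∀ x ∈ M, ∀ y ∈ M, ‖v x - v y‖ ≤ C * E * ‖x - y‖) := by
  obtain ⟨K, hK, hol⟩ := holder_glob hM
  obtain ⟨ρ, hρ, K1, hK1, loc⟩ := lip_local hM
  obtain ⟨K2, hK2, glob⟩ := lip_global hM hρ
  refine ⟨2 * K + K2 * (K1 * (2 * K) + 1), by positivity, ?_⟩
  intro v E hE hc hs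
  obtain ⟨g, hg, hgs⟩ := exists_weak hE hs
  have hfin : hsSq M 3 g < ⊤ := lt_of_le_of_lt hgs ENNReal.ofReal_lt_top
  have hKE : 0 ≤ K * E := by positivity
  obtain ⟨F, hF1, hF2, hF3⟩ := lim_exists hKE
    (integrable_of_hsSq hM.compact hg hfin (show 1 + 0 ≤ 3 by norm_num))
    (fun z hz w hw h1 h2 => hol (g 1 0) _ E hE.le (shift_x hg)
      ((hsSq_shift_x M g).trans hgs) z hz w hw h1 h2)
  obtain ⟨G, hG1, hG2, hG3⟩ := lim_exists hKE
    (integrable_of_hsSq hM.compact hg hfin (show 0 + 1 ≤ 3 by norm_num))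
    (fun z hz w hw h1 h2 => hol (g 0 1) _ E hE.le (shift_y hg)
      ((hsSq_shift_y M g).trans hgs) z hz w hw h1 h2)
  have hvi : IntegrableOn v (interior M) :=
    (hc.integrableOn_compact hM.compact).mono_set interior_subset
  have hd := hasFDerivAt_of_weak hg hc hvi hF3 hG3
  have hfd : ∀ z ∈ interior M, fderiv ℝ v z = lin (F z) (G z) := fun z hz => (hd z hz).fderiv
  have hb : ∀ z ∈ interior M, ‖fderiv ℝ v z‖ ≤ 2 * K * E := by
    intro z hz
    rw [hfd z hz]
    have h1 := norm_lin_le (F z) (G z)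
    have h2 := hF1 z hz
    have h3 := hG1 z hz
    linarith
  have hL : 0 ≤ 2 * K * E := by positivity
  have hloc := loc v (2 * K * E) hL hc fun z hz => ⟨(hd z hz).differentiableAt, hb z hz⟩
  obtain ⟨g1, g2⟩ := glob v (K1 * (2 * K * E)) E (by positivity) hE.le hc hloc
    (l2_le hM.compact hc hE hs)
  have e2 : K2 * (K1 * (2 * K * E) + E) ≤ (2 * K + K2 * (K1 * (2 * K) + 1)) * E := by
    have : 0 ≤ 2 * K * E := hL
    nlinarith
  have e1 : 2 * K * E ≤ (2 * K + K2 * (K1 * (2 * K) + 1)) * E := by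
    have : 0 ≤ K2 * (K1 * (2 * K) + 1) * E := by positivity
    nlinarith
  refine ⟨fun z hz => (hd z hz).differentiableAt, fun z hz => (hb z hz).trans e1, ?_,
    fun x hx => (g1 x hx).trans e2, fun x hx y hy => (g2 x hx y hy).trans ?_⟩
  · intro z hz w hw
    rw [hfd z hz, hfd w hw, lin_sub]
    have h1 := norm_lin_le (F z - F w) (G z - G w)
    have h2 := hF2 z hz w hw
    have h3 := hG2 z hz w hw
    have h4 : 0 ≤ ‖z - w‖ ^ (1 / 2 : ℝ) := by positivity
    have h5 := mul_le_mul_of_nonneg_right e1 h4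
    linarith
  · exact mul_le_mul_of_nonneg_right e2 (norm_nonneg _)

end Pool.Agent.EAC.PA
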