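import Pool.Agent.EAC.PA.ATest
import Pool.Agent.EAC.PA.ACover

/-!
# EAC-A-TAN: the velocity is tangent to the boundary

`V ζ = v (ψ ζ) / ψ' ζ`, `m ζ = ‖ψ' ζ‖²`, both continuous on the half disc `{‖ζ‖ < 16 a, 0 ≤ Im ζ}`. Suppose `Im V t₀ = κ ≠ 0`, `t₀` real
(replace `v` by `-v`: `κ > 0`). Choose `s > 0` with `closedBall t₀ s ⊆ ball 0 (16 a)` and `Im V ≥ κ/2` on the part `Im ≥ 0` of it.
Test function for `e < s/4`: `q z = α (φ z) * β_e (Im (φ z))` for `z ∈ ball x R` and `0` otherwise, where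
`α ζ = max 0 (1 - ‖ζ - t₀‖ / s)` and `β_e y = max 0 (1 - max 0 y / e)`; it is Lipschitz on `ℂ` (the support
`ψ '' closedBall t₀ s` is compact in `ball x R` where `φ` is injective and holomorphic, `φinj`, `φψ`). `divfree_lip` and change of variables `z = ψ ζ`
(`integral_image_eq_integral_abs_det_fderiv_smul`), `fderiv (Q ∘ φ) (v z) = fderiv Q ζ (V ζ)`, give
`0 = ∫_{Im ζ > 0} fderiv Q ζ (V ζ) m ζ = ∫ β_e (fderiv α)(V) m - (1/e) ∫_{0 < Im ζ < e} α Im V m`;
the first term is `O(e)` (`‖fderiv α‖ ≤ 1/s`, area of the strip), the second one is `≥ (1/e) (κ/2) C⁻² (1/4) * area{|Re ζ - t₀| < s/2, 0 < Im ζ < e} ≥ c > 0`.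
Contradiction as `e → 0`. (A smooth bump `α`, equal to `1` near `t₀`, and/or a smooth `β`, may be more convenient.)
-/

set_option autoImplicit false

noncomputable section

namespace Pool.Agent.EAC.PA

open MeasureTheory Set Filter Topology Metric
open scoped ENNReal ComplexConjugate

private theorem tan_det (c : ℂ) :
    ((ContinuousLinearMap.toSpanSingleton ℂ c).restrictScalars ℝ : ℂ →L[ℝ] ℂ).det = ‖c‖ ^ 2 := by
  simp [ContinuousLinearMap.det, LinearMap.det_restrictScalars,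
      Algebra.norm_complex_eq, Complex.normSq_eq_norm_sq]

private theorem tan_open {M : Set ℂ} {x : ℂ} {ψ φ : ℂ → ℂ} {a C r R : ℝ}
    (hP : BPatch M x ψ φ a C r R) : IsOpen (ψ '' ball 0 (16 * a)) := by
  have : ψ '' ball 0 (16 * a) = ball x R ∩ φ ⁻¹' ball 0 (16 * a) := by
    ext z
    constructor
    · rintro ⟨ζ, hζ, rfl⟩
      obtain ⟨h1, h2⟩ := hP.φψ ζ hζ
      refine ⟨h1, ?_⟩
      rw [mem_preimage, h2]
      exact hζ
    · rintro ⟨h1, h2⟩
      refine ⟨φ z, h2, ?_⟩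
      obtain ⟨h3, h4⟩ := hP.φψ (φ z) h2
      exact hP.φinj h3 h1 h4
  rw [this]
  exact hP.φd.continuousOn.isOpen_inter_preimage isOpen_ball isOpen_ball

/-- the test function -/
private def tq (ψ φ : ℂ → ℂ) (a : ℝ) (Q : ℂ → ℝ) (z : ℂ) : ℝ :=
  open scoped Classical in if z ∈ ψ '' ball 0 (16 * a) then Q (φ z) else 0

private theorem tq_img {M : Set ℂ} {x : ℂ} {ψ φ : ℂ → ℂ} {a C r R : ℝ}
    (hP : BPatch M x ψ φ a C r R) (Q : ℂ → ℝ) {ζ : ℂ} (hζ : ζ ∈ ball 0 (16 * a)) :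
    tq ψ φ a Q (ψ ζ) = Q ζ := by
  have : ψ ζ ∈ ψ '' ball 0 (16 * a) := mem_image_of_mem ψ hζ
  rw [tq, if_pos this, (hP.φψ ζ hζ).2]

private theorem tq_zero {M : Set ℂ} {x : ℂ} {ψ φ : ℂ → ℂ} {a C r R : ℝ}
    (hP : BPatch M x ψ φ a C r R) {Q : ℂ → ℝ} {c : ℂ} {s : ℝ}
    (hQs : ∀ ζ ∉ closedBall c s, Q ζ = 0) {z : ℂ} (hz : z ∉ ψ '' closedBall c s) :
    tq ψ φ a Q z = 0 := by
  by_cases h : z ∈ ψ '' ball 0 (16 * a)
  · obtain ⟨ζ, hζ, rfl⟩ := h
    rw [tq_img hP Q hζ]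
    exact hQs ζ fun h => hz (mem_image_of_mem ψ h)
  · rw [tq, if_neg h]

private theorem tq_lip {M : Set ℂ} {x : ℂ} {ψ φ : ℂ → ℂ} {a C r R : ℝ}
    (hP : BPatch M x ψ φ a C r R) {Q : ℂ → ℝ} {L : NNReal} (hQ : LipschitzWith L Q)
    (hQ1 : ∀ ζ, |Q ζ| ≤ 1) {c : ℂ} {s : ℝ} (hs : closedBall c s ⊆ ball 0 (16 * a))
    (hQs : ∀ ζ ∉ closedBall c s, Q ζ = 0) :
    ∃ K : NNReal, LipschitzWith K (tq ψ φ a Q) := by
  have hcont : ContinuousOn ψ (closedBall c s) := hP.holo.continuousOn.mono hs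
  have hK : IsCompact (ψ '' closedBall c s) := (isCompact_closedBall c s).image_of_continuousOn hcont
  obtain ⟨δ, hδ, hδs⟩ := hK.exists_thickening_subset_open (tan_open hP) (image_mono hs)
  have far : ∀ z z' : ℂ, z' ∉ ψ '' ball 0 (16 * a) → |tq ψ φ a Q z| ≤ 1 / δ * dist z z' := by
    intro z z' hz'
    by_cases hz : z ∈ ψ '' closedBall c s
    · have hd : δ ≤ dist z z' := by
        by_contra hlt
        push Not at hlt
        apply hz'
        apply hδs
        rw [mem_thickening_iff]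
        exact ⟨z, hz, by rwa [dist_comm]⟩
      have h1 : |tq ψ φ a Q z| ≤ 1 := by
        obtain ⟨ζ, hζ, rfl⟩ := hz
        rw [tq_img hP Q (hs hζ)]
        exact hQ1 ζ
      refine h1.trans ?_
      rw [one_div, ← div_eq_inv_mul, le_div_iff₀ hδ, one_mul]
      exact hd
    · rw [tq_zero hP hQs hz, abs_zero]
      positivity
  refine ⟨_, LipschitzWith.of_dist_le' (K := L * C + 1 / δ) fun z z' => ?_⟩
  have hC : 0 ≤ C := zero_le_one.trans hP.hC
  have hLC : 0 ≤ (L : ℝ) * C := mul_nonneg L.2 hC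
  have hδ' : 0 ≤ 1 / δ := by positivity
  have hd0 : 0 ≤ dist z z' := dist_nonneg
  by_cases h' : z' ∈ ψ '' ball 0 (16 * a)
  · by_cases h : z ∈ ψ '' ball 0 (16 * a)
    · obtain ⟨ζ, hζ, rfl⟩ := h
      obtain ⟨ξ, hξ, rfl⟩ := h'
      rw [tq_img hP Q hζ, tq_img hP Q hξ]
      have h1 := hQ.dist_le_mul ζ ξ
      have h2 := (hP.bilip ζ hζ ξ hξ).1
      rw [← dist_eq_norm, ← dist_eq_norm] at h2
      have h3 : (L : ℝ) * dist ζ ξ ≤ L * (C * dist (ψ ζ) (ψ ξ)) :=
        mul_le_mul_of_nonneg_left h2 L.2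
      have h4 : 0 ≤ 1 / δ * dist (ψ ζ) (ψ ξ) := mul_nonneg hδ' hd0
      nlinarith
    · have h1 := far z' z h
      have h2 : tq ψ φ a Q z = 0 := by rw [tq, if_neg h]
      rw [h2, dist_comm, Real.dist_eq, sub_zero]
      rw [dist_comm] at h1
      nlinarith [mul_nonneg hLC hd0]
  · have h1 := far z z' h'
    have h2 : tq ψ φ a Q z' = 0 := by rw [tq, if_neg h']
    rw [h2, Real.dist_eq, sub_zero]
    nlinarith [mul_nonneg hLC hd0]

private theorem tq_integral {M : Set ℂ} (hM : IsCompact M) {x : ℂ} {ψ φ : ℂ → ℂ} {a C r R : ℝ}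
    (hP : BPatch M x ψ φ a C r R) {v : ℂ → ℂ} (hv : ContinuousOn v M) (hd : DivFree M v)
    {Q : ℂ → ℝ} {L : NNReal} (hQ : LipschitzWith L Q)
    (hQ1 : ∀ ζ, |Q ζ| ≤ 1) {c : ℂ} {s : ℝ} (hs : closedBall c s ⊆ ball 0 (16 * a))
    (hQs : ∀ ζ ∉ closedBall c s, Q ζ = 0) :
    ∫ ζ in closedBall c s ∩ {ζ : ℂ | 0 < ζ.im},
      ‖deriv ψ ζ‖ ^ 2 * fderiv ℝ (tq ψ φ a Q) (ψ ζ) (v (ψ ζ)) = 0 := by
  obtain ⟨K, hK⟩ := tq_lip hP hQ hQ1 hs hQs
  have h0 := divfree_lip hM hv hd hK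
  have hcont : ContinuousOn ψ (closedBall c s) := hP.holo.continuousOn.mono hs
  have hKc : IsCompact (ψ '' closedBall c s) := (isCompact_closedBall c s).image_of_continuousOn hcont
  have hzero : ∀ z ∉ ψ '' closedBall c s, fderiv ℝ (tq ψ φ a Q) z (v z) = 0 := by
    intro z hz
    have hev : tq ψ φ a Q =ᶠ[𝓝 z] fun _ => 0 := by
      filter_upwards [hKc.isClosed.isOpen_compl.mem_nhds hz] with w hw
      exact tq_zero hP hQs hw
    rw [hev.fderiv_eq]
    simp
  have himg : interior M ∩ ψ '' closedBall c s = ψ '' (closedBall c s ∩ {ζ : ℂ | 0 < ζ.im}) := by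
    ext z
    constructor
    · rintro ⟨h1, ζ, hζ, rfl⟩
      exact ⟨ζ, ⟨hζ, (hP.bdI ζ (hs hζ)).1 h1⟩, rfl⟩
    · rintro ⟨ζ, ⟨hζ, h1⟩, rfl⟩
      exact ⟨(hP.bdI ζ (hs hζ)).2 h1, ζ, hζ, rfl⟩
  rw [setIntegral_eq_of_subset_of_forall_sdiff_eq_zero (s := interior M ∩ ψ '' closedBall c s)
    isOpen_interior.measurableSet inter_subset_left
    (fun z hz => hzero z fun h => hz.2 ⟨hz.1, h⟩), himg] at h0
  have hmeas : MeasurableSet (closedBall c s ∩ {ζ : ℂ | 0 < ζ.im}) :=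
    measurableSet_closedBall.inter (isOpen_lt continuous_const Complex.continuous_im).measurableSet
  have hder : ∀ ζ ∈ closedBall c s ∩ {ζ : ℂ | 0 < ζ.im},
      HasFDerivWithinAt ψ ((ContinuousLinearMap.toSpanSingleton ℂ (deriv ψ ζ)).restrictScalars ℝ)
        (closedBall c s ∩ {ζ : ℂ | 0 < ζ.im}) ζ := by
    intro ζ hζ
    have h1 : DifferentiableAt ℂ ψ ζ := hP.holo.differentiableAt (isOpen_ball.mem_nhds (hs hζ.1))
    have h2 : HasFDerivAt ψ (ContinuousLinearMap.toSpanSingleton ℂ (deriv ψ ζ)) ζ :=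
      h1.hasDerivAt.hasFDerivAt
    exact (h2.restrictScalars ℝ).hasFDerivWithinAt
  have hinj : InjOn ψ (closedBall c s ∩ {ζ : ℂ | 0 < ζ.im}) := by
    intro ζ hζ ξ hξ h
    have h2 := (hP.bilip ζ (hs hζ.1) ξ (hs hξ.1)).1
    rw [h, sub_self, norm_zero, mul_zero] at h2
    exact sub_eq_zero.1 (norm_le_zero_iff.1 h2)
  rw [integral_image_eq_integral_abs_det_fderiv_smul volume hmeas hder hinj] at h0
  refine (setIntegral_congr_fun hmeas fun ζ hζ => ?_).trans h0
  simp only [tan_det, smul_eq_mul]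
  rw [abs_of_nonneg (by positivity)]

private theorem tq_fderiv {M : Set ℂ} {x : ℂ} {ψ φ : ℂ → ℂ} {a C r R : ℝ}
    (hP : BPatch M x ψ φ a C r R) {Q : ℂ → ℝ} {ζ : ℂ} (hζ : ζ ∈ ball 0 (16 * a))
    {Q' : ℂ →L[ℝ] ℝ} (hQ : HasFDerivAt Q Q' ζ) (w : ℂ) :
    fderiv ℝ (tq ψ φ a Q) (ψ ζ) w = Q' (w / deriv ψ ζ) := by
  obtain ⟨h1, h2⟩ := hP.φψ ζ hζ
  have hφ : HasDerivAt φ (deriv φ (ψ ζ)) (ψ ζ) :=
    (hP.φd.differentiableAt (isOpen_ball.mem_nhds h1)).hasDerivAt
  have hψ : HasDerivAt ψ (deriv ψ ζ) ζ :=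
    (hP.holo.differentiableAt (isOpen_ball.mem_nhds hζ)).hasDerivAt
  have hmul : deriv φ (ψ ζ) * deriv ψ ζ = 1 := by
    have h3 := hφ.comp ζ hψ
    have h4 : (φ ∘ ψ) =ᶠ[𝓝 ζ] id := by
      filter_upwards [isOpen_ball.mem_nhds hζ] with ξ hξ
      exact (hP.φψ ξ hξ).2
    have h5 := (h3.congr_of_eventuallyEq h4.symm).unique (hasDerivAt_id ζ)
    exact h5
  have hne : deriv ψ ζ ≠ 0 := right_ne_zero_of_mul (hmul.trans_ne one_ne_zero)
  have hev : tq ψ φ a Q =ᶠ[𝓝 (ψ ζ)] fun z => Q (φ z) := by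
    filter_upwards [(tan_open hP).mem_nhds (mem_image_of_mem ψ hζ)] with z hz
    rw [tq, if_pos hz]
  have hQ' : HasFDerivAt Q Q' (φ (ψ ζ)) := by rwa [h2]
  have hcomp := hQ'.comp (ψ ζ) ((hφ.hasFDerivAt).restrictScalars ℝ)
  have h6 : fderiv ℝ (tq ψ φ a Q) (ψ ζ) = _ := (hcomp.congr_of_eventuallyEq hev).fderiv
  rw [h6]
  show Q' (w • deriv φ (ψ ζ)) = Q' (w / deriv ψ ζ)
  congr 1
  rw [smul_eq_mul, eq_div_iff hne, mul_assoc, hmul, mul_one]

/-- cutoff in the height. -/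
private def tb (e y : ℝ) : ℝ := max 0 (1 - max 0 y / e)

private theorem tb_le {e : ℝ} (he : 0 < e) (y : ℝ) : 0 ≤ tb e y ∧ tb e y ≤ 1 := by
  refine ⟨le_max_left _ _, max_le zero_le_one ?_⟩
  have : 0 ≤ max 0 y / e := div_nonneg (le_max_left _ _) he.le
  linarith

private theorem tb_lip {e : ℝ} (he : 0 < e) : LipschitzWith (Real.toNNReal (1 / e)) (tb e) := by
  have h1 : LipschitzWith 1 (fun y : ℝ => max 0 y) := LipschitzWith.id.const_max 0
  have h2 : LipschitzWith (Real.toNNReal (1 / e)) (fun y : ℝ => 1 - max 0 y / e) := by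
    refine LipschitzWith.of_dist_le' fun y y' => ?_
    have h3 := h1.dist_le_mul y y'
    rw [NNReal.coe_one, one_mul] at h3
    rw [Real.dist_eq] at h3 ⊢
    have h4 : 1 - max 0 y / e - (1 - max 0 y' / e) = -((max 0 y - max 0 y') / e) := by ring
    rw [h4, abs_neg, abs_div, abs_of_pos he, one_div, ← div_eq_inv_mul]
    exact div_le_div_of_nonneg_right h3 he.le
  exact h2.const_max 0

private theorem tb_deriv {e : ℝ} (he : 0 < e) {y : ℝ} (hy : 0 < y) (hye : y ≠ e) :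
    HasDerivAt (tb e) (if y < e then -1 / e else 0) y := by
  split_ifs with h
  · have h1 : HasDerivAt (fun y : ℝ => 1 - y / e) (-(1 / e)) y :=
      ((hasDerivAt_id y).div_const e).const_sub 1
    have h2 : tb e =ᶠ[𝓝 y] fun y => 1 - y / e := by
      filter_upwards [Ioo_mem_nhds hy h] with z hz
      unfold tb
      rw [max_eq_right hz.1.le, max_eq_right]
      have : z / e < 1 := (div_lt_one he).2 hz.2
      linarith
    have h3 := h1.congr_of_eventuallyEq h2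
    rwa [neg_div]
  · have hlt : e < y := lt_of_le_of_ne (not_lt.1 h) hye.symm
    have h2 : tb e =ᶠ[𝓝 y] fun _ => 0 := by
      filter_upwards [Ioi_mem_nhds hlt] with z hz
      unfold tb
      have hz' : e < z := hz
      rw [max_eq_right (he.trans hz').le, max_eq_left]
      have : 1 < z / e := (one_lt_div he).2 hz'
      linarith
    exact (hasDerivAt_const y (0 : ℝ)).congr_of_eventuallyEq h2

private theorem tan_im_null (e : ℝ) : volume {z : ℂ | z.im = e} = 0 := by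
  have h1 : {z : ℂ | z.im = e} = Complex.measurableEquivRealProd ⁻¹' (univ ×ˢ {e}) := by
    ext z
    simp [Complex.measurableEquivRealProd_apply]
  rw [h1, Complex.volume_preserving_equiv_real_prod.measure_preimage
    (MeasurableSet.univ.prod (measurableSet_singleton e)).nullMeasurableSet, Measure.volume_eq_prod,
    Measure.prod_prod, Real.volume_singleton, mul_zero]

private theorem tan_rect (a b c d : ℝ) (hab : a ≤ b) (hcd : c ≤ d) :
    volume.real {z : ℂ | z.re ∈ Icc a b ∧ z.im ∈ Ioo c d} = (b - a) * (d - c) := by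
  have h1 : {z : ℂ | z.re ∈ Icc a b ∧ z.im ∈ Ioo c d} =
      Complex.measurableEquivRealProd ⁻¹' (Icc a b ×ˢ Ioo c d) := by
    ext z
    simp [Complex.measurableEquivRealProd_apply]
  rw [Measure.real, h1, Complex.volume_preserving_equiv_real_prod.measure_preimage
    (measurableSet_Icc.prod measurableSet_Ioo).nullMeasurableSet, Measure.volume_eq_prod,
    Measure.prod_prod, Real.volume_Icc, Real.volume_Ioo, ENNReal.toReal_mul,
    ENNReal.toReal_ofReal (by linarith), ENNReal.toReal_ofReal (by linarith)]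

private theorem tangent_aux {M : Set ℂ} (hM : IsCompact M) {x : ℂ} {ψ φ : ℂ → ℂ} {a C r R : ℝ}
    (hP : BPatch M x ψ φ a C r R) {v : ℂ → ℂ} (hv : ContinuousOn v M) (hd : DivFree M v) (t : ℝ)
    (ht : |t| < 16 * a) : ¬ 0 < (v (ψ t) / deriv ψ t).im := by
  intro hpos
  set κ := (v (ψ t) / deriv ψ t).im with hκ
  have hC : 0 < C := zero_lt_one.trans_le hP.hC
  -- `V` is continuous on the closed half disc
  set V : ℂ → ℂ := fun ζ => v (ψ ζ) / deriv ψ ζ with hV
  have hder : DifferentiableOn ℂ (deriv ψ) (ball 0 (16 * a)) := hP.holo.deriv isOpen_ball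
  have hne : ∀ ζ ∈ ball (0 : ℂ) (16 * a), deriv ψ ζ ≠ 0 := by
    intro ζ hζ h
    have := hP.low ζ hζ
    rw [h, norm_zero, mul_zero] at this
    linarith
  have hVc : ContinuousOn V (ball 0 (16 * a) ∩ {ζ : ℂ | 0 ≤ ζ.im}) := by
    refine ContinuousOn.div ?_ (hder.continuousOn.mono inter_subset_left) fun ζ hζ => hne ζ hζ.1
    exact hv.comp (hP.holo.continuousOn.mono inter_subset_left) fun ζ hζ => hP.inM ζ hζ.1 hζ.2
  have htb : (t : ℂ) ∈ ball (0 : ℂ) (16 * a) := by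
    rw [mem_ball_zero_iff, Complex.norm_real, Real.norm_eq_abs]
    exact ht
  have htm : (t : ℂ) ∈ ball (0 : ℂ) (16 * a) ∩ {ζ : ℂ | 0 ≤ ζ.im} := ⟨htb, by simp⟩
  obtain ⟨s1, hs1, hs1b⟩ := Metric.isOpen_iff.1 (isOpen_ball (x := (0 : ℂ)) (ε := 16 * a)) _ htb
  obtain ⟨s2, hs2, hs2b⟩ : ∃ s2 > 0, ∀ ζ ∈ ball (0 : ℂ) (16 * a) ∩ {ζ : ℂ | 0 ≤ ζ.im},
      dist ζ t < s2 → κ / 2 < (V ζ).im := by
    have h1 := Metric.continuousOn_iff.1 hVc _ htm (κ / 2) (by positivity)
    obtain ⟨δ, hδ, h2⟩ := h1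
    refine ⟨δ, hδ, fun ζ hζ hd => ?_⟩
    have h3 := h2 ζ hζ hd
    rw [dist_eq_norm] at h3
    have h4 := (Complex.abs_im_le_norm (V ζ - V t)).trans_lt h3
    rw [Complex.sub_im, abs_lt] at h4
    have h5 : (V t).im = κ := rfl
    linarith [h4.1]
  set s := min (s1 / 2) (s2 / 2) with hs
  have hs0 : 0 < s := lt_min (by positivity) (by positivity)
  have hss1 : s < s1 := (min_le_left _ _).trans_lt (by linarith)
  have hss2 : s < s2 := (min_le_right _ _).trans_lt (by linarith)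
  have hball : closedBall (t : ℂ) s ⊆ ball 0 (16 * a) := fun w hw =>
    hs1b (mem_ball.2 ((mem_closedBall.1 hw).trans_lt hss1))
  have hVpos : ∀ ζ ∈ closedBall (t : ℂ) s, 0 ≤ ζ.im → κ / 2 < (V ζ).im := fun ζ hζ h =>
    hs2b ζ ⟨hball hζ, h⟩ ((mem_closedBall.1 hζ).trans_lt hss2)
  -- bound of `V`
  obtain ⟨B, hB⟩ : ∃ B, ∀ ζ ∈ closedBall (t : ℂ) s ∩ {ζ : ℂ | 0 ≤ ζ.im}, ‖V ζ‖ ≤ B := by
    have hc : IsCompact (closedBall (t : ℂ) s ∩ {ζ : ℂ | 0 ≤ ζ.im}) :=
      (isCompact_closedBall _ _).inter_right (isClosed_le continuous_const Complex.continuous_im)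
    exact hc.exists_bound_of_continuousOn (hVc.mono (inter_subset_inter_left _ hball))
  have hB0 : 0 ≤ B := (norm_nonneg _).trans (hB t ⟨mem_closedBall_self hs0.le, by simp⟩)
  -- the bump
  set α : ContDiffBump (t : ℂ) := ⟨s / 2, s, half_pos hs0, half_lt_self hs0⟩ with hα
  have hαd : ContDiff ℝ (⊤ : ℕ∞) (α : ℂ → ℝ) := α.contDiff
  obtain ⟨La, hLa⟩ := hαd.lipschitzWith_of_hasCompactSupport α.hasCompactSupport (by simp)
  have hα0 : ∀ ζ ∉ closedBall (t : ℂ) s, α ζ = 0 := by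
    intro ζ hζ
    apply α.zero_of_le_dist
    rw [mem_closedBall, not_le] at hζ
    exact hζ.le
  have hα1 : ∀ ζ ∈ closedBall (t : ℂ) (s / 2), α ζ = 1 := fun ζ hζ => α.one_of_mem_closedBall hζ
  have hαabs : ∀ ζ, |α ζ| ≤ 1 := fun ζ => by
    rw [abs_of_nonneg α.nonneg]; exact α.le_one
  -- constants
  set C1 := C ^ 2 * (La * B) with hC1
  have hC10 : 0 ≤ C1 := by positivity
  set c1 := κ / (2 * C ^ 2) with hc1
  have hc10 : 0 < c1 := by positivity
  set e := min (s / 4) (c1 / (8 * C1 + 8)) with he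
  have he0 : 0 < e := lt_min (by positivity) (by positivity)
  have hes : e ≤ s / 4 := min_le_left _ _
  have hec : 8 * C1 * e < c1 * 2 := by
    have h1 : e ≤ c1 / (8 * C1 + 8) := min_le_right _ _
    rw [le_div_iff₀ (by positivity)] at h1
    nlinarith
  -- test function
  set Q : ℂ → ℝ := fun ζ => α ζ * tb e ζ.im with hQ
  have hQabs : ∀ ζ, |Q ζ| ≤ 1 := by
    intro ζ
    rw [hQ]
    simp only
    rw [abs_mul, abs_of_nonneg (tb_le he0 _).1]
    exact mul_le_one₀ (hαabs ζ) (tb_le he0 _).1 (tb_le he0 _).2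
  have hQs : ∀ ζ ∉ closedBall (t : ℂ) s, Q ζ = 0 := by
    intro ζ hζ
    rw [hQ]
    simp only
    rw [hα0 ζ hζ, zero_mul]
  have hQl : ∃ L : NNReal, LipschitzWith L Q := by
    refine ⟨_, LipschitzWith.of_dist_le' (K := La + 1 / e) fun ζ ξ => ?_⟩
    have h1 := hLa.dist_le_mul ζ ξ
    have h2 := (tb_lip he0).dist_le_mul ζ.im ξ.im
    rw [Real.coe_toNNReal _ (by positivity)] at h2
    have h3 : dist ζ.im ξ.im ≤ dist ζ ξ := by
      rw [dist_eq_norm, dist_eq_norm, Real.norm_eq_abs, ← Complex.sub_im]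
      exact Complex.abs_im_le_norm _
    have h4 : dist (tb e ζ.im) (tb e ξ.im) ≤ 1 / e * dist ζ ξ :=
      h2.trans (mul_le_mul_of_nonneg_left h3 (by positivity))
    rw [Real.dist_eq] at h1 h4 ⊢
    have h5 : Q ζ - Q ξ = (α ζ - α ξ) * tb e ζ.im + α ξ * (tb e ζ.im - tb e ξ.im) := by
      rw [hQ]; ring
    rw [h5]
    refine (abs_add_le _ _).trans ?_
    rw [abs_mul, abs_mul, abs_of_nonneg (tb_le he0 _).1]
    have h6 := hαabs ξ
    have h7 := (tb_le he0 ζ.im).2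
    have h8 := (tb_le he0 ζ.im).1
    have h9 := abs_nonneg (α ζ - α ξ)
    have h10 := abs_nonneg (tb e ζ.im - tb e ξ.im)
    nlinarith [abs_nonneg (α ξ)]
  obtain ⟨L, hL⟩ := hQl
  have key := tq_integral hM hP hv hd hL hQabs hball hQs
  set A : Set ℂ := closedBall (t : ℂ) s ∩ {ζ : ℂ | 0 < ζ.im} with hA
  have hAm : MeasurableSet A :=
    measurableSet_closedBall.inter (isOpen_lt continuous_const Complex.continuous_im).measurableSet
  -- the explicit integrand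
  set b' : ℝ → ℝ := fun y => if y < e then -1 / e else 0 with hb'
  set G : ℂ → ℝ := fun ζ => ‖deriv ψ ζ‖ ^ 2 *
    (tb e ζ.im * fderiv ℝ α ζ (V ζ) + α ζ * (b' ζ.im * (V ζ).im)) with hG
  have hGint : ∫ ζ in A, G ζ = 0 := by
    rw [← key]
    refine setIntegral_congr_ae hAm ?_
    have hnull : ∀ᵐ ζ : ℂ, ζ.im ≠ e := by
      rw [ae_iff]
      simpa using tan_im_null e
    filter_upwards [hnull] with ζ hζe hζ
    have hαζ : HasFDerivAt (α : ℂ → ℝ) (fderiv ℝ α ζ) ζ :=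
      (hαd.differentiable (by simp) ζ).hasFDerivAt
    have hbζ := (tb_deriv he0 hζ.2 hζe).comp_hasFDerivAt ζ Complex.imCLM.hasFDerivAt
    have hQζ := hαζ.mul hbζ
    have h1 := tq_fderiv hP (hball hζ.1) (Q := Q) hQζ (v (ψ ζ))
    rw [h1]
    rw [hG]
    simp only [add_apply, smul_apply, smul_eq_mul, Complex.imCLM_apply, Function.comp]
    ring
  -- rectangles
  set R1 : Set ℂ := {z : ℂ | z.re ∈ Icc (t - s) (t + s) ∧ z.im ∈ Ioo 0 e} with hR1
  set R2 : Set ℂ := {z : ℂ | z.re ∈ Icc (t - s / 4) (t + s / 4) ∧ z.im ∈ Ioo 0 e} with hR2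
  have hR1m : MeasurableSet R1 :=
    (Complex.measurable_re measurableSet_Icc).inter (Complex.measurable_im measurableSet_Ioo)
  have hR2m : MeasurableSet R2 :=
    (Complex.measurable_re measurableSet_Icc).inter (Complex.measurable_im measurableSet_Ioo)
  have hR2s : R2 ⊆ closedBall (t : ℂ) (s / 2) := by
    rintro ζ ⟨h1, h2⟩
    rw [mem_closedBall, dist_eq_norm]
    refine (Complex.norm_le_abs_re_add_abs_im _).trans ?_
    rw [Complex.sub_re, Complex.sub_im, Complex.ofReal_re, Complex.ofReal_im, sub_zero]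
    have h3 : |ζ.re - t| ≤ s / 4 := by
      rw [abs_le]
      exact ⟨by linarith [h1.1], by linarith [h1.2]⟩
    have h4 : |ζ.im| ≤ s / 4 := by
      rw [abs_of_pos h2.1]
      exact h2.2.le.trans hes
    linarith
  have hR2A : R2 ⊆ A := fun ζ hζ =>
    ⟨closedBall_subset_closedBall (by linarith) (hR2s hζ), hζ.2.1⟩
  have hmb : ∀ ζ ∈ A, 0 ≤ ‖deriv ψ ζ‖ ^ 2 ∧ ‖deriv ψ ζ‖ ^ 2 ≤ C ^ 2 ∧ 1 ≤ C ^ 2 * ‖deriv ψ ζ‖ ^ 2 := by
    intro ζ hζ
    refine ⟨by positivity, ?_, ?_⟩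
    · exact pow_le_pow_left₀ (norm_nonneg _) (hP.upp ζ (hball hζ.1)) 2
    · rw [← mul_pow]
      exact one_le_pow₀ (hP.low ζ (hball hζ.1))
  have hdb : ∀ ζ ∈ A, |fderiv ℝ α ζ (V ζ)| ≤ La * B := by
    intro ζ hζ
    have h1 : ‖fderiv ℝ (α : ℂ → ℝ) ζ‖ ≤ La := norm_fderiv_le_of_lipschitz ℝ hLa
    have h2 := (fderiv ℝ (α : ℂ → ℝ) ζ).le_opNorm (V ζ)
    rw [Real.norm_eq_abs] at h2
    exact h2.trans (mul_le_mul h1 (hB ζ ⟨hζ.1, (le_of_lt hζ.2 : (0 : ℝ) ≤ ζ.im)⟩) (norm_nonneg _) La.2)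
  have hGle : ∀ ζ ∈ A, G ζ ≤ R1.indicator (fun _ => C1) ζ - R2.indicator (fun _ => c1 / e) ζ := by
    intro ζ hζ
    obtain ⟨m0, m1, m2⟩ := hmb ζ hζ
    have d1 := hdb ζ hζ
    by_cases hlt : ζ.im < e
    · have hin1 : ζ ∈ R1 := by
        have h1 := (Complex.abs_re_le_norm (ζ - t)).trans
          ((dist_eq_norm ζ (t : ℂ)).symm.trans_le (mem_closedBall.1 hζ.1))
        rw [Complex.sub_re, Complex.ofReal_re, abs_le] at h1
        exact ⟨⟨by linarith [h1.1], by linarith [h1.2]⟩, hζ.2, hlt⟩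
      rw [indicator_of_mem hin1]
      have hb'v : b' ζ.im = -1 / e := if_pos hlt
      have hGv : G ζ = ‖deriv ψ ζ‖ ^ 2 * (tb e ζ.im * fderiv ℝ α ζ (V ζ))
          - ‖deriv ψ ζ‖ ^ 2 * (α ζ * (1 / e * (V ζ).im)) := by
        rw [hG]
        simp only
        rw [hb'v]
        ring
      have hfirst : ‖deriv ψ ζ‖ ^ 2 * (tb e ζ.im * fderiv ℝ α ζ (V ζ)) ≤ C1 := by
        have h1 : tb e ζ.im * fderiv ℝ α ζ (V ζ) ≤ La * B := by
          have h2 := tb_le he0 ζ.im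
          have h3 := (le_abs_self _).trans d1
          have h4 : 0 ≤ (La : ℝ) * B := mul_nonneg La.2 hB0
          nlinarith
        have h4 : 0 ≤ (La : ℝ) * B := mul_nonneg La.2 hB0
        calc ‖deriv ψ ζ‖ ^ 2 * (tb e ζ.im * fderiv ℝ α ζ (V ζ)) ≤ ‖deriv ψ ζ‖ ^ 2 * (La * B) :=
              mul_le_mul_of_nonneg_left h1 m0
          _ ≤ C ^ 2 * (La * B) := mul_le_mul_of_nonneg_right m1 h4
      have hVp := hVpos ζ hζ.1 (le_of_lt hζ.2)
      have hVp0 : 0 < (V ζ).im := by linarith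
      by_cases hin2 : ζ ∈ R2
      · rw [indicator_of_mem hin2, hGv, hα1 ζ (hR2s hin2), one_mul]
        have h5 : c1 / e ≤ ‖deriv ψ ζ‖ ^ 2 * (1 / e * (V ζ).im) := by
          rw [hc1]
          have h6 : κ / (2 * C ^ 2) ≤ ‖deriv ψ ζ‖ ^ 2 * (V ζ).im := by
            rw [div_le_iff₀ (by positivity)]
            nlinarith
          have h7 : ‖deriv ψ ζ‖ ^ 2 * (1 / e * (V ζ).im) = ‖deriv ψ ζ‖ ^ 2 * (V ζ).im / e := by
            ring
          rw [h7]
          exact div_le_div_of_nonneg_right h6 he0.le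
        linarith
      · rw [indicator_of_notMem hin2, hGv]
        have h5 : 0 ≤ ‖deriv ψ ζ‖ ^ 2 * (α ζ * (1 / e * (V ζ).im)) := by
          have := α.nonneg (x := ζ)
          positivity
        linarith
    · have hn1 : ζ ∉ R1 := fun h => hlt h.2.2
      have hn2 : ζ ∉ R2 := fun h => hlt h.2.2
      rw [indicator_of_notMem hn1, indicator_of_notMem hn2]
      have hb'v : b' ζ.im = 0 := if_neg hlt
      have htbv : tb e ζ.im = 0 := by
        unfold tb
        rw [max_eq_right (show (0 : ℝ) ≤ ζ.im from le_of_lt hζ.2), max_eq_left]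
        have : 1 ≤ ζ.im / e := (one_le_div he0).2 (not_lt.1 hlt)
        linarith
      rw [hG]
      simp only
      rw [hb'v, htbv]
      simp
  have hAvol : volume A < ⊤ :=
    (measure_mono inter_subset_left).trans_lt (isCompact_closedBall (t : ℂ) s).measure_lt_top
  have hAball : A ⊆ ball 0 (16 * a) := inter_subset_left.trans hball
  have hAhalf : A ⊆ ball (0 : ℂ) (16 * a) ∩ {ζ : ℂ | 0 ≤ ζ.im} := fun ζ hζ =>
    ⟨hAball hζ, (le_of_lt hζ.2 : (0 : ℝ) ≤ ζ.im)⟩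
  have hGi : IntegrableOn G A := by
    refine IntegrableOn.of_bound hAvol ?_ (C ^ 2 * (La * B + 1 / e * B)) ?_
    · have m1 : AEStronglyMeasurable (fun ζ => ‖deriv ψ ζ‖ ^ 2) (volume.restrict A) :=
        ((hder.continuousOn.mono hAball).norm.pow 2).aestronglyMeasurable hAm
      have m2 : AEStronglyMeasurable (fun ζ : ℂ => tb e ζ.im) (volume.restrict A) :=
        ((tb_lip he0).continuous.comp Complex.continuous_im).aestronglyMeasurable
      have m3 : AEStronglyMeasurable (fun ζ : ℂ => fderiv ℝ α ζ (V ζ)) (volume.restrict A) :=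
        (((hαd.continuous_fderiv (by simp)).continuousOn).clm_apply
          (hVc.mono hAhalf)).aestronglyMeasurable hAm
      have m4 : AEStronglyMeasurable (fun ζ : ℂ => α ζ) (volume.restrict A) :=
        hαd.continuous.aestronglyMeasurable
      have m5 : AEStronglyMeasurable (fun ζ : ℂ => b' ζ.im) (volume.restrict A) := by
        have : Measurable b' := Measurable.ite measurableSet_Iio measurable_const measurable_const
        exact (this.comp Complex.measurable_im).aestronglyMeasurable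
      have m6 : AEStronglyMeasurable (fun ζ : ℂ => (V ζ).im) (volume.restrict A) :=
        (Complex.continuous_im.comp_continuousOn (hVc.mono hAhalf)).aestronglyMeasurable hAm
      exact m1.mul ((m2.mul m3).add (m4.mul (m5.mul m6)))
    · refine (ae_restrict_iff' hAm).2 (Eventually.of_forall fun ζ hζ => ?_)
      obtain ⟨m0, m1, m2⟩ := hmb ζ hζ
      have d1 := hdb ζ hζ
      have d2 := hB ζ ⟨hζ.1, (le_of_lt hζ.2 : (0 : ℝ) ≤ ζ.im)⟩
      have d3 := (Complex.abs_im_le_norm (V ζ)).trans d2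
      have d4 := hαabs ζ
      have d5 : |b' ζ.im| ≤ 1 / e := by
        rw [hb']
        simp only
        split_ifs
        · rw [abs_div, abs_neg, abs_one, abs_of_pos he0]
        · rw [abs_zero]; positivity
      have d6 := tb_le he0 ζ.im
      rw [hG, Real.norm_eq_abs]
      simp only
      rw [abs_mul, abs_of_nonneg m0]
      have e1 : |tb e ζ.im * fderiv ℝ α ζ (V ζ) + α ζ * (b' ζ.im * (V ζ).im)|
          ≤ La * B + 1 / e * B := by
        refine (abs_add_le _ _).trans ?_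
        rw [abs_mul, abs_mul, abs_mul, abs_of_nonneg d6.1]
        have e2 : tb e ζ.im * |fderiv ℝ α ζ (V ζ)| ≤ 1 * (La * B) :=
          mul_le_mul d6.2 d1 (abs_nonneg _) zero_le_one
        have e3 : |b' ζ.im| * |(V ζ).im| ≤ 1 / e * B :=
          mul_le_mul d5 d3 (abs_nonneg _) (by positivity)
        have e4 : |α ζ| * (|b' ζ.im| * |(V ζ).im|) ≤ 1 * (1 / e * B) :=
          mul_le_mul d4 e3 (by positivity) zero_le_one
        linarith
      exact mul_le_mul m1 e1 (abs_nonneg _) (by positivity)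
  have hR1v : volume.real R1 = 2 * s * e := by
    rw [hR1, tan_rect _ _ _ _ (by linarith) he0.le]
    ring
  have hR2v : volume.real R2 = s / 2 * e := by
    rw [hR2, tan_rect _ _ _ _ (by linarith) he0.le]
    ring
  have hR1fin : volume R1 ≠ ⊤ := by
    intro h
    have : volume.real R1 = 0 := by rw [Measure.real, h, ENNReal.toReal_top]
    rw [hR1v] at this
    have h2 : 0 < 2 * s * e := by positivity
    linarith
  have i1 : IntegrableOn (R1.indicator (fun _ => C1)) A :=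
    (integrableOn_const (μ := volume) hAvol.ne).indicator hR1m
  have i2 : IntegrableOn (R2.indicator (fun _ => c1 / e)) A :=
    (integrableOn_const (μ := volume) hAvol.ne).indicator hR2m
  have hle := setIntegral_mono_on hGi (i1.sub i2) hAm hGle
  rw [hGint, integral_sub' i1 i2] at hle
  have j1 : ∫ ζ in A, R1.indicator (fun _ => C1) ζ ≤ C1 * (2 * s * e) := by
    rw [setIntegral_indicator hR1m, setIntegral_const, smul_eq_mul, ← hR1v, mul_comm]
    exact mul_le_mul_of_nonneg_left (measureReal_mono inter_subset_right hR1fin) hC10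
  have j2 : ∫ ζ in A, R2.indicator (fun _ => c1 / e) ζ = c1 / e * (s / 2 * e) := by
    rw [setIntegral_indicator hR2m, inter_eq_self_of_subset_right hR2A, setIntegral_const,
      smul_eq_mul, hR2v, mul_comm]
  rw [j2] at hle
  have h9 : c1 / e * (s / 2 * e) = c1 * (s / 2) := by field_simp
  rw [h9] at hle
  have h10 : C1 * (2 * s * e) - c1 * (s / 2) = s / 4 * (8 * C1 * e - c1 * 2) := by ring
  have h11 : s / 4 * (8 * C1 * e - c1 * 2) < 0 :=
    mul_neg_of_pos_of_neg (by positivity) (by linarith)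
  linarith

theorem tangent {M : Set ℂ} (hM : IsCompact M) {x : ℂ} {ψ φ : ℂ → ℂ} {a C r R : ℝ}
    (hP : BPatch M x ψ φ a C r R) {v : ℂ → ℂ} (hv : ContinuousOn v M) (hd : DivFree M v) (t : ℝ)
    (ht : |t| < 16 * a) : (v (ψ t) / deriv ψ t).im = 0 := by
  have h1 := tangent_aux hM hP hv hd t ht
  have hd' : DivFree M (fun z => -v z) := by
    intro f hf hfc
    have := hd f hf hfc
    simp only [map_neg]
    rw [integral_neg, this, neg_zero]
  have h2 := tangent_aux hM hP hv.neg hd' t ht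
  have h3 : (-v) (ψ t) / deriv ψ t = -(v (ψ t) / deriv ψ t) := by
    rw [Pi.neg_apply, neg_div]
  rw [h3, Complex.neg_im] at h2
  linarith

end Pool.Agent.EAC.PA
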